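import Mathlib

section

namespace Pool.Agent.MP_2e2931_gt.Gap

open Set Ordinal

/-- Positions of the iteration. -/
abbrev K : Type 1 := Ordinal.{0}

/-- Countable ordinals. -/
abbrev W : Type 1 := Set.Iio (ω₁ : Ordinal.{0})

def w0 : W := ⟨0, omega_pos 1⟩

/-- Nodes `(n, j, c)`. -/
abbrev Nn : Type := ℕ × ℕ × ℕ

/-- Atoms of the finite part of a condition at one coordinate. -/
inductive Atom : Type 1
  | on : Atom
  | val (z : W) (a : ℕ) : Atom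
  | bd (d : W) (m : ℕ) : Atom
  | cl (d : W) (t : Nn) (m : ℕ) : Atom
  | sh (d : W) (t t' : Nn) (m : ℕ) : Atom
  | pm (d : W) (t : Nn) (l : ℕ) : Atom

def Atom.pos : Atom → W
  | .on => w0
  | .val z _ => z
  | .bd d _ => d
  | .cl d _ _ => d
  | .sh d _ _ _ => d
  | .pm d _ _ => d

/-- Statements that names can force. -/
inductive At : Type 1
  | pi (x : W) (j c : ℕ) : At
  | ce (d : W) (k : ℕ) (x : W) (t : Nn) : At
  | cd (t : Nn) (L : Set (Nn × ℕ)) : At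

/-- The part of a condition that does not mention names. -/
@[ext] structure Sh : Type 1 where
  ht : W
  σ : W → ℕ → ℕ
  E : W → Set W
  T : Set K
  f : Set (K × Atom)

/-- Names: small families of pairs (condition, statement). -/
inductive Nm : Type 1
  | mk (ι : Type) (sh : ι → Sh) (Z : ι → K → W → ℕ → Nm) (a : ι → At) : Nm

/-- Conditions. -/
@[ext] structure Cond : Type 1 extends Sh where
  Z : K → W → ℕ → Nm

def Nm.ent : Nm → Set (Cond × At)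
  | .mk _ sh Z a => range fun i => (⟨sh i, Z i⟩, a i)

open Classical in
noncomputable def canon (X : Set (Cond × At)) : Nm :=
  if _h : Small.{0} X then
    .mk (Shrink.{0} X) (fun i => ((equivShrink X).symm i).1.1.toSh)
      (fun i => ((equivShrink X).symm i).1.1.Z) (fun i => ((equivShrink X).symm i).1.2)
  else .mk PEmpty PEmpty.elim PEmpty.elim PEmpty.elim

/-- Normal forms below a level. -/
noncomputable def S : K → Set Cond :=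
  (wellFounded_lt (α := K)).fix fun α ih =>
    {c | c.T ⊆ Iio α ∧ (∀ y ∈ c.f, y.1 < α) ∧ (∀ β d l, α ≤ β → c.Z β d l = canon ∅) ∧
      ∀ β (h : β < α) d l, c.Z β d l ∈ canon '' {X | ∀ y ∈ X, y.1 ∈ ih β h}}

/-- Names of level `β`. -/
def NS (β : K) : Set Nm := canon '' {X | ∀ y ∈ X, y.1 ∈ S β}

/-- Bookkeeping of names. -/
noncomputable def bk : K → Nm :=
  @Classical.epsilon _ ⟨fun _ => canon ∅⟩ fun b => ∀ ν, ∀ n ∈ NS ν, ∃ β, ν ≤ β ∧ b β = n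

/-- A ladder below `d` on which `σ` is well founded. -/
structure Lad (σ : W → ℕ → ℕ) (d : W) (A : Set W) : Prop where
  lt : ∀ x ∈ A, x < d
  fin : ∀ y < d, (A ∩ Iio y).Finite
  wf : ∀ s : ℕ → ℕ, ∃ k, {x | x ∈ A ∧ ∀ j < k, σ x j = s j}.Finite

/-- Validity of the countable part. -/
structure RV (c : Cond) : Prop where
  ct : c.T.Countable
  sc : ∀ x y, x < y → y < c.ht → ∀ᶠ j in Filter.atTop, c.σ x j ≤ c.σ y j
  lad : ∀ d < c.ht, Lad c.σ d (c.E d)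
  ns : ∀ β d l, c.Z β d l ∈ NS β

/-- End extension of countable parts, for coordinates below `α`. -/
structure Rle (α : K) (q p : Cond) : Prop where
  ht : p.ht ≤ q.ht
  σ : ∀ x < p.ht, q.σ x = p.σ x
  E : ∀ x < p.ht, q.E x = p.E x
  T : ∀ β < α, β ∈ p.T → β ∈ q.T
  Z : ∀ β < α, β ∈ p.T → ∀ d < p.ht, ∀ l, q.Z β d l = p.Z β d l

/-- End extension of countable parts. -/
def RL (q p : Cond) : Prop := ∀ α, Rle α q p

structure St where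
  V : Cond → Prop
  L : Cond → Cond → Prop

def DnsOf (s : St) (p : Cond) (Φ : Cond → Prop) : Prop :=
  ∀ p', s.V p' → s.L p' p → ∃ p'', s.V p'' ∧ s.L p'' p' ∧ Φ p''

def DecOf (s : St) (n : Nm) (p : Cond) (a : At) : Prop :=
  DnsOf s p fun r => ∃ c, (c, a) ∈ n.ent ∧ s.L r c

def UcOf (s : St) (n : Nm) (d : W) (t : Nn) (L : Set (Nn × ℕ)) (p : Cond) (x : W) : Prop :=
  DecOf s n p (.pi x 0 t.1) ∧ DecOf s n p (.pi x (t.2.1 + 1) t.2.2) ∧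
    ∀ y ∈ L, ∃ k < y.2, DecOf s n p (.ce d k x y.1)

def GoodOf (s : St) (n : Nm) (p : Cond) : Prop :=
  (∀ x j, DnsOf s p fun r => ∃ c, DecOf s n r (.pi x j c)) ∧
    ∀ (d : W) (n₀ : ℕ) (B : Cond → ℕ × ℕ → Prop),
      (∀ r r' y, B r y → s.V r' → s.L r' r → B r' y) →
      ∀ p', s.V p' → s.L p' p → d < p'.ht → (∀ j, DnsOf s p' fun r => ∃ y, j ≤ y.1 ∧ B r y) →
        ∃ p'', s.V p'' ∧ s.L p'' p' ∧ ∃ k, ∃ u : Set (ℕ × ℕ), u.Finite ∧ (∀ y ∈ u, B p'' y) ∧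
          ∀ x ∈ p'.E d, DnsOf s p'' fun r => ∃ y ∈ u, DecOf s n r (.ce d k x (n₀, y))

/-- The separation data of the cluster `t` of `d` at coordinate `β`. -/
def code (c : Cond) (β : K) (d : W) (t : Nn) : Set (Nn × ℕ) :=
  {y | (β, Atom.sh d t y.1 y.2) ∈ c.f}

structure LocVOf (s : St) (β : K) (c : Cond) : Prop where
  on : ∀ a, (β, a) ∈ c.f → (β, Atom.on) ∈ c.f
  pos : ∀ a, (β, a) ∈ c.f → a.pos < c.ht
  T : (β, Atom.on) ∈ c.f → β ∈ c.T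
  good : (β, Atom.on) ∈ c.f → GoodOf s (bk β) c
  fn : ∀ z a a', (β, Atom.val z a) ∈ c.f → (β, Atom.val z a') ∈ c.f → a = a'
  sep : ∀ d t m t' m', (β, Atom.cl d t m) ∈ c.f → (β, Atom.cl d t' m') ∈ c.f → t ≠ t' →
    ∃ k, (β, Atom.sh d t t' k) ∈ c.f ∨ (β, Atom.sh d t' t k) ∈ c.f
  pm : ∀ d t l, (β, Atom.pm d t l) ∈ c.f → DecOf s (c.Z β d l) c (.cd t (code c β d t))

structure LocLOf (s : St) (β : K) (q p : Cond) : Prop where
  sub : ∀ a, (β, a) ∈ p.f → (β, a) ∈ q.f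
  val : ∀ z a d m, (β, Atom.val z a) ∈ q.f → (β, Atom.val z a) ∉ p.f → (β, Atom.bd d m) ∈ p.f →
    d < p.ht → z ∈ p.E d → m ≤ a ∨ ∃ t m', (β, Atom.cl d t m') ∈ p.f ∧ m' ≤ a ∧
      UcOf s (bk β) d t (code p β d t) q z
  cl : ∀ d t m' m, (β, Atom.cl d t m') ∈ q.f → (β, Atom.cl d t m') ∉ p.f →
    (β, Atom.bd d m) ∈ p.f → m ≤ m'

noncomputable def st : K → St :=
  (wellFounded_lt (α := K)).fix fun α ih =>
    ⟨fun c => RV c ∧ c.f.Finite ∧ ∀ β (h : β < α), LocVOf (ih β h) β c,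
      fun q p => Rle α q p ∧ ∀ β (h : β < α), LocLOf (ih β h) β q p⟩

/-- Valid conditions of level `α`. -/
def V (α : K) (c : Cond) : Prop := (st α).V c
/-- The order of level `α`. -/
def L (α : K) (q p : Cond) : Prop := (st α).L q p
def Dns (β : K) (p : Cond) (Φ : Cond → Prop) : Prop :=
  ∀ p', V β p' → L β p' p → ∃ p'', V β p'' ∧ L β p'' p' ∧ Φ p''
def Dec (β : K) (n : Nm) (p : Cond) (a : At) : Prop := DecOf (st β) n p a
def Uc (β : K) (d : W) (t : Nn) (L : Set (Nn × ℕ)) (p : Cond) (x : W) : Prop :=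
  UcOf (st β) (bk β) d t L p x
def Good (β : K) (p : Cond) : Prop := GoodOf (st β) (bk β) p
abbrev LocV (β : K) (c : Cond) : Prop := LocVOf (st β) β c
abbrev LocL (β : K) (q p : Cond) : Prop := LocLOf (st β) β q p
/-- Order of level `α` together with full end extension of the countable parts. -/
def Le (α : K) (q p : Cond) : Prop := L α q p ∧ RL q p

/-- Change of the finite part. -/
def setf (c : Cond) (f : Set (K × Atom)) : Cond := { c with f := f }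

open Classical in
/-- The countable part of `p` below `b` and that of `ρ` from `b` on; the finite part of `p`. -/
noncomputable def amR (b : K) (p ρ : Cond) : Cond :=
  { p with
    T := (p.T ∩ Iio b) ∪ (ρ.T ∩ Ici b)
    Z := fun β => if β < b then p.Z β else ρ.Z β }

open Classical in
/-- Restriction below `b`. -/
noncomputable def cut (b : K) (p : Cond) : Cond :=
  { p with
    T := p.T ∩ Iio b
    f := {y | y ∈ p.f ∧ y.1 < b}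
    Z := fun β => if β < b then p.Z β else fun _ _ => canon ∅ }

/-- Amalgamation. -/
def am (b : K) (ρ p'' p' q : Cond) : Cond :=
  setf ρ {y | (y.1 < b ∧ y ∈ p''.f) ∨ (b ≤ y.1 ∧ (y ∈ p'.f ∨ y ∈ q.f))}

/-- `p` below `b`, `s` from `b` on. -/
noncomputable def mix (b : K) (p s : Cond) : Cond := am b (amR b p s) p s s

/-- The ladders with bounds at positions from `x` on have all their points below `x` valued. -/
def Clo (β : K) (x : W) (q : Cond) : Prop :=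
  ∀ d m, (β, Atom.bd d m) ∈ q.f → x ≤ d → ∀ z ∈ q.E d, z < x → ∃ a, (β, Atom.val z a) ∈ q.f

/-- At coordinate `β`, the part of `q` below `x` is in `r`, and `q` is closed at `x`. -/
def Tail (β : K) (x : W) (q r : Cond) : Prop :=
  (∀ a, (β, a) ∈ q.f → a.pos < x → (β, a) ∈ r.f) ∧ Clo β x q

/-- Compatibility of `p'` and `q` at coordinate `β`. -/
def Cmp (b β : K) (ρ p'' p' q : Cond) : Prop :=
  (∀ a, (β, a) ∉ p'.f) ∨ (∀ a, (β, a) ∉ q.f) ∨ (∀ a, (β, a) ∈ p'.f ↔ (β, a) ∈ q.f) ∨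
    ∃ r x, L (Order.succ β) p' r ∧ V (Order.succ β) r ∧ (∀ a, (β, a) ∈ r.f → (β, a) ∈ q.f) ∧
      Tail β x q r ∧
      (∀ a a', (β, a) ∈ p'.f → (β, a') ∈ q.f → x ≤ a.pos → a'.pos < a.pos) ∧
      ∀ d m z a, (β, Atom.bd d m) ∈ p'.f → (β, Atom.val z a) ∈ q.f → x ≤ z → z ∈ ρ.E d →
        m ≤ a ∨ (β = b ∧ ∃ t m', (β, Atom.cl d t m') ∈ p'.f ∧ m' ≤ a ∧
          Uc b d t (code p' b d t) p'' z)

/-! ### Countable models -/

/-- Candidates for nodes. -/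
structure Nod : Type 1 where
  r : Cond
  A : Set (W × Cond × Set K)
  F : K → ℕ → Prop

inductive Ob : Type 1
  | k (β : K) : Ob
  | c (p : Cond) : Ob
  | n (w : Nod) : Ob
  | s (O : Set Nod) : Ob
  | d (D : Set Cond) : Ob
  | nat (n : ℕ) : Ob
  | pr (a b : Ob) : Ob

def Ob.In (N : Set Ob) : Ob → Prop
  | .nat _ => True
  | .pr a b => a.In N ∧ b.In N
  | o => o ∈ N

/-- Types coded by objects. -/
class Cod (α : Type*) where
  ι : α → Ob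
  inj : Function.Injective ι

def Mem (N : Set Ob) {α : Type*} [Cod α] (a : α) : Prop := (Cod.ι a).In N

instance : Cod K := ⟨.k, fun _ _ h => Ob.k.inj h⟩
instance : Cod W := ⟨fun z => .k z.1, fun _ _ h => Subtype.ext (Ob.k.inj h)⟩
instance : Cod Cond := ⟨.c, fun _ _ h => Ob.c.inj h⟩
instance : Cod Nod := ⟨.n, fun _ _ h => Ob.n.inj h⟩
instance : Cod (Set Nod) := ⟨.s, fun _ _ h => Ob.s.inj h⟩
instance : Cod (Set Cond) := ⟨.d, fun _ _ h => Ob.d.inj h⟩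
instance : Cod ℕ := ⟨.nat, fun _ _ h => Ob.nat.inj h⟩
instance {α β : Type*} [Cod α] [Cod β] : Cod (α × β) :=
  ⟨fun z => .pr (Cod.ι z.1) (Cod.ι z.2),
    fun _ _ h => Prod.ext (Cod.inj (Ob.pr.inj h).1) (Cod.inj (Ob.pr.inj h).2)⟩

def listOb {α : Type*} [Cod α] : List α → Ob
  | [] => .nat 0
  | a :: l => .pr (Cod.ι a) (listOb l)

theorem listOb_inj {α : Type*} [Cod α] : Function.Injective (listOb (α := α)) := by
  intro l
  induction l with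
  | nil => intro l' h; cases l' with
    | nil => rfl
    | cons => cases h
  | cons a l ih => intro l' h; cases l' with
    | nil => cases h
    | cons b l' => rw [Cod.inj (Ob.pr.inj h).1, ih (Ob.pr.inj h).2]

instance {α : Type*} [Cod α] : Cod (List α) := ⟨listOb, listOb_inj⟩

def Atom.rest : Atom → ℕ × Nn × Nn × ℕ
  | .on => (0, 0, 0, 0)
  | .val _ a => (1, 0, 0, a)
  | .bd _ m => (2, 0, 0, m)
  | .cl _ t m => (3, t, 0, m)
  | .sh _ t t' m => (4, t, t', m)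
  | .pm _ t l => (5, t, 0, l)

theorem Atom.pos_rest_inj : Function.Injective fun a : Atom => (a.pos, a.rest) := by
  intro a b h
  cases a <;> cases b <;> simp_all [Atom.pos, Atom.rest]

instance : Cod Atom := ⟨fun a => Cod.ι (a.pos, a.rest), Cod.inj.comp Atom.pos_rest_inj⟩

def Closed (R : Set (Ob → Ob → Prop)) (N : Set Ob) : Prop :=
  ∀ r ∈ R, ∀ o, o.In N → (∃ o', r o o') → ∃ o', o'.In N ∧ r o o'

/-- `ρ` is generic over the countable system `N` of height `η`. -/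
structure GM (N : Set Ob) (η : W) (ρ : Cond) : Prop where
  ct : N.Countable
  eta : ∀ z : W, Mem N z ↔ z < η
  rv : RV ρ
  ht : η ≤ ρ.ht
  gen : ∀ D : Set Cond, Mem N D → (∀ c, RV c → ∃ c' ∈ D, RV c' ∧ RL c' c) →
    ∃ c' ∈ D, Mem N c' ∧ RV c' ∧ RL ρ c'

/-- For almost all generic systems. -/
def AE (Φ : Set Ob → W → Cond → Prop) : Prop :=
  ∃ R : Set (Ob → Ob → Prop), R.Countable ∧ ∀ N η ρ, GM N η ρ → Closed R N → Φ N η ρ

/-- The coordinates in `N`. -/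
def KN (N : Set Ob) : Set K := {β | Mem N β}

/-- Stationary below every extension of `ρ₀`. -/
def Large (ρ₀ : Cond) (A : Set (W × Cond × Set K)) : Prop :=
  ∀ ρ₁, RV ρ₁ → RL ρ₁ ρ₀ → ∀ Φ, AE Φ →
    ∃ N x q, GM N x q ∧ Φ N x q ∧ RL q ρ₁ ∧ (x, q, KN N) ∈ A

structure El (γ : K) (w : Nod) (x : W) (q : Cond) (B : Set K) : Prop where
  v : V γ q
  le : Le γ q w.r
  ht : w.r.ht ≤ x
  lt : x < q.ht
  emp : q.E x = ∅
  T : w.r.T ⊆ B
  tail : ∀ β < γ, β ∈ B → Tail β x q w.r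
  val : ∀ β < γ, β ∈ B → ∀ a, (β, Atom.val x a) ∈ q.f ↔ w.F β a

structure Node (γ : K) (w : Nod) : Prop where
  v : V γ w.r
  large : Large w.r w.A
  el : ∀ x q B, (x, q, B) ∈ w.A → El γ w x q B
  on : ∀ β < γ, ∀ a, w.F β a → (β, Atom.on) ∈ w.r.f

def NLe (γ : K) (w' w : Nod) : Prop :=
  Le γ w'.r w.r ∧ ∀ x q' B, (x, q', B) ∈ w'.A → ∃ q, (x, q, B) ∈ w.A ∧ Le γ q' q

/-- Dense open sets of nodes. -/
def DO (γ : K) (O : Set Nod) : Prop :=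
  (∀ w, Node γ w → ∃ w' ∈ O, Node γ w' ∧ NLe γ w' w) ∧
    ∀ w ∈ O, ∀ w', Node γ w → Node γ w' → NLe γ w' w → w' ∈ O

/-- The subnode on which `σ x j = m`. -/
def restr (w : Nod) (j m : ℕ) : Nod := ⟨w.r, {e | e ∈ w.A ∧ e.2.1.σ e.1 j = m}, w.F⟩

/-- Splitting at `j`. -/
def Spl (w : Nod) (j : ℕ) : Prop := ∀ k, ∃ m, k ≤ m ∧ Large w.r (restr w j m).A

/-! ### Chains of models and positivity -/

structure Ch : Type 1 where
  N : ℕ → Set Ob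
  η : ℕ → W
  δ : W
  Ed : Set W
  ρ : Cond
  gm : ∀ i, GM (N i) (η i) ρ
  mono : ∀ i j, i ≤ j → ∀ o : Ob, o.In (N i) → o.In (N j)
  ht : ρ.ht = δ
  f : ρ.f = ∅
  lt : ∀ i, η i < δ
  cof : ∀ y < δ, ∃ i, y < η i
  emp : ∀ i, ρ.E (η i) = ∅
  lad : Lad ρ.σ δ Ed
  sub : ∀ β ∈ ρ.T, ∃ i, Mem (N i) β

/-- For almost all chains. -/
def AEC (Φ : Ch → Prop) : Prop :=
  ∃ R : Set (Ob → Ob → Prop), R.Countable ∧ ∀ C : Ch, (∀ i, Closed R (C.N i)) → Φ C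

namespace Ch

variable (C : Ch)

def MemU {α : Type*} [Cod α] (a : α) : Prop := ∃ i, Mem (C.N i) a

def In (β : K) (w : Nod) (x : W) (p : Cond) : Prop :=
  ∃ q B, (x, q, B) ∈ w.A ∧ RL C.ρ q ∧ (∀ z ∈ C.Ed, x < z → q.ht ≤ z) ∧
    (∀ i, C.η i ≤ x → KN (C.N i) ⊆ B) ∧ L β p q

theorem lt_of_add {β μ' μ : K} (h : μ' + ω ^ β * 2 ≤ μ) : μ' < μ :=
  lt_of_lt_of_le (lt_add_of_pos_right _ (mul_pos (opow_pos _ omega0_pos) two_pos)) h

/-- Positivity of rank `μ` at level `β`. -/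
noncomputable def FPos (β : K) : K → Nod → (Cond → W → Prop) → Cond → Prop :=
  (wellFounded_lt (α := K)).fix fun μ ih w U p =>
    (∀ y < C.δ, Dns β p fun r => ∃ x ∈ C.Ed, y < x ∧ C.In β w x r ∧ U r x) ∧
      ∀ μ', C.MemU μ' → ∀ h : μ' + ω ^ β * 2 ≤ μ, ∀ i₀, Dns β p fun r => ∃ i, i₀ ≤ i ∧
        ∀ O : Set Nod, Mem (C.N i) O → DO β O → Dns β r fun s => ∃ w' ∈ O, Mem (C.N i) w' ∧
          Node β w' ∧ NLe β w' w ∧ ih μ' (lt_of_add h) w' U s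

def FPhi (β μ : K) (i : ℕ) (w : Nod) (U : Cond → W → Prop) (r : Cond) : Prop :=
  ∀ O : Set Nod, Mem (C.N i) O → DO β O → Dns β r fun s => ∃ w' ∈ O, Mem (C.N i) w' ∧
    Node β w' ∧ NLe β w' w ∧ C.FPos β μ w' U s

/-- Promises: `e = (w, μ, 0)` is `FPos`, and `e = (w, μ, i + 1)` is `FPhi` with index `i`. -/
def Prom (β : K) (e : Nod × K × ℕ) (U : Cond → W → Prop) (p : Cond) : Prop :=
  match e.2.2 with
  | 0 => C.FPos β e.2.1 e.1 U p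
  | i + 1 => C.FPhi β e.2.1 i e.1 U p

/-- Enumeration of the promises. -/
noncomputable def pr : ℕ → Nod × K × ℕ :=
  @Classical.epsilon _ ⟨fun _ => (⟨C.ρ, ∅, fun _ _ => False⟩, 0, 0)⟩
    fun f => ∀ e, C.MemU e → ∃ l, f l = e

/-- The names of promises. -/
noncomputable def zeta (β : K) (l : ℕ) : Nm :=
  canon {y | y.1 ∈ S β ∧ V β y.1 ∧ ∃ t L, y.2 = .cd t L ∧
    C.Prom β (C.pr l) (Uc β C.δ t L) y.1}

/-- Conditions below the master condition of the chain. -/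
structure Bel (γ : K) (p : Cond) : Prop where
  le : Rle γ p C.ρ
  lt : C.δ < p.ht
  E : p.E C.δ = C.Ed
  Z : ∀ β < γ, β ∈ C.ρ.T → ∀ l, p.Z β C.δ l = C.zeta β l

/-- `w` has joined a cluster at `b` whose positivity is promised. -/
def Jn (b μ : K) (w : Nod) (r : Cond) : Prop :=
  ∃ a t m l μ₁, w.F b a ∧ m ≤ a ∧ (b, Atom.cl C.δ t m) ∈ r.f ∧ (b, Atom.pm C.δ t l) ∈ r.f ∧
    C.pr l = (w, μ₁, 0) ∧ μ ≤ μ₁

def Ok (γ μ : K) (w : Nod) (r : Cond) : Prop :=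
  L γ r w.r ∧ ∃ b ≤ γ, C.MemU b ∧ (∀ β, b < β → β < γ → ∀ a, ¬ w.F β a) ∧
    (((b = γ ∨ ∀ a, ¬ w.F b a) ∧ C.FPos b μ w (fun _ _ => True) r) ∨ (b < γ ∧ C.Jn b μ w r))

/-- The lifting statement for rank `μ`. -/
def TS (μ : K) : Prop :=
  ∀ γ w r, C.MemU γ → C.MemU w → Node γ w → V γ r → C.Bel γ r → C.Ok γ μ w r →
    C.FPos γ μ w (fun _ _ => True) r

end Ch

/-- Monotone properties of (condition, point). -/
def UM (β : K) (U : Cond → W → Prop) : Prop := ∀ r r' x, U r x → V β r' → L β r' r → U r' x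

/-- The final forcing notion. -/
def PP : Type 1 := {p : Cond // ∀ α, V α p}

end Pool.Agent.MP_2e2931_gt.Gap

end

section

namespace Pool.Agent.MP_2e2931_gt.Gap

open Set Ordinal

theorem W.countable_Iic (x : W) : (Iic x).Countable := by
  have h : (Iic x.1).Countable := by
    rw [← Cardinal.le_aleph0_iff_set_countable, ← Order.Iio_succ, Cardinal.mk_Iio_ordinal]
    have : (Order.succ x.1).card ≤ Cardinal.aleph0 := by
      have h₁ : Order.succ x.1 < ω₁ := (Cardinal.isSuccLimit_omega 1).succ_lt x.2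
      rw [Cardinal.lt_omega_iff_card_lt, ← Cardinal.succ_aleph0, Order.lt_succ_iff] at h₁
      exact h₁
    simpa using Cardinal.lift_le.{1}.2 this
  exact (h.preimage Subtype.val_injective).mono fun y hy => hy

theorem W.exists_gt {s : Set W} (hs : s.Countable) : ∃ b : W, ∀ x ∈ s, x < b := by
  have := hs.to_subtype
  have h : ⨆ x : s, Order.succ x.1.1 < ω₁ :=
    Ordinal.iSup_lt_omega_one fun x => (Cardinal.isSuccLimit_omega 1).succ_lt x.1.2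
  refine ⟨⟨_, h⟩, fun x hx => ?_⟩
  have : Order.succ x.1 ≤ ⨆ x : s, Order.succ x.1.1 :=
    le_ciSup (f := fun x : s => Order.succ x.1.1) Ordinal.bddAbove_of_small ⟨x, hx⟩
  exact (Order.succ_le_iff.1 this : x.1 < _)

theorem w0_le (x : W) : w0 ≤ x := by
  exact (zero_le : (0 : K) ≤ x.1)

instance : Small.{0} Atom := by
  exact small_of_injective Atom.pos_rest_inj

instance : Small.{0} At := by
  refine small_of_surjective (f := Sum.elim (fun x : W × ℕ × ℕ => At.pi x.1 x.2.1 x.2.2)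
    (Sum.elim (fun x : W × ℕ × W × Nn => At.ce x.1 x.2.1 x.2.2.1 x.2.2.2)
      (fun x : Nn × Set (Nn × ℕ) => At.cd x.1 x.2))) ?_
  rintro (⟨x, j, c⟩ | ⟨d, k, x, t⟩ | ⟨t, L⟩)
  exacts [⟨.inl (x, j, c), rfl⟩, ⟨.inr (.inl (d, k, x, t)), rfl⟩, ⟨.inr (.inr (t, L)), rfl⟩]

instance (n : Nm) : Small.{0} n.ent := by
  cases n; exact small_range _

theorem ent_canon {X : Set (Cond × At)} (h : Small.{0} X) : (canon X).ent = X := by
  unfold canon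
  rw [dif_pos h]
  ext x
  simp only [Nm.ent, mem_range]
  constructor
  · rintro ⟨i, rfl⟩; exact Subtype.prop ((equivShrink X).symm i)
  · intro hx; exact ⟨equivShrink X ⟨x, hx⟩, by simp⟩

theorem mem_S {α : K} {c : Cond} : c ∈ S α ↔ c.T ⊆ Iio α ∧ (∀ y ∈ c.f, y.1 < α) ∧
    (∀ β d l, α ≤ β → c.Z β d l = canon ∅) ∧ ∀ β < α, ∀ d l, c.Z β d l ∈ NS β := by
  conv_lhs => unfold S; rw [WellFounded.fix_eq]
  rfl

theorem small_S (α : K) : Small.{0} (S α) := by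
  induction α using WellFoundedLT.induction with
  | ind α ih =>
    have hN : ∀ β : Iio α, Small.{0} (NS β.1) := fun β => by
      have := ih β.1 β.2
      have h₁ : Small.{0} {y : Cond × At | y.1 ∈ S β.1} :=
        small_of_surjective (f := fun z : S β.1 × At =>
          (⟨(z.1.1, z.2), z.1.2⟩ : {y : Cond × At | y.1 ∈ S β.1})) fun y => ⟨(⟨_, y.2⟩, y.1.2), rfl⟩
      have h₂ : Small.{0} (𝒫 {y : Cond × At | y.1 ∈ S β.1}) := inferInstance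
      exact @small_image _ _ _ _ h₂
    refine small_of_injective (f := fun c : S α =>
      (c.1.ht, c.1.σ, c.1.E, ((fun β : Iio α => β.1) ⁻¹' c.1.T),
        ((fun y : Iio α × Atom => (y.1.1, y.2)) ⁻¹' c.1.f),
        fun (β : Iio α) (d : W) (l : ℕ) =>
          (⟨c.1.Z β.1 d l, (mem_S.1 c.2).2.2.2 β.1 β.2 d l⟩ : NS β.1))) ?_
    rintro ⟨c, hc⟩ ⟨c', hc'⟩ h
    simp only [Prod.mk.injEq] at h
    obtain ⟨h₁, h₂, h₃, h₄, h₅, h₆⟩ := h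
    rw [mem_S] at hc hc'
    refine Subtype.ext (Cond.ext h₁ h₂ h₃ ?_ ?_ ?_)
    · ext β
      exact ⟨fun h => (Set.ext_iff.1 h₄ ⟨β, hc.1 h⟩).1 h,
        fun h => (Set.ext_iff.1 h₄ ⟨β, hc'.1 h⟩).2 h⟩
    · ext y
      exact ⟨fun h => (Set.ext_iff.1 h₅ (⟨y.1, hc.2.1 y h⟩, y.2)).1 h,
        fun h => (Set.ext_iff.1 h₅ (⟨y.1, hc'.2.1 y h⟩, y.2)).2 h⟩
    · funext β d l
      rcases lt_or_ge β α with h | h
      · exact congrArg Subtype.val (congrFun (congrFun (congrFun h₆ ⟨β, h⟩) d) l)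
      · exact (hc.2.2.1 β d l h).trans (hc'.2.2.1 β d l h).symm

theorem small_NS (α : K) : Small.{0} (NS α) := by
  have := small_S α
  have h₁ : Small.{0} {y : Cond × At | y.1 ∈ S α} :=
    small_of_surjective (f := fun z : S α × At =>
      (⟨(z.1.1, z.2), z.1.2⟩ : {y : Cond × At | y.1 ∈ S α})) fun y => ⟨(⟨_, y.2⟩, y.1.2), rfl⟩
  have h₂ : Small.{0} (𝒫 {y : Cond × At | y.1 ∈ S α}) := inferInstance
  exact @small_image _ _ _ _ h₂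

theorem small_of_S {α : K} {X : Set (Cond × At)} (h : ∀ y ∈ X, y.1 ∈ S α) : Small.{0} X := by
  have := small_S α
  have h₁ : Small.{0} {y : Cond × At | y.1 ∈ S α} :=
    small_of_surjective (f := fun z : S α × At =>
      (⟨(z.1.1, z.2), z.1.2⟩ : {y : Cond × At | y.1 ∈ S α})) fun y => ⟨(⟨_, y.2⟩, y.1.2), rfl⟩
  exact small_subset (s := {y : Cond × At | y.1 ∈ S α}) h

theorem canon_empty_mem (β : K) : canon ∅ ∈ NS β := by
  exact ⟨∅, fun _ h => h.elim, rfl⟩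

theorem S_mono {α β : K} (h : α ≤ β) : S α ⊆ S β := by
  intro c hc
  rw [mem_S] at hc ⊢
  refine ⟨hc.1.trans (Iio_subset_Iio h), fun y hy => (hc.2.1 y hy).trans_le h,
    fun γ d l hγ => hc.2.2.1 γ d l (h.trans hγ), fun γ _ d l => ?_⟩
  rcases lt_or_ge γ α with h' | h'
  · exact hc.2.2.2 γ h' d l
  · rw [hc.2.2.1 γ d l h']
    exact canon_empty_mem γ

theorem exists_book {Y : Type 1} [Nonempty Y] (S : K → Set Y) (hS : ∀ ν, Small.{0} (S ν)) :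
    ∃ bk : K → Y, ∀ ν, ∀ y ∈ S ν, ∃ ξ, ν ≤ ξ ∧ bk ξ = y := by
  have h₁ : ∀ ν, ∃ s : K → Y, S ν ⊆ range s := by
    intro ν
    have := hS ν
    let j : S ν → K := fun y => Ordinal.typein (WellOrderingRel (α := Shrink.{0} (S ν)))
      (equivShrink _ y)
    have hj : Function.Injective j :=
      (Ordinal.typein_injective _).comp (equivShrink _).injective
    refine ⟨Function.extend j Subtype.val fun _ => Classical.arbitrary Y, fun y hy => ?_⟩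
    exact ⟨j ⟨y, hy⟩, hj.extend_apply _ _ _⟩
  choose s hs using h₁
  obtain ⟨e⟩ : Nonempty (K ≃ K × K × K) := by
    have := Cardinal.mul_eq_self Cardinal.aleph0_lt_univ.{0, 1}.le
    rw [← Cardinal.eq]
    simp [this]
  refine ⟨fun ξ => s (e ξ).1 (e ξ).2.1, fun ν y hy => ?_⟩
  obtain ⟨α, rfl⟩ := hs ν hy
  by_contra hn
  push Not at hn
  refine not_small_ordinal.{0, 0} (small_of_injective
    (f := fun β : K => (⟨e.symm (ν, α, β), ?_⟩ : Iio ν)) fun β β' h => ?_)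
  · by_contra h
    exact hn _ (not_lt.1 h) (by simp)
  · simpa using h

theorem bk_spec {ν : K} {n : Nm} (h : n ∈ NS ν) (α : K) : ∃ β, ν ≤ β ∧ α ≤ β ∧ bk β = n := by
  have : Nonempty Nm := ⟨canon ∅⟩
  have H : ∀ ν, ∀ n ∈ NS ν, ∃ β, ν ≤ β ∧ bk β = n :=
    @Classical.epsilon_spec _ (fun b : K → Nm => ∀ ν, ∀ n ∈ NS ν, ∃ β, ν ≤ β ∧ b β = n)
      (exists_book NS small_NS)
  obtain ⟨X, hX, rfl⟩ := h
  obtain ⟨β, h₁, h₂⟩ := H (max ν α) _ ⟨X, fun y hy => S_mono (le_max_left _ _) (hX y hy), rfl⟩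
  exact ⟨β, (le_max_left _ _).trans h₁, (le_max_right _ _).trans h₁, h₂⟩

variable {α β γ b : K} {p p' q r s t c ρ : Cond}

theorem Rle.refl : Rle α p p := ⟨le_rfl, fun _ _ => rfl, fun _ _ => rfl, fun _ _ h => h,
  fun _ _ _ _ _ _ => rfl⟩

theorem Rle.trans (h : Rle α r q) (h' : Rle α q p) : Rle α r p := by
  exact ⟨h'.ht.trans h.ht, fun x hx => (h.σ x (hx.trans_le h'.ht)).trans (h'.σ x hx),
    fun x hx => (h.E x (hx.trans_le h'.ht)).trans (h'.E x hx),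
    fun β hβ hT => h.T β hβ (h'.T β hβ hT),
    fun β hβ hT d hd l => (h.Z β hβ (h'.T β hβ hT) d (hd.trans_le h'.ht) l).trans
      (h'.Z β hβ hT d hd l)⟩

theorem Rle.mono (h : Rle α q p) (hβ : β ≤ α) : Rle β q p := by
  exact ⟨h.ht, h.σ, h.E, fun γ hγ => h.T γ (hγ.trans_le hβ), fun γ hγ => h.Z γ (hγ.trans_le hβ)⟩

theorem RL.refl : RL p p := fun _ => Rle.refl

theorem RL.trans (h : RL r q) (h' : RL q p) : RL r p := fun α => (h α).trans (h' α)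

theorem RL.T (h : RL q p) : p.T ⊆ q.T := by
  exact fun β hβ => (h (Order.succ β)).T β (Order.lt_succ β) hβ

theorem V_iff : V α c ↔ RV c ∧ c.f.Finite ∧ ∀ β < α, LocV β c := by
  unfold V
  conv_lhs => unfold st; rw [WellFounded.fix_eq]
  rfl

theorem L_iff : L α q p ↔ Rle α q p ∧ ∀ β < α, LocL β q p := by
  unfold L
  conv_lhs => unfold st; rw [WellFounded.fix_eq]
  rfl

theorem V.rv (h : V α c) : RV c := (V_iff.1 h).1
theorem V.fin (h : V α c) : c.f.Finite := (V_iff.1 h).2.1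
theorem V.loc (h : V α c) (hβ : β < α) : LocV β c := (V_iff.1 h).2.2 β hβ
theorem L.rle (h : L α q p) : Rle α q p := (L_iff.1 h).1
theorem L.loc (h : L α q p) (hβ : β < α) : LocL β q p := (L_iff.1 h).2 β hβ

theorem V.mono (h : V α c) (hβ : β ≤ α) : V β c := by
  exact V_iff.2 ⟨h.rv, h.fin, fun γ hγ => h.loc (hγ.trans_le hβ)⟩

theorem L.mono (h : L α q p) (hβ : β ≤ α) : L β q p := by
  exact L_iff.2 ⟨h.rle.mono hβ, fun γ hγ => h.loc (hγ.trans_le hβ)⟩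

theorem L.refl : L α p p := by
  exact L_iff.2 ⟨Rle.refl, fun β _ => ⟨fun _ h => h, fun _ _ _ _ h h' => absurd h h',
    fun _ _ _ _ h h' => absurd h h'⟩⟩

theorem L.trans (h : L α r q) (h' : L α q p) : L α r p := by
  induction α using WellFoundedLT.induction generalizing r q p with
  | ind α ih =>
    refine L_iff.2 ⟨h.rle.trans h'.rle, fun β hβ => ?_⟩
    have h₁ := h.loc hβ
    have h₂ := h'.loc hβ
    have hd : ∀ {n a}, DecOf (st β) n q a → DecOf (st β) n r a := fun H s hs hsr =>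
      H s hs (ih β hβ hsr (h.mono hβ.le))
    refine ⟨fun a ha => h₁.sub a (h₂.sub a ha), fun z a d m hz hz' hb hd' hE => ?_,
      fun d t m' m hc hc' hb => ?_⟩
    · by_cases hq : (β, Atom.val z a) ∈ q.f
      · rcases h₂.val z a d m hq hz' hb hd' hE with H | ⟨t, m', H₁, H₂, H₃, H₄, H₅⟩
        · exact Or.inl H
        · exact Or.inr ⟨t, m', H₁, H₂, hd H₃, hd H₄, fun y hy =>
            (H₅ y hy).imp fun k hk => ⟨hk.1, hd hk.2⟩⟩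
      · rcases h₁.val z a d m hz hq (h₂.sub _ hb) (hd'.trans_le h'.rle.ht)
          (by rw [h'.rle.E d hd']; exact hE) with H | ⟨t, m', H₁, H₂, H₃, H₄, H₅⟩
        · exact Or.inl H
        · by_cases hp : (β, Atom.cl d t m') ∈ p.f
          · exact Or.inr ⟨t, m', hp, H₂, H₃, H₄, fun y hy => H₅ y (h₂.sub _ hy)⟩
          · exact Or.inl ((h₂.cl d t m' m H₁ hp hb).trans H₂)
    · by_cases hq : (β, Atom.cl d t m') ∈ q.f
      · exact h₂.cl d t m' m hq hc' hb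
      · exact h₁.cl d t m' m hc hq (h₂.sub _ hb)

theorem L.sub (h : L α q p) (hβ : β < α) {a : Atom} (ha : (β, a) ∈ p.f) : (β, a) ∈ q.f :=
  (h.loc hβ).sub a ha

theorem V.supp (h : V α c) (hβ : β < α) {a : Atom} (ha : (β, a) ∈ c.f) : β ∈ c.T :=
  (h.loc hβ).T ((h.loc hβ).on a ha)

theorem V_zero : V 0 c ↔ RV c ∧ c.f.Finite := by
  simp [V_iff]

theorem L_zero : L 0 q p ↔ Rle 0 q p := by
  simp [L_iff]

theorem Le.refl : Le α p p := ⟨L.refl, RL.refl⟩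
theorem Le.trans (h : Le α r q) (h' : Le α q p) : Le α r p := ⟨h.1.trans h'.1, h.2.trans h'.2⟩
theorem Le.mono (h : Le α q p) (hβ : β ≤ α) : Le β q p := ⟨h.1.mono hβ, h.2⟩

section Dns

variable {Φ Ψ : Cond → Prop}

theorem Dns.mono (h : Dns β p Φ) (hl : L β q p) : Dns β q Φ := by
  exact fun s hs hsq => h s hs (hsq.trans hl)

theorem Dns.imp (h : Dns β p Φ) (H : ∀ s, V β s → L β s p → Φ s → Ψ s) : Dns β p Ψ := by
  intro s hs hsp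
  obtain ⟨t, ht, hts, h⟩ := h s hs hsp
  exact ⟨t, ht, hts, H t ht (hts.trans hsp) h⟩

theorem Dns.of_all (H : ∀ s, V β s → L β s p → Φ s) : Dns β p Φ := by
  exact fun s hs hsp => ⟨s, hs, L.refl, H s hs hsp⟩

theorem Dns.join (h : Dns β p fun s => Dns β s Φ) : Dns β p Φ := by
  intro s hs hsp
  obtain ⟨t, ht, hts, h⟩ := h s hs hsp
  obtain ⟨u, hu, hut, h⟩ := h t ht L.refl
  exact ⟨u, hu, hut.trans hts, h⟩

theorem Dns.ex (h : Dns β p Φ) (hp : V β p) : ∃ s, V β s ∧ L β s p ∧ Φ s := h p hp L.refl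

theorem not_dns : ¬ Dns β p Φ ↔ ∃ s, V β s ∧ L β s p ∧ ∀ s', V β s' → L β s' s → ¬ Φ s' := by
  unfold Dns
  push Not
  rfl

end Dns

theorem Dec_def {n : Nm} {a : At} :
    Dec β n p a ↔ Dns β p fun r => ∃ c, (c, a) ∈ n.ent ∧ L β r c := Iff.rfl

theorem Dec.mono {n : Nm} {a : At} (h : Dec β n p a) (hl : L β q p) : Dec β n q a :=
  Dns.mono h hl

theorem Dec.reg {n : Nm} {a : At} (h : Dns β p fun s => Dec β n s a) : Dec β n p a := Dns.join h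

theorem Uc_def {d x : W} {u : Nn} {D : Set (Nn × ℕ)} : Uc β d u D p x ↔
    Dec β (bk β) p (.pi x 0 u.1) ∧ Dec β (bk β) p (.pi x (u.2.1 + 1) u.2.2) ∧
      ∀ y ∈ D, ∃ k < y.2, Dec β (bk β) p (.ce d k x y.1) := Iff.rfl

theorem Uc.mono {d x : W} {u : Nn} {D : Set (Nn × ℕ)} (h : Uc β d u D p x) (hl : L β q p) :
    Uc β d u D q x := by
  rw [Uc_def] at h ⊢
  exact ⟨h.1.mono hl, h.2.1.mono hl, fun y hy => (h.2.2 y hy).imp fun k hk => ⟨hk.1, hk.2.mono hl⟩⟩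

theorem Uc.anti {d x : W} {u : Nn} {D D' : Set (Nn × ℕ)} (h : Uc β d u D p x) (hD : D' ⊆ D) :
    Uc β d u D' p x := by
  rw [Uc_def] at h ⊢
  exact ⟨h.1, h.2.1, fun y hy => h.2.2 y (hD hy)⟩

theorem um_Uc (d : W) (u : Nn) (D : Set (Nn × ℕ)) : UM β (Uc β d u D) :=
  fun _ _ _ h _ hl => h.mono hl

theorem Good_def : Good β p ↔ (∀ x j, Dns β p fun r => ∃ c, Dec β (bk β) r (.pi x j c)) ∧
    ∀ (d : W) (n₀ : ℕ) (B : Cond → ℕ × ℕ → Prop),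
      (∀ r r' y, B r y → V β r' → L β r' r → B r' y) →
      ∀ p', V β p' → L β p' p → d < p'.ht → (∀ j, Dns β p' fun r => ∃ y, j ≤ y.1 ∧ B r y) →
        ∃ p'', V β p'' ∧ L β p'' p' ∧ ∃ k, ∃ u : Set (ℕ × ℕ), u.Finite ∧ (∀ y ∈ u, B p'' y) ∧
          ∀ x ∈ p'.E d, Dns β p'' fun r => ∃ y ∈ u, Dec β (bk β) r (.ce d k x (n₀, y)) :=
  Iff.rfl

theorem Good.mono (h : Good β p) (hl : L β q p) : Good β q := by
  rw [Good_def] at h ⊢
  exact ⟨fun x j => (h.1 x j).mono hl,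
    fun d n B hB p' hp' hl' => h.2 d n B hB p' hp' (hl'.trans hl)⟩

theorem V.good (h : V α c) (hβ : β < α) (ho : (β, Atom.on) ∈ c.f) : Good β c :=
  (h.loc hβ).good ho

theorem V.pm (h : V α c) (hβ : β < α) {d : W} {u : Nn} {l : ℕ} (ho : (β, Atom.pm d u l) ∈ c.f) :
    Dec β (c.Z β d l) c (.cd u (code c β d u)) := (h.loc hβ).pm d u l ho

theorem code_congr {d : W} {u : Nn}
    (h : ∀ a : Atom, a.pos = d → ((β, a) ∈ p.f ↔ (β, a) ∈ q.f)) : code p β d u = code q β d u := by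
  ext y
  exact h _ rfl

theorem LocV.of_le (h : LocV β r) (he : ∀ a, (β, a) ∈ t.f ↔ (β, a) ∈ r.f) (hl : L β t r)
    (hr : Rle (Order.succ β) t r) : LocV β t := by
  refine ⟨fun a ha => (he _).2 (h.on a ((he a).1 ha)),
    fun a ha => (h.pos a ((he a).1 ha)).trans_le hr.ht,
    fun ho => hr.T β (Order.lt_succ β) (h.T ((he _).1 ho)),
    fun ho => Good.mono (h.good ((he _).1 ho)) hl,
    fun z a a' h₁ h₂ => h.fn z a a' ((he _).1 h₁) ((he _).1 h₂),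
    fun d u m u' m' h₁ h₂ hne => ?_, fun d u l h₁ => ?_⟩
  · simp only [he]
    exact h.sep d u m u' m' ((he _).1 h₁) ((he _).1 h₂) hne
  · have h₂ := (he _).1 h₁
    rw [hr.Z β (Order.lt_succ β) (h.T (h.on _ h₂)) d (h.pos _ h₂) l,
      code_congr (p := t) (q := r) fun a _ => he a]
    exact Dec.mono (h.pm d u l h₂) hl

theorem LocL.of_eq (he : ∀ a, (β, a) ∈ t.f ↔ (β, a) ∈ r.f) : LocL β t r := by
  exact ⟨fun a ha => (he a).2 ha, fun _ _ _ _ h h' => absurd ((he _).1 h) h',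
    fun _ _ _ _ h h' => absurd ((he _).1 h) h'⟩

theorem LocL.of_empty (he : ∀ a, (β, a) ∉ r.f) : LocL β t r := by
  exact ⟨fun a ha => absurd ha (he a), fun _ _ _ _ _ _ h => absurd h (he _),
    fun _ _ _ _ _ _ h => absurd h (he _)⟩

theorem LocL.congr_left (h : LocL β q p) (he : ∀ a, (β, a) ∈ t.f ↔ (β, a) ∈ q.f) (hl : L β t q) :
    LocL β t p := by
  refine ⟨fun a ha => (he a).2 (h.sub a ha), fun z a d m h₁ h₂ h₃ h₄ h₅ => ?_,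
    fun d u m' m h₁ => h.cl d u m' m ((he _).1 h₁)⟩
  exact (h.val z a d m ((he _).1 h₁) h₂ h₃ h₄ h₅).imp_right fun ⟨u, m', H₁, H₂, H₃⟩ =>
    ⟨u, m', H₁, H₂, Uc.mono H₃ hl⟩

theorem LocL.congr_right (h : LocL β q p) (he : ∀ a, (β, a) ∈ p'.f ↔ (β, a) ∈ p.f)
    (hv : LocV β p) (hr : Rle 0 p' p) : LocL β q p' := by
  refine ⟨fun a ha => h.sub a ((he a).1 ha), fun z a d m h₁ h₂ h₃ _ h₅ => ?_,
    fun d u m' m h₁ h₂ h₃ => h.cl d u m' m h₁ (fun h => h₂ ((he _).2 h)) ((he _).1 h₃)⟩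
  have hd : d < p.ht := hv.pos _ ((he _).1 h₃)
  rw [hr.E d hd] at h₅
  refine (h.val z a d m h₁ (fun h => h₂ ((he _).2 h)) ((he _).1 h₃) hd h₅).imp_right
    fun ⟨u, m', H₁, H₂, H₃⟩ => ⟨u, m', (he _).2 H₁, H₂, ?_⟩
  rw [code_congr (p := p') (q := p) fun a _ => he a]
  exact H₃

theorem L_of_eq (hr : Rle α t r) (he : ∀ β < α, ∀ a, (β, a) ∈ t.f ↔ (β, a) ∈ r.f) : L α t r := by
  exact L_iff.2 ⟨hr, fun β hβ => LocL.of_eq (he β hβ)⟩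

theorem V_of_eq (h : V α r) (ht : RV t) (hf : t.f.Finite) (hr : Rle α t r)
    (he : ∀ β < α, ∀ a, (β, a) ∈ t.f ↔ (β, a) ∈ r.f) : V α t := by
  exact V_iff.2 ⟨ht, hf, fun β hβ => (h.loc hβ).of_le (he β hβ)
    (L_of_eq (hr.mono hβ.le) fun γ hγ => he γ (hγ.trans hβ)) (hr.mono (Order.succ_le_of_lt hβ))⟩

theorem L.congr_right (h : L α q p) (hv : V α p) (h₁ : Rle α q p') (h₂ : Rle 0 p' p)
    (he : ∀ β < α, ∀ a, (β, a) ∈ p'.f ↔ (β, a) ∈ p.f) : L α q p' := by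
  exact L_iff.2 ⟨h₁, fun β hβ => (h.loc hβ).congr_right (he β hβ) (hv.loc hβ) h₂⟩

/-- Change of one coordinate. -/
theorem modify (h : V γ r) (ht : RV t) (hf : t.f.Finite) (hr : Rle γ t r)
    (he : ∀ β', β' ≠ β → ∀ a, (β', a) ∈ t.f ↔ (β', a) ∈ r.f)
    (hv : β < γ → L β t r → LocV β t ∧ LocL β t r) : V γ t ∧ L γ t r := by
  have hl : ∀ α ≤ γ, L α t r := by
    intro α hα
    refine L_iff.2 ⟨hr.mono hα, fun β' hβ' => ?_⟩
    by_cases e : β' = β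
    · subst e
      exact (hv (hβ'.trans_le hα) (L_of_eq (hr.mono (hβ'.le.trans hα))
        fun δ hδ => he δ hδ.ne)).2
    · exact LocL.of_eq (he β' e)
  refine ⟨V_iff.2 ⟨ht, hf, fun β' hβ' => ?_⟩, hl γ le_rfl⟩
  by_cases e : β' = β
  · subst e
    exact (hv hβ' (hl _ hβ'.le)).1
  · exact (h.loc hβ').of_le (he β' e) (hl _ hβ'.le) (hr.mono (Order.succ_le_of_lt hβ'))

theorem L_of_supp (h : L β p q) (hq : V α q) (hT : ∀ γ ∈ q.T, γ < α → γ < β) : L α p q := by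
  refine L_iff.2 ⟨⟨h.rle.ht, h.rle.σ, h.rle.E, fun γ hγ h' => h.rle.T γ (hT γ h' hγ) h',
    fun γ hγ h' => h.rle.Z γ (hT γ h' hγ) h'⟩, fun γ hγ => ?_⟩
  by_cases e : γ < β
  · exact h.loc e
  · exact LocL.of_empty fun a ha => e (hT γ (hq.supp hγ ha) hγ)

section setf

variable {f : Set (K × Atom)}

@[simp] theorem setf_f : (setf c f).f = f := rfl
@[simp] theorem setf_ht : (setf c f).ht = c.ht := rfl
@[simp] theorem setf_σ : (setf c f).σ = c.σ := rfl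
@[simp] theorem setf_E : (setf c f).E = c.E := rfl
@[simp] theorem setf_T : (setf c f).T = c.T := rfl
@[simp] theorem setf_Z : (setf c f).Z = c.Z := rfl

theorem RV.setf (h : RV c) : RV (setf c f) := ⟨h.ct, h.sc, h.lad, h.ns⟩

theorem Rle.setf_left (h : Rle α q p) : Rle α (setf q f) p := ⟨h.ht, h.σ, h.E, h.T, h.Z⟩

theorem Rle.setf_right (h : Rle α q p) : Rle α q (setf p f) := ⟨h.ht, h.σ, h.E, h.T, h.Z⟩

theorem RL.setf_left (h : RL q p) : RL (setf q f) p := fun α => (h α).setf_left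

theorem RL.setf_right (h : RL q p) : RL q (setf p f) := fun α => (h α).setf_right

end setf

@[simp] theorem amR_f : (amR b p ρ).f = p.f := rfl
@[simp] theorem amR_ht : (amR b p ρ).ht = p.ht := rfl
@[simp] theorem amR_σ : (amR b p ρ).σ = p.σ := rfl
@[simp] theorem amR_E : (amR b p ρ).E = p.E := rfl

theorem RV.amR (hp : RV p) (hρ : RV ρ) : RV (amR b p ρ) := by
  refine ⟨(hp.ct.mono inter_subset_left).union (hρ.ct.mono inter_subset_left), hp.sc, hp.lad,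
    fun β d l => ?_⟩
  simp only [Gap.amR]
  split_ifs
  exacts [hp.ns β d l, hρ.ns β d l]

theorem amR_RL (h : Rle b p ρ) : RL (amR b p ρ) ρ := by
  refine fun α => ⟨h.ht, h.σ, h.E, fun β _ hT => ?_, fun β _ hT d hd l => ?_⟩
  · rcases lt_or_ge β b with h' | h'
    exacts [Or.inl ⟨h.T β h' hT, h'⟩, Or.inr ⟨hT, h'⟩]
  · simp only [amR]
    split_ifs with h'
    exacts [h.Z β h' hT d hd l, rfl]

theorem amR_rle : Rle b (amR b p ρ) p := by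
  exact ⟨le_rfl, fun _ _ => rfl, fun _ _ => rfl, fun β hβ hT => Or.inl ⟨hT, hβ⟩,
    fun β hβ _ d _ l => by simp only [amR, if_pos hβ]⟩

theorem rle_amR : Rle b p (amR b p ρ) := by
  refine ⟨le_rfl, fun _ _ => rfl, fun _ _ => rfl, fun β hβ hT => ?_,
    fun β hβ _ d _ l => by simp only [amR, if_pos hβ]⟩
  rcases hT with h | h
  exacts [h.1, absurd hβ (not_lt.2 h.2)]

theorem amR_L : L b (amR b p ρ) p := by
  exact L_of_eq amR_rle fun _ _ _ => Iff.rfl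

theorem L_amR : L b p (amR b p ρ) := by
  exact L_of_eq rle_amR fun _ _ _ => Iff.rfl

theorem V.amR (h : V b p) (hρ : RV ρ) : V b (amR b p ρ) := by
  exact V_of_eq h (h.rv.amR hρ) h.fin amR_rle fun _ _ _ => Iff.rfl

@[simp] theorem cut_ht : (cut b p).ht = p.ht := rfl
@[simp] theorem cut_σ : (cut b p).σ = p.σ := rfl
@[simp] theorem cut_E : (cut b p).E = p.E := rfl

theorem cut_T : (cut b p).T ⊆ Iio b := by
  exact inter_subset_right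

theorem cut_mem_S (h : RV p) : cut b p ∈ S b := by
  exact mem_S.2 ⟨cut_T, fun y hy => hy.2, fun β d l hβ => by simp only [cut, if_neg (not_lt.2 hβ)],
    fun β hβ d l => by simpa only [cut, if_pos hβ] using h.ns β d l⟩

theorem cut_L : L b (cut b p) p := by
  exact L_of_eq ⟨le_rfl, fun _ _ => rfl, fun _ _ => rfl, fun β hβ hT => ⟨hT, hβ⟩,
    fun β hβ _ d _ l => by simp only [cut, if_pos hβ]⟩ fun β hβ a => ⟨fun h => h.1, fun h => ⟨h, hβ⟩⟩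

theorem L_cut : L α p (cut b p) := by
  refine L_iff.2 ⟨⟨le_rfl, fun _ _ => rfl, fun _ _ => rfl, fun β _ hT => hT.1,
    fun β _ hT d _ l => by simp only [cut, if_pos (show β < b from hT.2)]⟩, fun β _ => ?_⟩
  by_cases e : β < b
  · exact LocL.of_eq fun a => ⟨fun h => ⟨h, e⟩, fun h => h.1⟩
  · exact LocL.of_empty fun a ha => e ha.2

theorem V.cut (h : V b p) (α : K) : V α (cut b p) := by
  have hv : RV (Gap.cut b p) := ⟨h.rv.ct.mono inter_subset_left, h.rv.sc, h.rv.lad,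
    fun β d l => by
      simp only [Gap.cut]
      split_ifs
      exacts [h.rv.ns β d l, canon_empty_mem β]⟩
  have hf : (Gap.cut b p).f.Finite := h.fin.subset fun y hy => hy.1
  have hb : V b (Gap.cut b p) :=
    V_of_eq h hv hf cut_L.rle fun β hβ a => ⟨fun h => h.1, fun h => ⟨h, hβ⟩⟩
  refine V_iff.2 ⟨hv, hf, fun β _ => ?_⟩
  by_cases e : β < b
  · exact hb.loc e
  · exact ⟨fun _ h => absurd h.2 e, fun _ h => absurd h.2 e, fun h => absurd h.2 e,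
      fun h => absurd h.2 e, fun _ _ _ h => absurd h.2 e, fun _ _ _ _ _ h => absurd h.2 e,
      fun _ _ _ h => absurd h.2 e⟩

theorem mem_am {p'' : Cond} {y : K × Atom} : y ∈ (am b ρ p'' p' q).f ↔
    (y.1 < b ∧ y ∈ p''.f) ∨ (b ≤ y.1 ∧ (y ∈ p'.f ∨ y ∈ q.f)) := Iff.rfl

theorem mem_mix {y : K × Atom} : y ∈ (mix b p s).f ↔
    (y.1 < b ∧ y ∈ p.f) ∨ (b ≤ y.1 ∧ y ∈ s.f) := by
  simp [mix, mem_am]

end Pool.Agent.MP_2e2931_gt.Gap

end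

section

namespace Pool.Agent.MP_2e2931_gt.Gap

open Set Ordinal

theorem Lad.empty (σ : W → ℕ → ℕ) (d : W) : Lad σ d ∅ :=
  ⟨fun _ h => h.elim, fun _ _ => by simp, fun _ => ⟨0, by simp⟩⟩

theorem Lad.congr {σ σ' : W → ℕ → ℕ} {d : W} {A : Set W} (h : Lad σ d A)
    (he : ∀ x < d, σ' x = σ x) : Lad σ' d A := by
  refine ⟨h.lt, h.fin, fun s => ?_⟩
  obtain ⟨k, hk⟩ := h.wf s
  refine ⟨k, hk.subset fun x hx => ⟨hx.1, fun j hj => ?_⟩⟩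
  rw [← he x (h.lt x hx.1)]
  exact hx.2 j hj

/-- Limits of chains of countable parts. -/
theorem exists_lim (c : ℕ → Cond) (hv : ∀ n, RV (c n)) (hl : ∀ n, RL (c (n + 1)) (c n)) :
    ∃ l, RV l ∧ (∀ n, RL l (c n)) ∧ l.f = ∅ ∧ (∀ y < l.ht, ∃ n, y < (c n).ht) ∧
      ∀ β ∈ l.T, ∃ n, β ∈ (c n).T := by
  classical
  have hm : ∀ n m, n ≤ m → RL (c m) (c n) := fun n m h => by
    induction m, h using Nat.le_induction with
    | base => exact RL.refl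
    | succ m _ ih => exact (hl m).trans ih
  obtain ⟨b₀, hb₀⟩ := W.exists_gt (countable_range fun n => (c n).ht)
  obtain ⟨b, hb, hmin⟩ := (wellFounded_lt (α := W)).has_min {b | ∀ n, (c n).ht ≤ b}
    ⟨b₀, fun n => (hb₀ _ ⟨n, rfl⟩).le⟩
  have hcof : ∀ y < b, ∃ n, y < (c n).ht := fun y hy => by
    by_contra hc
    push Not at hc
    exact hmin y hc hy
  let l : Cond :=
    { ht := b
      σ := fun x => if h : ∃ n, x < (c n).ht then (c h.choose).σ x else fun _ => 0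
      E := fun x => if h : ∃ n, x < (c n).ht then (c h.choose).E x else ∅
      T := ⋃ n, (c n).T
      f := ∅
      Z := fun β d k => if h : ∃ n, β ∈ (c n).T ∧ d < (c n).ht then (c h.choose).Z β d k
        else canon ∅ }
  have hR : ∀ n, RL l (c n) := fun n α => by
    refine ⟨hb n, fun x hx => ?_, fun x hx => ?_, fun β _ h => mem_iUnion.2 ⟨n, h⟩,
      fun β hβ hT d hd k => ?_⟩
    · have h : ∃ n, x < (c n).ht := ⟨n, hx⟩
      refine (dif_pos h).trans ?_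
      rcases le_total n h.choose with e | e
      · exact (hm _ _ e α).σ x hx
      · exact ((hm _ _ e α).σ x h.choose_spec).symm
    · have h : ∃ n, x < (c n).ht := ⟨n, hx⟩
      refine (dif_pos h).trans ?_
      rcases le_total n h.choose with e | e
      · exact (hm _ _ e α).E x hx
      · exact ((hm _ _ e α).E x h.choose_spec).symm
    · have h : ∃ n, β ∈ (c n).T ∧ d < (c n).ht := ⟨n, hT, hd⟩
      refine (dif_pos h).trans ?_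
      rcases le_total n h.choose with e | e
      · exact (hm _ _ e α).Z β hβ hT d hd k
      · exact ((hm _ _ e α).Z β hβ h.choose_spec.1 d h.choose_spec.2 k).symm
  refine ⟨l, ⟨countable_iUnion fun n => (hv n).ct, fun x y hxy hy => ?_, fun d hd => ?_,
    fun β d k => ?_⟩, hR, rfl, hcof, fun β h => mem_iUnion.1 h⟩
  · obtain ⟨n, hn⟩ := hcof y hy
    rw [(hR n 0).σ x (hxy.trans hn), (hR n 0).σ y hn]
    exact (hv n).sc x y hxy hn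
  · obtain ⟨n, hn⟩ := hcof d hd
    rw [(hR n 0).E d hn]
    exact ((hv n).lad d hn).congr fun x hx => (hR n 0).σ x (hx.trans hn)
  · change dite _ _ _ ∈ _
    split_ifs
    · exact (hv _).ns β d k
    · exact canon_empty_mem β

theorem fr_dom (σ : W → ℕ → ℕ) (d : W) (g : ℕ → ℕ) :
    ∃ h : ℕ → ℕ, (∀ j, g j ≤ h j) ∧ ∀ x ≤ d, ∀ᶠ j in Filter.atTop, σ x j ≤ h j := by
  obtain ⟨e, he⟩ := (W.countable_Iic d).exists_eq_range ⟨d, mem_Iic.2 le_rfl⟩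
  refine ⟨fun j => max (g j) ((Finset.range (j + 1)).sup fun i => σ (e i) j),
    fun j => le_max_left _ _, fun x hx => ?_⟩
  obtain ⟨i, rfl⟩ : x ∈ range e := he ▸ hx
  filter_upwards [Filter.eventually_ge_atTop i] with j hj
  exact le_max_of_le_right (Finset.le_sup (f := fun i => σ (e i) j)
    (Finset.mem_range.2 (Nat.lt_succ_of_le hj)))

theorem fr_ext {c : Cond} (h : RV c) {b : W} (hb : c.ht < b) (g : ℕ → ℕ) {A : Set W}
    (hA : Lad c.σ c.ht A) (Zn : K → ℕ → Nm) (hZ : ∀ β l, Zn β l ∈ NS β) :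
    ∃ c', RV c' ∧ RL c' c ∧ c'.ht = b ∧ c'.T = c.T ∧ c'.f = c.f ∧ c'.E c.ht = A ∧
      (∀ j, g j ≤ c'.σ c.ht j) ∧ ∀ β l, c'.Z β c.ht l = Zn β l := by
  classical
  obtain ⟨u, hu, hu'⟩ := fr_dom c.σ c.ht g
  let c' : Cond :=
    { ht := b
      σ := fun x => if x < c.ht then c.σ x else u
      E := fun x => if x < c.ht then c.E x else if x = c.ht then A else ∅
      T := c.T
      f := c.f
      Z := fun β d k => if d = c.ht then Zn β k else c.Z β d k }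
  have hσ : ∀ x < c.ht, c'.σ x = c.σ x := fun x hx => if_pos hx
  have hσ' : ∀ x, ¬ x < c.ht → c'.σ x = u := fun x hx => if_neg hx
  refine ⟨c', ⟨h.ct, fun x y hxy _ => ?_, fun d _ => ?_, fun β d k => ?_⟩,
    fun α => ⟨hb.le, hσ, fun x hx => if_pos hx, fun _ _ hT => hT,
      fun β _ _ d hd k => if_neg hd.ne⟩, rfl, rfl, rfl,
    (if_neg (lt_irrefl _)).trans (if_pos rfl), fun j => ?_, fun β l => if_pos rfl⟩
  · by_cases hy : y < c.ht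
    · rw [hσ x (hxy.trans hy), hσ y hy]
      exact h.sc x y hxy hy
    · rw [hσ' y hy]
      by_cases hx : x < c.ht
      · rw [hσ x hx]
        exact hu' x hx.le
      · rw [hσ' x hx]
        exact Filter.Eventually.of_forall fun _ => le_rfl
  · change Lad _ _ (ite _ _ _)
    split_ifs with h1 h2
    · exact (h.lad d h1).congr fun x hx => hσ x (hx.trans h1)
    · subst h2
      exact hA.congr hσ
    · exact Lad.empty _ _
  · change ite _ _ _ ∈ _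
    split_ifs
    · exact hZ β k
    · exact h.ns β d k
  · rw [hσ' _ (lt_irrefl _)]
    exact hu j

/-- One step extensions. -/
theorem exists_step {c : Cond} (h : RV c) (g : ℕ → ℕ) {A : Set W} (hA : Lad c.σ c.ht A)
    (Zn : K → ℕ → Nm) (hZ : ∀ β l, Zn β l ∈ NS β) :
    ∃ c', RV c' ∧ RL c' c ∧ c.ht < c'.ht ∧ c'.T = c.T ∧ c'.f = c.f ∧ c'.E c.ht = A ∧
      (∀ j, g j ≤ c'.σ c.ht j) ∧ ∀ β l, c'.Z β c.ht l = Zn β l := by
  obtain ⟨b, hb⟩ := W.exists_gt (countable_singleton c.ht)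
  obtain ⟨c', h1, h2, h3, h4⟩ := fr_ext h (hb _ rfl) g hA Zn hZ
  exact ⟨c', h1, h2, h3 ▸ hb _ rfl, h4⟩

theorem exists_ht {c : Cond} (h : RV c) (y : W) :
    ∃ c', RV c' ∧ RL c' c ∧ y < c'.ht ∧ c'.T = c.T ∧ c'.f = c.f := by
  obtain ⟨b, hb⟩ := W.exists_gt ((countable_singleton c.ht).insert y)
  obtain ⟨c', h1, h2, h3, h4, h5, -⟩ := fr_ext h (hb _ (Or.inr rfl)) (fun _ => 0) (Lad.empty _ _)
    (fun _ _ => canon ∅) fun β _ => canon_empty_mem β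
  exact ⟨c', h1, h2, h3 ▸ hb _ (Or.inl rfl), h4, h5⟩

theorem exists_addT {c : Cond} (h : RV c) (β : K) :
    ∃ c', RV c' ∧ RL c' c ∧ β ∈ c'.T ∧ c'.f = c.f :=
  ⟨{ c with T := insert β c.T }, ⟨h.ct.insert β, h.sc, h.lad, h.ns⟩,
    fun _ => ⟨le_rfl, fun _ _ => rfl, fun _ _ => rfl, fun _ _ hT => Or.inr hT,
      fun _ _ _ _ _ _ => rfl⟩, Or.inl rfl, rfl⟩

theorem exists_top_cond : ∃ c : Cond, c.ht = w0 ∧ c.T = ∅ ∧ c.f = ∅ ∧ RV c :=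
  ⟨⟨⟨w0, fun _ _ => 0, fun _ => ∅, ∅, ∅⟩, fun _ _ _ => canon ∅⟩, rfl, rfl, rfl, countable_empty,
    fun _ _ _ _ => Filter.Eventually.of_forall fun _ => le_rfl, fun _ _ => Lad.empty _ _,
    fun β _ _ => canon_empty_mem β⟩

end Pool.Agent.MP_2e2931_gt.Gap

end

section

namespace Pool.Agent.MP_2e2931_gt.Gap

open Set Ordinal

variable {β γ b : K} {p p' p'' q r s t ρ : Cond}

/-- One coordinate of the amalgamation, in the case of a common root. -/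
theorem fam_delta {x : W} (hβ : β < γ) (v₁ : V γ p') (v₂ : V γ q) (r₁ : Rle γ t p')
    (r₂ : Rle γ t q) (m₀ : L b t p'') (m₁ : L β t p') (m₂ : L β t q)
    (he : ∀ a, (β, a) ∈ t.f ↔ (β, a) ∈ p'.f ∨ (β, a) ∈ q.f)
    (Lr : L (Order.succ β) p' r) (Vr : V (Order.succ β) r)
    (rq : ∀ a, (β, a) ∈ r.f → (β, a) ∈ q.f) (tl : Tail β x q r)
    (hpos : ∀ a a', (β, a) ∈ p'.f → (β, a') ∈ q.f → x ≤ a.pos → a'.pos < a.pos)
    (hval : ∀ d m z a, (β, Atom.bd d m) ∈ p'.f → (β, Atom.val z a) ∈ q.f → x ≤ z → z ∈ t.E d →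
      m ≤ a ∨ (β = b ∧ ∃ u m', (β, Atom.cl d u m') ∈ p'.f ∧ m' ≤ a ∧
        Uc b d u (code p' b d u) p'' z)) :
    LocV β t ∧ LocL β t p' ∧ LocL β t q := by
  have hs : β < Order.succ β := Order.lt_succ β
  have w₁ := v₁.loc hβ
  have w₂ := v₂.loc hβ
  have F1 : ∀ a, (β, a) ∈ q.f → a.pos < x → (β, a) ∈ p'.f := fun a ha hx =>
    Lr.sub hs (tl.1 a ha hx)
  have F2 : ∀ a a', (β, a) ∈ p'.f → (β, a') ∈ q.f → a.pos = a'.pos → a'.pos < x := by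
    intro a a' ha ha' e
    by_contra hx
    have := hpos a a' ha ha' (e ▸ not_lt.1 hx)
    exact absurd e.symm this.ne
  have F3 : ∀ a a', (β, a) ∈ t.f → (β, a') ∈ t.f → a.pos = a'.pos →
      ((β, a) ∈ p'.f ∧ (β, a') ∈ p'.f) ∨ ((β, a) ∈ q.f ∧ (β, a') ∈ q.f) := by
    intro a a' ha ha' e
    rcases (he a).1 ha with h | h <;> rcases (he a').1 ha' with h' | h'
    · exact Or.inl ⟨h, h'⟩
    · exact Or.inl ⟨h, F1 a' h' (F2 a a' h h' e)⟩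
    · exact Or.inl ⟨F1 a h (F2 a' a h' h e.symm), h'⟩
    · exact Or.inr ⟨h, h'⟩
  have i₁ : ∀ a, (β, a) ∈ p'.f → (β, a) ∈ t.f := fun a h => (he a).2 (Or.inl h)
  have i₂ : ∀ a, (β, a) ∈ q.f → (β, a) ∈ t.f := fun a h => (he a).2 (Or.inr h)
  refine ⟨⟨?_, ?_, ?_, ?_, ?_, ?_, ?_⟩, ⟨i₁, ?_, ?_⟩, ⟨i₂, ?_, ?_⟩⟩
  · intro a ha
    exact ((he a).1 ha).elim (fun h => i₁ _ (w₁.on a h)) fun h => i₂ _ (w₂.on a h)
  · intro a ha
    exact ((he a).1 ha).elim (fun h => (w₁.pos a h).trans_le r₁.ht)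
      fun h => (w₂.pos a h).trans_le r₂.ht
  · intro ha
    exact ((he _).1 ha).elim (fun h => r₁.T β hβ (w₁.T h)) fun h => r₂.T β hβ (w₂.T h)
  · intro ha
    exact ((he _).1 ha).elim (fun h => (v₁.good hβ h).mono m₁) fun h => (v₂.good hβ h).mono m₂
  · intro z a a' ha ha'
    exact (F3 _ _ ha ha' rfl).elim (fun h => w₁.fn z a a' h.1 h.2) fun h => w₂.fn z a a' h.1 h.2
  · intro d u m u' m' ha ha' hne
    rcases F3 _ _ ha ha' rfl with h | h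
    · obtain ⟨k, hk⟩ := w₁.sep d u m u' m' h.1 h.2 hne
      exact ⟨k, hk.imp (i₁ _) (i₁ _)⟩
    · obtain ⟨k, hk⟩ := w₂.sep d u m u' m' h.1 h.2 hne
      exact ⟨k, hk.imp (i₂ _) (i₂ _)⟩
  · intro d u l ha
    by_cases h : (β, Atom.pm d u l) ∈ p'.f
    · have e : code t β d u = code p' β d u := code_congr fun a hd =>
        ⟨fun h' => ((he a).1 h').elim id fun h'' => F1 a h'' (F2 _ a h h'' hd.symm), i₁ a⟩
      rw [e, r₁.Z β hβ (v₁.supp hβ h) d (w₁.pos _ h)]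
      exact (v₁.pm hβ h).mono m₁
    · have h' := ((he _).1 ha).resolve_left h
      have e : code t β d u = code q β d u := code_congr fun a hd =>
        ⟨fun h₃ => ((he a).1 h₃).elim (fun h₄ => absurd (F1 _ h' (F2 a _ h₄ h' hd)) h) id, i₂ a⟩
      rw [e, r₂.Z β hβ (v₂.supp hβ h') d (w₂.pos _ h')]
      exact (v₂.pm hβ h').mono m₂
  · intro z a d m ha hn hbd hd hz
    have h' := ((he _).1 ha).resolve_left hn
    have hx : x ≤ z := not_lt.1 fun hx => hn (F1 _ h' hx)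
    rcases hval d m z a hbd h' hx (by rw [r₁.E d hd]; exact hz) with h | ⟨rfl, u, m', h1, h2, h3⟩
    · exact Or.inl h
    · exact Or.inr ⟨u, m', h1, h2, h3.mono m₀⟩
  · intro d u m' m ha hn hbd
    have h' := ((he _).1 ha).resolve_left hn
    exact absurd (F1 _ h' (F2 _ _ hbd h' rfl)) hn
  · intro z a d m ha hn hbd hd hz
    have h' := ((he _).1 ha).resolve_right hn
    by_cases hx : d < x
    · have b₁ : (β, Atom.bd d m) ∈ r.f := tl.1 _ hbd hx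
      have d₁ : d < r.ht := (Vr.loc hs).pos _ b₁
      have e : r.E d = q.E d := by
        rw [← Lr.rle.E d d₁, ← r₁.E d (d₁.trans_le Lr.rle.ht), r₂.E d hd]
      have e' : code r β d = code q β d := funext fun u => code_congr fun a hd =>
        ⟨rq a, fun h => tl.1 a h (hd ▸ hx)⟩
      rcases (Lr.loc hs).val z a d m h' (fun h => hn (rq _ h)) b₁ d₁ (e ▸ hz) with
        h | ⟨u, m', h1, h2, h3⟩
      · exact Or.inl h
      · refine Or.inr ⟨u, m', rq _ h1, h2, ?_⟩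
        rw [← e']
        exact Uc.mono h3 m₁
    · have hzd : z < d := (v₂.rv.lad d hd).lt z hz
      have hzx : z < x := not_le.1 fun h => absurd (hpos _ _ h' hbd h) (not_lt.2 hzd.le)
      obtain ⟨a', ha'⟩ := tl.2 d m hbd (not_lt.1 hx) z hz hzx
      rw [← w₁.fn z a a' h' (F1 _ ha' hzx)] at ha'
      exact absurd ha' hn
  · intro d u m' m ha hn hbd
    have h' := ((he _).1 ha).resolve_right hn
    exact (Lr.loc hs).cl d u m' m h' (fun h => hn (rq _ h)) (tl.1 _ hbd (F2 _ _ h' hbd rfl))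

/-- The amalgamation lemma. -/
theorem am_spec (hb : b ≤ γ) (hρ : RV ρ) (v₀ : V b p'') (v₁ : V γ p') (v₂ : V γ q)
    (l₁ : L b p'' p') (l₂ : L b p'' q) (r₀ : Rle b ρ p'') (r₁ : Rle γ ρ p') (r₂ : Rle γ ρ q)
    (H : ∀ β, b ≤ β → β < γ → Cmp b β ρ p'' p' q) :
    V γ (am b ρ p'' p' q) ∧ L γ (am b ρ p'' p' q) p' ∧ L γ (am b ρ p'' p' q) q ∧
      L b (am b ρ p'' p' q) p'' := by
  have _ := hb
  have lo : ∀ β < b, ∀ a, (β, a) ∈ (am b ρ p'' p' q).f ↔ (β, a) ∈ p''.f := fun β h a => by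
    simp [mem_am, h, not_le.2 h]
  have hi : ∀ β, b ≤ β → ∀ a, (β, a) ∈ (am b ρ p'' p' q).f ↔ (β, a) ∈ p'.f ∨ (β, a) ∈ q.f :=
    fun β h a => by simp [mem_am, h, not_lt.2 h]
  have R₀ : Rle b (am b ρ p'' p' q) p'' := r₀.setf_left
  have R₁ : Rle γ (am b ρ p'' p' q) p' := r₁.setf_left
  have R₂ : Rle γ (am b ρ p'' p' q) q := r₂.setf_left
  have m₀ : L b (am b ρ p'' p' q) p'' := L_of_eq R₀ lo
  have key : ∀ β, β < γ → LocV β (am b ρ p'' p' q) ∧ LocL β (am b ρ p'' p' q) p' ∧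
      LocL β (am b ρ p'' p' q) q := by
    intro β
    induction β using WellFoundedLT.induction with
    | ind β ih =>
      intro hβ
      have m₁ : L β (am b ρ p'' p' q) p' :=
        L_iff.2 ⟨R₁.mono hβ.le, fun β' h => (ih β' h (h.trans hβ)).2.1⟩
      have m₂ : L β (am b ρ p'' p' q) q :=
        L_iff.2 ⟨R₂.mono hβ.le, fun β' h => (ih β' h (h.trans hβ)).2.2⟩
      have hs : Order.succ β ≤ γ := Order.succ_le_of_lt hβ
      rcases lt_or_ge β b with h | h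
      · exact ⟨(v₀.loc h).of_le (lo β h) (m₀.mono h.le) (R₀.mono (Order.succ_le_of_lt h)),
          (l₁.loc h).congr_left (lo β h) (m₀.mono h.le),
          (l₂.loc h).congr_left (lo β h) (m₀.mono h.le)⟩
      · rcases H β h hβ with c | c | c | ⟨r, x, c₁, c₂, c₃, c₄, c₅, c₆⟩
        · have e : ∀ a, (β, a) ∈ (am b ρ p'' p' q).f ↔ (β, a) ∈ q.f := fun a => by
            rw [hi β h a, or_iff_right (c a)]
          exact ⟨(v₂.loc hβ).of_le e m₂ (R₂.mono hs), LocL.of_empty c, LocL.of_eq e⟩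
        · have e : ∀ a, (β, a) ∈ (am b ρ p'' p' q).f ↔ (β, a) ∈ p'.f := fun a => by
            rw [hi β h a, or_iff_left (c a)]
          exact ⟨(v₁.loc hβ).of_le e m₁ (R₁.mono hs), LocL.of_eq e, LocL.of_empty c⟩
        · have e : ∀ a, (β, a) ∈ (am b ρ p'' p' q).f ↔ (β, a) ∈ q.f := fun a => by
            rw [hi β h a, c a, or_self]
          exact ⟨(v₂.loc hβ).of_le e m₂ (R₂.mono hs), LocL.of_eq fun a => (e a).trans (c a).symm,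
            LocL.of_eq e⟩
        · exact fam_delta hβ v₁ v₂ R₁ R₂ m₀ m₁ m₂ (hi β h) c₁ c₂ c₃ c₄ c₅ c₆
  refine ⟨V_iff.2 ⟨hρ.setf, ?_, fun β h => (key β h).1⟩, L_iff.2 ⟨R₁, fun β h => (key β h).2.1⟩,
    L_iff.2 ⟨R₂, fun β h => (key β h).2.2⟩, m₀⟩
  refine (v₀.fin.union (v₁.fin.union v₂.fin)).subset fun y hy => ?_
  exact (mem_am.1 hy).elim (fun h => Or.inl h.2) fun h => Or.inr h.2

theorem le_am (hb : b ≤ γ) (v₀ : V b p) (v₁ : V γ s) (l₀ : L b t p) (l₁ : L γ t s)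
    (r : Rle γ t ρ) (r₀ : Rle 0 ρ p) (r₁ : Rle 0 ρ s) : L γ t (am b ρ p s s) := by
  have _ := hb
  refine L_iff.2 ⟨r.setf_right, fun β hβ => ?_⟩
  rcases lt_or_ge β b with h | h
  · exact (l₀.loc h).congr_right (fun a => by simp [mem_am, h, not_le.2 h]) (v₀.loc h)
      r₀.setf_left
  · exact (l₁.loc hβ).congr_right (fun a => by simp [mem_am, h, not_lt.2 h]) (v₁.loc hβ)
      r₁.setf_left

theorem mix_spec (hb : b ≤ γ) (v₀ : V b p) (v₁ : V γ s) (l : L b p s) :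
    V γ (mix b p s) ∧ Le γ (mix b p s) s ∧ L b (mix b p s) p ∧ L b p (mix b p s) := by
  have hR : RL (amR b p s) s := amR_RL l.rle
  obtain ⟨h₁, h₂, -, h₃⟩ := am_spec hb (v₀.rv.amR v₁.rv) v₀ v₁ v₁ l l amR_rle (hR γ) (hR γ)
    fun _ _ _ => Or.inr (Or.inr (Or.inl fun _ => Iff.rfl))
  refine ⟨h₁, ⟨h₂, hR.setf_left⟩, h₃, L_of_eq (rle_amR (ρ := s)).setf_right fun β h a => ?_⟩
  simp [mem_mix, h, not_le.2 h]

end Pool.Agent.MP_2e2931_gt.Gap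

end

section

namespace Pool.Agent.MP_2e2931_gt.Gap

open Set Ordinal

variable {β γ : K} {r : Cond}

/-- Adding finitely many atoms at one coordinate. -/
lemma fadd_gen (h : V γ r) {f : Set (K × Atom)} (N : Set Atom) (hN : N.Finite)
    (hf : ∀ y, y ∈ f ↔ y ∈ r.f ∨ (y.1 = β ∧ y.2 ∈ N))
    (hon : (β, Atom.on) ∈ f) (hT : β < γ → β ∈ r.T ∧ Good β r)
    (hpos : ∀ a ∈ N, a.pos < r.ht)
    (hval : ∀ z a, Atom.val z a ∈ N → (∀ a', (β, Atom.val z a') ∈ f → a' = a) ∧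
      ∀ d m, (β, Atom.bd d m) ∈ r.f → m ≤ a)
    (hcl : ∀ d t a, Atom.cl d t a ∈ N → (∀ m, (β, Atom.bd d m) ∈ r.f → m ≤ a) ∧
      ∀ t' a', (β, Atom.cl d t' a') ∈ f → t' ≠ t → ∃ k, (β, Atom.sh d t' t k) ∈ f)
    (hpm : β < γ → ∀ d t l, (β, Atom.pm d t l) ∈ f →
      Dec β (r.Z β d l) r (.cd t (code (setf r f) β d t))) :
    V γ (setf r f) ∧ L γ (setf r f) r := by
  have hsub : ∀ {y}, y ∈ r.f → y ∈ f := fun hy => (hf _).2 (Or.inl hy)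
  have hc : ∀ {a}, (β, a) ∈ f → (β, a) ∈ r.f ∨ a ∈ N := fun ha => ((hf _).1 ha).imp id And.right
  refine modify (β := β) h h.rv.setf ((h.fin.union (hN.image (Prod.mk β))).subset ?_)
    Rle.refl.setf_left (fun β' hb a => by simp [hf, hb]) fun hβ hl => ⟨?_, ?_⟩
  · rintro ⟨b, a⟩ hy
    rcases (hf _).1 hy with h1 | ⟨rfl, h1⟩
    exacts [Or.inl h1, Or.inr ⟨a, h1, rfl⟩]
  · have hv := h.loc hβ
    refine ⟨fun _ _ => hon, fun a ha => (hc ha).elim (hv.pos a) (hpos a), fun _ => (hT hβ).1,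
      fun _ => (hT hβ).2.mono hl, fun z a a' h1 h2 => ?_, fun d t m t' m' h1 h2 hne => ?_,
      fun d t l h1 => (hpm hβ d t l h1).mono hl⟩
    · rcases hc h1 with h3 | h3
      · rcases hc h2 with h4 | h4
        exacts [hv.fn z a a' h3 h4, (hval z a' h4).1 a h1]
      · exact ((hval z a h3).1 a' h2).symm
    · rcases hc h1 with h3 | h3
      · rcases hc h2 with h4 | h4
        · exact (hv.sep d t m t' m' h3 h4 hne).imp fun k hk => hk.imp hsub hsub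
        · exact ((hcl d t' m' h4).2 t m h1 hne).imp fun k => Or.inl
      · exact ((hcl d t m h3).2 t' m' h2 hne.symm).imp fun k => Or.inr
  · exact ⟨fun a => hsub,
      fun z a d m h1 h2 h3 _ _ => Or.inl ((hval z a ((hc h1).resolve_left h2)).2 d m h3),
      fun d t m' m h1 h2 h3 => (hcl d t m' ((hc h1).resolve_left h2)).1 m h3⟩

lemma fadd_code {f : Set (K × Atom)} {N : Set Atom}
    (hf : ∀ y, y ∈ f ↔ y ∈ r.f ∨ (y.1 = β ∧ y.2 ∈ N)) {d : W} {t : Nn}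
    (hN : ∀ t' m, Atom.sh d t t' m ∉ N) : code (setf r f) β d t = code r β d t := by
  ext y
  simp [code, hf, hN]

lemma fadd_ins (a : Atom) (y : K × Atom) :
    y ∈ insert (β, a) r.f ↔ y ∈ r.f ∨ (y.1 = β ∧ y.2 ∈ ({a} : Set Atom)) := by
  simp [Prod.ext_iff, or_comm]

theorem fadd_bound (h : r.f.Finite) : ∃ M, ∀ β d m, (β, Atom.bd d m) ∈ r.f → m ≤ M := by
  obtain ⟨M, hM⟩ := (h.image fun y => y.2.rest.2.2.2).bddAbove
  exact ⟨M, fun β d m hm => hM ⟨_, hm, rfl⟩⟩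

theorem exists_addv (h : V γ r) (hβ : β < γ) (ho : (β, Atom.on) ∈ r.f) {Zs : Set W}
    (hZ : Zs.Finite) (hlt : ∀ z ∈ Zs, z < r.ht) (M : ℕ) :
    ∃ f, V γ (setf r f) ∧ L γ (setf r f) r ∧ r.f ⊆ f ∧
      (∀ y ∈ f, y ∈ r.f ∨ ∃ z ∈ Zs, ∃ a, M ≤ a ∧ (∀ a', (β, Atom.val z a') ∉ r.f) ∧
        y = (β, Atom.val z a)) ∧ ∀ z ∈ Zs, ∃ a, (β, Atom.val z a) ∈ f := by
  obtain ⟨M', hM⟩ := fadd_bound h.fin
  let N : Set Atom := (fun z => Atom.val z (max M M')) '' {z ∈ Zs | ∀ a', (β, Atom.val z a') ∉ r.f}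
  have hf : ∀ y : K × Atom, y ∈ {y | y ∈ r.f ∨ (y.1 = β ∧ y.2 ∈ N)} ↔
      y ∈ r.f ∨ (y.1 = β ∧ y.2 ∈ N) := fun _ => Iff.rfl
  have key := fadd_gen h N ((hZ.subset fun _ hz => hz.1).image _) hf (Or.inl ho)
    (fun _ => ⟨h.supp hβ ho, h.good hβ ho⟩) (by rintro _ ⟨z, hz, rfl⟩; exact hlt z hz.1)
    (by
      rintro z a ⟨z', hz, e⟩
      cases e
      refine ⟨fun a' h1 => ?_, fun d m h1 => (hM β d m h1).trans (le_max_right _ _)⟩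
      rcases h1 with h1 | ⟨-, z', -, e⟩
      · exact absurd h1 (hz.2 a')
      · cases e; rfl)
    (by rintro d t a ⟨z, -, e⟩; cases e)
    (by
      intro _ d t l h1
      rw [fadd_code hf (by rintro t' m ⟨z, -, e⟩; cases e)]
      rcases h1 with h1 | ⟨-, z', -, e⟩
      · exact h.pm hβ h1
      · cases e)
  refine ⟨_, key.1, key.2, fun _ => Or.inl, ?_, fun z hz => ?_⟩
  · rintro ⟨b, a⟩ (h1 | ⟨rfl, z, hz, rfl⟩)
    exacts [Or.inl h1, Or.inr ⟨z, hz.1, _, le_max_left _ _, hz.2, rfl⟩]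
  · by_cases h1 : ∃ a, (β, Atom.val z a) ∈ r.f
    · exact h1.imp fun _ => Or.inl
    · exact ⟨_, Or.inr ⟨rfl, z, ⟨hz, not_exists.1 h1⟩, rfl⟩⟩

theorem exists_close (h : V γ r) (hβ : β < γ) {x : W} (hx : r.E x = ∅) :
    ∃ f, V γ (setf r f) ∧ L γ (setf r f) r ∧ Clo β x (setf r f) ∧
      ∀ y : K × Atom, y.1 ≠ β → (y ∈ f ↔ y ∈ r.f) := by
  have hv := h.loc hβ
  by_cases ho : (β, Atom.on) ∈ r.f
  swap
  · exact ⟨r.f, h, L.refl, fun d m h1 => absurd (hv.on _ h1) ho, fun _ _ => Iff.rfl⟩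
  have hZ : {z | z < x ∧ ∃ d m, (β, Atom.bd d m) ∈ r.f ∧ x ≤ d ∧ z ∈ r.E d}.Finite := by
    have hD : {d | ∃ m, (β, Atom.bd d m) ∈ r.f ∧ x ≤ d}.Finite :=
      (h.fin.image fun y => y.2.pos).subset fun d ⟨m, hm, _⟩ => ⟨_, hm, rfl⟩
    refine (hD.biUnion (t := fun d => r.E d ∩ Iio x) ?_).subset ?_
    · rintro d ⟨m, hm, hd⟩
      rcases hd.eq_or_lt with rfl | hd
      · simp [hx]
      · exact (h.rv.lad d (hv.pos _ hm)).fin x hd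
    · rintro z ⟨hz, d, m, hm, hd, hz'⟩
      exact mem_biUnion (t := fun d => r.E d ∩ Iio x) (x := d) ⟨m, hm, hd⟩ ⟨hz', hz⟩
  obtain ⟨f, h1, h2, h3, h4, h5⟩ := exists_addv h hβ ho hZ
    (fun z ⟨hz, d, m, hm, hd, _⟩ => (hz.trans_le hd).trans (hv.pos _ hm)) 0
  refine ⟨f, h1, h2, fun d m hm hd z hz hz' => h5 z ⟨hz', d, m, ?_, hd, hz⟩,
    fun y hy => ⟨fun h6 => ?_, fun h6 => h3 h6⟩⟩
  · rcases h4 _ hm with h6 | ⟨z, -, a, -, -, e⟩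
    · exact h6
    · cases e
  · rcases h4 _ h6 with h6 | ⟨z, -, a, -, -, rfl⟩
    · exact h6
    · exact absurd rfl hy

theorem exists_low (h : V (Order.succ β) r) {x : W} (hx : w0 < x) :
    ∃ c, V (Order.succ β) c ∧ L (Order.succ β) r c ∧
      ∀ a, (β, a) ∈ c.f ↔ (β, a) ∈ r.f ∧ a.pos < x := by
  have hβ : β < Order.succ β := Order.lt_succ β
  have hv := h.loc hβ
  let c := setf r {y | y ∈ r.f ∧ (y.1 = β → y.2.pos < x)}
  have h1 : ∀ a, (β, a) ∈ c.f ↔ (β, a) ∈ r.f ∧ a.pos < x := fun a => by simp [c]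
  have h2 : ∀ β' < β, ∀ a, (β', a) ∈ c.f ↔ (β', a) ∈ r.f := fun β' hb a => by simp [c, hb.ne]
  have hf : c.f.Finite := h.fin.subset fun _ hy => hy.1
  have hl : L β c r := L_of_eq Rle.refl.setf_left h2
  have hV : V β c := V_of_eq (h.mono hβ.le) h.rv.setf hf Rle.refl.setf_left h2
  refine ⟨c, V_iff.2 ⟨h.rv.setf, hf, fun β' hb => ?_⟩,
    L_iff.2 ⟨Rle.refl.setf_right, fun β' hb => ?_⟩, h1⟩
  · rcases (Order.lt_succ_iff.1 hb).eq_or_lt with rfl | hb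
    swap
    · exact hV.loc hb
    refine ⟨fun a ha => (h1 _).2 ⟨hv.on a ha.1, hx⟩, fun a ha => hv.pos a ha.1,
      fun ha => hv.T ha.1, fun ha => Good.mono (hv.good ha.1) hl,
      fun z a a' h3 h4 => hv.fn z a a' h3.1 h4.1, fun d t m t' m' h3 h4 hne => ?_,
      fun d t l h3 => ?_⟩
    · have hd : d < x := h3.2 rfl
      exact (hv.sep d t m t' m' h3.1 h4.1 hne).imp fun k hk =>
        hk.imp (fun h5 => (h1 _).2 ⟨h5, hd⟩) fun h5 => (h1 _).2 ⟨h5, hd⟩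
    · have hd : d < x := h3.2 rfl
      rw [code_congr (p := c) (q := r) fun a ha => by rw [h1, ha, and_iff_left hd]]
      exact (h.pm hβ h3.1).mono hl
  · rcases (Order.lt_succ_iff.1 hb).eq_or_lt with rfl | hb
    swap
    · exact LocL.of_eq fun a => (h2 β' hb a).symm
    refine ⟨fun a ha => ha.1, fun z a d m h3 h4 h5 h6 h7 => ?_, fun d t m' m h3 h4 h5 => ?_⟩
    · exact absurd ((h1 _).2 ⟨h3, ((h.rv.lad d h6).lt z h7).trans (h5.2 rfl)⟩) h4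
    · exact absurd ((h1 _).2 ⟨h3, h5.2 rfl⟩) h4

theorem add_on (h : V γ r) (h₀ : w0 < r.ht) (hT : β ∈ r.T) (hg : Good β r) :
    V γ (setf r (insert (β, Atom.on) r.f)) ∧ L γ (setf r (insert (β, Atom.on) r.f)) r := by
  refine fadd_gen h _ (finite_singleton _) (fadd_ins _) (mem_insert _ _) (fun _ => ⟨hT, hg⟩)
    (by rintro _ rfl; exact h₀) (by simp) (by simp) fun hβ d t l h1 => ?_
  rw [fadd_code (fadd_ins _) (by simp)]
  exact h.pm hβ (by simpa using h1)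

theorem add_bd (h : V γ r) (ho : (β, Atom.on) ∈ r.f) {d : W} (hd : d < r.ht) (m : ℕ) :
    V γ (setf r (insert (β, Atom.bd d m) r.f)) ∧ L γ (setf r (insert (β, Atom.bd d m) r.f)) r := by
  refine fadd_gen h _ (finite_singleton _) (fadd_ins _) (mem_insert_of_mem _ ho)
    (fun hβ => ⟨h.supp hβ ho, h.good hβ ho⟩)
    (by rintro _ rfl; exact hd) (by simp) (by simp) fun hβ d t l h1 => ?_
  rw [fadd_code (fadd_ins _) (by simp)]
  exact h.pm hβ (by simpa using h1)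

theorem add_pm (h : V γ r) (ho : (β, Atom.on) ∈ r.f) {d : W} (hd : d < r.ht) {t : Nn} {l : ℕ}
    (H : Dec β (r.Z β d l) r (.cd t (code r β d t))) :
    V γ (setf r (insert (β, Atom.pm d t l) r.f)) ∧
      L γ (setf r (insert (β, Atom.pm d t l) r.f)) r := by
  refine fadd_gen h _ (finite_singleton _) (fadd_ins _) (mem_insert_of_mem _ ho)
    (fun hβ => ⟨h.supp hβ ho, h.good hβ ho⟩)
    (by rintro _ rfl; exact hd) (by simp) (by simp) fun hβ d t l h1 => ?_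
  rw [fadd_code (fadd_ins _) (by simp)]
  rcases h1 with e | h1
  · cases e
    exact H
  · exact h.pm hβ h1

/-- A level above all nodes mentioned in a finite set of atoms. -/
theorem exists_fresh (h : r.f.Finite) : ∃ j, ∀ β d (t : Nn), j ≤ t.2.1 →
    (∀ m, (β, Atom.cl d t m) ∉ r.f) ∧ (∀ t' m, (β, Atom.sh d t t' m) ∉ r.f) ∧
      ∀ l, (β, Atom.pm d t l) ∉ r.f := by
  obtain ⟨M, hM⟩ := (h.image fun y => y.2.rest.2.1.2.1).bddAbove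
  refine ⟨M + 1, fun β d t ht => ⟨fun m hm => ?_, fun t' m hm => ?_, fun l hm => ?_⟩⟩ <;>
    exact absurd (ht.trans (hM ⟨_, hm, rfl⟩)) (Nat.not_succ_le_self M)

theorem exists_bd_bound (h : r.f.Finite) : ∃ M, ∀ β d m, (β, Atom.bd d m) ∈ r.f → m ≤ M := by
  exact fadd_bound h

/-- A new cluster `t`; all old clusters are separated from it. -/
theorem add_cluster (h : V γ r) (ho : (β, Atom.on) ∈ r.f) {d : W} (hd : d < r.ht) {t : Nn}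
    {a k l : ℕ} (f₁ : ∀ m, (β, Atom.cl d t m) ∉ r.f) (f₂ : ∀ t' m, (β, Atom.sh d t t' m) ∉ r.f)
    (f₃ : ∀ l, (β, Atom.pm d t l) ∉ r.f) (ha : ∀ m, (β, Atom.bd d m) ∈ r.f → m ≤ a)
    (H₁ : Dec β (r.Z β d l) r (.cd t ∅))
    (H₂ : ∀ t' l', (β, Atom.pm d t' l') ∈ r.f →
      Dec β (r.Z β d l') r (.cd t' (insert (t, k) (code r β d t')))) :
    ∃ f, V γ (setf r f) ∧ L γ (setf r f) r ∧ (β, Atom.cl d t a) ∈ f ∧ (β, Atom.pm d t l) ∈ f ∧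
      ∀ y : K × Atom, y.1 ≠ β → (y ∈ f ↔ y ∈ r.f) := by
  let T : Set Nn := {t' | (∃ m, (β, Atom.cl d t' m) ∈ r.f) ∨ ∃ l', (β, Atom.pm d t' l') ∈ r.f}
  have hT : T.Finite := (h.fin.image fun y => y.2.rest.2.1).subset fun t' ht' =>
    ht'.elim (fun ⟨_, hm⟩ => ⟨_, hm, rfl⟩) fun ⟨_, hm⟩ => ⟨_, hm, rfl⟩
  let N : Set Atom := insert (Atom.cl d t a) (insert (Atom.pm d t l)
    ((fun t' => Atom.sh d t' t k) '' T))
  have hf : ∀ y : K × Atom, y ∈ {y | y ∈ r.f ∨ (y.1 = β ∧ y.2 ∈ N)} ↔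
      y ∈ r.f ∨ (y.1 = β ∧ y.2 ∈ N) := fun _ => Iff.rfl
  have key := fadd_gen h N (((hT.image _).insert _).insert _) hf (Or.inl ho)
    (fun hβ => ⟨h.supp hβ ho, h.good hβ ho⟩)
    (by rintro _ (rfl | rfl | ⟨z, hz, rfl⟩) <;> exact hd)
    (by rintro z a (e | e | ⟨z', hz, e⟩) <;> cases e)
    (by
      rintro d t a (e | e | ⟨z', hz, e⟩) <;> cases e
      refine ⟨ha, fun t' a' h1 hne => ⟨k, Or.inr ⟨rfl, Or.inr (Or.inr ⟨t', ?_, rfl⟩)⟩⟩⟩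
      rcases h1 with h1 | ⟨-, e | e | ⟨z', hz, e⟩⟩
      · exact Or.inl ⟨a', h1⟩
      · cases e; exact absurd rfl hne
      · cases e
      · cases e)
    (by
      rintro hβ d' t' l' (h1 | ⟨-, e | e | ⟨z', hz, e⟩⟩)
      · by_cases hd' : d' = d
        · subst hd'
          have ht' : t' ∈ T := Or.inr ⟨l', h1⟩
          convert H₂ t' l' h1 using 2
          ext ⟨u, m⟩
          simp only [code, setf_f, mem_ofPred_eq, N, mem_insert_iff, mem_image, reduceCtorEq,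
            false_or, true_and, Atom.sh.injEq, Prod.mk.injEq]
          constructor
          · rintro (h2 | ⟨_, -, -, rfl, rfl⟩)
            exacts [Or.inr h2, Or.inl ⟨rfl, rfl⟩]
          · rintro (⟨rfl, rfl⟩ | h2)
            exacts [Or.inr ⟨t', ht', rfl, rfl, rfl⟩, Or.inl h2]
        · rw [fadd_code hf]
          · exact h.pm hβ h1
          · rintro u m (e | e | ⟨z', hz, e⟩) <;> cases e
            exact hd' rfl
      · cases e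
      · cases e
        rw [fadd_code hf]
        · convert H₁ using 2
          exact eq_empty_of_forall_notMem fun y hy => f₂ _ _ hy
        · rintro u m (e | e | ⟨z', hz, e⟩) <;> cases e
          exact hz.elim (fun ⟨m, hm⟩ => f₁ m hm) fun ⟨m, hm⟩ => f₃ m hm
      · cases e)
  exact ⟨_, key.1, key.2, Or.inr ⟨rfl, Or.inl rfl⟩, Or.inr ⟨rfl, Or.inr (Or.inl rfl)⟩,
    fun y hy => or_iff_left fun h1 => hy h1.1⟩

end Pool.Agent.MP_2e2931_gt.Gap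

end

section

namespace Pool.Agent.MP_2e2931_gt.Gap

open Set Ordinal

instance : Preorder PP where
  le q p := ∀ α, L α q.1 p.1
  le_refl _ _ := L.refl
  le_trans _ _ _ h h' α := (h α).trans (h' α)

theorem PP.le_def {q p : PP} : q ≤ p ↔ ∀ α, L α q.1 p.1 := Iff.rfl

theorem locV_of_empty {β : K} {c : Cond} (h : ∀ a, (β, a) ∉ c.f) : LocV β c :=
  ⟨fun a ha => (h a ha).elim, fun a ha => (h a ha).elim, fun ha => (h _ ha).elim,
    fun ha => (h _ ha).elim, fun _ _ _ ha => (h _ ha).elim, fun _ _ _ _ _ ha => (h _ ha).elim,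
    fun _ _ _ ha => (h _ ha).elim⟩

theorem exists_pp_top : ∃ t : PP, ∀ p : PP, p ≤ t := by
  obtain ⟨c, h₁, h₂, h₃, h₄⟩ := exists_top_cond
  have he : ∀ y, y ∉ c.f := fun y hy => by
    rw [h₃] at hy
    exact hy
  have hT : ∀ y, y ∉ c.T := fun y hy => by
    rw [h₂] at hy
    exact hy
  have hx : ∀ x, ¬ x < c.ht := fun x hx => by
    rw [h₁] at hx
    exact absurd hx (not_lt.2 (w0_le x))
  refine ⟨⟨c, fun α => V_iff.2 ⟨h₄, ?_, fun β _ => locV_of_empty fun a => he _⟩⟩,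
    fun p α => L_iff.2 ⟨⟨not_lt.1 (hx _), fun x h => (hx x h).elim, fun x h => (hx x h).elim,
      fun β _ h => (hT β h).elim, fun β _ h => (hT β h).elim⟩,
      fun β _ => LocL.of_empty fun a => he _⟩⟩
  rw [h₃]
  exact finite_empty

noncomputable instance : OrderTop PP where
  top := exists_pp_top.choose
  le_top := exists_pp_top.choose_spec

theorem V_all {γ : K} {c : Cond} (h : V γ c) (hf : ∀ y ∈ c.f, y.1 < γ) (α : K) : V α c := by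
  refine V_iff.2 ⟨h.rv, h.fin, fun β _ => ?_⟩
  by_cases hβ : β < γ
  · exact h.loc hβ
  · exact locV_of_empty fun a ha => hβ (hf _ ha)

theorem PP.bound (p : PP) : ∃ α, p.1.T ⊆ Iio α := by
  have h := (p.2 0).rv.ct.to_subtype
  obtain ⟨b, hb⟩ : BddAbove p.1.T := Ordinal.bddAbove_of_small
  exact ⟨Order.succ b, fun β hβ => Order.lt_succ_of_le (hb hβ)⟩

theorem PP.le_of {α : K} {q p : PP} (h : L α q.1 p.1) (hp : p.1.T ⊆ Iio α) : q ≤ p :=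
  fun β => L_of_supp h (p.2 β) fun _ hγ _ => hp hγ

theorem PP.amalg {α : K} {r : Cond} (s : PP) (hr : V α r) (hrs : L α r s.1) :
    ∃ t : PP, t ≤ s ∧ L α t.1 r :=
  ⟨⟨mix α r s.1, fun γ =>
      (mix_spec (le_max_right γ α) hr (s.2 _) hrs).1.mono (le_max_left γ α)⟩,
    fun γ => (mix_spec (le_max_right γ α) hr (s.2 _) hrs).2.1.1.mono (le_max_left γ α),
    (mix_spec le_rfl hr (s.2 α) hrs).2.2.1⟩

theorem PP.sub {q p : PP} (h : q ≤ p) : p.1.f ⊆ q.1.f :=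
  fun y hy => (h (Order.succ y.1)).sub (a := y.2) (Order.lt_succ y.1) hy

/-- End extensions of the countable part with the same atoms. -/
theorem PP.of_RL (p : PP) {c : Cond} (hv : RV c) (hl : RL c p.1) (hf : c.f = p.1.f) :
    ∃ q ≤ p, q.1 = c := by
  have he : ∀ y, y ∈ c.f ↔ y ∈ p.1.f := fun y => by rw [hf]
  have hfin : c.f.Finite := by
    rw [hf]
    exact (p.2 0).fin
  exact ⟨⟨c, fun α => V_of_eq (p.2 α) hv hfin (hl α) fun _ _ _ => he _⟩,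
    fun α => L_of_eq (hl α) fun _ _ _ => he _, rfl⟩

theorem PP.ht_dense (p : PP) (y : W) : ∃ q ≤ p, y < q.1.ht := by
  obtain ⟨c, h₁, h₂, h₃, -, h₄⟩ := exists_ht (p.2 0).rv y
  obtain ⟨q, hq, rfl⟩ := p.of_RL h₁ h₂ h₄
  exact ⟨q, hq, h₃⟩

theorem PP.on_dense (p : PP) {β : K} (h : Good β p.1) : ∃ q ≤ p, (β, Atom.on) ∈ q.1.f := by
  obtain ⟨q₁, hq₁, h₀⟩ := p.ht_dense w0
  obtain ⟨c, h₁, h₂, h₃, h₄⟩ := exists_addT (q₁.2 0).rv β
  obtain ⟨q₂, hq₂, rfl⟩ := q₁.of_RL h₁ h₂ h₄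
  have hw : w0 < q₂.1.ht := h₀.trans_le (h₂ 0).ht
  have hg : Good β q₂.1 := h.mono ((hq₂.trans hq₁) β)
  let q₃ : PP := ⟨setf q₂.1 (insert (β, Atom.on) q₂.1.f), fun γ => (add_on (q₂.2 γ) hw h₃ hg).1⟩
  have hq₃ : q₃ ≤ q₂ := fun γ => (add_on (q₂.2 γ) hw h₃ hg).2
  exact ⟨q₃, hq₃.trans (hq₂.trans hq₁), mem_insert _ _⟩

theorem PP.val_dense (p : PP) {β : K} (h : (β, Atom.on) ∈ p.1.f) (z : W) :
    ∃ q ≤ p, ∃ a, (β, Atom.val z a) ∈ q.1.f := by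
  obtain ⟨q₁, hq₁, h₀⟩ := p.ht_dense z
  obtain ⟨α, hα⟩ := q₁.bound
  have hβ : β < α := hα ((q₁.2 (Order.succ β)).supp (Order.lt_succ β) (PP.sub hq₁ h))
  obtain ⟨f, h₁, h₂, -, h₃, h₄⟩ := exists_addv (q₁.2 α) hβ (PP.sub hq₁ h) (finite_singleton z)
    (fun x hx => (mem_singleton_iff.1 hx) ▸ h₀) 0
  have hf : ∀ y ∈ (setf q₁.1 f).f, y.1 < α := by
    intro y hy
    rcases h₃ y hy with hy' | ⟨_, _, _, _, _, rfl⟩
    · exact hα ((q₁.2 (Order.succ y.1)).supp (a := y.2) (Order.lt_succ y.1) hy')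
    · exact hβ
  let q₂ : PP := ⟨setf q₁.1 f, V_all h₁ hf⟩
  have hq₂ : q₂ ≤ q₁ := PP.le_of h₂ hα
  exact ⟨q₂, hq₂.trans hq₁, h₄ z rfl⟩

theorem PP.bd_dense (p : PP) {β : K} (h : (β, Atom.on) ∈ p.1.f) (d : W) (m : ℕ) :
    ∃ q ≤ p, (β, Atom.bd d m) ∈ q.1.f := by
  obtain ⟨q₁, hq₁, h₀⟩ := p.ht_dense d
  have ho := PP.sub hq₁ h
  let q₂ : PP :=
    ⟨setf q₁.1 (insert (β, Atom.bd d m) q₁.1.f), fun γ => (add_bd (q₁.2 γ) ho h₀ m).1⟩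
  have hq₂ : q₂ ≤ q₁ := fun γ => (add_bd (q₁.2 γ) ho h₀ m).2
  exact ⟨q₂, hq₂.trans hq₁, mem_insert _ _⟩

theorem exists_long_closure (F : K → K) (α₀ : K) : ∃ α : K, α₀ ≤ α ∧
    ∀ c : Set K, c.Countable → c ⊆ Iio α → ∃ β, α₀ ≤ β ∧ β ≤ α ∧ F β ≤ α ∧ c ⊆ Iio β := by
  let G : K → K := fun β => max (F (max β α₀)) (max β α₀)
  let a : K → K := (wellFounded_lt (α := K)).fix fun ξ ih => ⨆ η : Iio ξ, G (ih η.1 η.2)
  have ha : ∀ ξ, a ξ = ⨆ η : Iio ξ, G (a η.1) := fun ξ => by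
    conv_lhs => simp only [a]; rw [WellFounded.fix_eq]
  have hle : ∀ η ξ, η < ξ → G (a η) ≤ a ξ := fun η ξ h => by
    rw [ha ξ]
    exact le_ciSup (f := fun η : Iio ξ => G (a η.1)) Ordinal.bddAbove_of_small ⟨η, h⟩
  have hG : ∀ β, max β α₀ ≤ G β := fun β => le_max_right _ _
  refine ⟨a ω₁, ((le_max_right _ _).trans (hG _)).trans (hle 0 _ (omega_pos 1)), fun c hc hcα => ?_⟩
  have : ∀ β ∈ c, ∃ η : W, β < G (a η.1) := by
    intro β hβ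
    have h : β < a ω₁ := hcα hβ
    rw [ha] at h
    have : Nonempty (Iio (ω₁ : K)) := ⟨w0⟩
    exact (lt_ciSup_iff Ordinal.bddAbove_of_small).1 h
  have _ : Nonempty W := ⟨w0⟩
  choose! f hf using this
  obtain ⟨b, hb⟩ := W.exists_gt (hc.image f)
  refine ⟨max (a b.1) α₀, le_max_right _ _, (hG _).trans (hle _ _ b.2),
    (le_max_left _ _).trans (hle _ _ b.2), fun β hβ => ?_⟩
  exact lt_max_of_lt_left ((hf β hβ).trans_le (hle _ _ (hb _ ⟨β, hβ, rfl⟩)))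

/-- Set many dense sets are captured at some level. -/
theorem capture {ι : Type 1} [Small.{0} ι] (p₀ : PP) (D : ι → PP → Prop)
    (hD : ∀ i q, q ≤ p₀ → ∃ r ≤ q, D i r) :
    ∃ α, p₀.1.T ⊆ Iio α ∧ ∀ i q, V α q → L α q p₀.1 →
      ∃ r : PP, D i r ∧ r.1.T ⊆ Iio α ∧ L α r.1 q := by
  have key : ∀ β, ∃ b, ∀ i, ∀ s : PP, s.1 ∈ S β → s ≤ p₀ →
      ∃ r ≤ s, D i r ∧ r.1.T ⊆ Iio b := by
    intro β
    have := small_S β
    have h : ∀ x : ι × S β, ∃ b, ∀ s : PP, s.1 = x.2.1 → s ≤ p₀ →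
        ∃ r ≤ s, D x.1 r ∧ r.1.T ⊆ Iio b := by
      rintro ⟨i, s, hs⟩
      by_cases h : ∃ s' : PP, s'.1 = s ∧ s' ≤ p₀
      · obtain ⟨s', rfl, h⟩ := h
        obtain ⟨r, hr, hd⟩ := hD i s' h
        obtain ⟨b, hb⟩ := r.bound
        exact ⟨b, fun t ht _ => ⟨r, (Subtype.ext ht : t = s') ▸ hr, hd, hb⟩⟩
      · exact ⟨0, fun t ht h' => absurd ⟨t, ht, h'⟩ h⟩
    choose f hf using h
    obtain ⟨b, hb⟩ : BddAbove (range f) := Ordinal.bddAbove_of_small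
    refine ⟨b, fun i s hs hsp => ?_⟩
    obtain ⟨r, h₁, h₂, h₃⟩ := hf (i, ⟨s.1, hs⟩) s rfl hsp
    exact ⟨r, h₁, h₂, h₃.trans (Iio_subset_Iio (hb ⟨_, rfl⟩))⟩
  choose F hF using key
  obtain ⟨α₀, h₀⟩ := p₀.bound
  obtain ⟨α, hα, H⟩ := exists_long_closure F α₀
  refine ⟨α, h₀.trans (Iio_subset_Iio hα), fun i q hq hqp => ?_⟩
  obtain ⟨β, h₁, h₂, h₃, h₄⟩ :=
    H (q.T ∩ Iio α) (hq.rv.ct.mono inter_subset_left) inter_subset_right
  let s' : PP := ⟨cut β q, (hq.mono h₂).cut⟩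
  obtain ⟨r, h₅, h₆, h₇⟩ := hF β i s' (cut_mem_S hq.rv)
    (PP.le_of (cut_L.trans (hqp.mono h₂)) (h₀.trans (Iio_subset_Iio h₁)))
  exact ⟨r, h₆, h₇.trans (Iio_subset_Iio h₃),
    (h₅ α).trans (L_of_supp cut_L hq fun γ hγ hlt => h₄ ⟨hγ, hlt⟩)⟩

end Pool.Agent.MP_2e2931_gt.Gap

end

section

namespace Pool.Agent.MP_2e2931_gt.Gap

open Set Ordinal

section Mem

variable {N : Set Ob} {α β : Type*} [Cod α] [Cod β]

@[simp] theorem mem_prod {a : α} {b : β} : Mem N (a, b) ↔ Mem N a ∧ Mem N b := Iff.rfl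

@[simp] theorem mem_nat {n : ℕ} : Mem N n := trivial

theorem mem_list {l : List α} : Mem N l ↔ ∀ a ∈ l, Mem N a := by
  induction l with
  | nil => simp only [List.not_mem_nil, false_imp_iff, implies_true, iff_true]; trivial
  | cons a l ih =>
    simp only [List.mem_cons, forall_eq_or_imp, ← ih]
    rfl

theorem mem_atom {a : Atom} : Mem N a ↔ Mem N a.pos := by
  exact ⟨fun h => h.1, fun h => ⟨h, trivial, ⟨trivial, trivial, trivial⟩,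
    ⟨trivial, trivial, trivial⟩, trivial⟩⟩

theorem mem_W {z : W} : Mem N z ↔ Mem N (z.1 : K) := Iff.rfl

def Ob.lev (N : Set Ob) : ℕ → Set Ob
  | 0 => N ∪ range Ob.nat
  | i + 1 => Ob.lev N i ∪ image2 Ob.pr (Ob.lev N i) (Ob.lev N i)

theorem Ob.lev_mono (N : Set Ob) : Monotone (Ob.lev N) :=
  monotone_nat_of_le_succ fun _ => subset_union_left

theorem Ob.countable_in (h : N.Countable) : {o : Ob | o.In N}.Countable := by
  have h₁ : ∀ n, (Ob.lev N n).Countable := by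
    intro n
    induction n with
    | zero => exact h.union (countable_range _)
    | succ n ih => exact ih.union (ih.image2 ih _)
  refine (countable_iUnion h₁).mono fun o ho => mem_iUnion.2 ?_
  induction o with
  | nat n => exact ⟨0, Or.inr ⟨n, rfl⟩⟩
  | pr a b iha ihb =>
    obtain ⟨m, hm⟩ := iha ho.1
    obtain ⟨n, hn⟩ := ihb ho.2
    exact ⟨max m n + 1, Or.inr ⟨a, Ob.lev_mono N (le_max_left _ _) hm, b,
      Ob.lev_mono N (le_max_right _ _) hn, rfl⟩⟩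
  | _ => exact ⟨0, Or.inl ho⟩

theorem countable_mem (h : N.Countable) : {a : α | Mem N a}.Countable := by
  exact (Ob.countable_in h).preimage Cod.inj

end Mem

variable {Φ Ψ : Set Ob → W → Cond → Prop} {N : Set Ob} {η : W} {ρ ρ' : Cond}

theorem GM.ext (h : GM N η ρ) (hv : RV ρ') (hl : RL ρ' ρ) : GM N η ρ' := by
  refine ⟨h.ct, h.eta, hv, h.ht.trans (hl 0).ht, fun D hD H => ?_⟩
  obtain ⟨c, h₁, h₂, h₃, h₄⟩ := h.gen D hD H
  exact ⟨c, h₁, h₂, h₃, hl.trans h₄⟩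

theorem AE.of_all (H : ∀ N η ρ, GM N η ρ → Φ N η ρ) : AE Φ := by
  exact ⟨∅, countable_empty, fun N η ρ h _ => H N η ρ h⟩

theorem AE.mono (h : AE Φ) (H : ∀ N η ρ, GM N η ρ → Φ N η ρ → Ψ N η ρ) : AE Ψ := by
  obtain ⟨R, hR, h⟩ := h
  exact ⟨R, hR, fun N η ρ h₁ h₂ => H N η ρ h₁ (h N η ρ h₁ h₂)⟩

theorem AE.and (h : AE Φ) (h' : AE Ψ) : AE fun N η ρ => Φ N η ρ ∧ Ψ N η ρ := by
  obtain ⟨R, hR, h⟩ := h
  obtain ⟨R', hR', h'⟩ := h'
  exact ⟨R ∪ R', hR.union hR', fun N η ρ h₁ h₂ =>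
    ⟨h N η ρ h₁ fun r hr => h₂ r (Or.inl hr), h' N η ρ h₁ fun r hr => h₂ r (Or.inr hr)⟩⟩

theorem AE.all {ι : Sort*} [Countable ι] {Φ : ι → Set Ob → W → Cond → Prop} (h : ∀ i, AE (Φ i)) :
    AE fun N η ρ => ∀ i, Φ i N η ρ := by
  choose R hR h using h
  exact ⟨⋃ i, R i, countable_iUnion hR, fun N η ρ h₁ h₂ i =>
    h i N η ρ h₁ fun r hr => h₂ r (mem_iUnion.2 ⟨i, hr⟩)⟩

theorem AE.closed {R : Set (Ob → Ob → Prop)} (h : R.Countable) : AE fun N _ _ => Closed R N := by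
  exact ⟨R, h, fun _ _ _ _ h => h⟩

theorem AE.ext (h : AE Φ) : AE fun N η ρ => ∀ ρ', RV ρ' → RL ρ' ρ → Φ N η ρ' := by
  obtain ⟨R, hR, h⟩ := h
  exact ⟨R, hR, fun N η ρ h₁ h₂ ρ' hv hl => h N η ρ' (h₁.ext hv hl) h₂⟩

section

variable {α β : Type*} [Cod α] [Cod β]

theorem AE.wit (Q : α → β → Prop) :
    AE fun N _ _ => ∀ a, Mem N a → (∃ b, Q a b) → ∃ b, Mem N b ∧ Q a b := by
  refine ⟨{fun o o' => ∃ a b, o = Cod.ι a ∧ o' = Cod.ι b ∧ Q a b}, countable_singleton _,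
    fun N _ _ _ h a ha ⟨b, hb⟩ => ?_⟩
  obtain ⟨_, h₁, a', b', e, rfl, h₂⟩ := h _ rfl _ ha ⟨_, a, b, rfl, rfl, hb⟩
  exact ⟨b', h₁, Cod.inj e ▸ h₂⟩

theorem AE.fn (g : α → β) : AE fun N _ _ => ∀ a, Mem N a → Mem N (g a) := by
  refine (AE.wit fun a b => b = g a).mono fun N _ _ _ h a ha => ?_
  obtain ⟨_, h₁, rfl⟩ := h a ha ⟨_, rfl⟩
  exact h₁

theorem AE.const (b : β) : AE fun N _ _ => Mem N b := by
  exact (AE.fn fun _ : ℕ => b).mono fun N _ _ _ h => h 0 mem_nat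

/-- Diagonal intersection. -/
theorem AE.diag {Φ : α → Set Ob → W → Cond → Prop} (h : ∀ a, AE (Φ a)) :
    AE fun N η ρ => ∀ a, Mem N a → Φ a N η ρ := by
  choose R hR h using h
  have : ∀ a, ∃ e : ℕ → Ob → Ob → Prop, insert (fun _ _ => False) (R a) = range e := fun a =>
    ((hR a).insert _).exists_eq_range (insert_nonempty _ _)
  choose e he using this
  refine ⟨range fun n o₁ o' => ∃ a o, o₁ = Ob.pr (Cod.ι a) o ∧ e a n o o', countable_range _,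
    fun N η ρ h₁ h₂ a ha => h a N η ρ h₁ fun r hr o ho ⟨o', h₃⟩ => ?_⟩
  obtain ⟨n, rfl⟩ : r ∈ range (e a) := he a ▸ mem_insert_of_mem _ hr
  obtain ⟨o₂, h₄, a', o₃, e₁, h₅⟩ :=
    h₂ _ ⟨n, rfl⟩ (Ob.pr (Cod.ι a) o) ⟨ha, ho⟩ ⟨o', a, o, rfl, h₃⟩
  obtain ⟨e₂, rfl⟩ := Ob.pr.inj e₁
  obtain rfl := Cod.inj e₂
  exact ⟨o₂, h₄, h₅⟩

/-- Countable sets attached to members are included. -/
theorem AE.sub (g : α → Set β) :
    AE fun N _ _ => ∀ a, Mem N a → (g a).Countable → ∀ b ∈ g a, Mem N b := by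
  refine AE.diag fun a => ?_
  by_cases hc : (g a).Countable
  · have := hc.to_subtype
    exact (AE.all fun b : g a => AE.const b.1).mono fun N _ _ _ h _ b hb => h ⟨b, hb⟩
  · exact AE.of_all fun _ _ _ _ h => absurd h hc

/-- The active witness principle. -/
theorem AE.act (Q : α → β → Prop) (rt : β → Cond) :
    AE fun N _ ρ => ∀ a, Mem N a → (∃ b, Q a b ∧ RV (rt b) ∧ RL (rt b) ρ) →
      ∃ b, Mem N b ∧ Q a b ∧ RV (rt b) ∧ RL ρ (rt b) := by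
  let D : α → Set Cond := fun a => {c | (∃ b, Q a b ∧ RV (rt b) ∧ RL c (rt b)) ∨
    ∀ b, Q a b → RV (rt b) → ¬ RL (rt b) c}
  refine ((AE.fn D).and (AE.wit fun (z : α × Cond) b =>
    Q z.1 b ∧ RV (rt b) ∧ RL z.2 (rt b))).mono fun N η ρ hg ⟨h₁, h₂⟩ a ha ⟨b, q₁, q₂, q₃⟩ => ?_
  obtain ⟨c, hc, c₁, -, c₃⟩ := hg.gen (D a) (h₁ a ha) fun c hc => by
    by_cases h : ∃ b, Q a b ∧ RV (rt b) ∧ RL (rt b) c
    · obtain ⟨b, h₁, h₂, h₃⟩ := h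
      exact ⟨rt b, Or.inl ⟨b, h₁, h₂, RL.refl⟩, h₂, h₃⟩
    · exact ⟨c, Or.inr fun b h₁ h₂ h₃ => h ⟨b, h₁, h₂, h₃⟩, hc, RL.refl⟩
  rcases hc with hc | hc
  · obtain ⟨b', b₁, b₂, b₃, b₄⟩ := h₂ (a, c) ⟨ha, c₁⟩ hc
    exact ⟨b', b₁, b₂, b₃, c₃.trans b₄⟩
  · exact absurd (q₃.trans c₃) (hc b q₁ q₂)

end

theorem ae_zero : AE fun _ η _ => w0 < η := by
  exact (AE.const w0).mono fun N η ρ hg h => (hg.eta _).1 h

theorem ae_ht : AE fun N η _ => ∀ c : Cond, Mem N c → c.ht < η := by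
  exact (AE.fn fun c : Cond => c.ht).mono fun N η ρ hg h c hc => (hg.eta _).1 (h c hc)

theorem ae_T : AE fun N _ _ => ∀ c : Cond, Mem N c → RV c → c.T ⊆ KN N := by
  exact (AE.sub fun c : Cond => c.T).mono fun N η ρ _ h c hc hv β hβ => h c hc hv.ct β hβ

theorem ae_memT : AE fun N _ ρ => KN N ⊆ ρ.T := by
  refine (AE.act (fun (β : K) (c : Cond) => β ∈ c.T) id).mono fun N η ρ hg h β hβ => ?_
  obtain ⟨c, c₁, c₂, c₃, -⟩ := exists_addT hg.rv β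
  obtain ⟨b, -, b₁, -, b₂⟩ := h β hβ ⟨c, c₃, c₁, c₂⟩
  exact RL.T b₂ b₁

section AEC

variable {Φ' Ψ' : Ch → Prop}

theorem AEC.of_AE (h : AE Φ) : AEC fun C => ∀ i, Φ (C.N i) (C.η i) C.ρ := by
  obtain ⟨R, hR, h⟩ := h
  exact ⟨R, hR, fun C hC i => h _ _ _ (C.gm i) (hC i)⟩

theorem AEC.of_all (H : ∀ C, Φ' C) : AEC Φ' := by
  exact ⟨∅, countable_empty, fun C _ => H C⟩

theorem AEC.mono (h : AEC Φ') (H : ∀ C, Φ' C → Ψ' C) : AEC Ψ' := by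
  obtain ⟨R, hR, h⟩ := h
  exact ⟨R, hR, fun C hC => H C (h C hC)⟩

theorem AEC.and (h : AEC Φ') (h' : AEC Ψ') : AEC fun C => Φ' C ∧ Ψ' C := by
  obtain ⟨R, hR, h⟩ := h
  obtain ⟨R', hR', h'⟩ := h'
  exact ⟨R ∪ R', hR.union hR', fun C hC =>
    ⟨h C fun i r hr => hC i r (Or.inl hr), h' C fun i r hr => hC i r (Or.inr hr)⟩⟩

theorem AEC.all {ι : Sort*} [Countable ι] {Φ' : ι → Ch → Prop} (h : ∀ i, AEC (Φ' i)) :
    AEC fun C => ∀ i, Φ' i C := by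
  choose R hR h using h
  exact ⟨⋃ i, R i, countable_iUnion hR, fun C hC i =>
    h i C fun j r hr => hC j r (mem_iUnion.2 ⟨i, hr⟩)⟩

theorem Ch.mem_mono (C : Ch) {α : Type*} [Cod α] {a : α} {i j : ℕ} (h : Mem (C.N i) a)
    (hij : i ≤ j) : Mem (C.N j) a := C.mono i j hij _ h

theorem Ch.eta_mono (C : Ch) {i j : ℕ} (hij : i ≤ j) : C.η i ≤ C.η j := by
  by_contra h
  exact lt_irrefl _ (((C.gm j).eta _).1 (C.mem_mono (((C.gm i).eta _).2 (not_le.1 h)) hij))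

end AEC

end Pool.Agent.MP_2e2931_gt.Gap

end

section

namespace Pool.Agent.MP_2e2931_gt.Gap

open Set Ordinal

variable {ρ₀ ρ₁ : Cond} {A A' : Set (W × Cond × Set K)}

theorem Large.mono (h : Large ρ₀ A) (hl : RL ρ₁ ρ₀) (hA : A ⊆ A') : Large ρ₁ A' := by
  intro ρ₂ hv₂ hl₂ Φ hΦ
  obtain ⟨N, x, q, h1, h2, h3, h4⟩ := h ρ₂ hv₂ (hl₂.trans hl) Φ hΦ
  exact ⟨N, x, q, h1, h2, h3, hA h4⟩

theorem Large.ext (h : Large ρ₀ A) (hl : RL ρ₁ ρ₀)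
    (H : ∀ x q B, (x, q, B) ∈ A → ∃ q', RV q' ∧ RL q' q ∧ (x, q', B) ∈ A') : Large ρ₁ A' := by
  intro ρ₂ hv₂ hl₂ Φ hΦ
  obtain ⟨N, x, q, h1, h2, h3, h4⟩ := h ρ₂ hv₂ (hl₂.trans hl) _ hΦ.ext
  obtain ⟨q', k1, k2, k3⟩ := H x q _ h4
  exact ⟨N, x, q', h1.ext k1 k2, h2 q' k1 k2, k2.trans h3, k3⟩

theorem Large.sub (h : Large ρ₀ A) (hv : RV ρ₁) (hl : RL ρ₁ ρ₀) :
    Large ρ₁ {e | e ∈ A ∧ RL e.2.1 ρ₁ ∧ ρ₁.ht ≤ e.1 ∧ ρ₁.T ⊆ e.2.2} := by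
  intro ρ₂ hv₂ hl₂ Φ hΦ
  obtain ⟨N, x, q, h1, ⟨h2, k1, k2, k3⟩, h3, h4⟩ := h ρ₂ hv₂ (hl₂.trans hl) _
    (hΦ.and ((AE.const ρ₁).and (ae_ht.and ae_T)))
  exact ⟨N, x, q, h1, h2, h3, h4, h3.trans hl₂, (k2 ρ₁ k1).le, k3 ρ₁ k1 hv⟩

theorem Large.nonempty (h : Large ρ₀ A) (hv : RV ρ₀) : A.Nonempty := by
  obtain ⟨N, x, q, -, -, -, h4⟩ := h ρ₀ hv RL.refl (fun _ _ _ => True)
    (AE.of_all fun _ _ _ _ => trivial)
  exact ⟨_, h4⟩

/-- The pressing down lemma. -/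
theorem Large.fodor {α : Type*} [Cod α] (h : Large ρ₀ A) (hv : RV ρ₀)
    (B : α → Set (W × Cond × Set K))
    (H : AE fun N x q => (x, q, KN N) ∈ A →
      ∃ q' c, RV q' ∧ RL q' q ∧ Mem N c ∧ (x, q', KN N) ∈ B c) :
    ∃ ρ₁ c, RV ρ₁ ∧ RL ρ₁ ρ₀ ∧ Large ρ₁ (B c) := by
  by_contra hc
  obtain ⟨Kill, hK⟩ : ∃ Kill : α → Cond → Prop, Kill = fun c r => ∃ Φ, AE Φ ∧
      ∀ N x q, GM N x q → Φ N x q → RL q r → (x, q, KN N) ∉ B c := ⟨_, rfl⟩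
  have ex : ∀ z : α × Cond, ∃ Φ, AE Φ ∧ (Kill z.1 z.2 →
      ∀ N x q, GM N x q → Φ N x q → RL q z.2 → (x, q, KN N) ∉ B z.1) := by
    intro z
    by_cases hz : Kill z.1 z.2
    · have hz' := hz
      rw [hK] at hz'
      obtain ⟨Φ, h1, h2⟩ := hz'
      exact ⟨Φ, h1, fun _ => h2⟩
    · exact ⟨fun _ _ _ => True, AE.of_all fun _ _ _ _ => trivial, fun h => absurd h hz⟩
  choose Ph hPh hPh' using ex
  obtain ⟨N, x, q, h1, ⟨k1, k2, k3⟩, h3, h4⟩ := h ρ₀ hv RL.refl _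
    (H.and ((AE.act Kill id).ext.and (AE.diag hPh).ext))
  obtain ⟨q', c, m1, m2, m3, m4⟩ := k1 h4
  have hr : ∃ b, Kill c b ∧ RV (id b) ∧ RL (id b) q' := by
    by_contra hn
    refine hc ⟨q', c, m1, m2.trans h3, fun r hr1 hr2 Φ hΦ => ?_⟩
    by_contra hn2
    refine hn ⟨r, ?_, hr1, hr2⟩
    rw [hK]
    exact ⟨Φ, hΦ, fun N x q a1 a2 a3 a4 => hn2 ⟨N, x, q, a1, a2, a3, a4⟩⟩
  obtain ⟨b, b1, b2, -, b4⟩ := k2 q' m1 m2 c m3 hr
  exact hPh' (c, b) b2 N x q' (h1.ext m1 m2) (k3 q' m1 m2 (c, b) (mem_prod.2 ⟨m3, b1⟩)) b4 m4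

theorem flarge_decide (D : ℕ → Set (W × Cond × Set K)) (hv : RV ρ₀) :
    ∃ l, RV l ∧ RL l ρ₀ ∧ ∀ n, Large l (D n) ∨ ∀ r, RV r → RL r l → ¬ Large r (D n) := by
  have ex : ∀ (r : {r : Cond // RV r}) (n : ℕ), ∃ r' : {r : Cond // RV r}, RL r'.1 r.1 ∧
      (Large r'.1 (D n) ∨ ∀ s, RV s → RL s r'.1 → ¬ Large s (D n)) := by
    intro r n
    by_cases hs : ∃ s, RV s ∧ RL s r.1 ∧ Large s (D n)
    · obtain ⟨s, h1, h2, h3⟩ := hs
      exact ⟨⟨s, h1⟩, h2, Or.inl h3⟩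
    · exact ⟨r, RL.refl, Or.inr fun s h1 h2 h3 => hs ⟨s, h1, h2, h3⟩⟩
  choose F hF hF' using ex
  obtain ⟨c, c0, cs⟩ : ∃ c : ℕ → {r : Cond // RV r}, c 0 = ⟨ρ₀, hv⟩ ∧
      ∀ n, c (n + 1) = F (c n) n :=
    ⟨fun n => Nat.rec ⟨ρ₀, hv⟩ (fun n r => F r n) n, rfl, fun _ => rfl⟩
  obtain ⟨l, l1, l2, -⟩ := exists_lim (fun n => (c n).1) (fun n => (c n).2)
    (fun n => by
      show RL (c (n + 1)).1 (c n).1
      rw [cs]
      exact hF _ _)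
  refine ⟨l, l1, ?_, fun n => ?_⟩
  · have := l2 0
    simp only [c0] at this
    exact this
  · have h1 : RL l (F (c n) n).1 := by
      rw [← cs]
      exact l2 (n + 1)
    rcases hF' (c n) n with h2 | h2
    · exact Or.inl (h2.mono h1 subset_rfl)
    · exact Or.inr fun r a1 a2 => h2 r a1 (a2.trans h1)

/-- Splitting, from the scale. -/
theorem Large.split (h : Large ρ₀ A) (hv : RV ρ₀) (hA : ∀ e ∈ A, e.1 < e.2.1.ht) :
    ∃ ρ₁ j, RV ρ₁ ∧ RL ρ₁ ρ₀ ∧ ∀ k, ∃ m, k ≤ m ∧ Large ρ₁ {e | e ∈ A ∧ e.2.1.σ e.1 j = m} := by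
  obtain ⟨l, l1, l2, l3⟩ := flarge_decide
    (fun n => {e | e ∈ A ∧ e.2.1.σ e.1 n.unpair.1 = n.unpair.2}) hv
  by_contra hc
  have ex : ∀ j, ∃ k, ∀ m, k ≤ m → ∀ r, RV r → RL r l →
      ¬ Large r {e | e ∈ A ∧ e.2.1.σ e.1 j = m} := by
    intro j
    by_contra hn
    refine hc ⟨l, j, l1, l2, fun k => ?_⟩
    by_contra hn2
    refine hn ⟨k, fun m hm => ?_⟩
    have h1 := l3 (Nat.pair j m)
    simp only [Nat.unpair_pair] at h1
    exact h1.resolve_left fun h2 => hn2 ⟨m, hm, h2⟩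
  choose k hk using ex
  obtain ⟨r, r1, r2, r3, -, -, -, r4, -⟩ := exists_step l1 k (Lad.empty l.σ l.ht)
    (fun _ _ => canon ∅) (fun β _ => canon_empty_mem β)
  obtain ⟨ρ₂, ⟨j, m⟩, s1, s2, s3⟩ := (h.sub r1 (r2.trans l2)).fodor r1
    (fun z : ℕ × ℕ => {e | (e ∈ A ∧ e.2.1.σ e.1 z.1 = z.2) ∧ k z.1 ≤ z.2})
    (AE.of_all fun N x q hG he => by
      obtain ⟨a1, a2, a3, -⟩ := he
      obtain ⟨j, hj⟩ := (hG.rv.sc l.ht x (r3.trans_le a3) (hA _ a1)).exists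
      have e : q.σ l.ht = r.σ l.ht := (a2 0).σ l.ht r3
      rw [e] at hj
      exact ⟨q, (j, q.σ x j), hG.rv, RL.refl, mem_prod.2 ⟨mem_nat, mem_nat⟩, ⟨a1, rfl⟩,
        (r4 j).trans hj⟩)
  obtain ⟨e, -, he⟩ := s3.nonempty s1
  exact hk j m he ρ₂ s1 (s2.trans r2) (s3.mono RL.refl fun _ h => h.1)

end Pool.Agent.MP_2e2931_gt.Gap

end

section

namespace Pool.Agent.MP_2e2931_gt.Gap

open Set Ordinal

theorem gm_in_mono {N N' : Set Ob} (h : N ⊆ N') {o : Ob} (ho : o.In N) : o.In N' := by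
  induction o with
  | nat n => trivial
  | pr a b iha ihb => exact ⟨iha ho.1, ihb ho.2⟩
  | _ => exact h ho

theorem gm_in_union {M : ℕ → Set Ob} (h : Monotone M) {o : Ob} (ho : o.In (⋃ n, M n)) :
    ∃ n, o.In (M n) := by
  induction o with
  | nat n => exact ⟨0, trivial⟩
  | pr a b iha ihb =>
    obtain ⟨n, hn⟩ := iha ho.1
    obtain ⟨m, hm⟩ := ihb ho.2
    exact ⟨max n m, gm_in_mono (h (le_max_left _ _)) hn, gm_in_mono (h (le_max_right _ _)) hm⟩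
  | _ => exact mem_iUnion.1 ho

theorem gm_leaves (o : Ob) : ∃ A : Set Ob, A.Countable ∧ o.In A := by
  induction o with
  | nat n => exact ⟨∅, countable_empty, trivial⟩
  | pr a b iha ihb =>
    obtain ⟨A, hA, ha⟩ := iha
    obtain ⟨B, hB, hb⟩ := ihb
    exact ⟨A ∪ B, hA.union hB, gm_in_mono subset_union_left ha, gm_in_mono subset_union_right hb⟩
  | _ => exact ⟨{_}, countable_singleton _, rfl⟩

/-- Objects of bounded depth over `M`. -/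
def gmLev (M : Set Ob) : ℕ → Set Ob
  | 0 => M ∪ range Ob.nat
  | n + 1 => gmLev M n ∪ image2 Ob.pr (gmLev M n) (gmLev M n)

theorem gm_countable_in {M : Set Ob} (h : M.Countable) : {o : Ob | o.In M}.Countable := by
  have h₁ : ∀ n, (gmLev M n).Countable := fun n => by
    induction n with
    | zero => exact h.union (countable_range _)
    | succ n ih => exact ih.union (ih.image2 ih _)
  have h₂ : Monotone (gmLev M) := monotone_nat_of_le_succ fun n => subset_union_left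
  refine (countable_iUnion h₁).mono fun o ho => mem_iUnion.2 ?_
  induction o with
  | nat n => exact ⟨0, Or.inr ⟨n, rfl⟩⟩
  | pr a b iha ihb =>
    obtain ⟨n, hn⟩ := iha ho.1
    obtain ⟨m, hm⟩ := ihb ho.2
    exact ⟨max n m + 1, Or.inr ⟨a, h₂ (le_max_left _ _) hn, b, h₂ (le_max_right _ _) hm, rfl⟩⟩
  | _ => exact ⟨0, Or.inl ho⟩

theorem gm_meet {F : Set (Set Cond)} (hF : F.Countable)
    (hd : ∀ D ∈ F, ∀ c, RV c → ∃ c' ∈ D, RV c' ∧ RL c' c) {p : Cond} (hp : RV p) :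
    ∃ q, RV q ∧ RL q p ∧ ∀ D ∈ F, ∃ c' ∈ D, RV c' ∧ RL q c' := by
  rcases F.eq_empty_or_nonempty with rfl | hne
  · exact ⟨p, hp, RL.refl, fun _ h => h.elim⟩
  obtain ⟨e, rfl⟩ := hF.exists_eq_range hne
  have H : ∀ (n : ℕ) (c : {c : Cond // RV c}), ∃ c' : {c : Cond // RV c}, c'.1 ∈ e n ∧ RL c'.1 c.1 :=
    fun n c => by
      obtain ⟨c', h₁, h₂, h₃⟩ := hd _ ⟨n, rfl⟩ c.1 c.2
      exact ⟨⟨c', h₂⟩, h₁, h₃⟩
  choose g hg using H
  let s : ℕ → {c : Cond // RV c} := fun n => Nat.rec ⟨p, hp⟩ g n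
  obtain ⟨l, hl, hs, -⟩ := exists_lim (fun n => (s n).1) (fun n => (s n).2) fun n => (hg n (s n)).2
  refine ⟨l, hl, hs 0, ?_⟩
  rintro _ ⟨n, rfl⟩
  exact ⟨(s (n + 1)).1, (hg n (s n)).1, (s (n + 1)).2, hs (n + 1)⟩

/-- One round of the bookkeeping. -/
structure GmStep (R : Set (Ob → Ob → Prop)) (M : Set Ob) (p : Cond) (M' : Set Ob) (q : Cond) :
    Prop where
  sub : M ⊆ M'
  rl : RL q p
  gen : ∀ D : Set Cond, Ob.d D ∈ M → (∀ c, RV c → ∃ c' ∈ D, RV c' ∧ RL c' c) →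
    ∃ c' ∈ D, Ob.c c' ∈ M' ∧ RV c' ∧ RL q c'
  up : ∀ z : W, Ob.k z.1 ∈ M → z < q.ht
  dn : ∀ z : W, z < p.ht → Ob.k z.1 ∈ M'
  T : ∀ β ∈ p.T, Ob.k β ∈ M'
  cl : ∀ r ∈ R, ∀ o : Ob, o.In M → (∃ o', r o o') → ∃ o' : Ob, o'.In M' ∧ r o o'

theorem gm_step {R : Set (Ob → Ob → Prop)} (hR : R.Countable) {M : Set Ob} (hM : M.Countable)
    {p : Cond} (hp : RV p) : ∃ M' q, M'.Countable ∧ RV q ∧ GmStep R M p M' q := by
  have hF : {D : Set Cond | Ob.d D ∈ M ∧ ∀ c, RV c → ∃ c' ∈ D, RV c' ∧ RL c' c}.Countable :=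
    (hM.preimage_of_injOn (f := Ob.d) fun _ _ _ _ h => Ob.d.inj h).mono fun _ h => h.1
  obtain ⟨q₁, hq₁, hl₁, H₁⟩ := gm_meet hF (fun _ h => h.2) hp
  haveI : Nonempty Cond := ⟨p⟩
  choose! w hw using H₁
  have hZ : {z : W | Ob.k z.1 ∈ M}.Countable :=
    hM.preimage_of_injOn (f := fun z : W => Ob.k z.1) fun _ _ _ _ h => Subtype.ext (Ob.k.inj h)
  obtain ⟨y, hy⟩ := W.exists_gt hZ
  obtain ⟨q, hq, hl, hyq, -⟩ := exists_ht hq₁ y
  have H₂ : ∀ (r : Ob → Ob → Prop) (o : Ob), ∃ A : Set Ob, A.Countable ∧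
      ((∃ o', r o o') → ∃ o' : Ob, o'.In A ∧ r o o') := fun r o => by
    by_cases h : ∃ o', r o o'
    · obtain ⟨o', h⟩ := h
      obtain ⟨A, hA, ho⟩ := gm_leaves o'
      exact ⟨A, hA, fun _ => ⟨o', ho, h⟩⟩
    · exact ⟨∅, countable_empty, fun h' => absurd h' h⟩
  choose A hA hA' using H₂
  refine ⟨M ∪ ((fun D => Ob.c (w D)) '' _ ∪ ((fun z : W => Ob.k z.1) '' Iic p.ht ∪
    (Ob.k '' p.T ∪ ⋃ r ∈ R, ⋃ o ∈ {o : Ob | o.In M}, A r o))), q,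
    hM.union ((hF.image _).union (((W.countable_Iic _).image _).union ((hp.ct.image _).union
      (hR.biUnion fun r _ => (gm_countable_in hM).biUnion fun o _ => hA r o)))), hq,
    subset_union_left, hl.trans hl₁, fun D h₁ h₂ => ?_, fun z hz => (hy z hz).trans hyq,
    fun z hz => Or.inr (Or.inr (Or.inl ⟨z, hz.le, rfl⟩)),
    fun β hβ => Or.inr (Or.inr (Or.inr (Or.inl ⟨β, hβ, rfl⟩))), fun r hr o ho h => ?_⟩
  · obtain ⟨h₃, h₄, h₅⟩ := hw D ⟨h₁, h₂⟩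
    exact ⟨w D, h₃, Or.inr (Or.inl ⟨D, ⟨h₁, h₂⟩, rfl⟩), h₄, hl.trans h₅⟩
  · obtain ⟨o', h₁, h₂⟩ := hA' r o h
    refine ⟨o', gm_in_mono (fun x hx => ?_) h₁, h₂⟩
    exact Or.inr (Or.inr (Or.inr (Or.inr (mem_biUnion hr (mem_biUnion ho hx)))))

/-- Existence of generic systems. -/
theorem exists_GM {Φ : Set Ob → W → Cond → Prop} (h : AE Φ) {ρ₁ : Cond} (hv : RV ρ₁)
    {N₀ : Set Ob} (h₀ : N₀.Countable) :
    ∃ N η ρ, GM N η ρ ∧ Φ N η ρ ∧ RL ρ ρ₁ ∧ ρ.ht = η ∧ ρ.f = ∅ ∧ ρ.T ⊆ KN N ∧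
      ∀ o : Ob, o.In N₀ → o.In N := by
  obtain ⟨R, hR, hΦ⟩ := h
  have H : ∀ x : {x : Set Ob × Cond // x.1.Countable ∧ RV x.2},
      ∃ y : {x : Set Ob × Cond // x.1.Countable ∧ RV x.2}, GmStep R x.1.1 x.1.2 y.1.1 y.1.2 :=
    fun x => by
      obtain ⟨M', q, h₁, h₂, h₃⟩ := gm_step hR x.2.1 x.2.2
      exact ⟨⟨(M', q), h₁, h₂⟩, h₃⟩
  choose g hg using H
  let s : ℕ → {x : Set Ob × Cond // x.1.Countable ∧ RV x.2} :=
    fun n => Nat.rec ⟨(N₀, ρ₁), h₀, hv⟩ (fun _ => g) n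
  have hs : ∀ n, GmStep R (s n).1.1 (s n).1.2 (s (n + 1)).1.1 (s (n + 1)).1.2 := fun n => hg (s n)
  have hm : Monotone fun n => (s n).1.1 := monotone_nat_of_le_succ fun n => (hs n).sub
  obtain ⟨ρ, hρ, hl, hf, hht, hT⟩ :=
    exists_lim (fun n => (s n).1.2) (fun n => (s n).2.2) fun n => (hs n).rl
  have gm : GM (⋃ n, (s n).1.1) ρ.ht ρ := by
    refine ⟨countable_iUnion fun n => (s n).2.1, fun z => ⟨fun hz => ?_, fun hz => ?_⟩, hρ, le_rfl,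
      fun D hD hd => ?_⟩
    · obtain ⟨n, hn⟩ := mem_iUnion.1 hz
      exact ((hs n).up z hn).trans_le (hl (n + 1) 0).ht
    · obtain ⟨n, hn⟩ := hht z hz
      exact mem_iUnion.2 ⟨n + 1, (hs n).dn z hn⟩
    · obtain ⟨n, hn⟩ := mem_iUnion.1 hD
      obtain ⟨c', h₁, h₂, h₃, h₄⟩ := (hs n).gen D hn hd
      exact ⟨c', h₁, mem_iUnion.2 ⟨n + 1, h₂⟩, h₃, (hl (n + 1)).trans h₄⟩
  refine ⟨_, _, ρ, gm, hΦ _ _ _ gm fun r hr o ho h => ?_, hl 0, rfl, hf, fun β hβ => ?_,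
    fun o ho => gm_in_mono (subset_iUnion (fun n => (s n).1.1) 0) ho⟩
  · obtain ⟨n, hn⟩ := gm_in_union hm ho
    obtain ⟨o', h₁, h₂⟩ := (hs n).cl r hr o hn h
    exact ⟨o', gm_in_mono (subset_iUnion (fun n => (s n).1.1) (n + 1)) h₁, h₂⟩
  · obtain ⟨n, hn⟩ := hT β hβ
    exact mem_iUnion.2 ⟨n + 1, (hs n).T β hn⟩

end Pool.Agent.MP_2e2931_gt.Gap

end

section

namespace Pool.Agent.MP_2e2931_gt.Gap

open Set Ordinal

variable {β γ b : K} {v w w' w'' : Nod}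

theorem NLe.refl : NLe γ w w := by
  exact ⟨Le.refl, fun _ q _ h => ⟨q, h, Le.refl⟩⟩

theorem NLe.trans (h : NLe γ w'' w') (h' : NLe γ w' w) : NLe γ w'' w := by
  refine ⟨h.1.trans h'.1, fun x q'' B hq => ?_⟩
  obtain ⟨q', h1, h2⟩ := h.2 x q'' B hq
  obtain ⟨q, h3, h4⟩ := h'.2 x q' B h1
  exact ⟨q, h3, h2.trans h4⟩

theorem NLe.mono (h : NLe γ w' w) (hβ : β ≤ γ) : NLe β w' w := by
  refine ⟨h.1.mono hβ, fun x q' B hq => ?_⟩
  obtain ⟨q, h1, h2⟩ := h.2 x q' B hq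
  exact ⟨q, h1, h2.mono hβ⟩

theorem Node.mono (h : Node γ w) (hβ : β ≤ γ) : Node β w := by
  refine ⟨h.v.mono hβ, h.large, fun x q B hq => ?_, fun β' h' => h.on β' (h'.trans_le hβ)⟩
  have e := h.el x q B hq
  exact ⟨e.v.mono hβ, e.le.mono hβ, e.ht, e.lt, e.emp, e.T,
    fun β' h' => e.tail β' (h'.trans_le hβ), fun β' h' => e.val β' (h'.trans_le hβ)⟩

theorem Node.F_uniq (h : Node γ w) (hβ : β < γ) {a a' : ℕ} (h₁ : w.F β a) (h₂ : w.F β a') :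
    a = a' := by
  obtain ⟨⟨x, q, B⟩, hq⟩ := h.large.nonempty h.v.rv
  have e := h.el x q B hq
  have hB := e.T (h.v.supp hβ (h.on β hβ a h₁))
  exact (e.v.loc hβ).fn x a a' ((e.val β hβ hB a).2 h₁) ((e.val β hβ hB a').2 h₂)

theorem Node.F_mono (h' : Node γ w') (h : Node γ w) (hl : NLe γ w' w) (hβ : β < γ) {a : ℕ}
    (ha : w.F β a) : w'.F β a := by
  obtain ⟨⟨x, q', B⟩, hq⟩ := h'.large.nonempty h'.v.rv
  obtain ⟨q, h1, h2⟩ := hl.2 x q' B hq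
  have e := h.el x q B h1
  have hB := e.T (h.v.supp hβ (h.on β hβ a ha))
  exact ((h'.el x q' B hq).val β hβ hB a).1 (h2.1.sub hβ ((e.val β hβ hB a).2 ha))

theorem Node.F_fin (h : Node γ w) : {β | β < γ ∧ ∃ a, w.F β a}.Finite := by
  refine (h.v.fin.image Prod.fst).subset ?_
  rintro β ⟨hβ, a, ha⟩
  exact ⟨_, h.on β hβ a ha, rfl⟩

/-- Amalgamation of nodes. -/
theorem nodeAm (hb : b ≤ γ) (hw : Node γ w) (hv : Node b v) (hl : NLe b v w) {r : Cond}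
    (hr : V γ r) (h₁ : L γ r w.r) (h₂ : Le b v.r r) :
    ∃ w₁, Node γ w₁ ∧ NLe γ w₁ w ∧ NLe b w₁ v ∧ Le γ w₁.r r ∧
      ∀ β, b ≤ β → ∀ a, w₁.F β a ↔ w.F β a := by
  classical
  obtain ⟨a1, a2, -, a4⟩ := am_spec hb hv.v.rv hv.v hr hr h₂.1 h₂.1 Rle.refl (h₂.2 γ) (h₂.2 γ)
    fun β _ _ => Or.inr (Or.inr (Or.inl fun _ => Iff.rfl))
  have lo : ∀ {β : K} {ρ p'' p' q : Cond} {a : Atom}, β < b →
      ((β, a) ∈ (am b ρ p'' p' q).f ↔ (β, a) ∈ p''.f) := fun h =>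
    ⟨fun h' => h'.elim (·.2) fun h' => absurd h'.1 h.not_ge, fun h' => Or.inl ⟨h, h'⟩⟩
  have hi : ∀ {β : K} {ρ p'' p' q : Cond} {a : Atom}, b ≤ β →
      ((β, a) ∈ (am b ρ p'' p' q).f ↔ (β, a) ∈ p'.f ∨ (β, a) ∈ q.f) := fun h =>
    ⟨fun h' => h'.elim (fun h' => absurd h'.1 h.not_gt) (·.2), fun h' => Or.inr ⟨h, h'⟩⟩
  have key : ∀ x q' q B, (x, q', B) ∈ v.A → (x, q, B) ∈ w.A → Le b q' q →
      El γ ⟨am b v.r v.r r r, ∅, fun β => if β < b then v.F β else w.F β⟩ x (am b q' q' r q) B ∧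
        L γ (am b q' q' r q) q ∧ L b (am b q' q' r q) q' := by
    intro x q' q B h' h hq
    have e' := hv.el x q' B h'
    have e := hw.el x q B h
    have hx : r.ht ≤ x := (h₂.2 0).ht.trans e'.ht
    have hp : ∀ β < γ, ∀ a, (β, a) ∈ r.f → a.pos < x := fun β hβ a ha =>
      ((hr.loc hβ).pos a ha).trans_le hx
    obtain ⟨b1, b2, b3, b4⟩ := am_spec (ρ := q') hb e'.v.rv e'.v hr e.v (e'.le.1.trans h₂.1) hq.1
      Rle.refl ((e'.le.2.trans h₂.2) γ) (hq.2 γ) fun β _ hβ => by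
        by_cases hB : β ∈ B
        · refine Or.inr (Or.inr (Or.inr ⟨w.r, x, h₁.mono (Order.succ_le_of_lt hβ),
            hw.v.mono (Order.succ_le_of_lt hβ), fun a ha => e.le.1.sub hβ ha, e.tail β hβ hB,
            fun a a' ha _ hxa => absurd (hp β hβ a ha) hxa.not_gt, fun d m z a hd _ hz hz' => ?_⟩))
          have hd' : d < x := hp β hβ _ hd
          exact absurd (((e'.v.rv.lad d (hd'.trans e'.lt)).lt z hz').trans hd') hz.not_gt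
        · exact Or.inl fun a ha => hB (e'.T (h₂.2.T (hr.supp hβ ha)))
    refine ⟨⟨b1, ⟨le_am hb hv.v hr (b4.trans e'.le.1) b2 (e'.le.2 γ).setf_left Rle.refl (h₂.2 0),
      e'.le.2.setf_left.setf_right⟩, e'.ht, e'.lt, e'.emp, e'.T, fun β hβ hB => ?_,
      fun β hβ hB a => ?_⟩, b3, b4⟩
    · rcases lt_or_ge β b with hβb | hβb
      · obtain ⟨t1, t2⟩ := e'.tail β hβb hB
        refine ⟨fun a ha hxa => (lo hβb).2 (t1 a ((lo hβb).1 ha) hxa), fun d m hd hxd z hz hzx => ?_⟩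
        obtain ⟨a, ha⟩ := t2 d m ((lo hβb).1 hd) hxd z hz hzx
        exact ⟨a, (lo hβb).2 ha⟩
      · obtain ⟨t1, t2⟩ := e.tail β hβ hB
        refine ⟨fun a ha hxa => (hi hβb).2 (Or.inl ?_), fun d m hd hxd z hz hzx => ?_⟩
        · exact ((hi hβb).1 ha).elim id fun ha => h₁.sub hβ (t1 a ha hxa)
        · rcases (hi hβb).1 hd with hd | hd
          · exact absurd (hp β hβ _ hd) hxd.not_gt
          · have hE : q'.E d = q.E d := (hq.2 0).E d ((e.v.loc hβ).pos _ hd)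
            obtain ⟨a, ha⟩ := t2 d m hd hxd z (hE ▸ hz) hzx
            exact ⟨a, (hi hβb).2 (Or.inr ha)⟩
    · change _ ↔ (if β < b then v.F β else w.F β) a
      rcases lt_or_ge β b with hβb | hβb
      · rw [if_pos hβb, lo hβb]
        exact e'.val β hβb hB a
      · rw [if_neg hβb.not_gt, hi hβb, ← e.val β hβ hB a]
        exact or_iff_right fun h => lt_irrefl x (hp β hβ _ h)
  refine ⟨⟨am b v.r v.r r r, {e | ∃ q' q, (e.1, q', e.2.2) ∈ v.A ∧ (e.1, q, e.2.2) ∈ w.A ∧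
    Le b q' q ∧ e.2.1 = am b q' q' r q}, fun β => if β < b then v.F β else w.F β⟩,
    ⟨a1, hv.large.ext RL.refl.setf_left fun x q' B h' => ?_, ?_, fun β hβ a ha => ?_⟩,
    ⟨⟨a2.trans h₁, hl.1.2.setf_left⟩, ?_⟩, ⟨⟨a4, RL.refl.setf_left⟩, ?_⟩, ⟨a2, h₂.2.setf_left⟩,
    fun β hβ a => ?_⟩
  · obtain ⟨q, h, hq⟩ := hl.2 x q' B h'
    exact ⟨am b q' q' r q, (hv.el x q' B h').v.rv.setf, RL.refl.setf_left, q', q, h', h, hq, rfl⟩
  · rintro x s B ⟨q', q, h', h, hq, rfl⟩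
    have e := (key x q' q B h' h hq).1
    exact ⟨e.v, e.le, e.ht, e.lt, e.emp, e.T, e.tail, e.val⟩
  · change (if β < b then v.F β else w.F β) a at ha
    rcases lt_or_ge β b with hβb | hβb
    · rw [if_pos hβb] at ha
      exact (lo hβb).2 (hv.on β hβb a ha)
    · rw [if_neg hβb.not_gt] at ha
      exact (hi hβb).2 (Or.inl (h₁.sub hβ (hw.on β hβ a ha)))
  · rintro x s B ⟨q', q, h', h, hq, rfl⟩
    exact ⟨q, h, (key x q' q B h' h hq).2.1, hq.2.setf_left⟩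
  · rintro x s B ⟨q', q, h', h, hq, rfl⟩
    exact ⟨q', h', (key x q' q B h' h hq).2.2, RL.refl.setf_left⟩
  · change (if β < b then v.F β else w.F β) a ↔ _
    rw [if_neg hβ.not_gt]

/-- Change of the root at level zero. -/
theorem node_sub0 (hw : Node 0 w) {c : Cond} (hc : V 0 c) (h : RL c w.r) :
    Node 0 ⟨c, {e | e ∈ w.A ∧ RL e.2.1 c ∧ c.ht ≤ e.1 ∧ c.T ⊆ e.2.2}, w.F⟩ ∧
      NLe 0 ⟨c, {e | e ∈ w.A ∧ RL e.2.1 c ∧ c.ht ≤ e.1 ∧ c.T ⊆ e.2.2}, w.F⟩ w := by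
  refine ⟨⟨hc, hw.large.sub hc.rv h, fun x q B hq => ?_, fun _ h => absurd h not_lt_zero⟩,
    ⟨L_zero.2 (h 0), h⟩, fun _ q _ hq => ⟨q, hq.1, Le.refl⟩⟩
  have e := hw.el x q B hq.1
  exact ⟨e.v, ⟨L_zero.2 (hq.2.1 0), hq.2.1⟩, hq.2.2.1, e.lt, e.emp, hq.2.2.2,
    fun _ h => absurd h not_lt_zero, fun _ h => absurd h not_lt_zero⟩

theorem reroot (hw : Node γ w) {c : Cond} (hc : V γ c) (h : Le γ c w.r) :
    ∃ w₁, Node γ w₁ ∧ NLe γ w₁ w ∧ Le γ w₁.r c ∧ ∀ β a, w₁.F β a ↔ w.F β a := by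
  obtain ⟨h1, h2⟩ := node_sub0 (hw.mono zero_le) (hc.mono zero_le) h.2
  obtain ⟨w₁, a1, a2, -, a4, a5⟩ := nodeAm zero_le hw h1 h2 hc h.1 Le.refl
  exact ⟨w₁, a1, a2, a4, fun β => a5 β zero_le⟩

theorem reroot' (hw : Node γ w) {p : Cond} (hp : V γ p) (h : L γ p w.r) :
    ∃ w₁, Node γ w₁ ∧ NLe γ w₁ w ∧ L γ w₁.r p := by
  obtain ⟨w₁, a1, a2, a3, -⟩ := reroot hw (hp.amR hw.v.rv) ⟨amR_L.trans h, amR_RL h.rle⟩
  exact ⟨w₁, a1, a2, a3.1.trans amR_L⟩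

theorem exists_triv {p : Cond} (hp : V γ p) : ∃ w, Node γ w ∧ w.r = p ∧ ∀ β a, ¬ w.F β a := by
  refine ⟨⟨p, {e | V γ e.2.1 ∧ e.2.1.f = p.f ∧ RL e.2.1 p ∧ p.ht ≤ e.1 ∧ e.1 < e.2.1.ht ∧
    e.2.1.E e.1 = ∅ ∧ p.T ⊆ e.2.2}, fun _ _ => False⟩,
    ⟨hp, fun ρ₁ hv hl Φ hΦ => ?_, ?_, fun _ _ _ h => h.elim⟩, rfl, fun _ _ h => h⟩
  · obtain ⟨N, η, ρ, g1, ⟨g2, g3, g4, g5⟩, g6, g7, -⟩ := exists_GM
      (hΦ.ext.and ((AE.const p).and (ae_ht.and ae_T))) hv (countable_empty (α := Ob))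
    obtain ⟨c, c1, c2, c3, -, -, c6, -⟩ := exists_step g1.rv (fun _ => 0) (Lad.empty _ _)
      (fun _ _ => canon ∅) fun β _ => canon_empty_mem β
    have d1 : RV (setf c p.f) := c1.setf
    have d2 : RL (setf c p.f) ρ := c2.setf_left
    have d3 : RL (setf c p.f) p := (d2.trans g6).trans hl
    subst g7
    exact ⟨N, _, setf c p.f, g1.ext d1 d2, g2 _ d1 d2, d2.trans g6,
      V_of_eq hp d1 hp.fin (d3 γ) fun _ _ _ => Iff.rfl, rfl, d3, (g4 p g3).le, c3, c6,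
      g5 p g3 hp.rv⟩
  · rintro x q B ⟨h1, h2, h3, h4, h5, h6, h7⟩
    change q.f = p.f at h2
    have hp' : ∀ β < γ, ∀ a, (β, a) ∈ q.f → a.pos < x := fun β hβ a ha =>
      ((hp.loc hβ).pos a (h2 ▸ ha)).trans_le h4
    exact ⟨h1, ⟨L_of_eq (h3 γ) fun _ _ _ => by rw [h2], h3⟩, h4, h5, h6, h7,
      fun β hβ _ => ⟨fun a ha _ => h2 ▸ ha, fun d m hd hxd => absurd (hp' β hβ _ hd) hxd.not_gt⟩,
      fun β hβ _ a => ⟨fun h => lt_irrefl x (hp' β hβ _ h), False.elim⟩⟩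

theorem restr_node (hw : Node γ w) {j m : ℕ} (h : Large w.r (restr w j m).A) :
    Node γ (restr w j m) ∧ NLe γ (restr w j m) w := by
  refine ⟨⟨hw.v, h, fun x q B hq => ?_, hw.on⟩, Le.refl, fun _ q _ hq => ⟨q, hq.1, Le.refl⟩⟩
  have e := hw.el x q B hq.1
  exact ⟨e.v, e.le, e.ht, e.lt, e.emp, e.T, e.tail, e.val⟩

theorem exists_spl (hw : Node 0 w) : ∃ w' j, Node 0 w' ∧ NLe 0 w' w ∧ Spl w' j := by
  obtain ⟨ρ₁, j, h1, h2, h3⟩ := hw.large.split hw.v.rv fun e he => (hw.el e.1 e.2.1 e.2.2 he).lt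
  have h4 : RV (setf ρ₁ ∅) := h1.setf
  obtain ⟨a1, a2⟩ := node_sub0 hw (V_zero.2 ⟨h4, finite_empty⟩) h2.setf_left
  refine ⟨_, j, a1, a2, fun k => ?_⟩
  obtain ⟨m, hm, h5⟩ := h3 k
  exact ⟨m, hm, (h5.sub h4 RL.refl.setf_left).mono RL.refl fun e he => ⟨⟨he.1.1, he.2⟩, he.1.2⟩⟩

theorem DO.inter {O O' : Set Nod} (h : DO γ O) (h' : DO γ O') : DO γ (O ∩ O') := by
  refine ⟨fun w hw => ?_, fun w hw w' a1 a2 a3 =>
    ⟨h.2 w hw.1 w' a1 a2 a3, h'.2 w hw.2 w' a1 a2 a3⟩⟩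
  obtain ⟨w', a1, a2, a3⟩ := h.1 w hw
  obtain ⟨w'', b1, b2, b3⟩ := h'.1 w' a2
  exact ⟨w'', ⟨h.2 w' a1 w'' a2 b2 b3, b1⟩, b2, b3.trans a3⟩

theorem DO.univ : DO γ univ := by
  exact ⟨fun w hw => ⟨w, trivial, hw, NLe.refl⟩, fun _ _ _ _ _ _ => trivial⟩

/-- `O` together with the nodes that have no extension with property `G`. -/
def Plus (γ : K) (O : Set Nod) (G : Nod → Prop) : Set Nod :=
  O ∪ {v | ∀ v', Node γ v' → NLe γ v' v → ¬ G v'}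

theorem do_plus {O : Set Nod} {G : Nod → Prop}
    (h₁ : ∀ v, Node γ v → G v → ∃ v' ∈ O, Node γ v' ∧ NLe γ v' v)
    (h₂ : ∀ v ∈ O, ∀ v', Node γ v → Node γ v' → NLe γ v' v → v' ∈ O) : DO γ (Plus γ O G) := by
  refine ⟨fun w hw => ?_, fun w hw w' a1 a2 a3 => hw.imp (fun h => h₂ w h w' a1 a2 a3)
    fun h v' b1 b2 => h v' b1 (b2.trans a3)⟩
  by_cases h : ∃ v, Node γ v ∧ NLe γ v w ∧ G v
  · obtain ⟨v, a1, a2, a3⟩ := h
    obtain ⟨v', b1, b2, b3⟩ := h₁ v a1 a3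
    exact ⟨v', Or.inl b1, b2, b3.trans a2⟩
  · exact ⟨w, Or.inr fun v a1 a2 a3 => h ⟨v, a1, a2, a3⟩, hw, NLe.refl⟩

end Pool.Agent.MP_2e2931_gt.Gap

end

section

namespace Pool.Agent.MP_2e2931_gt.Gap

open Set Ordinal

namespace Ch

variable {C : Ch} {β γ μ μ' : K} {w w' : Nod} {U U' : Cond → W → Prop} {p q : Cond} {x : W}
  {i : ℕ} {e : Nod × K × ℕ}

theorem FPos_iff : C.FPos β μ w U p ↔
    (∀ y < C.δ, Dns β p fun r => ∃ x ∈ C.Ed, y < x ∧ C.In β w x r ∧ U r x) ∧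
      ∀ μ', C.MemU μ' → μ' + ω ^ β * 2 ≤ μ → ∀ i₀, Dns β p fun r => ∃ i, i₀ ≤ i ∧
        C.FPhi β μ' i w U r := by
  unfold FPhi
  unfold FPos
  rw [WellFounded.fix_eq]

theorem In.mono (h : C.In β w x p) (hl : L β q p) : C.In β w x q := by
  obtain ⟨r, B, h1, h2, h3, h4, h5⟩ := h
  exact ⟨r, B, h1, h2, h3, h4, hl.trans h5⟩

theorem In.nle (h : C.In β w' x p) (hl : NLe β w' w) : C.In β w x p := by
  obtain ⟨r, B, h1, h2, h3, h4, h5⟩ := h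
  obtain ⟨r', k1, k2⟩ := hl.2 x r B h1
  exact ⟨r', B, k1, h2.trans k2.2, fun z hz hx => (k2.2 0).ht.trans (h3 z hz hx), h4,
    h5.trans k2.1⟩

theorem FPos.mono (h : C.FPos β μ w U p) (hl : L β q p) : C.FPos β μ w U q := by
  rw [FPos_iff] at h ⊢
  exact ⟨fun y hy => (h.1 y hy).mono hl, fun ν h1 h2 i₀ => (h.2 ν h1 h2 i₀).mono hl⟩

theorem FPos.reg (h : Dns β p fun r => C.FPos β μ w U r) : C.FPos β μ w U p := by
  rw [FPos_iff]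
  exact ⟨fun y hy => (h.imp fun _ _ _ k => (FPos_iff.1 k).1 y hy).join,
    fun ν h1 h2 i₀ => (h.imp fun _ _ _ k => (FPos_iff.1 k).2 ν h1 h2 i₀).join⟩

theorem FPos.le (h : C.FPos β μ w U p) (hμ : μ' ≤ μ) : C.FPos β μ' w U p := by
  rw [FPos_iff] at h ⊢
  exact ⟨h.1, fun ν h1 h2 => h.2 ν h1 (h2.trans hμ)⟩

theorem FPos.nle (h : C.FPos β μ w' U p) (hl : NLe β w' w) : C.FPos β μ w U p := by
  rw [FPos_iff] at h ⊢
  refine ⟨fun y hy => (h.1 y hy).imp ?_, fun ν h1 h2 i₀ => (h.2 ν h1 h2 i₀).imp ?_⟩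
  · rintro r _ _ ⟨x, k1, k2, k3, k4⟩
    exact ⟨x, k1, k2, k3.nle hl, k4⟩
  · rintro r _ _ ⟨i, k1, k2⟩
    refine ⟨i, k1, fun O m1 m2 => (k2 O m1 m2).imp ?_⟩
    rintro s _ _ ⟨v, n1, n2, n3, n4, n5⟩
    exact ⟨v, n1, n2, n3, n4.trans hl, n5⟩

theorem FPos.imp (h : C.FPos β μ w U p) (H : ∀ x ∈ C.Ed, ∀ r, V β r → L β r p → C.In β w x r →
    U r x → Dns β r fun s => U' s x) : C.FPos β μ w U' p := by
  induction μ using (wellFounded_lt (α := K)).induction generalizing w p with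
  | _ μ ih =>
    rw [FPos_iff] at h ⊢
    refine ⟨fun y hy => ((h.1 y hy).imp ?_).join, fun ν h1 h2 i₀ => (h.2 ν h1 h2 i₀).imp ?_⟩
    · rintro r vr lr ⟨x, k1, k2, k3, k4⟩
      exact (H x k1 r vr lr k3 k4).imp fun s _ ls k5 => ⟨x, k1, k2, k3.mono ls, k5⟩
    · rintro r _ lr ⟨i, k1, k2⟩
      refine ⟨i, k1, fun O m1 m2 => (k2 O m1 m2).imp ?_⟩
      rintro s _ ls ⟨v, n1, n2, n3, n4, n5⟩
      exact ⟨v, n1, n2, n3, n4, ih ν (lt_of_add h2) n5 fun x hx t vt lt k3 k4 =>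
        H x hx t vt (lt.trans (ls.trans lr)) (k3.nle n4) k4⟩

theorem FPhi.mono (h : C.FPhi β μ i w U p) (hl : L β q p) : C.FPhi β μ i w U q :=
  fun O m1 m2 => (h O m1 m2).mono hl

theorem FPhi.reg (h : Dns β p fun r => C.FPhi β μ i w U r) : C.FPhi β μ i w U p :=
  fun O m1 m2 => (h.imp fun _ _ _ k => k O m1 m2).join

theorem FPhi.imp (h : C.FPhi β μ i w U p) (H : ∀ x ∈ C.Ed, ∀ r, V β r → L β r p →
    C.In β w x r → U r x → Dns β r fun s => U' s x) : C.FPhi β μ i w U' p := by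
  refine fun O m1 m2 => (h O m1 m2).imp ?_
  rintro s _ ls ⟨v, n1, n2, n3, n4, n5⟩
  exact ⟨v, n1, n2, n3, n4, n5.imp fun x hx t vt lt k3 k4 =>
    H x hx t vt (lt.trans ls) (k3.nle n4) k4⟩

theorem Prom.mono (h : C.Prom β e U p) (hl : L β q p) : C.Prom β e U q := by
  obtain ⟨v, ν, _ | n⟩ := e
  · exact FPos.mono h hl
  · exact FPhi.mono h hl

theorem Prom.reg (h : Dns β p fun r => C.Prom β e U r) : C.Prom β e U p := by
  obtain ⟨v, ν, _ | n⟩ := e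
  · exact FPos.reg h
  · exact FPhi.reg h

theorem Prom.imp (h : C.Prom β e U p) (H : ∀ x ∈ C.Ed, ∀ r, V β r → L β r p →
    U r x → Dns β r fun s => U' s x) : C.Prom β e U' p := by
  obtain ⟨v, ν, _ | n⟩ := e
  · exact FPos.imp h fun x hx r vr lr _ => H x hx r vr lr
  · exact FPhi.imp h fun x hx r vr lr _ => H x hx r vr lr

/-- A positive node has an active root, and `p` is compatible with the root. -/
theorem FPos.act (h : C.FPos β μ w U p) (hp : V β p) (hw : Node β w) :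
    RL C.ρ w.r ∧ ∃ p', V β p' ∧ L β p' p ∧ L β p' w.r := by
  obtain ⟨s, vs, ls, x, -, -, ⟨r, B, h1, h2, -, -, h5⟩, -⟩ :=
    ((FPos_iff.1 h).1 (C.η 0) (C.lt 0)).ex hp
  have k := (hw.el x r B h1).le
  exact ⟨h2.trans k.2, s, vs, ls, h5.trans k.1⟩

theorem memU_prod {α α' : Type*} [Cod α] [Cod α'] {a : α} {a' : α'} :
    C.MemU (a, a') ↔ C.MemU a ∧ C.MemU a' := by
  constructor
  · rintro ⟨i, h⟩
    exact ⟨⟨i, (mem_prod.1 h).1⟩, i, (mem_prod.1 h).2⟩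
  · rintro ⟨⟨i, h⟩, j, h'⟩
    exact ⟨max i j, mem_prod.2 ⟨C.mem_mono h (le_max_left _ _), C.mem_mono h' (le_max_right _ _)⟩⟩

theorem pr_spec (h : C.MemU e) : ∃ l, C.pr l = e := by
  have h1 : {e : Nod × K × ℕ | C.MemU e}.Countable := by
    have : {e : Nod × K × ℕ | C.MemU e} = ⋃ i, {e | Mem (C.N i) e} := by
      ext e
      simp only [mem_ofPred_eq, mem_iUnion, MemU]
    rw [this]
    exact countable_iUnion fun i => countable_mem (C.gm i).ct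
  obtain ⟨f, hf⟩ := h1.exists_eq_range ⟨e, h⟩
  exact Classical.epsilon_spec (p := fun f : ℕ → Nod × K × ℕ => ∀ e, C.MemU e → ∃ l, f l = e)
    ⟨f, fun e' he' => (hf ▸ he' : e' ∈ range f)⟩ e h

theorem zeta_mem (β : K) (l : ℕ) : C.zeta β l ∈ NS β := ⟨_, fun _ hy => hy.1, rfl⟩

theorem dec_zeta {l : ℕ} {t : Nn} {D : Set (Nn × ℕ)} :
    Dec β (C.zeta β l) p (.cd t D) ↔ C.Prom β (C.pr l) (Uc β C.δ t D) p := by
  rw [Dec_def, zeta, ent_canon (small_of_S (α := β) fun _ hy => hy.1)]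
  constructor
  · intro h
    refine Prom.reg (h.imp ?_)
    rintro r _ _ ⟨c, ⟨-, -, t', D', h1, h2⟩, h3⟩
    cases h1
    exact h2.mono h3
  · intro h
    exact Dns.of_all fun s vs ls => ⟨cut β s,
      ⟨cut_mem_S vs.rv, vs.cut β, t, D, rfl, (h.mono ls).mono cut_L⟩, L_cut⟩

theorem Bel.mono (h : C.Bel γ p) (hl : Rle γ q p) : C.Bel γ q :=
  ⟨hl.trans h.le, h.lt.trans_le hl.ht, (hl.E _ h.lt).trans h.E, fun β hβ hT l =>
    (hl.Z β hβ (h.le.T β hβ hT) _ h.lt l).trans (h.Z β hβ hT l)⟩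

theorem Bel.level (h : C.Bel γ p) (hβ : β ≤ γ) : C.Bel β p :=
  ⟨h.le.mono hβ, h.lt, h.E, fun b hb => h.Z b (hb.trans_le hβ)⟩

theorem exists_top (C : Ch) : ∃ τ, RV τ ∧ RL τ C.ρ ∧ ∀ γ, C.Bel γ τ := by
  obtain ⟨τ, h1, h2, h3, -, -, h4, -, h5⟩ := exists_step (C.gm 0).rv (fun _ => 0) (A := C.Ed)
    (C.ht ▸ C.lad) C.zeta zeta_mem
  rw [C.ht] at h3 h4 h5
  exact ⟨τ, h1, h2, fun γ => ⟨h2 γ, h3, h4, fun β _ _ l => h5 β l⟩⟩

theorem Bel.prom (h : C.Bel γ p) (hp : V γ p) (hβ : β < γ) (hT : β ∈ C.ρ.T) {t : Nn} {l : ℕ}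
    (ha : (β, Atom.pm C.δ t l) ∈ p.f) :
    C.Prom β (C.pr l) (Uc β C.δ t (code p β C.δ t)) p := by
  have k := hp.pm hβ ha
  rwa [h.Z β hβ hT l, dec_zeta] at k

theorem Jn.mono {b : K} (h : C.Jn b μ w p) (hs : ∀ a, (b, a) ∈ p.f → (b, a) ∈ q.f) (hμ : μ' ≤ μ) :
    C.Jn b μ' w q := by
  obtain ⟨a, t, m, l, ν, h1, h2, h3, h4, h5, h6⟩ := h
  exact ⟨a, t, m, l, ν, h1, h2, hs _ h3, hs _ h4, h5, hμ.trans h6⟩

theorem Ok.mono (h : C.Ok γ μ w p) (hl : L γ q p) : C.Ok γ μ w q := by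
  obtain ⟨h1, b, hb, h2, h3, h4⟩ := h
  refine ⟨hl.trans h1, b, hb, h2, h3, h4.imp (fun k => ⟨k.1, k.2.mono (hl.mono hb)⟩) fun k =>
    ⟨k.1, k.2.mono (fun _ => hl.sub k.1) le_rfl⟩⟩

end Ch

end Pool.Agent.MP_2e2931_gt.Gap

end

section

namespace Pool.Agent.MP_2e2931_gt.Gap

open Set Ordinal

section

variable {C : Ch} {β μ μ' : K} {w : Nod} {U A B : Cond → W → Prop} {p : Cond} {i : ℕ}

lemma fpart_le (h : C.FPhi β μ i w U p) (hμ : μ' ≤ μ) : C.FPhi β μ' i w U p := fun O hO hD =>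
  (h O hO hD).imp fun _ _ _ ⟨w', h1, h2, h3, h4, h5⟩ => ⟨w', h1, h2, h3, h4, h5.le hμ⟩

lemma fpart_pt (hu : Mem (C.N i) (univ : Set Nod)) (h : C.FPhi β μ i w U p) (hp : V β p) {y : W}
    (hy : y < C.δ) : ∃ s, V β s ∧ L β s p ∧ ∃ x ∈ C.Ed, y < x ∧ C.In β w x s ∧ U s x := by
  obtain ⟨s, hs, hl, w', -, -, -, hn, hf⟩ := (h univ hu DO.univ).ex hp
  obtain ⟨s', hs', hl', x, hx, h1, h2, h3⟩ := ((Ch.FPos_iff.1 hf).1 y hy).ex hs
  exact ⟨s', hs', hl'.trans hl, x, hx, h1, h2.nle hn, h3⟩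

/-- The binary partition property of `FPos` of rank `μ`. -/
def fpartB (C : Ch) (β μ : K) (U A B : Cond → W → Prop) : Prop :=
  ∀ w p, (∀ x ∈ C.Ed, ∀ r, V β r → L β r p → U r x → Dns β r fun s => A s x ∨ B s x) →
    C.FPos β μ w U p → Dns β p fun s => C.FPos β μ w (fun r x => U r x ∧ A r x) s ∨
      C.FPos β μ w (fun r x => U r x ∧ B r x) s

lemma fpart_phi (hI : ∀ O O' : Set Nod, Mem (C.N i) O → Mem (C.N i) O' → Mem (C.N i) (O ∩ O'))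
    (ih : fpartB C β μ U A B)
    (H : ∀ x ∈ C.Ed, ∀ r, V β r → L β r p → U r x → Dns β r fun s => A s x ∨ B s x)
    (h : C.FPhi β μ i w U p) : Dns β p fun s => C.FPhi β μ i w (fun r x => U r x ∧ A r x) s ∨
      C.FPhi β μ i w (fun r x => U r x ∧ B r x) s := by
  by_contra hc
  obtain ⟨p1, v1, l1, n1⟩ := not_dns.1 hc
  have a1 := fun e => n1 p1 v1 L.refl (Or.inl e)
  simp only [Ch.FPhi, not_forall, imp_false] at a1
  obtain ⟨OA, mA, dA, a1⟩ := a1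
  obtain ⟨p2, v2, l2, n2⟩ := not_dns.1 a1
  have a2 := fun e => n1 p2 v2 l2 (Or.inr e)
  simp only [Ch.FPhi, not_forall, imp_false] at a2
  obtain ⟨OB, mB, dB, a2⟩ := a2
  obtain ⟨p3, v3, l3, n3⟩ := not_dns.1 a2
  have l3' := (l3.trans l2).trans l1
  obtain ⟨s, vs, ls, w', o, m, nd, nl, f⟩ := h _ (hI _ _ mA mB) (dA.inter dB) p3 v3 l3'
  obtain ⟨s', vs', ls', e | e⟩ := (ih w' s
    (fun x hx r vr lr => H x hx r vr ((lr.trans ls).trans l3')) f).ex vs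
  · exact n2 s' vs' ((ls'.trans ls).trans l3) ⟨w', o.1, m, nd, nl, e⟩
  · exact n3 s' vs' (ls'.trans ls) ⟨w', o.2, m, nd, nl, e⟩

/-- No extension has a point above `y`. -/
def fpartP (C : Ch) (β : K) (w : Nod) (U : Cond → W → Prop) (p : Cond) (y : W) : Prop :=
  ∀ s, V β s → L β s p → ¬ ∃ x ∈ C.Ed, y < x ∧ C.In β w x s ∧ U s x

/-- No extension has `FPhi` with a large index. -/
def fpartK (C : Ch) (β : K) (w : Nod) (U : Cond → W → Prop) (p : Cond) (μ : K) (i : ℕ) : Prop :=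
  ∀ s, V β s → L β s p → ¬ ∃ j, i ≤ j ∧ C.FPhi β μ j w U s

lemma fpart_neg (h : ¬ C.FPos β μ w U p) : ∃ q, V β q ∧ L β q p ∧
    ((∃ y < C.δ, fpartP C β w U q y) ∨
      ∃ μ', C.MemU μ' ∧ μ' + ω ^ β * 2 ≤ μ ∧ ∃ i, fpartK C β w U q μ' i) := by
  rw [Ch.FPos_iff, not_and_or] at h
  simp only [not_forall] at h
  rcases h with ⟨y, hy, h⟩ | ⟨μ', h1, h2, i, h⟩
  · obtain ⟨q, v, l, n⟩ := not_dns.1 h
    exact ⟨q, v, l, Or.inl ⟨y, hy, n⟩⟩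
  · obtain ⟨q, v, l, n⟩ := not_dns.1 h
    exact ⟨q, v, l, Or.inr ⟨μ', h1, h2, i, n⟩⟩

lemma fpartP.kill (hu : ∀ i, Mem (C.N i) (univ : Set Nod)) {y : W} (hy : y < C.δ)
    (h : fpartP C β w U p y) (μ : K) (i : ℕ) : fpartK C β w U p μ i := by
  rintro s vs ls ⟨j, -, f⟩
  obtain ⟨s', vs', ls', e⟩ := fpart_pt (hu j) f vs hy
  exact h s' vs' (ls'.trans ls) e

lemma fpartK.up (h : fpartK C β w U p μ i) (hμ : μ ≤ μ') {j : ℕ} (hj : i ≤ j) :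
    fpartK C β w U p μ' j :=
  fun s vs ls ⟨k, hk, f⟩ => h s vs ls ⟨k, hj.trans hk, fpart_le f hμ⟩

lemma fpart_pos (hu : ∀ i, Mem (C.N i) (univ : Set Nod))
    (hI : ∀ i (O O' : Set Nod), Mem (C.N i) O → Mem (C.N i) O' → Mem (C.N i) (O ∩ O'))
    (hU : UM β U) (μ : K) : fpartB C β μ U A B := by
  induction μ using WellFoundedLT.induction with
  | ind μ ih =>
  intro w p H h
  by_contra hc
  obtain ⟨p1, v1, l1, n1⟩ := not_dns.1 hc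
  obtain ⟨p2, v2, l2, n2⟩ := fpart_neg fun e => n1 p1 v1 L.refl (Or.inl e)
  obtain ⟨p3, v3, l3, n3⟩ := fpart_neg fun e => n1 p2 v2 l2 (Or.inr e)
  have l3' := (l3.trans l2).trans l1
  have key : ∀ ν, C.MemU ν → ν + ω ^ β * 2 ≤ μ → ∀ i,
      fpartK C β w (fun r x => U r x ∧ A r x) p2 ν i →
      fpartK C β w (fun r x => U r x ∧ B r x) p3 ν i → False := fun ν m le i kA kB => by
    obtain ⟨s, vs, ls, j, hj, f⟩ := (Ch.FPos_iff.1 h).2 ν m le i p3 v3 l3'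
    obtain ⟨s', vs', ls', e | e⟩ := (fpart_phi (hI j) (ih ν (Ch.lt_of_add le))
      (fun x hx r vr lr => H x hx r vr ((lr.trans ls).trans l3')) f).ex vs
    · exact kA s' vs' ((ls'.trans ls).trans l3) ⟨j, hj, e⟩
    · exact kB s' vs' (ls'.trans ls) ⟨j, hj, e⟩
  rcases n2 with ⟨yA, hA, nA⟩ | ⟨μA, mA, eA, iA, nA⟩ <;>
    rcases n3 with ⟨yB, hB, nB⟩ | ⟨μB, mB, eB, iB, nB⟩
  · obtain ⟨s, vs, ls, x, hx, lt, hin, u⟩ := (Ch.FPos_iff.1 h).1 _ (max_lt hA hB) p3 v3 l3'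
    obtain ⟨s', vs', ls', e | e⟩ := (H x hx s vs (ls.trans l3') u).ex vs
    · exact nA s' vs' ((ls'.trans ls).trans l3)
        ⟨x, hx, (le_max_left _ _).trans_lt lt, hin.mono ls', hU _ _ _ u vs' ls', e⟩
    · exact nB s' vs' (ls'.trans ls)
        ⟨x, hx, (le_max_right _ _).trans_lt lt, hin.mono ls', hU _ _ _ u vs' ls', e⟩
  · exact key μB mB eB iB (nA.kill hu hA _ _) nB
  · exact key μA mA eA iA nA (nB.kill hu hB _ _)
  · rcases le_total μA μB with le | le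
    · exact key μB mB eB _ (nA.up le (le_max_left iA iB)) (nB.up le_rfl (le_max_right iA iB))
    · exact key μA mA eA _ (nA.up le_rfl (le_max_left iA iB)) (nB.up le (le_max_right iA iB))

lemma fpart_prom (hu : ∀ i, Mem (C.N i) (univ : Set Nod))
    (hI : ∀ i (O O' : Set Nod), Mem (C.N i) O → Mem (C.N i) O' → Mem (C.N i) (O ∩ O'))
    (hU : UM β U) {e : Nod × K × ℕ}
    (H : ∀ x ∈ C.Ed, ∀ r, V β r → L β r p → U r x → Dns β r fun s => A s x ∨ B s x)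
    (h : C.Prom β e U p) : Dns β p fun s => C.Prom β e (fun r x => U r x ∧ A r x) s ∨
      C.Prom β e (fun r x => U r x ∧ B r x) s := by
  obtain ⟨w, μ, _ | i⟩ := e
  · exact fpart_pos hu hI hU μ w p H h
  · exact fpart_phi (hI i) (fpart_pos hu hI hU μ) H h

lemma fpart_ne (hu : ∀ i, Mem (C.N i) (univ : Set Nod)) {e : Nod × K × ℕ} (hp : V β p)
    (h : C.Prom β e U p) : ∃ s, V β s ∧ L β s p ∧ ∃ x ∈ C.Ed, U s x := by
  obtain ⟨w, μ, _ | i⟩ := e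
  · obtain ⟨s, vs, ls, x, hx, -, -, u⟩ := ((Ch.FPos_iff.1 h).1 _ (C.lt 0)).ex hp
    exact ⟨s, vs, ls, x, hx, u⟩
  · obtain ⟨s, vs, ls, x, hx, -, -, u⟩ := fpart_pt (hu i) h hp (C.lt 0)
    exact ⟨s, vs, ls, x, hx, u⟩

end

/-- Partition property of promises. -/
theorem aec_part : AEC fun C => ∀ (β : K) (e : Nod × K × ℕ) (U : Cond → W → Prop) (p : Cond)
    (u : Set (ℕ × ℕ)) (A : ℕ × ℕ → Cond → W → Prop), u.Finite → UM β U → (∀ y, UM β (A y)) →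
    V β p → C.Prom β e U p →
    (∀ x ∈ C.Ed, ∀ r, V β r → L β r p → U r x → Dns β r fun s => ∃ y ∈ u, A y s x) →
    ∃ p', ∃ y ∈ u, V β p' ∧ L β p' p ∧ C.Prom β e (fun r x => U r x ∧ A y r x) p' := by
  refine (AEC.of_AE ((AE.const (univ : Set Nod)).and
    (AE.fn fun z : Set Nod × Set Nod => z.1 ∩ z.2))).mono fun C hC β e U p u A fin hU hA => ?_
  have hu : ∀ i, Mem (C.N i) (univ : Set Nod) := fun i => (hC i).1
  have hI : ∀ i (O O' : Set Nod), Mem (C.N i) O → Mem (C.N i) O' → Mem (C.N i) (O ∩ O') :=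
    fun i O O' h h' => (hC i).2 (O, O') ⟨h, h'⟩
  induction u, fin using Set.Finite.induction_on generalizing U p with
  | empty =>
    intro hp h H
    obtain ⟨s, vs, ls, x, hx, u⟩ := fpart_ne hu hp h
    obtain ⟨_, -, -, _, h, -⟩ := (H x hx s vs ls u).ex vs
    exact h.elim
  | @insert y u _ _ ih =>
    intro hp h H
    have hB : UM β fun r x => ∃ z ∈ u, A z r x :=
      fun r r' x ⟨z, hz, a⟩ v l => ⟨z, hz, hA z _ _ _ a v l⟩
    obtain ⟨s, vs, ls, f | f⟩ := (fpart_prom (A := A y) (B := fun r x => ∃ z ∈ u, A z r x) hu hI hU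
      (fun x hx r vr lr a => (H x hx r vr lr a).imp fun s _ _ ⟨z, hz, b⟩ =>
        hz.elim (fun e => Or.inl (e ▸ b)) fun e => Or.inr ⟨z, e, b⟩) h).ex hp
    · exact ⟨s, y, mem_insert _ _, vs, ls, f⟩
    · obtain ⟨p', z, hz, v, l, g⟩ := ih _ s
        (fun r r' x a v l => ⟨hU _ _ _ a.1 v l, hB _ _ _ a.2 v l⟩) vs f
        fun x _ r _ _ a => Dns.of_all fun s' v l => hB _ _ _ a.2 v l
      exact ⟨p', z, mem_insert_of_mem _ hz, v, l.trans ls, g.imp fun x _ r _ _ a =>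
        Dns.of_all fun s' v l => ⟨hU _ _ _ a.1.1 v l, hA z _ _ _ a.2 v l⟩⟩

end Pool.Agent.MP_2e2931_gt.Gap

end

section

namespace Pool.Agent.MP_2e2931_gt.Gap

open Set Ordinal

/-- The data required of the upper part in the reduction step. -/
def RedQ (γ β : K) (G : Set Cond) (l : List Atom) (c c' : Cond) : Prop :=
  c' ∈ G ∧ V γ c' ∧ Le β c c' ∧
    ∃ c₀, V (Order.succ β) c₀ ∧ (∀ a, (β, a) ∈ c₀.f ↔ a ∈ l) ∧ L (Order.succ β) c' c₀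

theorem red_core {N : Set Ob} {η : W} {ρ : Cond} (gm : GM N η ρ)
    (hact : ∀ (γ : K) (G : Set Cond), Mem N γ → Mem N G →
      (∃ b, (V γ b ∧ b ∈ G) ∧ RV b ∧ RL b ρ) → ∃ b, Mem N b ∧ (V γ b ∧ b ∈ G) ∧ RV b ∧ RL ρ b)
    (hht : ∀ c : Cond, Mem N c → c.ht < η) (hT : ∀ c : Cond, Mem N c → RV c → c.T ⊆ KN N)
    (h0 : w0 < η)
    (hG : ∀ (γ β : K) (G : Set Cond) (l : List Atom), Mem N γ → Mem N β → Mem N G → Mem N l →
      Mem N {c | ∃ c', RedQ γ β G l c c'})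
    (hwit : ∀ (γ β : K) (G : Set Cond) (l : List Atom) (c : Cond), Mem N γ → Mem N β → Mem N G →
      Mem N l → Mem N c → (∃ c', RedQ γ β G l c c') → ∃ c', Mem N c' ∧ RedQ γ β G l c c')
    (ham : ∀ (β : K) (c c' : Cond), Mem N β → Mem N c → Mem N c' → Mem N (am β c c c' c'))
    (hη : η < ρ.ht) (hE : ρ.E η = ∅) (γ : K) :
    Mem N γ → ∀ G : Set Cond, Mem N G → (∀ c ∈ G, ∀ c', V γ c' → Le γ c' c → c' ∈ G) →
      ∀ r ∈ G, V γ r → RL r ρ →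
      ∃ r₁, ∃ r₀ ∈ G, V γ r₁ ∧ Le γ r₁ r ∧ Mem N r₀ ∧ V γ r₀ ∧ RL ρ r₀ ∧ L γ r₁ r₀ ∧
        ∀ β < γ, Mem N β → Tail β η r₁ r₀ := by
  induction γ using WellFoundedLT.induction with
  | ind γ ih =>
  intro hγ G hGN hGm r hrG hr hrρ
  -- positions of atoms of valid members of `N` are below `η`
  have hpos : ∀ c : Cond, Mem N c → V γ c → ∀ β < γ, ∀ a, (β, a) ∈ c.f → a.pos < η :=
    fun c hc hv β hβ a ha => ((hv.loc hβ).pos a ha).trans (hht c hc)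
  have hout : ∀ c : Cond, Mem N c → V γ c → ∀ β < γ, ¬ Mem N β → ∀ a, (β, a) ∉ c.f :=
    fun c hc hv β hβ hn a ha => hn (hT c hc hv.rv (hv.supp hβ ha))
  by_cases hS : ∃ β, β < γ ∧ Mem N β ∧ ∃ a, (β, a) ∈ r.f
  swap
  · have hS' : ∀ β < γ, Mem N β → ∀ a, (β, a) ∉ r.f :=
      fun β hβ hm a ha => hS ⟨β, hβ, hm, a, ha⟩
    obtain ⟨r₀, hr₀N, ⟨hr₀v, hr₀G⟩, -, hρr₀⟩ := hact γ G hγ hGN ⟨r, ⟨hr, hrG⟩, hr.rv, hrρ⟩
    have hrr₀ : RL r r₀ := hrρ.trans hρr₀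
    obtain ⟨v, l₁, l₂, -⟩ := am_spec (b := 0) (ρ := r) (p'' := r) (p' := r₀) (q := r)
      zero_le hr.rv (hr.mono zero_le) hr₀v hr (L_zero.2 (hrr₀ 0)) L.refl Rle.refl
      (hrr₀ γ) Rle.refl (fun β _ hβ => by
        by_cases hm : Mem N β
        · exact Or.inr (Or.inl (hS' β hβ hm))
        · exact Or.inl (hout r₀ hr₀N hr₀v β hβ hm))
    refine ⟨am 0 r r r₀ r, r₀, hr₀G, v, ⟨l₂, RL.setf_left RL.refl⟩, hr₀N, hr₀v, hρr₀, l₁, ?_⟩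
    intro β hβ hm
    have key : ∀ a, (β, a) ∈ (am 0 r r r₀ r).f → (β, a) ∈ r₀.f := by
      intro a ha
      rcases mem_am.1 ha with ⟨h, -⟩ | ⟨-, h | h⟩
      · exact absurd h (not_lt.2 zero_le)
      · exact h
      · exact absurd h (hS' β hβ hm a)
    refine ⟨fun a ha _ => key a ha, fun d m hd hle => ?_⟩
    exact absurd (hpos r₀ hr₀N hr₀v β hβ _ (key _ hd)) (not_lt.2 hle)
  · have hfin : {β | β < γ ∧ Mem N β ∧ ∃ a, (β, a) ∈ r.f}.Finite :=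
      (hr.fin.image Prod.fst).subset (by
        rintro β ⟨-, -, a, ha⟩
        exact ⟨(β, a), ha, rfl⟩)
    obtain ⟨β, ⟨hβ, hβN, -⟩, hmax⟩ := Set.exists_max_image _ id hfin hS
    have hup : ∀ β', β < β' → β' < γ → Mem N β' → ∀ a, (β', a) ∉ r.f :=
      fun β' h₁ h₂ hm a ha => absurd (hmax β' ⟨h₂, hm, a, ha⟩) (not_le.2 h₁)
    have hsγ : Order.succ β ≤ γ := Order.succ_le_of_lt hβ
    have hβs : β < Order.succ β := Order.lt_succ β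
    obtain ⟨f, hr'v, hr'l, hclo, hf⟩ := exists_close (x := η) hr hβ
      (((hrρ 0).E η hη).trans hE)
    set r' := setf r f with hr'
    have hr'r : RL r' r := RL.setf_left RL.refl
    have hr'G : r' ∈ G := hGm r hrG r' hr'v ⟨hr'l, hr'r⟩
    have hr'ρ : RL r' ρ := hr'r.trans hrρ
    have hup' : ∀ β', β < β' → β' < γ → Mem N β' → ∀ a, (β', a) ∉ r'.f :=
      fun β' h₁ h₂ hm a ha => hup β' h₁ h₂ hm a ((hf (β', a) h₁.ne').1 ha)
    have hlf : {a : Atom | (β, a) ∈ r'.f ∧ a.pos < η}.Finite :=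
      (hr'v.fin.image Prod.snd).subset (fun a ha => ⟨(β, a), ha.1, rfl⟩)
    obtain ⟨l, hl⟩ : ∃ l : List Atom, ∀ a, a ∈ l ↔ (β, a) ∈ r'.f ∧ a.pos < η :=
      ⟨hlf.toFinset.toList, fun a => by simp⟩
    have hlN : Mem N l := mem_list.2 fun a ha => mem_atom.2 ((gm.eta _).2 ((hl a).1 ha).2)
    obtain ⟨c₁, hc₁v, hc₁l, hc₁f⟩ := exists_low (hr'v.mono hsγ) h0
    obtain ⟨r₁', r₀', hr₀'G, hr₁'v, hr₁'l, hr₀'N, hr₀'v, hρr₀', hl₁₀, htail⟩ :=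
      ih β hβ hβN {c | ∃ c', RedQ γ β G l c c'} (hG γ β G l hγ hβN hGN hlN)
        (by
          rintro c ⟨c', h₁, h₂, h₃, h₄⟩ c'' _ hle
          exact ⟨c', h₁, h₂, hle.trans h₃, h₄⟩)
        r' ⟨r', hr'G, hr'v, Le.refl, c₁, hc₁v, fun a => (hc₁f a).trans (hl a).symm, hc₁l⟩
        (hr'v.mono hβ.le) hr'ρ
    obtain ⟨c', hc'N, hc'G, hc'v, hc'l, c₀, hc₀v, hc₀f, hc₀l⟩ :=
      hwit γ β G l r₀' hγ hβN hGN hlN hr₀'N hr₀'G
    obtain ⟨hr₀v, hr₀c, -, -⟩ := am_spec (b := β) (ρ := r₀') (p'' := r₀') (p' := c') (q := c')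
      hβ.le hr₀'v.rv hr₀'v hc'v hc'v hc'l.1 hc'l.1 Rle.refl (hc'l.2 γ) (hc'l.2 γ)
      (fun _ _ _ => Or.inr (Or.inr (Or.inl fun _ => Iff.rfl)))
    have hr₀N : Mem N (am β r₀' r₀' c' c') := ham β r₀' c' hβN hr₀'N hc'N
    have hlow : ∀ β' < β, ∀ a, (β', a) ∈ (am β r₀' r₀' c' c').f ↔ (β', a) ∈ r₀'.f := by
      intro β' h a
      rw [mem_am]
      constructor
      · rintro (⟨-, h'⟩ | ⟨h', -⟩)
        · exact h'
        · exact absurd h (not_lt.2 h')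
      · exact fun h' => Or.inl ⟨h, h'⟩
    have hρr₀ : RL ρ (am β r₀' r₀' c' c') := hρr₀'.setf_right
    have hr₀G : am β r₀' r₀' c' c' ∈ G := hGm c' hc'G _ hr₀v ⟨hr₀c, hc'l.2.setf_left⟩
    have hl₀ : L β r₀' (am β r₀' r₀' c' c') :=
      L_of_eq (Rle.setf_right Rle.refl) fun β' h a => (hlow β' h a).symm
    generalize am β r₀' r₀' c' c' = r₀ at *
    have hr₀c₀ : L (Order.succ β) r₀ c₀ := (hr₀c.mono hsγ).trans hc₀l
    have hr₁'ρ : RL r₁' ρ := hr₁'l.2.trans hr'ρ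
    obtain ⟨v, l₁, l₂, -⟩ := am_spec (b := β) (ρ := r₁') (p'' := r₁') (p' := r₀) (q := r')
      hβ.le hr₁'v.rv hr₁'v hr₀v hr'v (hl₁₀.trans hl₀) hr₁'l.1 Rle.refl
      ((hr₁'ρ.trans hρr₀) γ) (hr₁'l.2 γ) (fun β' h₁ h₂ => by
        rcases h₁.eq_or_lt with rfl | h₁
        · refine Or.inr (Or.inr (Or.inr ⟨c₀, η, hr₀c₀, hc₀v,
            fun a ha => ((hl a).1 ((hc₀f a).1 ha)).1,
            ⟨fun a ha hp => (hc₀f a).2 ((hl a).2 ⟨ha, hp⟩), hclo⟩, ?_, ?_⟩))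
          · intro a a' ha _ hle
            exact absurd (hpos r₀ hr₀N hr₀v _ hβ a ha) (not_lt.2 hle)
          · intro d m z a hd _ hz hzE
            have hdη : d < η := hpos r₀ hr₀N hr₀v _ hβ _ hd
            have hzd : z < d :=
              (hr₁'v.rv.lad d ((hdη.trans hη).trans_le (hr₁'ρ 0).ht)).lt z hzE
            exact absurd (hzd.trans hdη) (not_lt.2 hz)
        · by_cases hm : Mem N β'
          · exact Or.inr (Or.inl (hup' β' h₁ h₂ hm))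
          · exact Or.inl (hout r₀ hr₀N hr₀v β' h₂ hm))
    refine ⟨am β r₁' r₁' r₀ r', r₀, hr₀G, v,
      ⟨l₂.trans hr'l, (hr₁'l.2.trans hr'r).setf_left⟩, hr₀N, hr₀v, hρr₀, l₁, ?_⟩
    intro β' hβ' hm
    rcases lt_trichotomy β' β with h | rfl | h
    · have key : ∀ a, (β', a) ∈ (am β r₁' r₁' r₀ r').f ↔ (β', a) ∈ r₁'.f := by
        intro a
        rw [mem_am]
        constructor
        · rintro (⟨-, h'⟩ | ⟨h', -⟩)
          · exact h'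
          · exact absurd h (not_lt.2 h')
        · exact fun h' => Or.inl ⟨h, h'⟩
      obtain ⟨t₁, t₂⟩ := htail β' h hm
      refine ⟨fun a ha hp => (hlow β' h a).2 (t₁ a ((key a).1 ha) hp), ?_⟩
      intro d m hd hle z hz hzη
      obtain ⟨a, ha⟩ := t₂ d m ((key _).1 hd) hle z hz hzη
      exact ⟨a, (key _).2 ha⟩
    · have key : ∀ a, (β', a) ∈ (am β' r₁' r₁' r₀ r').f ↔ (β', a) ∈ r₀.f ∨ (β', a) ∈ r'.f := by
        intro a
        rw [mem_am]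
        constructor
        · rintro (⟨h', -⟩ | ⟨-, h'⟩)
          · exact absurd h' (lt_irrefl _)
          · exact h'
        · exact fun h' => Or.inr ⟨le_rfl, h'⟩
      refine ⟨fun a ha hp => ?_, ?_⟩
      · rcases (key a).1 ha with h' | h'
        · exact h'
        · exact hr₀c₀.sub hβs ((hc₀f a).2 ((hl a).2 ⟨h', hp⟩))
      · intro d m hd hle z hz hzη
        rcases (key _).1 hd with h' | h'
        · exact absurd (hpos r₀ hr₀N hr₀v _ hβ _ h') (not_lt.2 hle)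
        · have hd' : d < r'.ht := (hr'v.loc hβ).pos _ h'
          have hE' : r₁'.E d = r'.E d := (hr₁'l.2 0).E d hd'
          obtain ⟨a, ha⟩ := hclo d m h' hle z (hE' ▸ hz) hzη
          exact ⟨a, (key _).2 (Or.inr ha)⟩
    · have key : ∀ a, (β', a) ∈ (am β r₁' r₁' r₀ r').f → (β', a) ∈ r₀.f := by
        intro a ha
        rcases mem_am.1 ha with ⟨h', -⟩ | ⟨-, h' | h'⟩
        · exact absurd h' (not_lt.2 h.le)
        · exact h'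
        · exact absurd h' (hup' β' h hβ' hm a)
      refine ⟨fun a ha _ => key a ha, fun d m hd hle => ?_⟩
      exact absurd (hpos r₀ hr₀N hr₀v β' hβ' _ (key _ hd)) (not_lt.2 hle)

/-- The reduction lemma. -/
theorem ae_red : AE fun N η ρ => η < ρ.ht → ρ.E η = ∅ → ∀ γ : K, Mem N γ → ∀ G : Set Cond,
    Mem N G → (∀ c ∈ G, ∀ c', V γ c' → Le γ c' c → c' ∈ G) → ∀ r ∈ G, V γ r → RL r ρ →
      ∃ r₁, ∃ r₀ ∈ G, V γ r₁ ∧ Le γ r₁ r ∧ Mem N r₀ ∧ V γ r₀ ∧ RL ρ r₀ ∧ L γ r₁ r₀ ∧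
        ∀ β < γ, Mem N β → Tail β η r₁ r₀ := by
  have a₁ := AE.act (fun (x : K × Set Cond) (b : Cond) => V x.1 b ∧ b ∈ x.2) id
  have a₂ := AE.fn (fun x : K × K × Set Cond × List Atom =>
    {c | ∃ c', RedQ x.1 x.2.1 x.2.2.1 x.2.2.2 c c'})
  have a₃ := AE.wit (fun (x : K × K × Set Cond × List Atom × Cond) (c' : Cond) =>
    RedQ x.1 x.2.1 x.2.2.1 x.2.2.2.1 x.2.2.2.2 c')
  have a₄ := AE.fn (fun x : K × Cond × Cond => am x.1 x.2.1 x.2.1 x.2.2 x.2.2)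
  refine (a₁.and (a₂.and (a₃.and (a₄.and (ae_ht.and (ae_T.and ae_zero)))))).mono ?_
  rintro N η ρ gm ⟨h₁, h₂, h₃, h₄, h₅, h₆, h₇⟩ hη hE γ
  exact red_core gm (fun γ G a b => h₁ (γ, G) ⟨a, b⟩) h₅ h₆ h₇
    (fun γ β G l a b c d => h₂ (γ, β, G, l) ⟨a, b, c, d⟩)
    (fun γ β G l c a b e d g => h₃ (γ, β, G, l, c) ⟨a, b, e, d, g⟩)
    (fun β c c' a b d => h₄ (β, c, c') ⟨a, b, d⟩) hη hE γ

end Pool.Agent.MP_2e2931_gt.Gap

end

section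

namespace Pool.Agent.MP_2e2931_gt.Gap

open Set Ordinal

variable {β γ b : K} {v w : Nod}

/-- The members with data `c = (root, list of values, value)`. -/
def shrB (γ : K) (w : Nod) (Q : W → Cond → ℕ → Prop) (c : Cond × List (K × ℕ) × ℕ) :
    Set (W × Cond × Set K) :=
  {e | ∃ q, (e.1, q, e.2.2) ∈ w.A ∧ V γ e.2.1 ∧ Le γ e.2.1 q ∧ Q e.1 e.2.1 c.2.2 ∧ V γ c.1 ∧
    Le γ c.1 w.r ∧ Le γ e.2.1 c.1 ∧ (∀ β < γ, β ∈ e.2.2 → Tail β e.1 e.2.1 c.1) ∧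
    (∀ β < γ, β ∈ e.2.2 → ∀ a, (β, Atom.val e.1 a) ∈ e.2.1.f ↔ (β, a) ∈ c.2.1) ∧
    ∀ β < γ, ∀ a, (β, a) ∈ c.2.1 → (β, Atom.on) ∈ c.1.f}

theorem shr_ae (hw : Node γ w) (Q : W → Cond → ℕ → Prop)
    (hQ : ∀ x q q' n, Q x q n → V γ q' → L γ q' q → Q x q' n)
    (H : ∀ x q B, (x, q, B) ∈ w.A → ∃ q' n, V γ q' ∧ L γ q' q ∧ Q x q' n) :
    AE fun N x q => (x, q, KN N) ∈ w.A →
      ∃ q' c, RV q' ∧ RL q' q ∧ Mem N c ∧ (x, q', KN N) ∈ shrB γ w Q c := by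
  refine (((ae_red.and ae_zero).and (AE.const γ)).and
    (AE.const {c : Cond | Le γ c w.r})).mono ?_
  rintro N x q - ⟨⟨⟨hred, h0⟩, hγ⟩, hG⟩ hA
  have he := hw.el _ _ _ hA
  obtain ⟨q', n, hv, hl, hq⟩ := H _ _ _ hA
  have hc : Le γ (amR γ q' q) q := ⟨amR_L.trans hl, amR_RL hl.rle⟩
  obtain ⟨r₁, r₀, hr₀, v₁, l₁, m₀, v₀, rl₀, l₀, ht⟩ := hred he.lt he.emp γ hγ _ hG
    (fun c hc c' _ h => h.trans hc) (amR γ q' q) (hc.trans he.le) (hv.amR he.v.rv) hc.2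
  have hfin : {y : K × ℕ | y.1 < γ ∧ Mem N y.1 ∧ (y.1, Atom.val x y.2) ∈ r₁.f}.Finite := by
    refine (v₁.fin.preimage (f := fun y : K × ℕ => (y.1, Atom.val x y.2)) ?_).subset
      fun y hy => hy.2.2
    intro y _ z _ h
    exact Prod.ext (Prod.mk.inj h).1 (Atom.val.inj (Prod.mk.inj h).2).2
  have hmem : ∀ y : K × ℕ, y ∈ hfin.toFinset.toList ↔
      y.1 < γ ∧ Mem N y.1 ∧ (y.1, Atom.val x y.2) ∈ r₁.f := fun y => by
    rw [Finset.mem_toList, Finite.mem_toFinset]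
    rfl
  refine ⟨r₁, (r₀, hfin.toFinset.toList, n), v₁.rv, l₁.2.trans hc.2,
    mem_prod.2 ⟨m₀, mem_prod.2 ⟨mem_list.2 fun y hy => ?_, mem_nat⟩⟩, q, hA, v₁, l₁.trans hc,
    hQ _ _ _ _ hq v₁ (l₁.1.trans amR_L), v₀, hr₀, ⟨l₀, (l₁.2.trans hc.2).trans rl₀⟩, ht,
    fun β hβ hN a => ?_, fun β hβ a ha => ?_⟩
  · exact mem_prod.2 ⟨((hmem y).1 hy).2.1, mem_nat⟩
  · exact ⟨fun h => (hmem (β, a)).2 ⟨hβ, hN, h⟩, fun h => ((hmem (β, a)).1 h).2.2⟩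
  · obtain ⟨-, hN, h⟩ := (hmem (β, a)).1 ha
    exact (ht β hβ hN).1 _ ((v₁.loc hβ).on _ h) h0

/-- Shrinking a node so that all its members have a property with the same value. -/
theorem shrink (hw : Node γ w) (Q : W → Cond → ℕ → Prop)
    (hQ : ∀ x q q' n, Q x q n → V γ q' → L γ q' q → Q x q' n)
    (H : ∀ x q B, (x, q, B) ∈ w.A → ∃ q' n, V γ q' ∧ L γ q' q ∧ Q x q' n) :
    ∃ w' n, Node γ w' ∧ NLe γ w' w ∧ ∀ x q B, (x, q, B) ∈ w'.A → Q x q n := by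
  obtain ⟨ρ₁, ⟨r₀, l, n⟩, hρ, -, hL⟩ := hw.large.fodor hw.v.rv (shrB γ w Q) (shr_ae hw Q hQ H)
  obtain ⟨⟨x₀, q₀, B₀⟩, ⟨-, -, v₀, -, -, vr, lr, l₀, -, -, hon⟩, rl₀, -, -⟩ :=
    (hL.sub hρ RL.refl).nonempty hρ
  have hrl : RL (setf q₀ r₀.f) r₀ := l₀.2.setf_left
  have hv : V γ (setf q₀ r₀.f) :=
    V_of_eq vr v₀.rv.setf vr.fin (hrl γ) fun _ _ _ => Iff.rfl
  have hl : L γ (setf q₀ r₀.f) r₀ := L_of_eq (hrl γ) fun _ _ _ => Iff.rfl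
  refine ⟨⟨setf q₀ r₀.f, _, fun β a => (β, a) ∈ l⟩, n,
    ⟨hv, hL.sub hv.rv rl₀.setf_left, ?_, hon⟩, ⟨Le.trans ⟨hl, hrl⟩ lr, ?_⟩, ?_⟩
  · rintro x q' B ⟨⟨q, hA, v', l', -, -, -, l'', ht, hval, -⟩, h₁, h₂, h₃⟩
    have he := hw.el _ _ _ hA
    exact ⟨v', ⟨L.congr_right l''.1 vr (h₁ γ) (hrl 0) fun _ _ _ => Iff.rfl, h₁⟩, h₂,
      lt_of_lt_of_le he.lt l'.1.rle.ht, (l'.1.rle.E _ he.lt).trans he.emp, h₃, ht, hval⟩
  · rintro x q' B ⟨⟨q, hA, -, l', -⟩, -⟩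
    exact ⟨q, hA, l'⟩
  · rintro x q' B ⟨⟨q, -, -, -, h, -⟩, -⟩
    exact h

theorem shr_add {q : Cond} (hq : V γ q) {x : W} (hx : x < q.ht) (M : ℕ) {H : Set K}
    (hH : H.Finite) : (∀ β ∈ H, β < γ ∧ (β, Atom.on) ∈ q.f) →
    ∃ q', V γ q' ∧ L γ q' q ∧ (∀ y ∈ q'.f, y ∈ q.f ∨ ∃ a, M ≤ a ∧ y.2 = Atom.val x a) ∧
      ∀ β ∈ H, ∃ a, (β, Atom.val x a) ∈ q'.f := by
  induction H, hH using Set.Finite.induction_on with
  | empty => exact fun _ => ⟨q, hq, L.refl, fun _ h => Or.inl h, fun _ h => h.elim⟩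
  | @insert β s _ _ ih =>
    intro h
    obtain ⟨q', v', l', h₁, h₂⟩ := ih fun β' hβ' => h β' (mem_insert_of_mem _ hβ')
    obtain ⟨hβ, ho⟩ := h β (mem_insert _ _)
    obtain ⟨f, v'', l'', hsub, h₃, h₄⟩ := exists_addv v' hβ (l'.sub hβ ho) (finite_singleton x)
      (fun z hz => by rw [mem_singleton_iff.1 hz]; exact lt_of_lt_of_le hx l'.rle.ht) M
    refine ⟨setf q' f, v'', l''.trans l', fun y hy => ?_, ?_⟩
    · rcases h₃ y hy with h₅ | ⟨z, hz, a, ha, -, rfl⟩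
      · exact h₁ y h₅
      · exact Or.inr ⟨a, ha, by rw [mem_singleton_iff.1 hz]⟩
    · rintro β' (rfl | hβ')
      · exact h₄ x rfl
      · obtain ⟨a, ha⟩ := h₂ β' hβ'
        exact ⟨a, hsub ha⟩

theorem addvals (hw : Node γ w) {H : Set K} (hH : H.Finite)
    (h : ∀ β ∈ H, β < γ ∧ (β, Atom.on) ∈ w.r.f ∧ ∀ a, ¬ w.F β a) (M : ℕ) :
    ∃ w', Node γ w' ∧ NLe γ w' w ∧ ∀ β ∈ H, ∃ a, M ≤ a ∧ w'.F β a := by
  obtain ⟨w', n, hw', hl, hQ⟩ := shrink hw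
    (fun x q _ => ∀ β ∈ H, ∃ a, M ≤ a ∧ (β, Atom.val x a) ∈ q.f)
    (fun x q q' _ hq _ hl β hβ => by
      obtain ⟨a, ha, ha'⟩ := hq β hβ
      exact ⟨a, ha, hl.sub (h β hβ).1 ha'⟩)
    (fun x q B hA => by
      have he := hw.el _ _ _ hA
      obtain ⟨q', v', l', h₁, h₂⟩ := shr_add he.v he.lt M hH
        fun β hβ => ⟨(h β hβ).1, he.le.1.sub (h β hβ).1 (h β hβ).2.1⟩
      refine ⟨q', 0, v', l', fun β hβ => ?_⟩
      obtain ⟨a, ha⟩ := h₂ β hβ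
      obtain ⟨h₃, h₄, h₅⟩ := h β hβ
      rcases h₁ _ ha with h₆ | ⟨a', ha', h₆⟩
      · exact absurd ((he.val β h₃ (he.T (hw.v.supp h₃ h₄)) a).1 h₆) (h₅ a)
      · exact ⟨a, (Atom.val.inj h₆).2 ▸ ha', ha⟩)
  refine ⟨w', hw', hl, fun β hβ => ?_⟩
  obtain ⟨⟨x, q, B⟩, hA⟩ := hw'.large.nonempty hw'.v.rv
  have he := hw'.el _ _ _ hA
  obtain ⟨a, ha, ha'⟩ := hQ _ _ _ hA β hβ
  obtain ⟨h₃, h₄, -⟩ := h β hβ
  exact ⟨a, ha, (he.val β h₃ (he.T (hl.1.2.T (hw.v.supp h₃ h₄))) a).1 ha'⟩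

/-- Nodes that decide the value of the data at `j`. -/
def OPi (β : K) (j : ℕ) : Set Nod :=
  Plus β {v | ∃ c, ∀ x q B, (x, q, B) ∈ v.A → Dec β (bk β) q (.pi x j c)} fun v => Good β v.r

theorem do_OPi (β : K) (j : ℕ) : DO β (OPi β j) := by
  refine do_plus (fun v hv hg => ?_) ?_
  · obtain ⟨w', c, hw', hl, hQ⟩ := shrink hv (fun x q c => Dec β (bk β) q (.pi x j c))
      (fun _ _ _ _ hq _ hl => hq.mono hl) (fun x q B hA => by
        have he := hv.el _ _ _ hA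
        obtain ⟨s, vs, ls, c, hc⟩ := ((Good_def.1 (hg.mono he.le.1)).1 x j).ex he.v
        exact ⟨s, c, vs, ls, hc⟩)
    exact ⟨w', ⟨c, hQ⟩, hw', hl⟩
  · rintro v ⟨c, hc⟩ v' - - hl
    refine ⟨c, fun x q' B hA => ?_⟩
    obtain ⟨q, hq, h⟩ := hl.2 _ _ _ hA
    exact (hc _ _ _ hq).mono h.1

/-- The projection of `O` to level `b`. -/
def PrQ (γ b : K) (O : Set Nod) (w : Nod) (r : Cond) (M : ℕ) (v w'' : Nod) : Prop :=
  w'' ∈ O ∧ Node γ w'' ∧ NLe γ w'' w ∧ L γ w''.r r ∧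
    (∀ β, b ≤ β → β < γ → (β, Atom.on) ∈ r.f → (∀ a, ¬ w.F β a) → ∀ a, w''.F β a → M ≤ a) ∧
    NLe b v w''

def Proj (γ b : K) (O : Set Nod) (w : Nod) (r : Cond) (M : ℕ) : Set Nod :=
  Plus b {v | ∃ w'', PrQ γ b O w r M v w''} fun v => NLe b v w ∧ Le b v.r r

theorem do_proj (hb : b ≤ γ) {O : Set Nod} (hO : DO γ O) (hw : Node γ w) {r : Cond} (hr : V γ r)
    (hl : L γ r w.r) (M : ℕ) : DO b (Proj γ b O w r M) := by
  refine do_plus ?_ ?_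
  · rintro v hv ⟨h₁, h₂⟩
    obtain ⟨w₁, n₁, l₁, l₁', r₁, hF⟩ := nodeAm hb hw hv h₁ hr hl h₂
    have hH : {β | b ≤ β ∧ β < γ ∧ (β, Atom.on) ∈ r.f ∧ ∀ a, ¬ w.F β a}.Finite :=
      (hr.fin.image Prod.fst).subset fun β hβ => ⟨_, hβ.2.2.1, rfl⟩
    obtain ⟨w₂, n₂, l₂, h₃⟩ := addvals n₁ hH (fun β hβ => ⟨hβ.2.1, r₁.1.sub hβ.2.1 hβ.2.2.1,
      fun a ha => hβ.2.2.2 a ((hF β hβ.1 a).1 ha)⟩) M
    obtain ⟨w₃, hO₃, n₃, l₃⟩ := hO.1 w₂ n₂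
    refine ⟨w₃, ⟨w₃, hO₃, n₃, (l₃.trans l₂).trans l₁, ((l₃.trans l₂).1.trans r₁).1,
      fun β h₄ h₅ h₆ h₇ a ha => ?_, NLe.refl⟩, n₃.mono hb, ((l₃.trans l₂).mono hb).trans l₁'⟩
    obtain ⟨a', ha', h₈⟩ := h₃ β ⟨h₄, h₅, h₆, h₇⟩
    rw [n₃.F_uniq h₅ ha (n₃.F_mono n₂ l₃ h₅ h₈)]
    exact ha'
  · rintro v ⟨w₃, h₁, h₂, h₃, h₄, h₅, h₆⟩ v' - - hl'
    exact ⟨w₃, h₁, h₂, h₃, h₄, h₅, hl'.trans h₆⟩

end Pool.Agent.MP_2e2931_gt.Gap

end

section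

namespace Pool.Agent.MP_2e2931_gt.Gap

open Set Ordinal

/-- The creation statement. -/
def Ch.Cre (C : Ch) : Prop :=
  ∀ (β γ μ : K) (w : Nod) (r : Cond) (a : ℕ), β < γ → C.MemU β → C.MemU μ → C.MemU w → V γ r →
    C.Bel γ r → (β, Atom.on) ∈ r.f → w.F β a → (∀ m, (β, Atom.bd C.δ m) ∈ r.f → m ≤ a) →
    C.FPos β (μ + ω ^ β * 4) w (fun _ _ => True) r →
    ∃ r', V γ r' ∧ L γ r' r ∧ (∀ y : K × Atom, β < y.1 → (y ∈ r'.f ↔ y ∈ r.f)) ∧ C.Jn β μ w r'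

namespace FCreX

variable {C : Ch} {β : K}

/-- Finitely many dense monotone requirements are met together. -/
theorem fin_meet {ι : Type} {S : Set ι} (hS : S.Finite) (P : ι → Cond → ℕ → Prop) {p₀ : Cond}
    (hp : V β p₀) (hm : ∀ i p p' j j', P i p j → L β p' p → j ≤ j' → P i p' j')
    (hd : ∀ i ∈ S, ∀ p, V β p → L β p p₀ → ∃ p' j, V β p' ∧ L β p' p ∧ P i p' j) :
    ∃ p j, V β p ∧ L β p p₀ ∧ ∀ i ∈ S, P i p j := by
  induction S, hS using Set.Finite.induction_on with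
  | empty => exact ⟨p₀, 0, hp, L.refl, fun _ h => h.elim⟩
  | @insert i S _ _ ih =>
    obtain ⟨p, j, h₁, h₂, h₃⟩ := ih fun i hi => hd i (mem_insert_of_mem _ hi)
    obtain ⟨p', j', g₁, g₂, g₃⟩ := hd i (mem_insert _ _) p h₁ h₂
    refine ⟨p', max j j', g₁, g₂.trans h₂, fun i' hi' => ?_⟩
    rcases hi' with rfl | hi'
    · exact hm _ _ _ _ _ g₃ L.refl (le_max_right _ _)
    · exact hm _ _ _ _ _ (h₃ i' hi') g₂ (le_max_left _ _)

/-- A positive node has a positive extension that decides the data at `j`. -/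
theorem decide_pi (hO : ∀ i (z : K × ℕ), Mem (C.N i) z → Mem (C.N i) (OPi z.1 z.2))
    (hβ : C.MemU β) {ν : K} (hν : C.MemU ν) {v : Nod} {p : Cond} (hp : V β p) (hg : Good β p)
    (h : C.FPos β (ν + ω ^ β * 2) v (fun _ _ => True) p) (j : ℕ) :
    ∃ p' v' c, V β p' ∧ L β p' p ∧ NLe β v' v ∧ C.FPos β ν v' (fun _ _ => True) p' ∧
      ∀ x q B, (x, q, B) ∈ v'.A → Dec β (bk β) q (.pi x j c) := by
  obtain ⟨i₀, hi₀⟩ := hβ
  obtain ⟨p₁, v₁, l₁, i, hi, H⟩ := ((Ch.FPos_iff.1 h).2 ν hν le_rfl i₀).ex hp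
  obtain ⟨p₂, v₂, l₂, w', hw, -, hn, hl, hf⟩ :=
    (H (OPi β j) (hO i (β, j) (mem_prod.2 ⟨C.mem_mono hi₀ hi, mem_nat⟩)) (do_OPi β j)).ex v₁
  rcases hw with ⟨c, hc⟩ | hw
  · exact ⟨p₂, w', c, v₂, l₂.trans l₁, hl, hf, hc⟩
  · obtain ⟨-, p₃, v₃, l₃, l₃'⟩ := hf.act v₂ hn
    obtain ⟨w₁, n₁, e₁, g₁⟩ := reroot' hn v₃ l₃'
    exact absurd (hg.mono (g₁.trans (l₃.trans (l₂.trans l₁)))) (hw w₁ n₁ e₁)

/-- No extension promises that the certificate takes the value `(n, y)`. -/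
def Bad (C : Ch) (β : K) (e : Nod × K × ℕ) (U : Cond → W → Prop) (n : ℕ) (p : Cond)
    (y : ℕ × ℕ) : Prop :=
  ∀ k p', V β p' → L β p' p →
    ¬ C.Prom β e (fun s x => U s x ∧ Dec β (bk β) s (.ce C.δ k x (n, y))) p'

theorem nobad (hP : ∀ (β : K) (e : Nod × K × ℕ) (U : Cond → W → Prop) (p : Cond)
    (u : Set (ℕ × ℕ)) (A : ℕ × ℕ → Cond → W → Prop), u.Finite → UM β U → (∀ y, UM β (A y)) →
    V β p → C.Prom β e U p →
    (∀ x ∈ C.Ed, ∀ r, V β r → L β r p → U r x → Dns β r fun s => ∃ y ∈ u, A y s x) →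
    ∃ p', ∃ y ∈ u, V β p' ∧ L β p' p ∧ C.Prom β e (fun r x => U r x ∧ A y r x) p')
    {e : Nod × K × ℕ} {U : Cond → W → Prop} (hU : UM β U) (n : ℕ) {p : Cond} (hp : V β p)
    (hg : Good β p) (hb : C.Bel β p) (h : C.Prom β e U p) :
    ∃ p' j, V β p' ∧ L β p' p ∧
      ∀ s, V β s → L β s p' → ∀ y : ℕ × ℕ, j ≤ y.1 → ¬ Bad C β e U n s y := by
  by_contra hn
  push Not at hn
  obtain ⟨p'', v₁, l₁, k, u, hu, hB, hD⟩ := (Good_def.1 hg).2 C.δ n (Bad C β e U n)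
    (fun r r' y h _ hl k p' hp' hl' => h k p' hp' (hl'.trans hl)) p hp L.refl hb.lt
    (fun j p' hp' hl' => by
      obtain ⟨s, h₁, h₂, y, h₃, h₄⟩ := hn p' j hp' hl'
      exact ⟨s, h₁, h₂, y, h₃, h₄⟩)
  obtain ⟨p', y, hy, v₂, l₂, H⟩ := hP β e U p'' u
    (fun y s x => Dec β (bk β) s (.ce C.δ k x (n, y))) hu hU
    (fun y _ _ _ h _ hl => h.mono hl) v₁ (h.mono l₁)
    (fun x hx r _ hl _ => (hD x (hb.E.symm ▸ hx)).mono hl)
  exact hB y hy k p' v₂ l₂ H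

end FCreX

open FCreX in
/-- Creation of a new cluster. -/
theorem aec_cre : AEC Ch.Cre := by
  refine ((aec_part.and (AEC.of_AE (AE.fn fun z : K × K => z.1 + ω ^ z.2 * 2))).and
    ((AEC.of_AE (AE.fn fun z : K × ℕ => OPi z.1 z.2)).and (AEC.of_AE ae_memT))).mono ?_
  rintro C ⟨⟨hP, hA⟩, hO, hT⟩ β γ μ w r a hβ mβ mμ mw hr hb ho hF ha hpos
  have hrβ : V β r := hr.mono hβ.le
  have hg : Good β r := hr.good hβ ho
  have hbβ : C.Bel β r := hb.level hβ.le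
  have hTβ : β ∈ C.ρ.T := by
    obtain ⟨i, hi⟩ := mβ
    exact hT i hi
  have mμ₁ : C.MemU (μ + ω ^ β * 2) := by
    obtain ⟨i, hi⟩ := Ch.memU_prod.2 ⟨mμ, mβ⟩
    exact ⟨i, hA i (μ, β) hi⟩
  have e4 : μ + ω ^ β * 4 = μ + ω ^ β * 2 + ω ^ β * 2 := by
    rw [add_assoc, ← mul_add, two_add_two_eq_four]
  rw [e4] at hpos
  obtain ⟨p₂, v₁, n, V₂, L₂, N₁, F₁, D₁⟩ := decide_pi hO mβ mμ₁ hrβ hg hpos 0
  have hS : {z : Nn × ℕ | (β, Atom.pm C.δ z.1 z.2) ∈ r.f}.Finite := by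
    refine hr.fin.preimage (f := fun z : Nn × ℕ => (β, Atom.pm C.δ z.1 z.2)) ?_
    rintro ⟨t, l⟩ - ⟨t', l'⟩ - h
    simpa using h
  obtain ⟨p₃, j₀, V₃, L₃, H₃⟩ := fin_meet hS (fun z p j => ∀ s, V β s → L β s p →
      ∀ y : ℕ × ℕ, j ≤ y.1 → ¬ Bad C β (C.pr z.2) (Uc β C.δ z.1 (code r β C.δ z.1)) n s y) V₂
    (fun z p p' j j' h hl hj s hs hl' y hy => h s hs (hl'.trans hl) y (hj.trans hy))
    (fun z hz p hp hl => nobad hP (um_Uc _ _ _) n hp (hg.mono (hl.trans L₂))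
      (hbβ.mono (hl.trans L₂).rle) ((hb.prom hr hβ hTβ hz).mono (hl.trans L₂)))
  obtain ⟨j₁, hj₁⟩ := exists_fresh hr.fin
  obtain ⟨p₅, v₂, c, V₅, L₅, N₂, F₂, D₂⟩ :=
    decide_pi hO mβ mμ V₃ (hg.mono (L₃.trans L₂)) (F₁.mono L₃) (max j₀ j₁ + 1)
  set t : Nn := (n, max j₀ j₁, c) with ht
  have F₃ : C.FPos β μ w (Uc β C.δ t ∅) p₅ := by
    refine ((F₂.imp fun x _ s _ _ hI _ => Dns.of_all fun s' _ hl => ?_).nle N₂).nle N₁
    obtain ⟨q, B, hq, -, -, -, hs⟩ := hI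
    obtain ⟨q₁, hq₁, hl₁⟩ := N₂.2 x q B hq
    exact Uc_def.2 ⟨(D₁ x q₁ B hq₁).mono (hl.trans (hs.trans hl₁.1)),
      (D₂ x q B hq).mono (hl.trans hs), fun _ h => h.elim⟩
  obtain ⟨p₆, k, V₆, L₆, H₆⟩ := fin_meet hS (fun z p k =>
      C.Prom β (C.pr z.2) (Uc β C.δ z.1 (insert (t, k) (code r β C.δ z.1))) p) V₅
    (fun z p p' k k' h hl hk => (h.mono hl).imp fun x _ s _ _ hU => Dns.of_all fun s' _ hl' => by
      obtain ⟨h₁, h₂, h₃⟩ := Uc_def.1 (hU.mono hl')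
      refine Uc_def.2 ⟨h₁, h₂, fun y hy => ?_⟩
      rcases hy with rfl | hy
      · obtain ⟨m, hm, h₄⟩ := h₃ _ (mem_insert _ _)
        exact ⟨m, hm.trans_le hk, h₄⟩
      · exact h₃ y (mem_insert_of_mem _ hy))
    (fun z hz p hp hl => by
      have h₀ := H₃ z hz p hp (hl.trans L₅) (max j₀ j₁, c) (le_max_left _ _)
      unfold Bad at h₀
      push Not at h₀
      obtain ⟨k, p', h₁, h₂, h₃⟩ := h₀
      refine ⟨p', k + 1, h₁, h₂, h₃.imp fun x _ s _ _ hU => Dns.of_all fun s' _ hl' => ?_⟩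
      obtain ⟨g₁, g₂, g₃⟩ := Uc_def.1 (hU.1.mono hl')
      refine Uc_def.2 ⟨g₁, g₂, fun y hy => ?_⟩
      rcases hy with rfl | hy
      · exact ⟨k, Nat.lt_succ_self k, hU.2.mono hl'⟩
      · exact g₃ y hy)
  obtain ⟨V₀, L₀, M₀, -⟩ := mix_spec hβ.le V₆ hr (L₆.trans (L₅.trans (L₃.trans L₂)))
  have hm : ∀ y : K × Atom, β ≤ y.1 → (y ∈ (mix β p₆ r).f ↔ y ∈ r.f) := fun y hy => by
    rw [mem_mix]
    exact ⟨fun h => h.elim (fun h => absurd h.1 (not_lt.2 hy)) And.right, fun h => Or.inr ⟨hy, h⟩⟩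
  have hm' : ∀ x : Atom, (β, x) ∈ (mix β p₆ r).f ↔ (β, x) ∈ r.f := fun x => hm (β, x) le_rfl
  have B₀ : C.Bel γ (mix β p₆ r) := hb.mono L₀.1.rle
  obtain ⟨l, hl⟩ := Ch.pr_spec (C := C) (e := (w, μ, 0))
    (Ch.memU_prod.2 ⟨mw, Ch.memU_prod.2 ⟨mμ, 0, mem_nat⟩⟩)
  obtain ⟨f₁, f₂, f₃⟩ := hj₁ β C.δ t (le_max_right _ _)
  obtain ⟨f, g₁, g₂, g₃, g₄, g₅⟩ := add_cluster (t := t) (a := a) (k := k) (l := l) V₀
    ((hm' _).2 ho) B₀.lt (fun m h => f₁ m ((hm' _).1 h)) (fun t' m h => f₂ t' m ((hm' _).1 h))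
    (fun l h => f₃ l ((hm' _).1 h)) (fun m h => ha m ((hm' _).1 h))
    (by
      rw [B₀.Z β hβ hTβ l, Ch.dec_zeta, hl]
      exact F₃.mono (M₀.trans L₆))
    (fun t' l' h => by
      rw [B₀.Z β hβ hTβ l', Ch.dec_zeta, code_congr (q := r) fun x _ => hm' x]
      exact (H₆ (t', l') ((hm' _).1 h)).mono M₀)
  exact ⟨_, g₁, g₂.trans L₀.1, fun y hy => (g₅ y hy.ne').trans (hm y hy.le),
    a, t, a, l, μ, hF, le_rfl, g₃, g₄, hl, le_rfl⟩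

end Pool.Agent.MP_2e2931_gt.Gap

end

section

namespace Pool.Agent.MP_2e2931_gt.Gap

open Set Ordinal

/-- The value of `w` at `β` is above the bounds of `r`. -/
def Ch.Bd (C : Ch) (β : K) (w : Nod) (r : Cond) : Prop :=
  ∀ a m, w.F β a → (β, Atom.bd C.δ m) ∈ r.f → m ≤ a

/-- The statement of the chain lemma. -/
def Ch.CL (C : Ch) : Prop :=
  ∀ (lam γ b μ : K) (w : Nod) (r : Cond), (∀ μ' ≤ lam, C.TS μ') → C.MemU w → C.MemU b →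
    C.MemU μ → Node γ w → V γ r → C.Bel γ r → L γ r w.r → b < γ →
    (C.Jn b lam w r ∨ (C.FPos b lam w (fun _ _ => True) r ∧ C.Bd b w r)) →
    (∀ β, b < β → β < γ → C.Bd β w r) → μ + ω ^ γ ≤ lam →
    ∃ r', V γ r' ∧ L γ r' r ∧ C.Ok γ μ w r'

theorem fch_five {β g : K} (h : β < g) : ω ^ β * 4 + ω ^ β ≤ ω ^ g := by
  have h₁ : ω ^ β * 4 + ω ^ β = ω ^ β * ((5 : ℕ) : K) := by
    have : ((5 : ℕ) : K) = 4 + 1 := by norm_num
    rw [this, mul_add, mul_one]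
  rw [h₁]
  calc ω ^ β * ((5 : ℕ) : K) ≤ ω ^ β * ω := mul_le_mul_right (natCast_lt_omega0 5).le _
    _ = ω ^ Order.succ β := (opow_succ _ _).symm
    _ ≤ ω ^ g := opow_le_opow_right omega0_pos (Order.succ_le_of_lt h)

/-- Clusters are created at all fresh coordinates. -/
theorem aec_cl : AEC Ch.CL := by
  refine ((aec_cre.and (AEC.of_AE (AE.fn fun w : Nod => w.r))).and ((AEC.of_AE ae_T).and
    (AEC.of_AE (AE.fn fun z : K × K => z.1 + ω ^ z.2 * 4)))).mono ?_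
  rintro C ⟨⟨hC, hr⟩, hT, hf⟩ lam γ b μ w r ts mw mb mμ hw vr br lr hb h0 hB hμ
  have key : ∀ g, b < g → g ≤ γ → ∀ μ, C.MemU μ → μ + ω ^ g ≤ lam →
      ∃ r', V γ r' ∧ L γ r' r ∧ (∀ y : K × Atom, g ≤ y.1 → (y ∈ r'.f ↔ y ∈ r.f)) ∧
        C.Ok g μ w r' := by
    intro g
    induction g using WellFoundedLT.induction with
    | ind g ih =>
      intro hbg hg μ mμ hμ
      have hμ' : μ ≤ lam := le_self_add.trans hμ
      have h5 : ∀ β < g, μ + ω ^ β * 4 + ω ^ β ≤ lam := fun β hβ => by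
        rw [add_assoc]
        exact (add_le_add_right (fch_five hβ) μ).trans hμ
      rcases {β | b < β ∧ β < g ∧ ∃ a, w.F β a}.eq_empty_or_nonempty with he | hne
      · have no : ∀ β, b < β → β < g → ∀ a, ¬ w.F β a := fun β h₁ h₂ a ha =>
          (he.subset ⟨h₁, h₂, a, ha⟩ : β ∈ (∅ : Set K))
        rcases h0 with h0 | ⟨h0, h1⟩
        · exact ⟨r, vr, L.refl, fun _ _ => Iff.rfl, lr.mono hg, b, hbg.le, mb, no,
            Or.inr ⟨hbg, h0.mono (fun _ h => h) hμ'⟩⟩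
        · by_cases ha : ∃ a, w.F b a
          · obtain ⟨a, ha⟩ := ha
            obtain ⟨r', v', l', e', j'⟩ := hC b γ μ w r a hb mb mμ mw vr br
              (lr.sub hb (hw.on b hb a ha)) ha (fun m hm => h1 a m ha hm)
              (h0.le (le_self_add.trans (h5 b hbg)))
            exact ⟨r', v', l', fun y hy => e' y (hbg.trans_le hy), (l'.trans lr).mono hg, b,
              hbg.le, mb, no, Or.inr ⟨hbg, j'⟩⟩
          · exact ⟨r, vr, L.refl, fun _ _ => Iff.rfl, lr.mono hg, b, hbg.le, mb, no,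
              Or.inl ⟨Or.inr fun a h => ha ⟨a, h⟩, h0.le hμ'⟩⟩
      · have hfin : {β | b < β ∧ β < g ∧ ∃ a, w.F β a}.Finite :=
          hw.F_fin.subset fun β h => ⟨h.2.1.trans_le hg, h.2.2⟩
        obtain ⟨β, ⟨h₁, h₂, a, ha⟩, hmax⟩ := Set.exists_max_image _ id hfin hne
        have hβ : β < γ := h₂.trans_le hg
        have hon := hw.on β hβ a ha
        have mβ : C.MemU β := by
          obtain ⟨i, hi⟩ := mw
          exact ⟨i, hT i _ (hr i w hi) hw.v.rv (hw.v.supp hβ hon)⟩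
        have m2 : C.MemU (μ + ω ^ β * 4) := by
          obtain ⟨i, hi⟩ := Ch.memU_prod.2 ⟨mμ, mβ⟩
          exact ⟨i, hf i _ hi⟩
        obtain ⟨r₁, v₁, l₁, e₁, o₁⟩ := ih β h₂ h₁ hβ.le _ m2 (h5 β h₂)
        have b₁ := br.mono l₁.rle
        have fp := ts _ (le_self_add.trans (h5 β h₂)) β w r₁ mβ mw (hw.mono hβ.le)
          (v₁.mono hβ.le) (b₁.level hβ.le) o₁
        obtain ⟨r', v', l', e', j'⟩ := hC β γ μ w r₁ a hβ mβ mμ mw v₁ b₁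
          ((l₁.trans lr).sub hβ hon) ha (fun m hm => hB β h₁ hβ a m ha ((e₁ _ le_rfl).1 hm)) fp
        refine ⟨r', v', l'.trans l₁, fun y hy => (e' y (h₂.trans_le hy)).trans
          (e₁ y (h₂.le.trans hy)), ((l'.trans l₁).trans lr).mono hg, β, h₂.le, mβ,
          fun β' k₁ k₂ a' ha' => ?_, Or.inr ⟨h₂, j'⟩⟩
        exact absurd (hmax β' ⟨h₁.trans k₁, k₂, a', ha'⟩) (not_le.2 k₁)
  obtain ⟨r', v', l', -, o'⟩ := key γ hb le_rfl μ mμ hμ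
  exact ⟨r', v', l', o'⟩

theorem fch_idx (C : Ch) {s : Set K} (hs : s.Finite) (h : s ⊆ C.ρ.T) :
    ∃ i, s ⊆ KN (C.N i) := by
  induction s, hs using Set.Finite.induction_on with
  | empty => exact ⟨0, empty_subset _⟩
  | insert _ _ ih =>
    obtain ⟨i, hi⟩ := ih ((subset_insert _ _).trans h)
    obtain ⟨j, hj⟩ := C.sub _ (h (mem_insert _ _))
    refine ⟨max i j, insert_subset (C.mem_mono hj (le_max_right _ _)) fun β hβ => ?_⟩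
    exact C.mem_mono (hi hβ) (le_max_left _ _)

theorem fch_bound {r : Cond} (hv : RV r) (hf : r.f.Finite) {δ y y₁ : W} (hy : y < δ)
    (hy₁ : y₁ < δ) : ∃ y' < δ, y ≤ y' ∧ y₁ ≤ y' ∧ (∀ e ∈ r.f, e.2.pos < δ → e.2.pos ≤ y') ∧
      ∀ e ∈ r.f, δ < e.2.pos → e.2.pos < r.ht → ∀ z ∈ r.E e.2.pos, z < δ → z ≤ y' := by
  have h₁ : ((fun e : K × Atom => e.2.pos) '' r.f).Finite := hf.image _
  have h₂ : (⋃ e ∈ {e ∈ r.f | δ < e.2.pos ∧ e.2.pos < r.ht}, r.E e.2.pos ∩ Iio δ).Finite :=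
    (hf.subset (sep_subset _ _)).biUnion fun e he => (hv.lad _ he.2.2).fin δ he.2.1
  obtain ⟨y', hm, hmax⟩ := Set.exists_max_image _ id
    ((((h₁.union h₂).insert y₁).insert y).inter_of_left (Iio δ)) ⟨y, Or.inl rfl, hy⟩
  exact ⟨y', hm.2, hmax y ⟨Or.inl rfl, hy⟩, hmax y₁ ⟨Or.inr (Or.inl rfl), hy₁⟩,
    fun e he h => hmax _ ⟨Or.inr (Or.inr (Or.inl ⟨e, he, rfl⟩)), h⟩,
    fun e he k₁ k₂ z hz h => hmax _ ⟨Or.inr (Or.inr (Or.inr
      (mem_biUnion (show e ∈ {e ∈ r.f | δ < e.2.pos ∧ e.2.pos < r.ht} from ⟨he, k₁, k₂⟩)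
        ⟨hz, h⟩))), h⟩⟩

/-- The first clause of the lifting lemma. -/
theorem Ch.ok_A {C : Ch} (hT : ∀ i, KN (C.N i) ⊆ C.ρ.T) {γ μ : K} {w : Nod} {r : Cond}
    (hw : Node γ w) (hr : V γ r) (hb : C.Bel γ r) (h : C.Ok γ μ w r) {y : W} (hy : y < C.δ) :
    ∃ r', V γ r' ∧ L γ r' r ∧ ∃ x ∈ C.Ed, y < x ∧ C.In γ w x r' := by
  obtain ⟨lr, b, hbγ, mb, no, h⟩ := h
  rcases hbγ.eq_or_lt with rfl | hlt
  · rcases h with ⟨-, h⟩ | ⟨h, -⟩
    · obtain ⟨r', v', l', x, h₁, h₂, h₃, -⟩ := ((Ch.FPos_iff.1 h).1 y hy).ex hr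
      exact ⟨r', v', l', x, h₁, h₂, h₃⟩
    · exact absurd h (lt_irrefl _)
  have hU : ∃ (ν : K) (U : Cond → W → Prop), C.FPos b ν w U r ∧ ∀ a, w.F b a → ∃ t m',
      (b, Atom.cl C.δ t m') ∈ r.f ∧ m' ≤ a ∧ ∀ p x, U p x → Uc b C.δ t (code r b C.δ t) p x := by
    rcases h with ⟨h₁, h₂⟩ | ⟨-, a, t, m, l, ν, h₁, h₂, h₃, h₄, h₅, -⟩
    · exact ⟨μ, _, h₂, fun a ha => absurd ha (h₁.resolve_left hlt.ne a)⟩
    · obtain ⟨i, hi⟩ := mb
      have k := hb.prom hr hlt (hT i hi) h₄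
      rw [h₅] at k
      exact ⟨ν, _, k, fun a' ha' => ⟨t, m, h₃, hw.F_uniq hlt h₁ ha' ▸ h₂, fun _ _ h => h⟩⟩
  obtain ⟨ν, U, fp, hU⟩ := hU
  obtain ⟨i, hi⟩ := fch_idx C ((hr.fin.image Prod.fst).inter_of_left C.ρ.T) inter_subset_right
  obtain ⟨y', hy', k₁, k₂, k₃, k₄⟩ := fch_bound hr.rv hr.fin hy (C.lt i)
  obtain ⟨p'', v'', l'', x, hx, hyx, ⟨q, B, hA, hR, hz, hB, lq⟩, hu⟩ :=
    ((Ch.FPos_iff.1 fp).1 y' hy').ex (hr.mono hbγ)
  have el := hw.el x q B hA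
  have hq : q.ht ≤ C.δ := C.ht ▸ (hR 0).ht
  have hρ : RL (amR b p'' r) r := amR_RL l''.rle
  have big : ∀ e ∈ r.f, x ≤ e.2.pos → C.δ ≤ e.2.pos := fun e he h =>
    not_lt.1 fun h' => absurd (hyx.trans_le (h.trans (k₃ e he h'))) (lt_irrefl _)
  obtain ⟨v', l₁, l₂, -⟩ := am_spec hbγ (v''.rv.amR hr.rv) v'' hr el.v l'' lq amR_rle (hρ γ)
    ((hρ γ).trans (hb.le.trans (hR γ))) (fun β h₁ h₂ => by
      by_cases hβ : β ∈ B
      · have hs : Order.succ β ≤ γ := Order.succ_le_of_lt h₂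
        refine Or.inr (Or.inr (Or.inr ⟨w.r, x, lr.mono hs, hw.v.mono hs,
          fun a ha => el.le.1.sub h₂ ha, el.tail β h₂ hβ, fun a a' ha ha' h => ?_,
          fun d m z a hd ha hxz hzd => Or.inr ?_⟩))
        · exact (((el.v.loc h₂).pos a' ha').trans_le hq).trans_le (big _ ha h)
        · have dr : d < r.ht := (hr.loc h₂).pos _ hd
          rw [(hρ 0).E d dr] at hzd
          have zq : z < q.ht := (el.v.loc h₂).pos _ ha
          have zd : z < d := (hr.rv.lad d dr).lt z hzd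
          have hδ : C.δ ≤ d := big _ hd (hxz.trans zd.le)
          rcases hδ.eq_or_lt with rfl | hδ
          · rw [hb.E] at hzd
            have e : x = z := hxz.eq_or_lt.resolve_right fun h => not_lt.2 (hz z hzd h) zq
            subst e
            have hF := (el.val β h₂ hβ a).1 ha
            have e : b = β := h₁.eq_or_lt.resolve_right fun h => no β h h₂ a hF
            subst e
            obtain ⟨t, m', n₁, n₂, n₃⟩ := hU a hF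
            exact ⟨rfl, t, m', n₁, n₂, n₃ _ _ hu⟩
          · exact absurd (hyx.trans_le (hxz.trans (k₄ _ hd hδ dr z hzd (zq.trans_le hq))))
              (lt_irrefl _)
      · by_cases h₃ : ∃ a, (β, a) ∈ r.f
        · obtain ⟨a, ha⟩ := h₃
          refine Or.inr (Or.inl fun a' ha' => hβ ?_)
          exact hB i (k₂.trans hyx.le) (hi ⟨⟨_, ha, rfl⟩, hR.T (el.v.supp h₂ ha')⟩)
        · exact Or.inl fun a ha => h₃ ⟨a, ha⟩)
  exact ⟨_, v', l₁, x, hx, k₁.trans_lt hyx, q, B, hA, hR, hz, hB, l₂⟩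

end Pool.Agent.MP_2e2931_gt.Gap

end

section

namespace Pool.Agent.MP_2e2931_gt.Gap

open Set Ordinal

namespace FTX

/-- The closure properties of one model that the lifting lemma uses. -/
structure Gd (N : Set Ob) (η : W) (ρ : Cond) : Prop where
  red : η < ρ.ht → ρ.E η = ∅ → ∀ γ : K, Mem N γ → ∀ G : Set Cond,
    Mem N G → (∀ c ∈ G, ∀ c', V γ c' → Le γ c' c → c' ∈ G) → ∀ r ∈ G, V γ r → RL r ρ →
      ∃ r₁, ∃ r₀ ∈ G, V γ r₁ ∧ Le γ r₁ r ∧ Mem N r₀ ∧ V γ r₀ ∧ RL ρ r₀ ∧ L γ r₁ r₀ ∧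
        ∀ β < γ, Mem N β → Tail β η r₁ r₀
  ht : ∀ c : Cond, Mem N c → c.ht < η
  T : ∀ c : Cond, Mem N c → RV c → c.T ⊆ KN N
  zero : w0 < η
  memT : KN N ⊆ ρ.T
  root : ∀ w : Nod, Mem N w → Mem N w.r
  add : ∀ z : K × K, Mem N z → Mem N (z.1 + ω ^ z.2 : K)
  cone : ∀ z : K × Nod, Mem N z → Mem N {c | Le z.1 c z.2.r}
  proj : ∀ z : K × K × Set Nod × Nod × Cond × ℕ, Mem N z →
    Mem N (Proj z.1 z.2.1 z.2.2.1 z.2.2.2.1 z.2.2.2.2.1 z.2.2.2.2.2)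
  wit : ∀ z : (K × K × Set Nod × Nod × Cond × ℕ) × Nod, Mem N z →
    (∃ w'', PrQ z.1.1 z.1.2.1 z.1.2.2.1 z.1.2.2.2.1 z.1.2.2.2.2.1 z.1.2.2.2.2.2 z.2 w'') →
    ∃ w'', Mem N w'' ∧
      PrQ z.1.1 z.1.2.1 z.1.2.2.1 z.1.2.2.2.1 z.1.2.2.2.2.1 z.1.2.2.2.2.2 z.2 w''

theorem ae_gd : AE Gd := by
  refine ((((ae_red.and ae_ht).and (ae_T.and ae_zero)).and (ae_memT.and
    (AE.fn fun w : Nod => w.r))).and (((AE.fn fun z : K × K => (z.1 + ω ^ z.2 : K)).and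
    (AE.fn fun z : K × Nod => {c | Le z.1 c z.2.r})).and
    ((AE.fn fun z : K × K × Set Nod × Nod × Cond × ℕ =>
      Proj z.1 z.2.1 z.2.2.1 z.2.2.2.1 z.2.2.2.2.1 z.2.2.2.2.2).and
    (AE.wit fun (z : (K × K × Set Nod × Nod × Cond × ℕ) × Nod) (w'' : Nod) =>
      PrQ z.1.1 z.1.2.1 z.1.2.2.1 z.1.2.2.2.1 z.1.2.2.2.2.1 z.1.2.2.2.2.2 z.2 w'')))).mono ?_
  rintro N η ρ - ⟨⟨⟨⟨h1, h2⟩, h3, h4⟩, h5, h6⟩, ⟨h7, h8⟩, h9, h10⟩
  exact ⟨h1, h2, h3, h4, h5, h6, h7, h8, h9, h10⟩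

theorem rank_le {μ μ' b γ : K} (hb : b < γ) (h : μ' + ω ^ γ * 2 ≤ μ) :
    μ' + ω ^ γ + ω ^ b * 2 ≤ μ := by
  refine le_trans ?_ h
  have h1 : ω ^ b * 2 ≤ ω ^ γ := by
    calc ω ^ b * 2 ≤ ω ^ b * ω := by
          gcongr
          exact (natCast_lt_omega0 2).le
      _ = ω ^ (Order.succ b) := (opow_succ _ _).symm
      _ ≤ ω ^ γ := opow_le_opow_right omega0_pos (Order.succ_le_of_lt hb)
  rw [add_assoc, Ordinal.mul_two (ω ^ γ)]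
  gcongr

variable {C : Ch} {γ b μ' : K} {w : Nod} {i : ℕ}

/-- A promise is added to an existing cluster. -/
theorem addp {r : Cond} (hr : V γ r) (hB : C.Bel γ r) (hb : b < γ) (hT : b ∈ C.ρ.T) {t : Nn}
    {m : ℕ} (hc : (b, Atom.cl C.δ t m) ∈ r.f) {e : Nod × K × ℕ} (he : C.MemU e)
    (hP : C.Prom b e (Uc b C.δ t (code r b C.δ t)) r) :
    ∃ l, C.pr l = e ∧ V γ (setf r (insert (b, Atom.pm C.δ t l) r.f)) ∧
      L γ (setf r (insert (b, Atom.pm C.δ t l) r.f)) r := by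
  obtain ⟨l, hl⟩ := Ch.pr_spec he
  refine ⟨l, hl, add_pm hr ((hr.loc hb).on _ hc) hB.lt ?_⟩
  rw [hB.Z b hb hT l, Ch.dec_zeta, hl]
  exact hP

/-- The amalgamation with the root of a node of the model. -/
theorem amalg (hG : Gd (C.N i) (C.η i) C.ρ) (hb : b ≤ γ) {p q r₁ r₀ : Cond} (hp : V b p)
    (hq : V γ q) (h₁ : V γ r₁) (h₀ : V γ r₀) (mq : Mem (C.N i) q) (lq : L b p q) (l₁ : L b p r₁)
    (rq : RL r₁ q) (l₀ : L γ r₁ r₀) (lq₀ : L γ q r₀)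
    (tl : ∀ β < γ, Mem (C.N i) β → Tail β (C.η i) r₁ r₀) :
    ∃ r, V γ r ∧ L γ r q ∧ L γ r r₁ ∧ L b r p ∧
      ∀ β, b ≤ β → β < γ → ∀ a : Atom, a.pos = C.δ → ((β, a) ∈ r.f ↔ (β, a) ∈ r₁.f) := by
  have hρ : RV (amR b p r₁) := hp.rv.amR h₁.rv
  have k₁ : RL (amR b p r₁) r₁ := amR_RL l₁.rle
  have kq := k₁.trans rq
  have lt := hG.ht q mq
  have pos : ∀ β < γ, ∀ a : Atom, (β, a) ∈ q.f → a.pos < C.η i := fun β hβ a ha =>
    ((hq.loc hβ).pos a ha).trans lt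
  obtain ⟨a1, a2, a3, a4⟩ := am_spec hb hρ hp hq h₁ lq l₁ amR_rle (kq γ) (k₁ γ) fun β _ hβ => by
    by_cases hN : Mem (C.N i) β
    · have hs := Order.succ_le_of_lt hβ
      refine Or.inr (Or.inr (Or.inr ⟨r₀, C.η i, lq₀.mono hs, h₀.mono hs,
        fun a ha => l₀.sub hβ ha, tl β hβ hN, fun a a' ha _ hx => ?_,
        fun d m z a hd _ hx hz => ?_⟩))
      · exact absurd (pos β hβ a ha) (not_lt.2 hx)
      · have h1 : d < q.ht := (hq.loc hβ).pos _ hd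
        have h2 := (hρ.lad d (h1.trans_le (kq γ).ht)).lt z hz
        exact absurd (h2.trans (h1.trans lt)) (not_lt.2 hx)
    · exact Or.inl fun a ha => hN (hG.T q mq hq.rv (hq.supp hβ ha))
  refine ⟨_, a1, a2, a3, a4, fun β h1 h2 a ha => ?_⟩
  rw [mem_am]
  constructor
  · rintro (⟨h, -⟩ | ⟨-, h | h⟩)
    · exact absurd h (not_lt.2 h1)
    · exact absurd (ha ▸ (pos β h2 a h).trans (C.lt i)) (lt_irrefl _)
    · exact h
  · exact fun h => Or.inr ⟨h1, Or.inr h⟩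

/-- The promise at level `b` is lifted to level `γ`. -/
theorem lift (hCL : C.CL) (hG : Gd (C.N i) (C.η i) C.ρ) (IH : ∀ μ ≤ μ' + ω ^ γ, C.TS μ)
    (mw : Mem (C.N i) w) (mγ : Mem (C.N i) γ) (mμ : Mem (C.N i) μ') (mb : Mem (C.N i) b)
    (hb : b < γ) (hw : Node γ w) {r₂ : Cond} (hB : C.Bel γ r₂) (hl : L γ r₂ w.r)
    (hact : RL C.ρ w.r) (hF : ∀ β, b < β → β < γ → ∀ a, ¬ w.F β a)
    (H : ((∀ a, ¬ w.F b a) ∧ C.FPhi b (μ' + ω ^ γ) i w (fun _ _ => True) r₂) ∨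
      ∃ a t m l, w.F b a ∧ m ≤ a ∧ (b, Atom.cl C.δ t m) ∈ r₂.f ∧ (b, Atom.pm C.δ t l) ∈ r₂.f ∧
        C.pr l = (w, μ' + ω ^ γ, i + 1)) :
    C.FPhi γ μ' i w (fun _ _ => True) r₂ := by
  intro O mO hO r₃ v₃ l₃
  have rv := (C.gm i).rv
  have hT : b ∈ C.ρ.T := hG.memT mb
  have mlam : Mem (C.N i) (μ' + ω ^ γ : K) := hG.add (μ', γ) ⟨mμ, mγ⟩
  have kc : RL (amR γ r₃ C.ρ) C.ρ := amR_RL (hB.mono l₃.rle).le
  obtain ⟨r₁, r₀, g₀, v₁, l₁, m₀, v₀, k₀, l₁₀, tl⟩ := hG.red (C.ht ▸ C.lt i) (C.emp i) γ mγ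
    {c | Le γ c w.r} (hG.cone (γ, w) ⟨mγ, mw⟩) (fun c hc c' _ h => Le.trans h hc)
    (amR γ r₃ C.ρ) ⟨(amR_L.trans l₃).trans hl, kc.trans hact⟩ (v₃.amR rv) kc
  have l₁₃ : L γ r₁ r₃ := l₁.1.trans amR_L
  have l₁₂ : L γ r₁ r₂ := l₁₃.trans l₃
  have k₁ : RL r₁ C.ρ := l₁.2.trans kc
  have B₁ : C.Bel γ r₁ := hB.mono l₁₂.rle
  obtain ⟨M, hM⟩ := exists_bd_bound v₁.fin
  have mz : Mem (C.N i) (γ, b, O, w, r₀, M) := ⟨mγ, mb, mO, mw, m₀, trivial⟩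
  have main : ∀ U, C.FPhi b (μ' + ω ^ γ) i w U r₁ → ∃ w'' ∈ O, Mem (C.N i) w'' ∧ Node γ w'' ∧
      NLe γ w'' w ∧ ∃ r, V γ r ∧ L γ r w''.r ∧ L γ r r₁ ∧ C.FPos b (μ' + ω ^ γ) w'' U r ∧
        (∀ β, b ≤ β → β < γ → ∀ a : Atom, a.pos = C.δ → ((β, a) ∈ r.f ↔ (β, a) ∈ r₁.f)) ∧
        ∀ β, b ≤ β → β < γ → (∀ a, ¬ w.F β a) → C.Bd β w'' r := by
    intro U hU
    obtain ⟨p₂, vp₂, lp₂, v, hv, mv, nv, lv, pv⟩ := (hU _ (hG.proj _ mz)
      (do_proj hb.le hO hw v₀ g₀.1 M)).ex (v₁.mono hb.le)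
    obtain ⟨av, p₃, vp₃, lp₃, lpv⟩ := pv.act vp₂ nv
    have l₃₁ : L b p₃ r₁ := lp₃.trans lp₂
    have kp : RL (amR b p₃ C.ρ) C.ρ := amR_RL (l₃₁.rle.trans (k₁ b))
    rcases hv with hv | hv
    swap
    · obtain ⟨w₁, n₁, a₁, a₂, -⟩ := reroot nv (vp₃.amR rv) ⟨amR_L.trans lpv, kp.trans av⟩
      exact absurd ⟨a₁.trans lv, (a₂.1.trans amR_L).trans (l₃₁.trans (l₁₀.mono hb.le)),
        a₂.2.trans (kp.trans k₀)⟩ (hv w₁ n₁ a₁)
    obtain ⟨w'', mw'', o1, o2, o3, o4, o5, o6⟩ := hG.wit ((γ, b, O, w, r₀, M), v) ⟨mz, mv⟩ hv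
    have mr := hG.root w'' mw''
    obtain ⟨r, vr, lr, lr₁, lrp, hδ⟩ := amalg hG hb.le vp₃ o2.v v₁ v₀ mr (lpv.trans o6.1.1) l₃₁
      (k₁.trans (av.trans o6.1.2)) l₁₀ o4 tl
    refine ⟨w'', o1, mw'', o2, o3, r, vr, lr, lr₁, (pv.nle o6).mono (lrp.trans lp₃), hδ,
      fun β h1 h2 h3 a m ha hm => ?_⟩
    have hm₁ := (hδ β h1 h2 _ rfl).1 hm
    have mβ : Mem (C.N i) β := hG.T _ mr o2.v.rv (o2.v.supp h2 (o2.on β h2 a ha))
    exact (hM β _ m hm₁).trans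
      (o5 β h1 h2 ((tl β h2 mβ).1 _ ((v₁.loc h2).on _ hm₁) hG.zero) h3 a ha)
  have fin : ∀ w'' ∈ O, Mem (C.N i) w'' → Node γ w'' → NLe γ w'' w → ∀ r, V γ r → L γ r w''.r →
      L γ r r₁ → (C.Jn b (μ' + ω ^ γ) w'' r ∨
        (C.FPos b (μ' + ω ^ γ) w'' (fun _ _ => True) r ∧ C.Bd b w'' r)) →
      (∀ β, b < β → β < γ → C.Bd β w'' r) → ∃ s, V γ s ∧ L γ s r₃ ∧ ∃ w' ∈ O,
        Mem (C.N i) w' ∧ Node γ w' ∧ NLe γ w' w ∧ C.FPos γ μ' w' (fun _ _ => True) s := by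
    intro w'' o1 mw'' o2 o3 r vr lr lr₁ h1 h2
    obtain ⟨s, vs, ls, ok⟩ := hCL (μ' + ω ^ γ) γ b μ' w'' r IH ⟨i, mw''⟩ ⟨i, mb⟩ ⟨i, mμ⟩ o2 vr
      (B₁.mono lr₁.rle) lr hb h1 h2 le_rfl
    exact ⟨s, vs, ls.trans (lr₁.trans l₁₃), w'', o1, mw'', o2, o3, IH μ' le_self_add γ w'' s
      ⟨i, mγ⟩ ⟨i, mw''⟩ o2 vs (B₁.mono (ls.trans lr₁).rle) ok⟩
  rcases H with ⟨h1, h2⟩ | ⟨a, t, m, l, h1, h2, h3, h4, h5⟩
  · obtain ⟨w'', o1, mw'', o2, o3, r, vr, lr, lr₁, pr, -, bd⟩ := main _ (h2.mono (l₁₂.mono hb.le))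
    exact fin w'' o1 mw'' o2 o3 r vr lr lr₁ (Or.inr ⟨pr, bd b le_rfl hb h1⟩)
      fun β a1 a2 => bd β a1.le a2 (hF β a1 a2)
  · have hP := B₁.prom v₁ hb hT (l₁₂.sub hb h4)
    rw [h5] at hP
    obtain ⟨w'', o1, mw'', o2, o3, r, vr, lr, lr₁, pr, hδ, bd⟩ := main _ hP
    rw [← code_congr (hδ b le_rfl hb)] at pr
    have hc := (lr₁.trans l₁₂).sub hb h3
    obtain ⟨l', e1, e2, e3⟩ := addp vr (B₁.mono lr₁.rle) hb hT hc (e := (w'', μ' + ω ^ γ, 0))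
      ⟨i, mw'', mlam, trivial⟩ pr
    refine fin w'' o1 mw'' o2 o3 _ e2 (e3.trans lr) (e3.trans lr₁) (Or.inl ⟨a, t, m, l', _,
      o2.F_mono hw o3 hb h1, h2, Or.inr hc, Or.inl rfl, e1, le_rfl⟩) fun β a1 a2 a' m' ha hm => ?_
    rcases hm with hm | hm
    · cases hm
    · exact bd β a1.le a2 (hF β a1 a2) a' m' ha hm

theorem ts (hCL : C.CL) (hG : ∀ i, Gd (C.N i) (C.η i) C.ρ) (μ : K) : C.TS μ := by
  induction μ using WellFoundedLT.induction with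
  | ind μ IH =>
  intro γ w r mγ mw hw vr hB ok
  obtain ⟨lw, b, hbγ, mb, hF, hc⟩ := id ok
  rcases hbγ.eq_or_lt with rfl | hb
  · rcases hc with hc | hc
    · exact hc.2
    · exact absurd hc.1 (lt_irrefl _)
  refine Ch.FPos_iff.2 ⟨fun y hy r' v' l' => ?_, fun μ' mμ hμ i₀ r' v' l' => ?_⟩
  · obtain ⟨s, vs, ls, x, hx, h1, h2⟩ := Ch.ok_A (fun i => (hG i).memT) hw v' (hB.mono l'.rle)
      (ok.mono l') hy
    exact ⟨s, vs, ls, x, hx, h1, h2, trivial⟩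
  have hle := rank_le hb hμ
  have IH' : ∀ ν ≤ μ' + ω ^ γ, C.TS ν := fun ν h => IH ν (h.trans_lt (Ch.lt_of_add hle))
  obtain ⟨j, hj, mγ, mw, mb, mμ⟩ : ∃ j, i₀ ≤ j ∧ Mem (C.N j) γ ∧ Mem (C.N j) w ∧ Mem (C.N j) b ∧
      Mem (C.N j) μ' := by
    obtain ⟨j₁, h₁⟩ := mγ
    obtain ⟨j₂, h₂⟩ := mw
    obtain ⟨j₃, h₃⟩ := mb
    obtain ⟨j₄, h₄⟩ := mμ
    exact ⟨i₀ + j₁ + j₂ + j₃ + j₄, by omega, C.mem_mono h₁ (by omega), C.mem_mono h₂ (by omega),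
      C.mem_mono h₃ (by omega), C.mem_mono h₄ (by omega)⟩
  have mlam : Mem (C.N j) (μ' + ω ^ γ : K) := (hG j).add (μ', γ) ⟨mμ, mγ⟩
  have hT : b ∈ C.ρ.T := (hG j).memT mb
  have B' := hB.mono l'.rle
  have step : ∀ μ₁ U, μ ≤ μ₁ → C.FPos b μ₁ w U r' → RL C.ρ w.r ∧ ∃ i, j ≤ i ∧ ∃ s, V γ s ∧
      L γ s r' ∧ C.FPhi b (μ' + ω ^ γ) i w U s ∧ ∀ a, (b, a) ∈ s.f ↔ (b, a) ∈ r'.f := by
    intro μ₁ U h1 h2
    obtain ⟨p, vp, lp, i, hi, h3⟩ := ((Ch.FPos_iff.1 h2).2 _ ⟨j, mlam⟩ (hle.trans h1) j).ex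
      (v'.mono hb.le)
    obtain ⟨a1, a2, a3, -⟩ := mix_spec hb.le vp v' lp
    exact ⟨(h2.act (v'.mono hb.le) (hw.mono hb.le)).1, i, hi, _, a1, a2.1, h3.mono a3,
      fun a => by simp [mem_mix]⟩
  rcases hc with ⟨h1, h2⟩ | ⟨-, a, t, m, l, μ₁, h1, h2, h3, h4, h5, h6⟩
  · obtain ⟨act, i, hi, s, vs, ls, h3, -⟩ := step μ _ le_rfl (h2.mono (l'.mono hb.le))
    exact ⟨s, vs, ls, i, hj.trans hi, lift hCL (hG i) IH' (C.mem_mono mw hi) (C.mem_mono mγ hi)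
      (C.mem_mono mμ hi) (C.mem_mono mb hi) hb hw (B'.mono ls.rle) (ls.trans (l'.trans lw)) act hF
      (Or.inl ⟨h1.resolve_left hb.ne, h3⟩)⟩
  · have hP := B'.prom v' hb hT (l'.sub hb h4)
    rw [h5] at hP
    obtain ⟨act, i, hi, s, vs, ls, h7, h8⟩ := step μ₁ _ h6 hP
    rw [← code_congr fun a _ => h8 a] at h7
    have hc := (ls.trans l').sub hb h3
    obtain ⟨l₁, e1, e2, e3⟩ := addp vs (B'.mono ls.rle) hb hT hc (e := (w, μ' + ω ^ γ, i + 1))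
      ⟨j, mw, mlam, trivial⟩ h7
    have e4 := e3.trans ls
    exact ⟨_, e2, e4, i, hj.trans hi, lift hCL (hG i) IH' (C.mem_mono mw hi) (C.mem_mono mγ hi)
      (C.mem_mono mμ hi) (C.mem_mono mb hi) hb hw (B'.mono e4.rle) (e4.trans (l'.trans lw)) act hF
      (Or.inr ⟨a, t, m, l₁, h1, h2, Or.inr hc, Or.inl rfl, e1⟩)⟩

end FTX

/-- The lifting lemma. -/
theorem aec_ts : AEC fun C => ∀ μ, C.TS μ :=
  (aec_cl.and (AEC.of_AE FTX.ae_gd)).mono fun _ h => FTX.ts h.1 h.2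

end Pool.Agent.MP_2e2931_gt.Gap

end

section

namespace Pool.Agent.MP_2e2931_gt.Gap

open Set Ordinal

/-- Labels of the tree of nodes. -/
structure ChLb : Type 1 where
  w : Nod
  μ : K
  j : ℕ
  m : ℕ

/-- States of the construction. -/
structure ChSt : Type 1 where
  N : Set Ob
  η : W
  ρ : Cond
  lab : List (ℕ × ℕ) → Option ChLb

structure ChOk (N : Set Ob) (ρ : Cond) (l : ChLb) : Prop where
  mem : Mem N l.w
  node : Node 0 l.w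
  spl : Spl l.w l.j
  rl : RL ρ l.w.r

def ChQ (a : Nod × ℕ × Set Nod × ℕ) (b : Nod × ℕ × ℕ) : Prop :=
  b.1 ∈ a.2.2.1 ∧ Node 0 b.1 ∧ Spl b.1 b.2.1 ∧ a.2.2.2 ≤ b.2.2 ∧
    NLe 0 b.1 (restr a.1 a.2.1 b.2.2)

structure ChInv (R : Set (Ob → Ob → Prop)) (l₀ : ChLb) (i : ℕ) (X : ChSt) : Prop where
  gm : GM X.N X.η X.ρ
  cl : Closed R X.N
  kn : KN X.N ⊆ X.ρ.T
  ht : X.ρ.ht = X.η
  T : X.ρ.T ⊆ KN X.N
  root : X.lab [] = some l₀
  ok : ∀ a l, X.lab a = some l → ChOk X.N X.ρ l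
  par : ∀ i' e a l', X.lab ((i', e) :: a) = some l' → i' ≤ i ∧ ∃ l, X.lab a = some l ∧
    l'.μ < l.μ ∧ NLe 0 l'.w (restr l.w l.j l'.m) ∧ Nat.pair i' e ≤ l'.m

structure ChLeaf (bo : ℕ → List (ℕ × ℕ)) (i : ℕ) (X Y : ChSt) (x : W) (q : Cond) (B : Set K)
    (u : List (ℕ × ℕ)) (l : ChLb) : Prop where
  lab : X.lab u = some l
  book : ∀ l', X.lab (bo i) = some l' → u = bo i
  val : i ≤ q.σ x l.j
  mem : (x, q, B) ∈ l.w.A
  rl : RL Y.ρ q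
  lt : X.η < x
  lt' : x < q.ht
  ht : q.ht ≤ Y.η
  kn : KN X.N ⊆ B

structure ChRel (bo : ℕ → List (ℕ × ℕ)) (i : ℕ) (X Y : ChSt) : Prop where
  sub : ∀ o : Ob, o.In X.N → o.In Y.N
  rl : RL Y.ρ X.ρ
  emp : Y.ρ.E X.η = ∅
  ext : ∀ a l, X.lab a = some l → Y.lab a = some l
  full : ∀ a l, X.lab a = some l → ∀ (O : Set Nod) (μ' : K), Mem Y.N O → Mem Y.N μ' → DO 0 O →
    μ' < l.μ → ∃ e l', Y.lab ((i + 1, e) :: a) = some l' ∧ l'.μ = μ' ∧ l'.w ∈ O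
  leaf : ∃ x q B u l, ChLeaf bo i X Y x q B u l

theorem ch_dc {X : Type*} (Inv : ℕ → X → Prop) (Rel : ℕ → X → X → Prop) (x₀ : X) (h₀ : Inv 0 x₀)
    (step : ∀ n x, Inv n x → ∃ y, Inv (n + 1) y ∧ Rel n x y) :
    ∃ f : ℕ → X, ∀ n, Inv n (f n) ∧ Rel n (f n) (f (n + 1)) := by
  choose g hg using step
  let F : ∀ n, {x // Inv n x} := fun n =>
    Nat.rec ⟨x₀, h₀⟩ (fun n x => ⟨g n x.1 x.2, (hg n x.1 x.2).1⟩) n
  exact ⟨fun n => (F n).1, fun n => ⟨(F n).2, (hg n (F n).1 (F n).2).2⟩⟩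

theorem ch_book : ∃ bo : ℕ → List (ℕ × ℕ), ∀ a n, ∃ i, n ≤ i ∧ bo i = a := by
  obtain ⟨f, hf⟩ := exists_surjective_nat (List (ℕ × ℕ))
  refine ⟨fun i => f i.unpair.1, fun a n => ?_⟩
  obtain ⟨k, rfl⟩ := hf a
  exact ⟨Nat.pair k n, Nat.right_le_pair k n, by simp⟩

theorem ch_restr_nle (w : Nod) (j m : ℕ) : NLe 0 (restr w j m) w :=
  ⟨Le.refl, fun _ q _ h => ⟨q, h.1, Le.refl⟩⟩

theorem ch_le {q p : Cond} (h : RL q p) : Le 0 q p := ⟨L_zero.2 (h 0), h⟩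

theorem ch_wit {ρ : Cond} (hv : RV ρ) (hf : ρ.f = ∅) {w : Nod} {j : ℕ} (hw : Node 0 w)
    (hs : Spl w j) (hl : RL ρ w.r) {O : Set Nod} (hO : DO 0 O) (k : ℕ) :
    ∃ b, ChQ (w, j, O, k) b ∧ RV b.1.r ∧ RL b.1.r ρ := by
  obtain ⟨m, hm, hL⟩ := hs k
  obtain ⟨h1, -⟩ := restr_node hw hL
  obtain ⟨w₁, n₁, l₁, r₁, -⟩ := reroot h1 (V_zero.2 ⟨hv, hf ▸ finite_empty⟩) (ch_le hl)
  obtain ⟨w₂, o₂, n₂, l₂⟩ := hO.1 w₁ n₁
  obtain ⟨w₃, j₃, n₃, l₃, s₃⟩ := exists_spl n₂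
  exact ⟨(w₃, j₃, m), ⟨hO.2 w₂ o₂ w₃ n₂ n₃ l₃, n₃, s₃, hm, (l₃.trans l₂).trans l₁⟩, n₃.v.rv,
    ((l₃.trans l₂).1.2).trans r₁.2⟩

theorem ch_leaf {R : Set (Ob → Ob → Prop)} {l₀ : ChLb} {i : ℕ} {X : ChSt} (hX : ChInv R l₀ i X)
    {u : List (ℕ × ℕ)} {l : ChLb} (hu : X.lab u = some l) :
    ∃ x q B, RV q ∧ RL q X.ρ ∧ q.E X.η = ∅ ∧ i ≤ q.σ x l.j ∧ (x, q, B) ∈ l.w.A ∧ X.η < x ∧
      x < q.ht ∧ KN X.N ⊆ B := by
  have ok := hX.ok u l hu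
  obtain ⟨m, hm, hL⟩ := ok.spl i
  obtain ⟨ρ', v', r', h', T', -, E', -⟩ := exists_step hX.gm.rv (fun _ => 0)
    (Lad.empty X.ρ.σ X.ρ.ht) (fun _ _ => canon ∅) fun β _ => canon_empty_mem β
  obtain ⟨N₁, x, q, g₁, ⟨⟨a₁, a₂⟩, a₃⟩, r₁, m₁⟩ := hL ρ' v' (r'.trans ok.rl) _
    (((AE.const ρ').and ae_ht).and ae_T)
  rw [hX.ht] at h' E'
  refine ⟨x, q, KN N₁, g₁.rv, r₁.trans r', ?_, hm.trans_eq m₁.2.symm, m₁.1, h'.trans (a₂ ρ' a₁),
    (ok.node.el _ _ _ m₁.1).lt, hX.kn.trans ?_⟩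
  · rw [(r₁ 0).E _ h', E']
  · rw [← T']
    exact a₃ ρ' a₁ v'

theorem ch_step {R : Set (Ob → Ob → Prop)} (hR : R.Countable) (bo : ℕ → List (ℕ × ℕ))
    {l₀ : ChLb} (i : ℕ) (X : ChSt) (hX : ChInv R l₀ i X) :
    ∃ Y, ChInv R l₀ (i + 1) Y ∧ ChRel bo i X Y := by
  obtain ⟨u, l, hu, hb⟩ : ∃ u l, X.lab u = some l ∧ ∀ l', X.lab (bo i) = some l' → u = bo i := by
    cases h : X.lab (bo i) with
    | none => exact ⟨[], l₀, hX.root, fun _ h' => by cases h'⟩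
    | some l => exact ⟨bo i, l, h, fun _ _ => rfl⟩
  obtain ⟨x, q, B, vq, rq, Eq, val, mem, lt, lt', kn⟩ := ch_leaf hX hu
  obtain ⟨N, η, ρ, gm, ⟨⟨cl, kn'⟩, act⟩, rρ, ht, hf, T, sub⟩ :=
    exists_GM (((AE.closed hR).and ae_memT).and (AE.act ChQ fun b => b.1.r)) vq hX.gm.ct
  have rX : RL ρ X.ρ := rρ.trans rq
  have okY : ∀ l, ChOk X.N X.ρ l → ChOk N ρ l := fun l h =>
    ⟨sub _ h.mem, h.node, h.spl, rX.trans h.rl⟩
  obtain ⟨en, hen⟩ : ∃ en : ℕ → Set Nod × K, ∀ z, Mem N z → ∃ e, en e = z := by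
    have hc := (countable_mem (α := Set Nod × K) gm.ct).insert (∅, 0)
    obtain ⟨en, hen⟩ := hc.exists_eq_range (insert_nonempty _ _)
    exact ⟨en, fun z hz => by
      have : z ∈ range en := hen ▸ mem_insert_of_mem _ hz
      exact this⟩
  have hch : ∀ (e : ℕ) (l : ChLb), ∃ o : Option ChLb,
      (∀ l', o = some l' → ChOk N ρ l' ∧ l'.μ < l.μ ∧ NLe 0 l'.w (restr l.w l.j l'.m) ∧
        Nat.pair (i + 1) e ≤ l'.m) ∧
      (ChOk N ρ l → Mem N (en e).1 → DO 0 (en e).1 → (en e).2 < l.μ →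
        ∃ l', o = some l' ∧ l'.μ = (en e).2 ∧ l'.w ∈ (en e).1) := by
    intro e l
    by_cases H : ChOk N ρ l ∧ Mem N (en e).1 ∧ DO 0 (en e).1 ∧ (en e).2 < l.μ
    · obtain ⟨h1, h2, h3, h4⟩ := H
      obtain ⟨b, b1, ⟨b2, b3, b4, b5, b6⟩, -, b7⟩ := act (l.w, l.j, (en e).1, Nat.pair (i + 1) e)
        ⟨h1.mem, mem_nat, h2, mem_nat⟩ (ch_wit gm.rv hf h1.node h1.spl h1.rl h3 _)
      refine ⟨some ⟨b.1, (en e).2, b.2.1, b.2.2⟩, fun l' h => ?_, fun _ _ _ _ => ⟨_, rfl, rfl, b2⟩⟩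
      cases h
      exact ⟨⟨b1.1, b3, b4, b7⟩, h4, b6, b5⟩
    · exact ⟨none, fun _ h => (by cases h), fun h1 h2 h3 h4 => (H ⟨h1, h2, h3, h4⟩).elim⟩
  choose ch hch₁ hch₂ using hch
  let lab : List (ℕ × ℕ) → Option ChLb := fun a => match a with
    | [] => X.lab []
    | c :: a' => if c.1 = i + 1 then (X.lab a').bind (ch c.2) else X.lab (c :: a')
  have ext : ∀ a l, X.lab a = some l → lab a = some l := by
    rintro (_ | ⟨⟨i', e⟩, a'⟩) l h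
    · exact h
    · have := (hX.par i' e a' l h).1
      simp only [lab]
      rw [if_neg (by omega)]
      exact h
  have cas : ∀ i' e a l', lab ((i', e) :: a) = some l' → X.lab ((i', e) :: a) = some l' ∨
      (i' = i + 1 ∧ ∃ l, X.lab a = some l ∧ ch e l = some l') := by
    intro i' e a l' h
    simp only [lab] at h
    split_ifs at h with h'
    · exact Or.inr ⟨h', Option.bind_eq_some_iff.1 h⟩
    · exact Or.inl h
  refine ⟨⟨N, η, ρ, lab⟩, ⟨gm, cl, kn', ht, T, hX.root, ?_, ?_⟩, sub, rX, ?_, ext, ?_,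
    x, q, B, u, l, hu, hb, val, mem, rρ, lt, lt', ht ▸ (rρ 0).ht, kn⟩
  · rintro (_ | ⟨⟨i', e⟩, a'⟩) l' h
    · exact okY _ (hX.ok [] l' h)
    · rcases cas i' e a' l' h with h | ⟨-, l, -, h⟩
      · exact okY _ (hX.ok _ l' h)
      · exact (hch₁ e l l' h).1
  · intro i' e a l' h
    rcases cas i' e a l' h with h | ⟨rfl, l, h₁, h⟩
    · obtain ⟨h1, l, h2, h3⟩ := hX.par i' e a l' h
      exact ⟨h1.trans i.le_succ, l, ext _ _ h2, h3⟩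
    · exact ⟨le_rfl, l, ext _ _ h₁, (hch₁ e l l' h).2⟩
  · exact ((rρ 0).E _ (lt.trans lt')).trans Eq
  · intro a l h O μ' hO hμ hD hlt
    obtain ⟨e, he⟩ := hen (O, μ') ⟨hO, hμ⟩
    have := hch₂ e l (okY _ (hX.ok a l h))
    rw [he] at this
    obtain ⟨l', h1, h2⟩ := this hO hD hlt
    refine ⟨e, l', ?_, h2⟩
    simp only [lab, if_true, h, Option.bind_some]
    exact h1

theorem ch_start {R : Set (Ob → Ob → Prop)} (hR : R.Countable) {l₀ : ChLb} (hw : Node 0 l₀.w)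
    (hs : Spl l₀.w l₀.j) : ∃ X, ChInv R l₀ 0 X := by
  classical
  obtain ⟨N, η, ρ, gm, ⟨⟨cl, kn'⟩, mem⟩, rρ, ht, -, T, -⟩ :=
    exists_GM (((AE.closed hR).and ae_memT).and (AE.const l₀.w)) hw.v.rv countable_empty
  refine ⟨⟨N, η, ρ, fun a => if a = [] then some l₀ else none⟩, gm, cl, kn', ht, T, by simp,
    fun a l h => ?_, fun i' e a l' h => by simp at h⟩
  dsimp only at h
  split_ifs at h
  cases h
  exact ⟨mem, hw, hs, rρ⟩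

section Seq

variable {R : Set (Ob → Ob → Prop)} {l₀ : ChLb} {bo : ℕ → List (ℕ × ℕ)} {X : ℕ → ChSt}
  {x : ℕ → W} {q : ℕ → Cond} {B : ℕ → Set K} {u : ℕ → List (ℕ × ℕ)} {lf : ℕ → ChLb} {ρ : Cond}

theorem ch_lab_mono (hR : ∀ i, ChRel bo i (X i) (X (i + 1))) {a : List (ℕ × ℕ)} {l : ChLb}
    {i j : ℕ} (h : (X i).lab a = some l) (hij : i ≤ j) : (X j).lab a = some l := by
  induction hij with
  | refl => exact h
  | step _ ih => exact (hR _).ext _ _ ih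

theorem ch_lab_uniq (hR : ∀ i, ChRel bo i (X i) (X (i + 1))) {a : List (ℕ × ℕ)} {l l' : ChLb}
    {i j : ℕ} (h : (X i).lab a = some l) (h' : (X j).lab a = some l') : l = l' :=
  Option.some.inj ((ch_lab_mono hR h (le_max_left i j)).symm.trans
    (ch_lab_mono hR h' (le_max_right i j)))

theorem ch_down {i : ℕ} {Y : ChSt} (hI : ChInv R l₀ i Y) {x : W} {B : Set K} (a : List (ℕ × ℕ)) :
    ∀ (b : List (ℕ × ℕ)) (l : ChLb) (q : Cond), Y.lab (b ++ a) = some l → (x, q, B) ∈ l.w.A →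
      RL ρ q → ∃ l' q', Y.lab a = some l' ∧ (x, q', B) ∈ l'.w.A ∧ RL ρ q' := by
  intro b
  induction b with
  | nil => exact fun l q h1 h2 h3 => ⟨l, q, h1, h2, h3⟩
  | cons c b ih =>
    intro l q h1 h2 h3
    obtain ⟨-, l₁, h4, -, h5, -⟩ := hI.par c.1 c.2 (b ++ a) l h1
    obtain ⟨q₁, h6, h7⟩ := h5.2 x q B h2
    exact ih l₁ q₁ h4 h6.1 (h3.trans h7.2)

theorem ch_wf (hI : ∀ i, ChInv R l₀ i (X i)) (hR : ∀ i, ChRel bo i (X i) (X (i + 1)))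
    (hL : ∀ i, ChLeaf bo i (X i) (X (i + 1)) (x i) (q i) (B i) (u i) (lf i))
    (hρ : ∀ i, RL ρ (X i).ρ) (s : ℕ → ℕ) (μ : K) :
    ∀ a l n, (X n).lab a = some l → l.μ = μ →
      ∃ k, {i | a <:+ u i ∧ ∀ j < k, ρ.σ (x i) j = s j}.Finite := by
  induction μ using WellFoundedLT.induction with
  | ind μ ih =>
  intro a l n hl hμ
  have rq : ∀ i, RL ρ (q i) := fun i => (hρ (i + 1)).trans (hL i).rl
  have down : ∀ i a, a <:+ u i → ∃ l' q', (X i).lab a = some l' ∧ (x i, q', B i) ∈ l'.w.A ∧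
      RL ρ q' := by
    rintro i a ⟨b, hb⟩
    exact ch_down (hI i) a b _ _ (hb ▸ (hL i).lab) (hL i).mem (rq i)
  have key : ∀ c : ℕ × ℕ, ∃ k, {i | c :: a <:+ u i ∧ ∀ j < k, ρ.σ (x i) j = s j}.Finite := by
    intro c
    by_cases H : ∃ i, c :: a <:+ u i
    · obtain ⟨i, hi⟩ := H
      obtain ⟨l', -, h1, -⟩ := down i _ hi
      obtain ⟨-, l₁, h2, h3, -⟩ := (hI i).par c.1 c.2 a l' h1
      obtain rfl := ch_lab_uniq hR h2 hl
      exact ih l'.μ (hμ ▸ h3) _ l' i h1 rfl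
    · exact ⟨0, finite_empty.subset fun i hi => H ⟨i, hi.1⟩⟩
  choose k hk using key
  have hC : {c : ℕ × ℕ | Nat.pair c.1 c.2 ≤ s l.j}.Finite :=
    ((finite_Iic (s l.j)).prod (finite_Iic (s l.j))).subset fun c hc =>
      ⟨(Nat.left_le_pair _ _).trans hc, (Nat.right_le_pair _ _).trans hc⟩
  obtain ⟨k₀, hk₀⟩ := (hC.image k).bddAbove
  refine ⟨max k₀ (l.j + 1), ((finite_Iic (s l.j)).union (hC.biUnion fun c _ => hk c)).subset ?_⟩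
  rintro i ⟨⟨b, hb⟩, hs⟩
  have hj := hs l.j (lt_max_of_lt_right (Nat.lt_succ_self _))
  rcases b.eq_nil_or_concat with rfl | ⟨b', c, rfl⟩
  · left
    have h1 := (hL i).lab
    rw [← hb] at h1
    have h2 := (hL i).val
    rw [ch_lab_uniq hR h1 hl, ← (rq i 0).σ _ (hL i).lt', hj] at h2
    exact h2
  · right
    have hi : c :: a <:+ u i := ⟨b', by rw [← hb]; simp⟩
    obtain ⟨l', q', h1, h2, h3⟩ := down i _ hi
    obtain ⟨-, l₁, h4, -, h5, h6⟩ := (hI i).par c.1 c.2 a l' h1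
    obtain rfl := ch_lab_uniq hR h4 hl
    obtain ⟨q₁, h7, h8⟩ := h5.2 _ _ _ h2
    have h9 : ρ.σ (x i) = q₁.σ (x i) :=
      (h3.trans h8.2 0).σ _ (((hI i).ok a l₁ h4).node.el _ _ _ h7.1).lt
    have hc : Nat.pair c.1 c.2 ≤ s l₁.j := by
      rw [← hj, h9]
      exact h6.trans_eq h7.2.symm
    exact mem_biUnion (s := {c : ℕ × ℕ | Nat.pair c.1 c.2 ≤ s l₁.j}) hc
      ⟨hi, fun j hj => hs j (lt_max_of_lt_left (hj.trans_le (hk₀ (mem_image_of_mem k hc))))⟩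

theorem ch_eta (hL : ∀ i, ChLeaf bo i (X i) (X (i + 1)) (x i) (q i) (B i) (u i) (lf i)) :
    StrictMono fun i => (X i).η :=
  strictMono_nat_of_lt_succ fun i => ((hL i).lt.trans (hL i).lt').trans_le (hL i).ht

theorem ch_pos (hI : ∀ i, ChInv R l₀ i (X i)) (hR : ∀ i, ChRel bo i (X i) (X (i + 1)))
    (hL : ∀ i, ChLeaf bo i (X i) (X (i + 1)) (x i) (q i) (B i) (u i) (lf i))
    (hbo : ∀ a n, ∃ i, n ≤ i ∧ bo i = a) (C : Ch) (hN : ∀ i, C.N i = (X i).N)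
    (hη : ∀ i, C.η i = (X i).η) (hE : C.Ed = range x) (hρ : ∀ i, RL C.ρ (X i).ρ) (μ : K) :
    ∀ a l n, (X n).lab a = some l → l.μ = μ → C.FPos 0 μ l.w (fun _ _ => True) C.ρ := by
  induction μ using WellFoundedLT.induction with
  | ind μ ih =>
  intro a l n hl hμ
  have hm := ch_eta hL
  refine Ch.FPos_iff.2 ⟨fun y hy => Dns.of_all fun r _ hr => ?_,
    fun μ' ⟨n', hn'⟩ hlt i₀ => Dns.of_all fun r _ hr => ?_⟩
  · obtain ⟨n', hn'⟩ := C.cof y hy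
    obtain ⟨i, hi, hb⟩ := hbo a (max n n')
    have h1 := ch_lab_mono hR hl (le_of_max_le_left hi)
    have h2 : u i = a := ((hL i).book l (hb ▸ h1)).trans hb
    have h3 : lf i = l := ch_lab_uniq hR (h2 ▸ (hL i).lab) hl
    have h4 : RL C.ρ (q i) := (hρ (i + 1)).trans (hL i).rl
    refine ⟨x i, hE ▸ mem_range_self i,
      (hn'.trans_le (hη n' ▸ hm.monotone (le_of_max_le_right hi))).trans (hL i).lt,
      ⟨q i, B i, h3 ▸ (hL i).mem, h4, ?_, fun i' hi' => ?_, hr.trans (L_zero.2 (h4 0))⟩, trivial⟩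
    · rw [hE]
      rintro _ ⟨i', rfl⟩ hlt
      have : i < i' + 1 :=
        hm.lt_iff_lt.1 ((((hL i).lt.trans hlt).trans (hL i').lt').trans_le (hL i').ht)
      rcases (Nat.lt_succ_iff.1 this).eq_or_lt with rfl | h
      · exact (lt_irrefl _ hlt).elim
      · exact ((hL i).ht.trans (hm.monotone h)).trans (hL i').lt.le
    · rw [hη] at hi'
      have : i' < i + 1 := hm.lt_iff_lt.1 ((hi'.trans_lt (hL i).lt').trans_le (hL i).ht)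
      refine Subset.trans (fun β hβ => ?_) (hL i).kn
      rw [← hN]
      exact C.mem_mono hβ (Nat.lt_succ_iff.1 this)
  · have hlt' : μ' < l.μ := hμ ▸ Ch.lt_of_add hlt
    obtain ⟨i, h0, h1, h2⟩ : ∃ i, i₀ ≤ i ∧ n ≤ i ∧ n' ≤ i :=
      ⟨max i₀ (max n n'), by omega, by omega, by omega⟩
    refine ⟨i + 1, h0.trans i.le_succ, fun O hO hD => Dns.of_all fun s _ hs => ?_⟩
    have h3 := ch_lab_mono hR hl h1
    obtain ⟨e, l', h4, h5, h6⟩ := (hR i).full a l h3 O μ' (hN _ ▸ hO)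
      (hN _ ▸ C.mem_mono hn' (h2.trans i.le_succ)) hD hlt'
    have ok := (hI (i + 1)).ok _ l' h4
    obtain ⟨-, l₁, h7, -, h8, -⟩ := (hI (i + 1)).par _ e a l' h4
    obtain rfl := ch_lab_uniq hR h7 hl
    exact ⟨l'.w, h6, (hN _).symm ▸ ok.mem, ok.node, h8.trans (ch_restr_nle _ _ _),
      (ih μ' (hμ ▸ hlt') _ l' _ h4 h5).mono (hs.trans hr)⟩

end Seq

/-- The master construction. -/
theorem exists_ch {Φ : Ch → Prop} (h : AEC Φ) {w : Nod} (hw : Node 0 w) (μ : K) :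
    ∃ C, Φ C ∧ C.FPos 0 μ w (fun _ _ => True) C.ρ := by
  obtain ⟨R, hRc, hΦ⟩ := h
  obtain ⟨w₀, j₀, n₀, le₀, s₀⟩ := exists_spl hw
  obtain ⟨bo, hbo⟩ := ch_book
  obtain ⟨X₀, h₀⟩ := ch_start hRc (l₀ := ⟨w₀, μ, j₀, 0⟩) n₀ s₀
  obtain ⟨X, hX⟩ := ch_dc _ (ChRel bo) X₀ h₀ (ch_step hRc bo)
  have hI := fun i => (hX i).1
  have hR := fun i => (hX i).2
  choose x q B u lf hL using fun i => (hR i).leaf
  obtain ⟨ρ, v, hρ, hf, cof, sub⟩ := exists_lim (fun i => (X i).ρ) (fun i => (hI i).gm.rv)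
    fun i => (hR i).rl
  have hm := ch_eta hL
  have lt : ∀ i, (X i).η < ρ.ht := fun i =>
    (hm i.lt_succ_self).trans_le ((hI (i + 1)).ht.symm.trans_le (hρ (i + 1) 0).ht)
  have cof' : ∀ y < ρ.ht, ∃ i, y < (X i).η := fun y hy =>
    (cof y hy).imp fun i hi => (hI i).ht ▸ hi
  have mono : ∀ i j, i ≤ j → ∀ o : Ob, o.In (X i).N → o.In (X j).N := by
    intro i j hij o ho
    induction hij with
    | refl => exact ho
    | step _ ih => exact (hR _).sub _ ih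
  have emp : ∀ i, ρ.E (X i).η = ∅ := fun i =>
    ((hρ (i + 1) 0).E _ ((hI (i + 1)).ht ▸ hm i.lt_succ_self)).trans (hR i).emp
  have lad : Lad ρ.σ ρ.ht (range x) := by
    refine ⟨?_, fun y hy => ?_, fun s => ?_⟩
    · rintro _ ⟨i, rfl⟩
      exact ((hL i).lt'.trans_le (hL i).ht).trans (lt _)
    · obtain ⟨n, hn⟩ := cof' y hy
      refine ((finite_Iio n).image x).subset ?_
      rintro _ ⟨⟨i, rfl⟩, hi⟩
      exact mem_image_of_mem x (hm.lt_iff_lt.1 (((hL i).lt.trans hi).trans hn))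
    · obtain ⟨k, hk⟩ := ch_wf hI hR hL hρ s μ [] _ 0 (hI 0).root rfl
      refine ⟨k, (hk.image x).subset ?_⟩
      rintro _ ⟨⟨i, rfl⟩, hi⟩
      exact mem_image_of_mem x ⟨List.nil_suffix, hi⟩
  let C : Ch := ⟨fun i => (X i).N, fun i => (X i).η, ρ.ht, range x, ρ,
    fun i => (hI i).gm.ext v (hρ i), mono, rfl, hf, lt, cof', emp, lad,
    fun β hβ => (sub β hβ).imp fun i hi => (hI i).T hi⟩
  exact ⟨C, hΦ C fun i => (hI i).cl, (ch_pos hI hR hL hbo C (fun _ => rfl) (fun _ => rfl) rfl hρ μ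
    [] _ 0 (hI 0).root rfl).nle le₀⟩

end Pool.Agent.MP_2e2931_gt.Gap

end

section

namespace Pool.Agent.MP_2e2931_gt.Gap

open Set Ordinal

/-- The preservation theorem. -/
theorem two_dense (p₀ : PP) (R : W → ℕ → ℕ → PP → Prop)
    (hm : ∀ x k v r r', R x k v r → r' ≤ r → R x k v r')
    (hR : ∀ x k, ∀ q ≤ p₀, ∃ r ≤ q, ∃ v, R x k v r) :
    ∃ p₁ ≤ p₀, ∃ d, w0 < d ∧ d < p₁.1.ht ∧ ∀ k, ∀ q ≤ p₁, ∃ r ≤ q, ∃ v, ∀ y < d, ∀ s ≤ r,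
      ∃ s' ≤ s, ∃ x ∈ p₁.1.E d, y < x ∧ R x k v s' := by
  obtain ⟨γ, hT, hc⟩ := capture (ι := W × ℕ) p₀ (fun i r => ∃ v, R i.1 i.2 v r)
    fun i q hq => hR _ _ q hq
  obtain ⟨w₀, hw₀, hr₀, hF₀⟩ := exists_triv (p₀.2 γ)
  obtain ⟨O, hO⟩ : ∃ O : ℕ → Set Nod, ∀ k, O k = Plus γ {v | ∃ n, ∀ x q B, (x, q, B) ∈ v.A →
      ∃ r : PP, R x k n r ∧ r.1.T ⊆ Iio γ ∧ L γ q r.1} fun v => L γ v.r p₀.1 :=
    ⟨_, fun _ => rfl⟩
  have dO : ∀ k, DO γ (O k) := fun k => by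
    rw [hO]
    refine do_plus (fun v hv hl => ?_) fun v ⟨n, hn⟩ v' _ _ h => ⟨n, fun x q' B hx => ?_⟩
    · obtain ⟨w', n, h₁, h₂, h₃⟩ := shrink hv
        (fun x q n => ∃ r : PP, R x k n r ∧ r.1.T ⊆ Iio γ ∧ L γ q r.1)
        (fun x q q' n ⟨r, a, b, c⟩ _ l => ⟨r, a, b, l.trans c⟩) fun x q B hx => by
          obtain ⟨r, ⟨n, a⟩, b, c⟩ := hc (x, k) q (hv.el x q B hx).v
            ((hv.el x q B hx).le.1.trans hl)
          exact ⟨r.1, n, r.2 γ, c, r, a, b, L.refl⟩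
      exact ⟨w', ⟨n, h₃⟩, h₁, h₂⟩
    · obtain ⟨q, a, b⟩ := h.2 x q' B hx
      obtain ⟨r, c, d, e⟩ := hn x q B a
      exact ⟨r, c, d, b.1.trans e⟩
  obtain ⟨C, ⟨hTS, hN⟩, hpos⟩ := exists_ch (aec_ts.and (AEC.of_AE ((AE.const w₀).and
    ((AE.const γ).and ((AE.const (0 : K)).and ((AE.all fun k => AE.const (O k)).and ae_zero))))))
    (hw₀.mono bot_le) (ω ^ γ * 2)
  have hρ : RL C.ρ p₀.1 := hr₀ ▸ (hpos.act
    (V_zero.2 ⟨(C.gm 0).rv, by rw [C.f]; exact finite_empty⟩) (hw₀.mono bot_le)).1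
  obtain ⟨τ, hτ, hτρ, hB⟩ := C.exists_top
  have r₁ : Rle γ (setf τ p₀.1.f) p₀.1 := ((hτρ.trans hρ) γ).setf_left
  have v₁ : V γ (setf τ p₀.1.f) :=
    V_of_eq (p₀.2 γ) hτ.setf (p₀.2 γ).fin r₁ fun _ _ _ => Iff.rfl
  have l₁ : L γ (cut γ (setf τ p₀.1.f)) p₀.1 := cut_L.trans (L_of_eq r₁ fun _ _ _ => Iff.rfl)
  have b₁ : C.Bel γ (cut γ (setf τ p₀.1.f)) :=
    (hB γ).mono (cut_L.rle.trans Rle.refl.setf_left)
  have hF := hTS (ω ^ γ * 2) γ w₀ _ ⟨0, (hN 0).2.1⟩ ⟨0, (hN 0).1⟩ hw₀ (v₁.cut γ) b₁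
    ⟨hr₀ ▸ l₁, 0, bot_le, ⟨0, (hN 0).2.2.1⟩, fun β _ _ => hF₀ β,
      Or.inl ⟨Or.inr (hF₀ 0), hpos.mono (L_zero.2 (b₁.le.mono bot_le))⟩⟩
  refine ⟨⟨_, v₁.cut⟩, PP.le_of l₁ hT, C.δ, (hN 0).2.2.2.2.trans (C.lt 0), b₁.lt,
    fun k q hq => ?_⟩
  obtain ⟨s₀, a₁, a₂, i, -, a₃⟩ := (Ch.FPos_iff.1 hF).2 0 ⟨0, (hN 0).2.2.1⟩
    (zero_add _).le 0 q.1 (q.2 γ) (hq γ)
  obtain ⟨s, c₁, c₂, w', c₃, -, c₄, c₅, c₆⟩ := (a₃ (O k) ((hN i).2.2.2.1 k) (dO k)).ex a₁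
  rw [hO] at c₃
  obtain ⟨n, hn⟩ := c₃.resolve_right fun h => h w' c₄ NLe.refl (hr₀ ▸ c₅.1.1)
  obtain ⟨r, d₁, d₂⟩ := PP.amalg q c₁ (c₂.trans a₂)
  refine ⟨r, d₁, n, fun y hy s₁ hs₁ => ?_⟩
  obtain ⟨s₂, e₁, e₂, x, e₃, e₄, ⟨q', B, e₅, -, -, -, e₆⟩, -⟩ :=
    (Ch.FPos_iff.1 c₆).1 y hy s₁.1 (s₁.2 γ) ((hs₁ γ).trans d₂)
  obtain ⟨r', f₁, f₂, f₃⟩ := hn x q' B e₅
  obtain ⟨s', g₁, g₂⟩ := PP.amalg s₁ e₁ e₂
  exact ⟨s', g₁, x, b₁.E ▸ e₃, e₄, hm _ _ _ r' s' f₁ (PP.le_of (g₂.trans (e₆.trans f₃)) f₂)⟩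

end Pool.Agent.MP_2e2931_gt.Gap

end

section

namespace Pool.Agent.MP_2e2931_gt.Gap

open Set Ordinal

/-- Good data are handled at some coordinate. -/
theorem exists_good (p₀ : PP) (R : At → PP → Prop) (hm : ∀ a r r', R a r → r' ≤ r → R a r')
    (t₁ : ∀ x j, ∀ q ≤ p₀, ∃ r ≤ q, ∃ c, R (.pi x j c) r)
    (t₂ : ∀ d k x, ∀ q ≤ p₀, ∃ r ≤ q, ∃ t, R (.ce d k x t) r)
    (g₃ : ∀ (d : W) (n₀ : ℕ) (B : PP → ℕ × ℕ → Prop), (∀ r r' y, B r y → r' ≤ r → B r' y) →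
      ∀ q ≤ p₀, d < q.1.ht → (∀ j, ∀ r ≤ q, ∃ r' ≤ r, ∃ y, j ≤ y.1 ∧ B r' y) →
        ∃ q' ≤ q, ∃ k, ∃ u : Set (ℕ × ℕ), u.Finite ∧ (∀ y ∈ u, B q' y) ∧
          ∀ x ∈ q.1.E d, ∀ r ≤ q', ∀ t, R (.ce d k x t) r → ∃ y ∈ u, t = (n₀, y)) :
    ∃ β, Good β p₀.1 ∧
      ∀ a (u : PP), Dec β (bk β) u.1 a → ∀ u' ≤ u, ∃ u'' ≤ u', R a u'' := by
  obtain ⟨α, hT, hc⟩ := capture (ι := (W × ℕ) ⊕ (W × ℕ × W)) p₀
    (Sum.elim (fun i r => ∃ c, R (.pi i.1 i.2 c) r) fun i r => ∃ t, R (.ce i.1 i.2.1 i.2.2 t) r)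
    (by
      rintro (i | i) q hq
      exacts [t₁ _ _ q hq, t₂ _ _ _ q hq])
  have hX : ∀ y ∈ {y : Cond × At | y.1 ∈ S α ∧ ∃ r : PP, r.1 = y.1 ∧ R y.2 r}, y.1 ∈ S α :=
    fun _ h => h.1
  obtain ⟨β, hβ, -, hb⟩ := bk_spec (ν := α) ⟨_, hX, rfl⟩ α
  have ent : ∀ c a, (c, a) ∈ (bk β).ent ↔ c ∈ S α ∧ ∃ r : PP, r.1 = c ∧ R a r := fun c a => by
    rw [hb, ent_canon (small_of_S hX)]
    rfl
  have hT' : p₀.1.T ⊆ Iio β := hT.trans (Iio_subset_Iio hβ)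
  have dec : ∀ a (u : PP), Dec β (bk β) u.1 a → ∀ u' ≤ u, ∃ u'' ≤ u', R a u'' := by
    intro a u h u' hu
    obtain ⟨s, v₁, l₁, c, hca, l₂⟩ := Dec_def.1 h u'.1 (u'.2 β) (hu β)
    obtain ⟨h₁, r, rfl, h₂⟩ := (ent c a).1 hca
    obtain ⟨t, h₃, h₄⟩ := PP.amalg u' v₁ l₁
    exact ⟨t, h₃, hm a r t h₂ (PP.le_of (h₄.trans l₂)
      ((mem_S.1 h₁).1.trans (Iio_subset_Iio hβ)))⟩
  have tot : ∀ (r : PP) (p' : Cond), V β p' → r.1.T ⊆ Iio α → L α r.1 p' →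
      ∃ s, V β s ∧ L β s p' ∧ ∀ a, R a r → Dec β (bk β) s a := by
    intro r p' v₁ h₁ l₁
    have vc := V.cut (r.2 α)
    obtain ⟨a₁, a₂, a₃, -⟩ := mix_spec hβ (vc α) v₁ (cut_L.trans l₁)
    have a₄ := L_of_supp a₃ (vc β) fun _ h _ => cut_T h
    refine ⟨_, a₁, a₂.1, fun a h => Dec_def.2 (Dns.of_all fun s _ l₂ => ⟨_, (ent _ a).2
      ⟨cut_mem_S (r.2 α).rv, ⟨_, vc⟩, rfl, hm a r _ h (PP.le_of cut_L h₁)⟩, l₂.trans a₄⟩)⟩
  refine ⟨β, Good_def.2 ⟨fun x j p' v₁ l₁ => ?_, fun d n₀ B hB p' v₁ l₁ hd H => ?_⟩, dec⟩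
  · obtain ⟨r, ⟨c, h₁⟩, h₂, h₃⟩ := hc (Sum.inl (x, j)) p' (v₁.mono hβ) (l₁.mono hβ)
    obtain ⟨s, a₁, a₂, a₃⟩ := tot r p' v₁ h₂ h₃
    exact ⟨s, a₁, a₂, c, a₃ _ h₁⟩
  · obtain ⟨q', hq', k, u, hu, hBu, hx⟩ := g₃ d n₀ (fun r y => B r.1 y)
      (fun r r' y h h' => hB _ _ y h (r'.2 β) (h' β)) ⟨cut β p', V.cut v₁⟩
      (PP.le_of (cut_L.trans l₁) hT') hd fun j r hr => by
        obtain ⟨s, a₁, a₂, y, a₃, a₄⟩ := H j r.1 (r.2 β) ((hr β).trans cut_L)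
        obtain ⟨t, b₁, b₂⟩ := PP.amalg r a₁ a₂
        exact ⟨t, b₁, y, a₃, hB _ _ y a₄ (t.2 β) b₂⟩
    have l₂ : L β q'.1 p' := (hq' β).trans cut_L
    refine ⟨q'.1, q'.2 β, l₂, k, u, hu, hBu, fun x hxd s v₂ l₃ => ?_⟩
    obtain ⟨r, ⟨t, h₁⟩, h₂, h₃⟩ := hc (Sum.inr (d, k, x)) s (v₂.mono hβ)
      ((l₃.trans (l₂.trans l₁)).mono hβ)
    obtain ⟨s', a₁, a₂, a₃⟩ := tot r s v₂ h₂ h₃
    obtain ⟨t', b₁, b₂⟩ := PP.amalg q' a₁ (a₂.trans l₃)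
    obtain ⟨u', c₁, c₂⟩ := dec _ t' ((a₃ _ h₁).mono b₂) t' le_rfl
    obtain ⟨y, hy, rfl⟩ := hx x hxd u' (c₁.trans b₁) t c₂
    exact ⟨s', a₁, a₂, y, hy, a₃ _ h₁⟩

end Pool.Agent.MP_2e2931_gt.Gap

end
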