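import Pool.Agent.MP_2e2931_gt.CDefs
import Pool.Agent.MP_c6cf52_lc.Auto

section

namespace Pool.Agent.MP_2e2931_gt.Gap

open Pool.Agent.MP_c6cf52_lc Pool.Agent.MP_c6cf52_lc.Gen

/-- Nodes `(n, j, c)`. -/
abbrev Nd : Type := ℕ × ℕ × ℕ

variable {P : Type 1} [Preorder P] [OrderTop P]

/-- Certificates exist for every definable set of nodes above `n` with unbounded levels. -/
def GoodInt (g : Gen P) {A : g.M} (Eb : g.Elt A → g.Elt A → Prop)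
    (a : g.Elt A → ℕ → g.Elt A → Nd) : Prop :=
  ∀ (d : g.Elt A) (n : ℕ) (B : ℕ × ℕ → Prop), g.Tm B → (∀ j, ∃ y, j ≤ y.1 ∧ B y) →
    ∃ k m, ∀ x, Eb d x → (a d k x).1 = n ∧ B (a d k x).2 ∧ (a d k x).2.1 < m ∧ (a d k x).2.2 < m

/-- Membership of `x` in the cluster with node `t` and separation data `L`. -/
def InU {T : Type*} (π : T → ℕ → ℕ) (a : T → ℕ → T → Nd) (d : T) (t : Nd) (L : Set (Nd × ℕ))
    (x : T) : Prop :=
  π x 0 = t.1 ∧ π x (t.2.1 + 1) = t.2.2 ∧ ∀ y ∈ L, ∃ k < y.2, a d k x = y.1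

/-- The combinatorial package that holds in the generic model. -/
structure Comb (g : Gen P) (A : g.M) where
  Eb : g.Elt A → g.Elt A → Prop
  sg : g.Elt A → ℕ → ℕ
  en : g.Elt A → g.Elt A → ℕ
  tmE : g.Tm fun z : g.Elt A × g.Elt A => Eb z.1 z.2
  tmS : g.Tm fun z : g.Elt A × ℕ => sg z.1 z.2
  tmN : g.Tm fun z : g.Elt A × g.Elt A => en z.1 z.2
  ad : ∀ d d', d ≠ d' → {x | Eb d x ∧ Eb d' x}.Finite
  wf : ∀ d (s : ℕ → ℕ), ∃ k, {x | Eb d x ∧ ∀ j < k, sg x j = s j}.Finite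
  inj : ∀ d x y, Eb d x → Eb d y → en d x = en d y → x = y
  two : ∀ F : ℕ → g.Elt A → ℕ, g.Tm (fun z : ℕ × g.Elt A => F z.1 z.2) →
    ∃ d, ∀ k, ∃ v, {x | Eb d x ∧ F k x = v}.Infinite
  three : ∀ (π : g.Elt A → ℕ → ℕ) (a : g.Elt A → ℕ → g.Elt A → Nd),
    g.Tm (fun z : g.Elt A × ℕ => π z.1 z.2) →
    g.Tm (fun z : g.Elt A × ℕ × g.Elt A => a z.1 z.2.1 z.2.2) → GoodInt g Eb a →
    ∃ φ : g.Elt A → ℕ, g.Tm φ ∧ ∀ d v, ∃ (Fn : Set (g.Elt A)) (Cs : Set Nd)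
      (L : Nd → Set (Nd × ℕ)), Fn.Finite ∧ Cs.Finite ∧
      (∀ x, Eb d x → φ x ≤ v → x ∈ Fn ∨ ∃ t ∈ Cs, InU π a d t (L t) x) ∧
      ∀ t ∈ Cs, ∀ t' ∈ Cs, t ≠ t' → ∃ m, (t', m) ∈ L t ∨ (t, m) ∈ L t'

/-- The isolated points of the space. -/
noncomputable def ptM (g : Gen P) {A : g.M} (x : g.Elt A) : g.M := pr (g.nat 0) x.1

/-- The point at infinity. -/
noncomputable def infM (g : Gen P) : g.M := pr (g.nat 1) (g.nat 0)

/-- The points of the remainder in the tree compactifications. -/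
noncomputable def ndM (g : Gen P) {A : g.M} (d : g.Elt A) (j c : ℕ) : g.M :=
  pr (g.nat 2) (pr d.1 (pr (g.nat j) (g.nat c)))

/-- `(X, S)` is the space with one non isolated point given by the family `Eb`. -/
structure Sp (g : Gen P) {A : g.M} (Eb : g.Elt A → g.Elt A → Prop) (X S : g.M) : Prop where
  mem : ∀ y, g.E y X ↔ y = infM g ∨ ∃ x : g.Elt A, y = ptM g x
  opn : ∀ U, g.E U S ↔ Sub g.E U X ∧ (g.E (infM g) U → ∃ Fn D : Set (g.Elt A), Fn.Finite ∧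
    D.Finite ∧ ∀ x, x ∉ Fn → (∀ d ∈ D, ¬ Eb d x) → g.E (ptM g x) U)

/-- `y` is in the closure of the class `Q` for the topology `T`. -/
def Cl (g : Gen P) (T : g.M) (Q : g.M → Prop) (y : g.M) : Prop :=
  ∀ V, g.E V T → g.E y V → ∃ x, Q x ∧ g.E x V

/-- The image of a class of isolated points. -/
def Img {T M : Type*} (e : T → M) (Q : T → Prop) (y : M) : Prop := ∃ x, Q x ∧ y = e x

/-- What is used about a compactification: `e x` are the isolated points, `i` is infinity. -/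
structure CData (g : Gen P) {A : g.M} (Eb : g.Elt A → g.Elt A → Prop) (K T Y : g.M)
    (e : g.Elt A → g.M) (i : g.M) : Prop where
  ch : IsCH g.E g.om K T
  tm : g.Tm e
  mem : ∀ y, g.E y Y ↔ y = i ∨ ∃ x, y = e x
  eK : ∀ x, g.E (e x) K
  iK : g.E i K
  iso : ∀ x, ∃ V, g.E V T ∧ g.E (e x) V ∧ ¬ g.E i V ∧ ∀ x', g.E (e x') V → x' = x
  nb : ∀ V, g.E V T → g.E i V → ∃ Fn D : Set (g.Elt A), Fn.Finite ∧ D.Finite ∧
    ∀ x, x ∉ Fn → (∀ d ∈ D, ¬ Eb d x) → g.E (e x) V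
  opn : ∀ d, ∃ V, g.E V T ∧ g.E i V ∧ ∀ x, Eb d x → ¬ g.E (e x) V

end Pool.Agent.MP_2e2931_gt.Gap

end

section

namespace Pool.Agent.MP_2e2931_gt.Gap

open Pool.Agent.MP_c6cf52_lc Pool.Agent.MP_c6cf52_lc.Gen

variable {P : Type 1} [Preorder P] [OrderTop P] {g : Gen P} {K T : g.M}

theorem isOmega_om : IsOmega g.E g.om := by
  refine ⟨isOrd_setN Name.natWf natTri g.omega_mem fun _ _ _ _ => trivial, ⟨_, nat_om 0⟩,
    fun x hx => ?_, fun x hx ⟨y, hy⟩ => ?_⟩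
  · obtain ⟨n, rfl⟩ := E_om.1 hx
    exact ⟨_, nat_om (n + 1), nat_lt.2 (Nat.lt_succ_self n)⟩
  · obtain ⟨n, rfl⟩ := E_om.1 hx
    obtain ⟨m, hm, -⟩ := E_nat.1 hy
    refine ⟨g.nat (n - 1), nat_lt.2 (by omega), fun z hz => ?_⟩
    obtain ⟨k, hk, rfl⟩ := E_nat.1 hz
    rw [nat_lt]
    omega

theorem fin_of_inj {n f D : g.M} (hn : g.E n g.om) (hf : IsInj g.E f D n) :
    {x | g.E x D}.Finite := by
  obtain ⟨m, rfl⟩ := E_om.1 hn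
  refine Set.Finite.of_injOn (f := ev g.M g.M f) (t := g.nat '' Set.Iio m) (fun x hx => ?_)
    (fun x hx y hy e => hf.2 _ _ _ (app_ev hf.1 hx) (e ▸ app_ev hf.1 hy))
    ((Set.finite_Iio m).image _)
  obtain ⟨k, hk, e⟩ := E_nat.1 (fun_mem hf.1 (app_ev hf.1 hx)).2
  exact ⟨k, hk, e⟩

@[fun_prop] theorem tm_ptM {Γ : Type*} [Cd g Γ] {A : g.M} {f : Γ → g.Elt A} (hf : g.Tm f) :
    g.Tm fun x => ptM g (f x) := by
  unfold ptM
  fun_prop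

@[fun_prop] theorem tm_Sub {Γ : Type*} [Cd g Γ] {f h : Γ → g.M} (hf : g.Tm f) (hh : g.Tm h) :
    g.Tm fun x => Sub g.E (f x) (h x) := by
  unfold Sub
  fun_prop

@[fun_prop] theorem tm_Clsd {Γ : Type*} [Cd g Γ] {f : Γ → g.M} (hf : g.Tm f) :
    g.Tm fun x => Clsd g.E K T (f x) := by
  unfold Clsd
  fun_prop

theorem tm_Cl {Γ : Type*} [Cd g Γ] {Q : Γ → g.M → Prop} {f : Γ → g.M}
    (hQ : g.Tm fun z : Γ × g.M => Q z.1 z.2) (hf : g.Tm f) :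
    g.Tm fun x => Cl g T (Q x) (f x) := by
  unfold Cl
  have h : g.Tm fun z : (Γ × g.M) × g.M => Q z.1.1 z.2 :=
    tm_comp (f := fun z : (Γ × g.M) × g.M => (z.1.1, z.2)) hQ (by fun_prop)
  refine tm_all (tm_imp (by fun_prop) (tm_imp (by fun_prop) (tm_ex (tm_and h (by fun_prop)))))

theorem ptM_inj {A : g.M} : Function.Injective (ptM g (A := A)) := by
  intro x y h
  exact Subtype.ext (pr_inj.1 h).2

theorem ptM_ne_infM {A : g.M} (x : g.Elt A) : ptM g x ≠ infM g := by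
  intro h
  exact absurd (nat_inj (pr_inj.1 h).1) (by decide)

theorem IsTop.finInter (h : IsTop g.E K T) {D : Set g.M} (hD : D.Finite)
    (hT : ∀ U ∈ D, g.E U T) : ∃ W, g.E W T ∧ ∀ x, g.E x W ↔ g.E x K ∧ ∀ U ∈ D, g.E x U := by
  induction D, hD using Set.Finite.induction_on with
  | empty => exact ⟨K, h.2.1, fun x => by simp⟩
  | @insert a S _ _ ih =>
    obtain ⟨W, h₁, h₂⟩ := ih fun U hU => hT U (Set.mem_insert_of_mem _ hU)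
    obtain ⟨W', h₃, h₄⟩ := h.2.2.2 a W (hT a (Set.mem_insert _ _)) h₁
    refine ⟨W', h₃, fun x => ?_⟩
    rw [h₄, h₂, Set.forall_mem_insert]
    tauto

theorem IsTop.defUnion (h : IsTop g.E K T) {Q : g.M → Prop} (hQ : g.Tm Q) :
    ∃ W, g.E W T ∧ ∀ x, g.E x W ↔ ∃ U, g.E U T ∧ Q U ∧ g.E x U := by
  obtain ⟨S, hS⟩ := tm_sep hQ T
  obtain ⟨W, h₁, h₂⟩ := h.2.2.1 S fun x hx => ((hS x).1 hx).1
  refine ⟨W, h₁, fun x => ?_⟩
  simp only [h₂, hS, and_assoc]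

theorem IsCH.cover (h : IsCH g.E g.om K T) {Q : g.M → Prop} (hQ : g.Tm Q)
    (H : ∀ x, g.E x K → ∃ U, g.E U T ∧ Q U ∧ g.E x U) :
    ∃ D : Set g.M, D.Finite ∧ (∀ U ∈ D, g.E U T ∧ Q U) ∧ ∀ x, g.E x K → ∃ U ∈ D, g.E x U := by
  obtain ⟨C, hC⟩ := tm_sep hQ T
  obtain ⟨D, n, f, h₁, h₂, h₃, h₄⟩ := h.2.2 C (fun x hx => ((hC x).1 hx).1) fun x hx => by
    obtain ⟨U, k₁, k₂, k₃⟩ := H x hx
    exact ⟨U, (hC U).2 ⟨k₁, k₂⟩, k₃⟩
  exact ⟨{x | g.E x D}, fin_of_inj h₂ h₃, fun U hU => (hC U).1 (h₁ U hU), h₄⟩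

theorem Cl.mono {Q R : g.M → Prop} {y : g.M} (h : Cl g T Q y) (H : ∀ x, Q x → R x) :
    Cl g T R y := by
  intro V h₁ h₂
  obtain ⟨x, h₃, h₄⟩ := h V h₁ h₂
  exact ⟨x, H x h₃, h₄⟩

theorem Cl.self {Q : g.M → Prop} {y : g.M} (h : Q y) : Cl g T Q y := by
  exact fun _ _ h₂ => ⟨y, h, h₂⟩

theorem Cl.finUnion (h : IsTop g.E K T) {I : Type*} {s : Set I} (hs : s.Finite)
    {Q : I → g.M → Prop} {y : g.M} (hy : g.E y K) (H : Cl g T (fun x => ∃ i ∈ s, Q i x) y) :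
    ∃ i ∈ s, Cl g T (Q i) y := by
  by_contra hn
  have hn' : ∀ i : s, ∃ V, g.E V T ∧ g.E y V ∧ ∀ x, Q i x → ¬ g.E x V := by
    intro i
    by_contra hc
    refine hn ⟨i, i.2, fun V h₁ h₂ => ?_⟩
    by_contra h₃
    exact hc ⟨V, h₁, h₂, fun x h₄ h₅ => h₃ ⟨x, h₄, h₅⟩⟩
  choose V hV using hn'
  have := hs.to_subtype
  obtain ⟨W, h₁, h₂⟩ := h.finInter (Set.finite_range V) (by rintro _ ⟨i, rfl⟩; exact (hV i).1)
  obtain ⟨x, ⟨i, hi, h₃⟩, h₄⟩ := H W h₁ ((h₂ y).2 ⟨hy, by rintro _ ⟨i, rfl⟩; exact (hV i).2.1⟩)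
  exact (hV ⟨i, hi⟩).2.2 x h₃ (((h₂ x).1 h₄).2 _ ⟨⟨i, hi⟩, rfl⟩)

theorem Cl.or (h : IsTop g.E K T) {Q R : g.M → Prop} {y : g.M}
    (H : Cl g T (fun x => Q x ∨ R x) y) : Cl g T Q y ∨ Cl g T R y := by
  by_contra hn
  obtain ⟨h₁, h₂⟩ := not_or.1 hn
  simp only [Cl, not_forall, not_exists, not_and] at h₁ h₂
  obtain ⟨U, u₁, u₂, u₃⟩ := h₁
  obtain ⟨V, v₁, v₂, v₃⟩ := h₂
  obtain ⟨W, w₁, w₂⟩ := h.2.2.2 U V u₁ v₁
  obtain ⟨x, hx | hx, h₃⟩ := H W w₁ ((w₂ y).2 ⟨u₂, v₂⟩)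
  exacts [u₃ x hx ((w₂ x).1 h₃).1, v₃ x hx ((w₂ x).1 h₃).2]

theorem Cl.finite (h : IsCH g.E g.om K T) {s : Set g.M} (hs : s.Finite) (hK : ∀ x ∈ s, g.E x K)
    {y : g.M} (hy : g.E y K) (H : Cl g T (fun x => x ∈ s) y) : y ∈ s := by
  obtain ⟨i, hi, h₁⟩ := Cl.finUnion h.1 hs (Q := fun i x => x = i) hy
    (H.mono fun x hx => ⟨x, hx, rfl⟩)
  by_contra hn
  obtain ⟨U, V, u, -, h₂, h₃, h₄⟩ := h.2.1 y i hy (hK i hi) (fun e => hn (e ▸ hi))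
  obtain ⟨x, rfl, h₅⟩ := h₁ U u h₂
  exact h₄ x ⟨h₅, h₃⟩

theorem Cl.clsd {B y : g.M} {Q : g.M → Prop} (hB : Clsd g.E K T B) (H : ∀ x, Q x → g.E x B)
    (hy : g.E y K) (h : Cl g T Q y) : g.E y B := by
  obtain ⟨V, h₁, h₂⟩ := hB
  refine (h₂ y).2 ⟨hy, fun h₃ => ?_⟩
  obtain ⟨x, h₄, h₅⟩ := h V h₁ h₃
  exact ((h₂ x).1 (H x h₄)).2 h₅

/-- Closures of a definable family of classes. -/
theorem exists_closure (h : IsTop g.E K T) {Γ : Type*} [Cd g Γ] [Bd g Γ] {Q : Γ → g.M → Prop}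
    (hQ : g.Tm fun z : Γ × g.M => Q z.1 z.2) : ∃ B : Γ → g.M, g.Tm B ∧
      ∀ i, Clsd g.E K T (B i) ∧ ∀ y, g.E y (B i) ↔ g.E y K ∧ Cl g T (Q i) y := by
  have h₁ : g.Tm fun z : (Γ × g.M) × g.M => Cl g T (Q z.1.1) z.2 :=
    tm_Cl (Γ := (Γ × g.M) × g.M) (Q := fun z => Q z.1.1)
      (tm_comp (f := fun z : ((Γ × g.M) × g.M) × g.M => (z.1.1.1, z.2)) hQ (by fun_prop))
      (by fun_prop)
  refine tm_choice (Q := fun i B => Clsd g.E K T B ∧ ∀ y, g.E y B ↔ g.E y K ∧ Cl g T (Q i) y)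
    (tm_and (by fun_prop) (tm_all (tm_iff (by fun_prop) (tm_and (by fun_prop) h₁)))) fun i => ?_
  have h₂ : g.Tm fun z : g.M × g.M => Q i z.2 :=
    tm_comp (f := fun z : g.M × g.M => (i, z.2)) hQ (by fun_prop)
  obtain ⟨V, v₁, v₂⟩ := h.defUnion (Q := fun U => ∀ x, Q i x → ¬ g.E x U)
    (tm_all (tm_imp h₂ (by fun_prop)))
  obtain ⟨B, hB⟩ := tm_sep (Q := fun y => ¬ g.E y V) (by fun_prop) K
  refine ⟨B, ⟨V, v₁, hB⟩, fun y => (hB y).trans (and_congr_right fun _ => ?_)⟩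
  rw [v₂]
  constructor
  · intro h₃ U u₁ u₂
    by_contra h₄
    exact h₃ ⟨U, u₁, fun x h₅ h₆ => h₄ ⟨x, h₅, h₆⟩, u₂⟩
  · rintro h₃ ⟨U, u₁, u₂, u₃⟩
    obtain ⟨x, h₄, h₅⟩ := h₃ U u₁ u₃
    exact u₂ x h₄ h₅

theorem IsCH.regular (h : IsCH g.E g.om K T) {y V : g.M} (hV : g.E V T) (hy : g.E y V) :
    ∃ V', g.E V' T ∧ g.E y V' ∧ ∀ z, g.E z K → Cl g T (fun x => g.E x V') z → g.E z V := by
  have hyK := h.1.1 V hV y hy
  obtain ⟨D, hD, h₁, h₂⟩ := h.cover (Q := fun W => W = V ∨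
      ∃ U, g.E U T ∧ g.E y U ∧ ∀ z, ¬ (g.E z U ∧ g.E z W)) (by fun_prop) fun x hx => by
    by_cases e : y = x
    · exact ⟨V, hV, Or.inl rfl, e ▸ hy⟩
    · obtain ⟨U, W, k₁, k₂, k₃, k₄, k₅⟩ := h.2.1 y x hyK hx e
      exact ⟨W, k₂, Or.inr ⟨U, k₁, k₃, k₅⟩, k₄⟩
  have h₃ : ∀ W : D, ∃ U, g.E U T ∧ g.E y U ∧ (W.1 = V ∨ ∀ z, ¬ (g.E z U ∧ g.E z W.1)) := by
    intro W
    rcases (h₁ W.1 W.2).2 with e | ⟨U, k₁, k₂, k₃⟩
    exacts [⟨V, hV, hy, Or.inl e⟩, ⟨U, k₁, k₂, Or.inr k₃⟩]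
  choose U hU using h₃
  have := hD.to_subtype
  obtain ⟨V', v₁, v₂⟩ := h.1.finInter (Set.finite_range U) (by rintro _ ⟨i, rfl⟩; exact (hU i).1)
  refine ⟨V', v₁, (v₂ y).2 ⟨hyK, by rintro _ ⟨i, rfl⟩; exact (hU i).2.1⟩, fun z hz hc => ?_⟩
  obtain ⟨W, w₁, w₂⟩ := h₂ z hz
  rcases (hU ⟨W, w₁⟩).2.2 with e | k
  · exact e ▸ w₂
  · obtain ⟨x, x₁, x₂⟩ := hc W (h₁ W w₁).1 w₂
    exact absurd ⟨((v₂ x).1 x₁).2 _ ⟨⟨W, w₁⟩, rfl⟩, x₂⟩ (k x)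

end Pool.Agent.MP_2e2931_gt.Gap

end

section

namespace Pool.Agent.MP_2e2931_gt.Gap

open Pool.Agent.MP_c6cf52_lc Pool.Agent.MP_c6cf52_lc.Gen

variable {P : Type 1} [Preorder P] [OrderTop P] {g : Gen P} {K T : g.M}

/-- A countable set of the model has a definable enumeration with a default value. -/
theorem nf_enum {C f : g.M} (hf : IsInj g.E f C g.om) (d : g.M) :
    ∃ e : ℕ → g.M, g.Tm e ∧ (∀ n, g.E (e n) C ∨ e n = d) ∧ ∀ x, g.E x C → ∃ n, e n = x := by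
  obtain ⟨φ, hφ, hi⟩ := ctbl_iff.1 ⟨f, hf⟩
  obtain ⟨e, he, H⟩ := tm_choice (g := g) (Γ := ℕ) (α := g.M)
    (Q := fun n y => (g.E y C ∧ φ y = n) ∨ ((¬ ∃ z, g.E z C ∧ φ z = n) ∧ y = d)) (by fun_prop)
    fun n => by
      by_cases h : ∃ z, g.E z C ∧ φ z = n
      · obtain ⟨z, hz⟩ := h
        exact ⟨z, Or.inl hz⟩
      · exact ⟨d, Or.inr ⟨h, rfl⟩⟩
  refine ⟨e, he, fun n => (H n).imp (fun h => h.1) fun h => h.2, fun x hx => ⟨φ x, ?_⟩⟩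
  rcases H (φ x) with h | h
  · exact hi _ _ h.1 hx h.2
  · exact absurd ⟨x, hx, rfl⟩ h.1

/-- The range of a definable sequence is a countable set of the model. -/
theorem nf_range {e : ℕ → g.M} (he : g.Tm e) :
    ∃ S f, IsInj g.E f S g.om ∧ ∀ y, g.E y S ↔ ∃ n, e n = y := by
  obtain ⟨S, hS⟩ := tm_image (g := g) (Γ := ℕ) (Q := fun _ => True) (by fun_prop) he
  have hS' : ∀ y, g.E y S ↔ ∃ n, e n = y := fun y => by simp [hS]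
  have : Nonempty (g.Elt S) := ⟨⟨e 0, (hS' _).2 ⟨0, rfl⟩⟩⟩
  obtain ⟨k, hk, H⟩ := tm_choice (g := g) (Γ := g.Elt S) (α := ℕ)
    (Q := fun x n => e n = x.1) (by fun_prop) fun x => (hS' _).1 x.2
  obtain ⟨f, hf⟩ := (ctbl_iff (a := S)).2 ⟨fun x => k (un (g.Elt S) x), by fun_prop,
    fun x y hx hy h => by
      have h₁ : un (g.Elt S) x = ⟨x, hx⟩ := un_ι (g := g) (α := g.Elt S) ⟨x, hx⟩
      have h₂ : un (g.Elt S) y = ⟨y, hy⟩ := un_ι (g := g) (α := g.Elt S) ⟨y, hy⟩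
      dsimp only at h
      rw [h₁, h₂] at h
      have h₃ := H ⟨x, hx⟩
      have h₄ := H ⟨y, hy⟩
      rw [h] at h₃
      exact h₃.symm.trans h₄⟩
  exact ⟨S, f, hf, hS'⟩

theorem nf_emp (h : IsTop g.E K T) : ∃ d, Clsd g.E K T d ∧ ∀ y, ¬ g.E y d := by
  obtain ⟨d, hd⟩ := exists_finset (g := g) Set.finite_empty
  have hd' : ∀ y, ¬ g.E y d := fun y hy => (hd y).1 hy
  exact ⟨d, ⟨K, h.2.1, fun y => ⟨fun hy => absurd hy (hd' y), fun hy => absurd hy.1 hy.2⟩⟩, hd'⟩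

theorem nf_top (h : IsTop g.E K T) : Clsd g.E K T K := by
  obtain ⟨d, -, hd⟩ := nf_emp h
  obtain ⟨W, hW, H⟩ := h.2.2.1 d fun x hx => absurd hx (hd x)
  refine ⟨W, hW, fun y => ⟨fun hy => ⟨hy, fun h' => ?_⟩, fun hy => hy.1⟩⟩
  obtain ⟨U, hU, -⟩ := (H y).1 h'
  exact hd U hU

theorem nf_sub {B y : g.M} (hB : Clsd g.E K T B) (hy : g.E y B) : g.E y K := by
  obtain ⟨V, -, H⟩ := hB
  exact ((H y).1 hy).1

theorem nf1 (h : IsTop g.E K T) {B : g.M} (hB : FLe g.E g.om K T 1 B) :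
    ∃ C : ℕ → g.M, g.Tm C ∧ (∀ c, Clsd g.E K T (C c)) ∧ ∀ y, g.E y B ↔ ∃ c, g.E y (C c) := by
  rcases hB with hB | ⟨C, f, hf, hC, H⟩
  · exact ⟨fun _ => B, by fun_prop, fun _ => hB, fun y => by simp⟩
  · obtain ⟨d, hd, hd'⟩ := nf_emp h
    obtain ⟨e, he, h₁, h₂⟩ := nf_enum hf d
    refine ⟨e, he, fun c => ?_, fun y => (H y).trans ⟨?_, ?_⟩⟩
    · rcases h₁ c with h₃ | h₃
      · exact hC _ h₃
      · rw [h₃]; exact hd
    · rintro (⟨-, A, hA, hy⟩ | ⟨h₃, -⟩)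
      · obtain ⟨n, rfl⟩ := h₂ A hA
        exact ⟨n, hy⟩
      · exact absurd h₃ (by decide)
    · rintro ⟨c, hy⟩
      rcases h₁ c with h₃ | h₃
      · exact Or.inl ⟨by decide, _, h₃, hy⟩
      · rw [h₃] at hy
        exact absurd hy (hd' y)

theorem nf2 (h : IsTop g.E K T) {B : g.M} (hB : FLe g.E g.om K T 2 B) :
    ∃ C : ℕ × ℕ → g.M, g.Tm C ∧ (∀ c, Clsd g.E K T (C c)) ∧
      ∀ y, g.E y B ↔ g.E y K ∧ ∀ j, ∃ c, g.E y (C (j, c)) := by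
  rcases hB with hB | ⟨C, f, hf, hC, H⟩
  · obtain ⟨D, hD, h₁, h₂⟩ := nf1 h hB
    refine ⟨fun z => D z.2, by fun_prop, fun z => h₁ _, fun y => (h₂ y).trans ⟨?_, ?_⟩⟩
    · rintro ⟨c, hy⟩
      exact ⟨nf_sub (h₁ c) hy, fun _ => ⟨c, hy⟩⟩
    · exact fun hy => hy.2 0
  · obtain ⟨e, he, h₁, h₂⟩ := nf_enum hf K
    obtain ⟨F, hF, h₃⟩ := tm_choice_fun (g := g) (Γ := ℕ) (α := ℕ) (β := g.M)
      (Q := fun n F => (∀ c, Clsd g.E K T (F c)) ∧ ∀ y, g.E y (e n) ↔ ∃ c, g.E y (F c))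
      (by fun_prop) fun n => by
        refine nf1 h ?_
        rcases h₁ n with h₃ | h₃
        · exact hC _ h₃
        · rw [h₃]; exact Or.inl (nf_top h)
    refine ⟨fun z => F z.1 z.2, hF, fun z => (h₃ _).1 _, fun y => (H y).trans ⟨?_, ?_⟩⟩
    · rintro (⟨h₄, -⟩ | ⟨-, hy, h₄⟩)
      · exact absurd h₄ (by decide)
      · refine ⟨hy, fun j => ((h₃ j).2 y).1 ?_⟩
        rcases h₁ j with h₅ | h₅
        · exact h₄ _ h₅
        · rw [h₅]; exact hy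
    · rintro ⟨hy, h₄⟩
      refine Or.inr ⟨by decide, hy, fun A hA => ?_⟩
      obtain ⟨n, rfl⟩ := h₂ A hA
      exact ((h₃ n).2 y).2 (h₄ n)

theorem nf3 (h : IsTop g.E K T) {B : g.M} (hB : InF g.E g.om K T 3 B) :
    ∃ C : ℕ × ℕ × ℕ → g.M, g.Tm C ∧ (∀ c, Clsd g.E K T (C c)) ∧
      ∀ y, g.E y B ↔ g.E y K ∧ ∃ n, ∀ j, ∃ c, g.E y (C (n, j, c)) := by
  obtain ⟨C, f, hf, hC, H⟩ := hB
  obtain ⟨d, hd, hd'⟩ := nf_emp h
  obtain ⟨e, he, h₁, h₂⟩ := nf_enum hf d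
  obtain ⟨F, hF, h₃⟩ := tm_choice_fun (g := g) (Γ := ℕ) (α := ℕ × ℕ) (β := g.M)
    (Q := fun n F => (∀ c, Clsd g.E K T (F c)) ∧
      ∀ y, g.E y (e n) ↔ g.E y K ∧ ∀ j, ∃ c, g.E y (F (j, c)))
    (by fun_prop) fun n => by
      refine nf2 h ?_
      rcases h₁ n with h₃ | h₃
      · exact hC _ h₃
      · rw [h₃]; exact Or.inl (Or.inl hd)
  refine ⟨fun z => F z.1 z.2, hF, fun z => (h₃ _).1 _, fun y => (H y).trans ⟨?_, ?_⟩⟩
  · rintro (⟨-, A, hA, hy⟩ | ⟨h₄, -⟩)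
    · obtain ⟨n, rfl⟩ := h₂ A hA
      exact ⟨(((h₃ n).2 y).1 hy).1, n, (((h₃ n).2 y).1 hy).2⟩
    · exact absurd h₄ (by decide)
  · rintro ⟨hy, n, h₄⟩
    have h₅ := ((h₃ n).2 y).2 ⟨hy, h₄⟩
    rcases h₁ n with h₆ | h₆
    · exact Or.inl ⟨by decide, _, h₆, h₅⟩
    · rw [h₆] at h₅
      exact absurd h₅ (hd' y)

theorem inF2_of {B : g.M} {C : ℕ × ℕ → g.M} (hC : g.Tm C) (hc : ∀ c, Clsd g.E K T (C c))
    (H : ∀ y, g.E y B ↔ g.E y K ∧ ∀ j, ∃ c, g.E y (C (j, c))) : InF g.E g.om K T 2 B := by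
  obtain ⟨U, hU, h₁⟩ := tm_choice (g := g) (Γ := ℕ) (α := g.M)
    (Q := fun j U => ∀ y, g.E y U ↔ ∃ c, g.E y (C (j, c))) (by fun_prop) fun j => by
      obtain ⟨S, -, -, hS⟩ := nf_range (g := g) (e := fun c => C (j, c)) (by fun_prop)
      obtain ⟨U, hU⟩ := exists_union S
      refine ⟨U, fun y => (hU y).trans ⟨?_, ?_⟩⟩
      · rintro ⟨A, hy, hA⟩
        obtain ⟨c, rfl⟩ := (hS A).1 hA
        exact ⟨c, hy⟩
      · rintro ⟨c, hy⟩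
        exact ⟨_, hy, (hS _).2 ⟨c, rfl⟩⟩
  obtain ⟨S, f, hf, hS⟩ := nf_range hU
  refine ⟨S, f, hf, fun A hA => ?_, fun y => (H y).trans ⟨?_, ?_⟩⟩
  · obtain ⟨j, rfl⟩ := (hS A).1 hA
    obtain ⟨R, f', hf', hR⟩ := nf_range (g := g) (e := fun c => C (j, c)) (by fun_prop)
    refine Or.inr ⟨R, f', hf', fun D hD => ?_, fun y => (h₁ j y).trans ⟨?_, ?_⟩⟩
    · obtain ⟨c, rfl⟩ := (hR D).1 hD
      exact hc _
    · rintro ⟨c, hy⟩
      exact Or.inl ⟨by decide, _, (hR _).2 ⟨c, rfl⟩, hy⟩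
    · rintro (⟨-, D, hD, hy⟩ | ⟨h₂, -⟩)
      · obtain ⟨c, rfl⟩ := (hR D).1 hD
        exact ⟨c, hy⟩
      · exact absurd h₂ (by decide)
  · rintro ⟨hy, h₂⟩
    refine Or.inr ⟨by decide, hy, fun A hA => ?_⟩
    obtain ⟨j, rfl⟩ := (hS A).1 hA
    exact (h₁ j y).2 (h₂ j)
  · rintro (⟨h₂, -⟩ | ⟨-, hy, h₂⟩)
    · exact absurd h₂ (by decide)
    · exact ⟨hy, fun j => (h₁ j y).1 (h₂ _ ((hS _).2 ⟨j, rfl⟩))⟩

end Pool.Agent.MP_2e2931_gt.Gap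

end

section

namespace Pool.Agent.MP_2e2931_gt.Gap

open Pool.Agent.MP_c6cf52_lc Pool.Agent.MP_c6cf52_lc.Gen

variable {P : Type 1} [Preorder P] [OrderTop P] {g : Gen P} {A X S K T Y : g.M}

theorem exists_cdata {Eb : g.Elt A → g.Elt A → Prop}
    (hE : g.Tm fun z : g.Elt A × g.Elt A => Eb z.1 z.2) (hX : Sp g Eb X S)
    (h : IsCpt g.E g.om X S K T Y) : ∃ e i, CData g Eb K T Y e i := by
  obtain ⟨ch, -, e0, he, hY, hS⟩ := h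
  have hi : g.E (infM g) X := (hX.mem _).2 (Or.inl rfl)
  have hp : ∀ x : g.Elt A, g.E (ptM g x) X := fun x => (hX.mem _).2 (Or.inr ⟨x, rfl⟩)
  have ai := app_ev he.1 hi
  have ap := fun x : g.Elt A => app_ev he.1 (hp x)
  refine ⟨fun x => ev g.M g.M e0 (ptM g x), ev g.M g.M e0 (infM g), ch, by fun_prop,
    fun y => ?_, fun x => (fun_mem he.1 (ap x)).2, (fun_mem he.1 ai).2, fun x => ?_,
    fun V hV hiV => ?_, fun d => ?_⟩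
  · rw [hY]
    constructor
    · rintro ⟨x, hx⟩
      rcases (hX.mem x).1 (fun_mem he.1 hx).1 with rfl | ⟨x, rfl⟩
      · exact Or.inl (fun_uniq he.1 hx ai)
      · exact Or.inr ⟨x, fun_uniq he.1 hx (ap x)⟩
    · rintro (rfl | ⟨x, rfl⟩)
      exacts [⟨_, ai⟩, ⟨_, ap x⟩]
  · obtain ⟨U, hU⟩ := exists_finset (g := g) (Set.finite_singleton (ptM g x))
    simp only [Set.mem_singleton_iff] at hU
    have hUS : g.E U S := (hX.opn U).2 ⟨fun y hy => (hU y).1 hy ▸ hp x,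
      fun h => absurd ((hU _).1 h).symm (ptM_ne_infM x)⟩
    obtain ⟨-, V, hV, H⟩ := (hS U).1 hUS
    refine ⟨V, hV, (H _ _ (ap x)).1 ((hU _).2 rfl), fun h => ?_, fun x' h => ?_⟩
    · exact ptM_ne_infM x ((hU _).1 ((H _ _ ai).2 h)).symm
    · exact ptM_inj ((hU _).1 ((H _ _ (ap x')).2 h))
  · obtain ⟨U, hU⟩ := tm_sep (g := g) (Q := fun u => g.E (ev g.M g.M e0 u) V) (by fun_prop) X
    have hUS : g.E U S := (hS U).2 ⟨fun y hy => ((hU y).1 hy).1, V, hV, fun x y hxy => by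
      have hx := (fun_mem he.1 hxy).1
      rw [hU, fun_uniq he.1 hxy (app_ev he.1 hx)]
      exact and_iff_right hx⟩
    obtain ⟨Fn, D, hF, hD, H⟩ := ((hX.opn U).1 hUS).2 ((hU _).2 ⟨hi, hiV⟩)
    exact ⟨Fn, D, hF, hD, fun x hx hd => ((hU _).1 (H x hx hd)).2⟩
  · have hd : g.Tm fun x : g.Elt A => Eb d x :=
      hE.comp (f := fun x : g.Elt A => (d, x)) (by fun_prop)
    have hd' : g.Tm fun z : g.M × g.Elt A => Eb d z.2 := hd.comp (by fun_prop)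
    obtain ⟨U, hU⟩ := tm_sep (g := g) (Q := fun u => ¬ ∃ x : g.Elt A, Eb d x ∧ u = ptM g x)
      (tm_not (tm_ex (tm_and hd' (by fun_prop)))) X
    have hUS : g.E U S := (hX.opn U).2 ⟨fun y hy => ((hU y).1 hy).1, fun _ =>
      ⟨∅, {d}, Set.finite_empty, Set.finite_singleton d, fun x _ hx => (hU _).2 ⟨hp x,
        fun ⟨x', h₁, h₂⟩ => hx d rfl (ptM_inj h₂ ▸ h₁)⟩⟩⟩
    obtain ⟨-, V, hV, H⟩ := (hS U).1 hUS
    refine ⟨V, hV, (H _ _ ai).1 ((hU _).2 ⟨hi, fun ⟨x, _, h⟩ => ptM_ne_infM x h.symm⟩),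
      fun x hx h => ((hU _).1 ((H _ _ (ap x)).2 h)).2 ⟨x, hx, rfl⟩⟩

theorem not_fle1 (Cb : Comb g A) (hX : Sp g Cb.Eb X S) (h : IsCpt g.E g.om X S K T Y) :
    ¬ FLe g.E g.om K T 1 Y := by
  intro hF
  obtain ⟨e, i, cd⟩ := exists_cdata Cb.tmE hX h
  obtain ⟨C, hC, hcl, hY⟩ := nf1 cd.ch.1 hF
  have he := cd.tm
  obtain ⟨F, hFt, hFc⟩ := tm_choice (g := g) (Γ := g.Elt A) (α := ℕ)
    (Q := fun x c => g.E (e x) (C c)) (by fun_prop)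
    fun x => (hY _).1 ((cd.mem _).2 (Or.inr ⟨x, rfl⟩))
  obtain ⟨d, hd⟩ := Cb.two (fun _ x => F x) (by fun_prop)
  obtain ⟨v, hv⟩ := hd 0
  have hd₁ : g.Tm fun x : g.Elt A => Cb.Eb d x :=
    Cb.tmE.comp (f := fun x : g.Elt A => (d, x)) (by fun_prop)
  have hd₂ : g.Tm fun z : g.M × g.Elt A => Cb.Eb d z.2 := hd₁.comp (by fun_prop)
  obtain ⟨D, hD, hDT, hcov⟩ := cd.ch.cover (Q := fun U => (∀ y, g.E y U → ¬ g.E y (C v)) ∨
      (∃ x, ∀ x', g.E (e x') U → x' = x) ∨ ∀ x, Cb.Eb d x → ¬ g.E (e x) U)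
    (tm_or (by fun_prop) (tm_or (by fun_prop) (tm_all (tm_imp hd₂ (by fun_prop))))) fun y hy => by
      by_cases hyC : g.E y (C v)
      · rcases (cd.mem y).1 ((hY y).2 ⟨v, hyC⟩) with rfl | ⟨x, rfl⟩
        · obtain ⟨V, hV, h₁, h₂⟩ := cd.opn d
          exact ⟨V, hV, Or.inr (Or.inr h₂), h₁⟩
        · obtain ⟨V, hV, h₁, -, h₂⟩ := cd.iso x
          exact ⟨V, hV, Or.inr (Or.inl ⟨x, h₂⟩), h₁⟩
      · obtain ⟨V, hV, H⟩ := hcl v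
        refine ⟨V, hV, Or.inl fun z hz hz' => ((H z).1 hz').2 hz, ?_⟩
        by_contra hyV
        exact hyC ((H y).2 ⟨hy, hyV⟩)
  refine hv (Set.Finite.subset (hD.biUnion (t := fun U =>
    {x | (Cb.Eb d x ∧ F x = v) ∧ g.E (e x) U}) fun U hU => ?_) fun x hx => ?_)
  · rcases (hDT U hU).2 with H | ⟨x, H⟩ | H
    · exact Set.finite_empty.subset fun x hx => H _ hx.2 (hx.1.2 ▸ hFc x)
    · exact (Set.finite_singleton x).subset fun x' hx' => H _ hx'.2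
    · exact Set.finite_empty.subset fun x hx => H _ hx.1.1 hx.2
  · obtain ⟨U, hU, hxU⟩ := hcov _ (cd.eK x)
    exact Set.mem_biUnion hU ⟨hx, hxU⟩

theorem not_low (Cb : Comb g A) (hX : Sp g Cb.Eb X S) (h : IsCpt g.E g.om X S K T Y) :
    ¬ InF g.E g.om K T 0 Y ∧ ¬ InF g.E g.om K T 1 Y :=
  ⟨fun H => not_fle1 Cb hX h (Or.inl H), fun H => not_fle1 Cb hX h (Or.inr H)⟩

end Pool.Agent.MP_2e2931_gt.Gap

end

section

namespace Pool.Agent.MP_2e2931_gt.Gap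

open Pool.Agent.MP_c6cf52_lc Pool.Agent.MP_c6cf52_lc.Gen

variable {P : Type 1} [Preorder P] [OrderTop P] {g : Gen P} {A K T Y : g.M}

/-- The node `t` belongs to the finite set coded by `k`. -/
def certIn (k : ℕ) (t : Nd) : Prop := k.testBit (Nat.pair t.1 (Nat.pair t.2.1 t.2.2)) = true

theorem cert_testBit (k i : ℕ) : k.testBit i = true ↔
    ∃ a r, r < (fun m => m + m)^[i] 1 ∧ k = r + (fun m => m + m)^[i] 1 * (1 + 2 * a) := by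
  have e : (fun m => m + m)^[i] 1 = 2 ^ i := by
    induction i with
    | zero => rfl
    | succ i ih => rw [Function.iterate_succ_apply', ih, pow_succ, mul_two]
  rw [e, Nat.testBit_eq_decide_div_mod_eq, decide_eq_true_iff]
  constructor
  · intro h
    refine ⟨k / 2 ^ i / 2, k % 2 ^ i, Nat.mod_lt _ (by positivity), ?_⟩
    rw [← h, Nat.mod_add_div, Nat.mod_add_div]
  · rintro ⟨a, r, h, rfl⟩
    rw [Nat.add_mul_div_left _ _ (by positivity), Nat.div_eq_of_lt h]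
    omega

@[fun_prop] theorem tm_certIn {Γ : Type*} [Cd g Γ] {k : Γ → ℕ} {t : Γ → Nd} (hk : g.Tm k)
    (ht : g.Tm t) : g.Tm fun x => certIn (k x) (t x) := by
  simp only [certIn, cert_testBit]
  fun_prop

theorem exists_certIn {U : Set Nd} (hU : U.Finite) : ∃ k, ∀ t, certIn k t ↔ t ∈ U := by
  induction U, hU using Set.Finite.induction_on with
  | empty => exact ⟨0, fun t => by simp [certIn]⟩
  | @insert a U _ _ ih =>
    obtain ⟨k, hk⟩ := ih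
    refine ⟨2 ^ Nat.pair a.1 (Nat.pair a.2.1 a.2.2) ||| k, fun t => ?_⟩
    rw [Set.mem_insert_iff, ← hk, @eq_comm _ t a]
    simp only [certIn, Nat.testBit_or, Bool.or_eq_true, Nat.testBit_two_pow, decide_eq_true_iff,
      Nat.pair_eq_pair, Prod.ext_iff]

/-- Certificates from compactness. -/
theorem exists_cert {Eb : g.Elt A → g.Elt A → Prop}
    (hE : g.Tm fun z : g.Elt A × g.Elt A => Eb z.1 z.2) {e : g.Elt A → g.M} {i : g.M}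
    (h : CData g Eb K T Y e i) (π : g.Elt A → ℕ → ℕ)
    (hπ : g.Tm fun z : g.Elt A × ℕ => π z.1 z.2) (h₀ : ∀ x j, π x (j + 1) ≠ 0)
    (H : ∀ y n, g.E y K → (∀ j, ∃ j' c, j ≤ j' ∧
      Cl g T (Img e fun x => π x 0 = n ∧ π x (j' + 1) = c) y) → g.E y Y) :
    ∃ a : g.Elt A → ℕ → g.Elt A → Nd,
      g.Tm (fun z : g.Elt A × ℕ × g.Elt A => a z.1 z.2.1 z.2.2) ∧ GoodInt g Eb a ∧
      ∀ d k (t : Nd) y, g.E y K →
        Cl g T (Img e fun x => π x 0 = t.1 ∧ π x (t.2.1 + 1) = t.2.2) y →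
        Cl g T (Img e fun x => Eb d x ∧ a d k x = t) y → g.E y Y := by
  have he := h.tm
  let D : Nd → g.M → Prop := fun t => Img e fun x => π x 0 = t.1 ∧ π x (t.2.1 + 1) = t.2.2
  let Sf : g.Elt A → (g.Elt A → Nd) → Prop := fun d f => ∀ (t : Nd) y, g.E y K → Cl g T (D t) y →
    Cl g T (Img e fun x => Eb d x ∧ f x = t) y → g.E y Y
  let Rg : g.Elt A → ℕ → (g.Elt A → Nd) → Prop := fun d k f => ∀ x, Eb d x → certIn k (f x)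
  obtain ⟨F, hF, hQ⟩ := tm_choice_fun (g := g) (Γ := g.Elt A × ℕ)
    (Q := fun p (f : g.Elt A → Nd) => Sf p.1 f ∧
      ((∃ s : g.M, Sf p.1 (ev _ _ s) ∧ Rg p.1 p.2 (ev _ _ s)) → Rg p.1 p.2 f))
    (by simp only [Sf, Rg, D, Cl, Img]; fun_prop) fun p => by
      by_cases hs : ∃ s : g.M, Sf p.1 (ev _ _ s) ∧ Rg p.1 p.2 (ev _ _ s)
      · obtain ⟨s, h1, h2⟩ := hs
        exact ⟨ev _ _ s, by fun_prop, h1, fun _ => h2⟩
      · refine ⟨fun _ => (0, 0, 0), by fun_prop, fun t y hy h1 h2 => ?_, fun h => absurd h hs⟩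
        obtain ⟨_, ⟨x, ⟨-, rfl⟩, -⟩, -⟩ := h2 K h.ch.1.2.1 hy
        obtain ⟨_, ⟨x, ⟨-, h3⟩, -⟩, -⟩ := h1 K h.ch.1.2.1 hy
        exact absurd h3 (h₀ x 0)
  refine ⟨fun d k => F (d, k), by fun_prop, fun d n B hB unb => ?_, fun d k => (hQ (d, k)).1⟩
  let C : g.M → Nd → Prop := fun V t => ∀ z, g.E z K → Cl g T (fun x => g.E x V) z →
    ¬ Cl g T (D t) z
  have hC : g.Tm fun z : g.M × Nd => C z.1 z.2 := by simp only [C, D, Cl, Img]; fun_prop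
  obtain ⟨W, hW, hW1, hW2⟩ := h.ch.cover (Q := fun V => (∃ x₀, ∀ x, g.E (e x) V → x = x₀) ∨
      (∀ x, Eb d x → ¬ g.E (e x) V) ∨ ∃ y, B y ∧ C V (n, y)) (by fun_prop) fun z hz => by
    by_cases hzY : g.E z Y
    · rcases (h.mem z).1 hzY with rfl | ⟨x, rfl⟩
      · obtain ⟨V, h1, h2, h3⟩ := h.opn d
        exact ⟨V, h1, Or.inr (Or.inl h3), h2⟩
      · obtain ⟨V, h1, h2, -, h3⟩ := h.iso x
        exact ⟨V, h1, Or.inl ⟨x, h3⟩, h2⟩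
    · obtain ⟨j, hj⟩ := not_forall.1 (mt (H z n hz) hzY)
      obtain ⟨y, h1, h2⟩ := unb j
      have h3 : ¬ Cl g T (D (n, y)) z := fun h3 => hj ⟨y.1, y.2, h1, h3⟩
      simp only [Cl, not_forall] at h3
      obtain ⟨V, h4, h5, h6⟩ := h3
      obtain ⟨V', h7, h8, h9⟩ := h.ch.regular h4 h5
      exact ⟨V', h7, Or.inr (Or.inr ⟨y, h2, fun w hw h10 h11 => h6 (h11 V h4 (h9 w hw h10))⟩), h8⟩
  obtain ⟨y₀, -, hy₀⟩ := unb 0
  have hl : ∀ V, ∃ y, B y ∧ ((∃ y, B y ∧ C V (n, y)) → C V (n, y)) := fun V => by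
    by_cases hV : ∃ y, B y ∧ C V (n, y)
    · obtain ⟨y, h1, h2⟩ := hV
      exact ⟨y, h1, fun _ => h2⟩
    · exact ⟨y₀, hy₀, fun h => absurd h hV⟩
  choose lab hl1 hl2 using hl
  have hU : (insert (n, y₀) ((fun V => (n, lab V)) '' W) : Set Nd).Finite := (hW.image _).insert _
  obtain ⟨k, hk⟩ := exists_certIn hU
  obtain ⟨m, hm⟩ := (hU.image fun t => t.2.1 + t.2.2).bddAbove
  obtain ⟨s, hs⟩ := exists_finset hW
  obtain ⟨f, hf, hf'⟩ := tm_choice (g := g) (Q := fun (x : g.Elt A) (t : Nd) => certIn k t ∧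
      ((∃ V, g.E V s ∧ g.E (e x) V ∧ ∃ t', certIn k t' ∧ C V t') →
        ∃ V, g.E V s ∧ g.E (e x) V ∧ C V t)) (by fun_prop) fun x => by
    by_cases hx : ∃ V, g.E V s ∧ g.E (e x) V ∧ ∃ t', certIn k t' ∧ C V t'
    · obtain ⟨V, h1, h2, t, h3, h4⟩ := hx
      exact ⟨t, h3, fun _ => ⟨V, h1, h2, h4⟩⟩
    · exact ⟨(n, y₀), (hk _).2 (Set.mem_insert _ _), fun h => absurd h hx⟩
  have hSf : Sf d f := by
    intro t y hy h1 h2
    have hFn : (⋃ V ∈ W, {x | g.E (e x) V ∧ ∀ x', g.E (e x') V → x' = x}).Finite :=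
      hW.biUnion fun V _ => Set.Subsingleton.finite fun x hx x' hx' => hx'.2 x hx.1
    have h3 : Cl g T (fun w => w ∈ e '' (⋃ V ∈ W, {x | g.E (e x) V ∧ ∀ x', g.E (e x') V → x' = x}) ∨
        ∃ V ∈ {V ∈ W | C V t}, g.E w V) y := by
      refine h2.mono ?_
      rintro _ ⟨x, ⟨h3, rfl⟩, rfl⟩
      obtain ⟨V, h4, h5⟩ := hW2 _ (h.eK x)
      rcases (hW1 V h4).2 with ⟨x₀, h6⟩ | h6 | h6
      · exact Or.inl ⟨x, Set.mem_biUnion h4 ⟨h5, fun x' h7 => (h6 x' h7).trans (h6 x h5).symm⟩, rfl⟩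
      · exact absurd h5 (h6 x h3)
      · obtain ⟨V', h7, h8, h9⟩ := (hf' x).2 ⟨V, (hs V).2 h4, h5, _,
          (hk _).2 (Set.mem_insert_of_mem _ ⟨V, h4, rfl⟩), hl2 V h6⟩
        exact Or.inr ⟨V', ⟨(hs V').1 h7, h9⟩, h8⟩
    rcases h3.or h.ch.1 with h4 | h4
    · obtain ⟨x, -, rfl⟩ := h4.finite h.ch (hFn.image e) (by rintro _ ⟨x, -, rfl⟩; exact h.eK x) hy
      exact (h.mem _).2 (Or.inr ⟨x, rfl⟩)
    · obtain ⟨V, h5, h6⟩ := h4.finUnion h.ch.1 (hW.subset fun V hV => hV.1) hy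
      exact absurd h1 (h5.2 y hy h6)
  obtain ⟨c, rfl⟩ := exists_ev hf
  refine ⟨k, m + 1, fun x hx => ?_⟩
  have h1 := (hk _).1 ((hQ (d, k)).2 ⟨c, hSf, fun x _ => (hf' x).1⟩ x hx)
  have h2 : (F (d, k) x).2.1 + (F (d, k) x).2.2 ≤ m := hm ⟨_, h1, rfl⟩
  refine and_assoc.1 ⟨?_, by dsimp only; omega, by dsimp only; omega⟩
  dsimp only
  rcases h1 with h1 | ⟨V, -, h1⟩
  · rw [h1]; exact ⟨rfl, hy₀⟩
  · rw [← h1]; exact ⟨rfl, hl1 V⟩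

end Pool.Agent.MP_2e2931_gt.Gap

end

section

namespace Pool.Agent.MP_2e2931_gt.Gap

open Pool.Agent.MP_c6cf52_lc Pool.Agent.MP_c6cf52_lc.Gen

/-- Cumulative codes. -/
def kCum (a : ℕ) (p : ℕ → ℕ) : ℕ → ℕ
  | 0 => a
  | j + 1 => Nat.pair (kCum a p j) (p j) + 1

theorem kCum_iter (a : ℕ) (p : ℕ → ℕ) (j : ℕ) :
    (fun s : ℕ × ℕ => (s.1 + 1, Nat.pair s.2 (p s.1) + 1))^[j] (0, a) = (j, kCum a p j) := by
  induction j with
  | zero => rfl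
  | succ j ih => rw [Function.iterate_succ_apply', ih]; rfl

theorem kCum_inj {a a' : ℕ} {p p' : ℕ → ℕ} {j : ℕ} (h : kCum a p j = kCum a' p' j) :
    a = a' ∧ ∀ k < j, p k = p' k := by
  induction j with
  | zero => exact ⟨h, fun k hk => absurd hk (Nat.not_lt_zero k)⟩
  | succ j ih =>
    have h' := Nat.pair_eq_pair.1 (Nat.succ_injective h)
    refine ⟨(ih h'.1).1, fun k hk => ?_⟩
    rcases Nat.lt_succ_iff_lt_or_eq.1 hk with hk | rfl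
    exacts [(ih h'.1).2 k hk, h'.2]

variable {P : Type 1} [Preorder P] [OrderTop P] {g : Gen P} {A X S K T Y : g.M}

theorem Cl.kLoc (h : IsTop g.E K T) {Q : g.M → Prop} {y V : g.M} (hV : g.E V T) (hy : g.E y V)
    (H : Cl g T Q y) : Cl g T (fun x => Q x ∧ g.E x V) y := by
  intro U hU hyU
  obtain ⟨W, hW, e⟩ := h.2.2.2 U V hU hV
  obtain ⟨x, hx, hxW⟩ := H W hW ((e y).2 ⟨hyU, hy⟩)
  exact ⟨x, ⟨hx, ((e x).1 hxW).2⟩, ((e x).1 hxW).1⟩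

theorem Cl.kImg_ne (h : IsTop g.E K T) {e : g.Elt A → g.M} {Q : g.Elt A → Prop} {y : g.M}
    (hy : g.E y K) (H : Cl g T (Img e Q) y) : ∃ x, Q x := by
  obtain ⟨_, ⟨x, hx, -⟩, -⟩ := H K h.2.1 hy
  exact ⟨x, hx⟩

theorem Cl.kImg_mono {e : g.Elt A → g.M} {Q R : g.Elt A → Prop} {y : g.M}
    (H : Cl g T (Img e Q) y) (h : ∀ x, Q x → R x) : Cl g T (Img e R) y :=
  H.mono fun _ ⟨x, hx, e⟩ => ⟨x, h x hx, e⟩

theorem Cl.kImg_union (h : IsTop g.E K T) {I : Type*} {s : Set I} (hs : s.Finite)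
    {e : g.Elt A → g.M} {Q : I → g.Elt A → Prop} {y : g.M} (hy : g.E y K)
    (H : Cl g T (Img e fun x => ∃ i ∈ s, Q i x) y) : ∃ i ∈ s, Cl g T (Img e (Q i)) y :=
  Cl.finUnion h hs hy (H.mono fun _ ⟨x, ⟨i, hi, hx⟩, e⟩ => ⟨i, hi, x, hx, e⟩)

theorem Cl.kImg_drop {Eb : g.Elt A → g.Elt A → Prop} {e : g.Elt A → g.M} {i : g.M}
    (h : CData g Eb K T Y e i) {Fn : Set (g.Elt A)} (hF : Fn.Finite) {Q : g.Elt A → Prop}
    {y : g.M} (hy : g.E y K) (hY : ¬ g.E y Y) (H : Cl g T (Img e fun x => x ∈ Fn ∨ Q x) y) :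
    Cl g T (Img e Q) y := by
  have H' : Cl g T (fun z => z ∈ e '' Fn ∨ Img e Q z) y := H.mono fun _ ⟨x, hx, e⟩ =>
    hx.elim (fun hx => Or.inl ⟨x, hx, e.symm⟩) fun hx => Or.inr ⟨x, hx, e⟩
  rcases Cl.or h.ch.1 H' with H₁ | H₁
  · obtain ⟨x, -, rfl⟩ := Cl.finite h.ch (hF.image e) (by
      rintro _ ⟨x, -, rfl⟩
      exact h.eK x) hy H₁
    exact absurd ((h.mem _).2 (Or.inr ⟨x, rfl⟩)) hY
  · exact H₁

theorem kill (Cb : Comb g A) (hX : Sp g Cb.Eb X S) (h : IsCpt g.E g.om X S K T Y)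
    (h₃ : InF g.E g.om K T 3 Y) : InF g.E g.om K T 2 Y := by
  obtain ⟨e, i, cd⟩ := exists_cdata Cb.tmE hX h
  have top := cd.ch.1
  have he := cd.tm
  obtain ⟨C, hC, hcl, hY⟩ := nf3 top h₃
  obtain ⟨p₀, tm₀, hp₀⟩ := tm_choice (g := g) (Γ := g.Elt A) (α := ℕ)
    (Q := fun x n => ∀ j : ℕ, ∃ c : ℕ, g.E (e x) (C (n, j, c))) (by fun_prop)
    fun x => ((hY _).1 ((cd.mem _).2 (Or.inr ⟨x, rfl⟩))).2
  obtain ⟨p₁, tm₁, hp₁⟩ := tm_choice (g := g) (Γ := g.Elt A × ℕ) (α := ℕ)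
    (Q := fun z c => g.E (e z.1) (C (p₀ z.1, z.2, c))) (by fun_prop) fun z => hp₀ z.1 z.2
  let π : g.Elt A → ℕ → ℕ := fun x => kCum (p₀ x) fun j => p₁ (x, j)
  have hπ : g.Tm fun z : g.Elt A × ℕ => π z.1 z.2 := by
    have : g.Tm fun z : g.Elt A × ℕ =>
        ((fun s : ℕ × ℕ => (s.1 + 1, Nat.pair s.2 (p₁ (z.1, s.1)) + 1))^[z.2] (0, p₀ z.1)).2 := by
      fun_prop
    have e' : (fun z : g.Elt A × ℕ => π z.1 z.2) = fun z : g.Elt A × ℕ =>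
        ((fun s : ℕ × ℕ => (s.1 + 1, Nat.pair s.2 (p₁ (z.1, s.1)) + 1))^[z.2] (0, p₀ z.1)).2 :=
      funext fun z => (congrArg Prod.snd (kCum_iter (p₀ z.1) (fun j => p₁ (z.1, j)) z.2)).symm
    rw [e']
    exact this
  have cπ : ∀ x x' j, π x (j + 1) = π x' (j + 1) →
      π x 0 = π x' 0 ∧ ∀ k ≤ j, p₁ (x, k) = p₁ (x', k) := fun x x' j hx =>
    ⟨(kCum_inj hx).1, fun k hk => (kCum_inj hx).2 k (Nat.lt_succ_of_le hk)⟩
  have H : ∀ y n, g.E y K → (∀ j, ∃ j' c, j ≤ j' ∧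
      Cl g T (Img e fun x => π x 0 = n ∧ π x (j' + 1) = c) y) → g.E y Y := by
    intro y n hy hj
    refine (hY y).2 ⟨hy, n, fun j => ?_⟩
    obtain ⟨j', c, hjj, hc⟩ := hj j
    obtain ⟨x₀, h₀, h₁⟩ := Cl.kImg_ne top hy hc
    refine ⟨p₁ (x₀, j), Cl.clsd (hcl _) ?_ hy hc⟩
    rintro _ ⟨x, ⟨hx₀, hx₁⟩, rfl⟩
    have := hp₁ (x, j)
    rw [(cπ x x₀ j' (hx₁.trans h₁.symm)).2 j hjj, show p₀ x = n from hx₀] at this
    exact this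
  obtain ⟨a, ha, good, cert⟩ :=
    exists_cert Cb.tmE cd π hπ (fun x j => Nat.succ_ne_zero _) H
  obtain ⟨φ, hφ, three⟩ := Cb.three π a hπ ha good
  have hπ' : ∀ {Γ : Type 2} [Cd g Γ] {f : Γ → g.Elt A} {k : Γ → ℕ}, g.Tm f → g.Tm k →
      g.Tm fun z => π (f z) (k z) := fun hf hk => Tm.comp₂ hπ hf hk
  obtain ⟨B, hB, hBc⟩ := exists_closure (Γ := ℕ × ℕ) top
    (Q := fun z y => y = i ∨ ∃ x, Nat.pair (φ x) (π x (z.1 + 1)) = z.2 ∧ y = e x) (by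
      refine tm_or (by fun_prop) (tm_ex (tm_and (tm_eq (tm_natPair (by fun_prop)
        (hπ' (by fun_prop) (by fun_prop))) (by fun_prop)) (by fun_prop))))
  refine inF2_of hB (fun c => (hBc c).1) fun y => ⟨fun hy => ?_, fun ⟨hy, hj⟩ => ?_⟩
  · rcases (cd.mem y).1 hy with rfl | ⟨x, rfl⟩
    · exact ⟨cd.iK, fun j => ⟨0, ((hBc _).2 _).2 ⟨cd.iK, Cl.self (Or.inl rfl)⟩⟩⟩
    · exact ⟨cd.eK x, fun j =>
        ⟨Nat.pair (φ x) (π x (j + 1)),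
          ((hBc _).2 _).2 ⟨cd.eK x, Cl.self (Or.inr ⟨x, rfl, rfl⟩)⟩⟩⟩
  by_contra hn
  have hyi : y ≠ i := fun e => hn ((cd.mem y).2 (Or.inl e))
  obtain ⟨V, V', hV, hV', hyV, hiV, dis⟩ := cd.ch.2.1 y i hy cd.iK hyi
  obtain ⟨Fn, D, hFn, hD, hnb⟩ := cd.nb V' hV' hiV
  have step : ∀ j, ∃ d ∈ D, ∃ v,
      Cl g T (Img e fun x => Cb.Eb d x ∧ Nat.pair (φ x) (π x (j + 1)) = v) y := by
    intro j
    obtain ⟨v, hv⟩ := hj j
    have h₁ := Cl.kLoc top hV hyV (((hBc _).2 _).1 hv).2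
    have h₂ : Cl g T (Img e fun x => x ∈ Fn ∨
        ∃ d ∈ D, Cb.Eb d x ∧ Nat.pair (φ x) (π x (j + 1)) = v) y := by
      refine h₁.mono ?_
      rintro z ⟨rfl | ⟨x, hx, rfl⟩, hz⟩
      · exact absurd ⟨hz, hiV⟩ (dis _)
      · refine ⟨x, ?_, rfl⟩
        by_contra hc
        push Not at hc
        exact dis _ ⟨hz, hnb x hc.1 fun d hd hE => hc.2 d hd hE hx⟩
    obtain ⟨d, hd, h₃⟩ := Cl.kImg_union top hD hy (Cl.kImg_drop cd hFn hy hn h₂)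
    exact ⟨d, hd, v, h₃⟩
  obtain ⟨d, hd⟩ : ∃ d, ∀ j, ∃ j', j ≤ j' ∧ ∃ v,
      Cl g T (Img e fun x => Cb.Eb d x ∧ Nat.pair (φ x) (π x (j' + 1)) = v) y := by
    by_contra hc
    push Not at hc
    have : ∀ᶠ j in Filter.atTop, ∀ d ∈ D, ∀ v,
        ¬ Cl g T (Img e fun x => Cb.Eb d x ∧ Nat.pair (φ x) (π x (j + 1)) = v) y :=
      (Filter.eventually_all_finite hD).2 fun d _ => Filter.eventually_atTop.2 (hc d)
    obtain ⟨j, hj⟩ := this.exists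
    obtain ⟨d, hd, v, hv⟩ := step j
    exact hj d hd v hv
  have same : ∀ j j' x₀ x₀',
      Cl g T (Img e fun x => Cb.Eb d x ∧
        Nat.pair (φ x) (π x (j + 1)) = Nat.pair (φ x₀) (π x₀ (j + 1))) y →
      Cl g T (Img e fun x => Cb.Eb d x ∧
        Nat.pair (φ x) (π x (j' + 1)) = Nat.pair (φ x₀') (π x₀' (j' + 1))) y →
      π x₀ 0 = π x₀' 0 := by
    intro j j' x₀ x₀' h₁ h₂
    obtain ⟨Fn', Cs, L, hF', hCs, cov, sep⟩ := three d (max (φ x₀) (φ x₀'))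
    have get : ∀ j x₁, φ x₁ ≤ max (φ x₀) (φ x₀') → Cl g T (Img e fun x => Cb.Eb d x ∧
        Nat.pair (φ x) (π x (j + 1)) = Nat.pair (φ x₁) (π x₁ (j + 1))) y →
        ∃ t ∈ Cs, π x₁ 0 = t.1 ∧ Cl g T (Img e fun x => Cb.Eb d x ∧ InU π a d t (L t) x) y := by
      intro j x₁ hx₁ hc
      have h₃ : Cl g T (Img e fun x => x ∈ Fn' ∨ ∃ t ∈ Cs, (Cb.Eb d x ∧ InU π a d t (L t) x) ∧
          π x (j + 1) = π x₁ (j + 1)) y := hc.kImg_mono fun x hx => by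
        have hx' := Nat.pair_eq_pair.1 hx.2
        rcases cov x hx.1 (hx'.1 ▸ hx₁) with h | ⟨t, ht, h⟩
        exacts [Or.inl h, Or.inr ⟨t, ht, ⟨hx.1, h⟩, hx'.2⟩]
      obtain ⟨t, ht, h₄⟩ := Cl.kImg_union top hCs hy (Cl.kImg_drop cd hF' hy hn h₃)
      obtain ⟨x, hx, hx'⟩ := Cl.kImg_ne top hy h₄
      exact ⟨t, ht, (cπ _ _ _ hx').1.symm.trans hx.2.1, h₄.kImg_mono fun _ h => h.1⟩
    have clash : ∀ t t' m, (t', m) ∈ L t →
        Cl g T (Img e fun x => Cb.Eb d x ∧ InU π a d t (L t) x) y →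
        Cl g T (Img e fun x => Cb.Eb d x ∧ InU π a d t' (L t') x) y → False := by
      intro t t' m hm c₁ c₂
      obtain ⟨k, -, c₃⟩ := Cl.kImg_union (Q := fun k x => Cb.Eb d x ∧ a d k x = t') top
        (Set.finite_lt_nat m) hy (c₁.kImg_mono fun x hx => by
          obtain ⟨k, hk, e⟩ := hx.2.2.2 _ hm
          exact ⟨k, hk, hx.1, e⟩)
      exact hn (cert d k t' y hy (c₂.kImg_mono fun x hx => ⟨hx.2.1, hx.2.2.1⟩) c₃)
    obtain ⟨t, ht, e₁, c₁⟩ := get j x₀ (le_max_left _ _) h₁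
    obtain ⟨t', ht', e₂, c₂⟩ := get j' x₀' (le_max_right _ _) h₂
    by_cases htt : t = t'
    · rw [e₁, e₂, htt]
    · obtain ⟨m, hm | hm⟩ := sep t ht t' ht' htt
      exacts [(clash t t' m hm c₁ c₂).elim, (clash t' t m hm c₂ c₁).elim]
  obtain ⟨j₀, -, v₀, c₀⟩ := hd 0
  obtain ⟨x₀, -, rfl⟩ := Cl.kImg_ne top hy c₀
  refine hn (H y (π x₀ 0) hy fun j => ?_)
  obtain ⟨j', hj', v, c⟩ := hd j
  obtain ⟨x₁, -, rfl⟩ := Cl.kImg_ne top hy c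
  refine ⟨j', π x₁ (j' + 1), hj', c.kImg_mono fun x hx => ?_⟩
  have hx' := (Nat.pair_eq_pair.1 hx.2).2
  exact ⟨(cπ _ _ _ hx').1.trans (same j₀ j' x₀ x₁ c₀ c).symm, hx'⟩

end Pool.Agent.MP_2e2931_gt.Gap

end

section

namespace Pool.Agent.MP_2e2931_gt.Gap

open Pool.Agent.MP_c6cf52_lc Pool.Agent.MP_c6cf52_lc.Gen

variable {P : Type 1} [Preorder P] [OrderTop P] {g : Gen P} {A X S : g.M}

namespace TCptX

theorem exists_union2 (a b : g.M) : ∃ c, ∀ x, g.E x c ↔ g.E x a ∨ g.E x b := by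
  obtain ⟨d, hd⟩ := exists_upair a b
  obtain ⟨U, hU⟩ := exists_union d
  refine ⟨U, fun x => ?_⟩
  simp only [hU, hd]
  constructor
  · rintro ⟨y, h, rfl | rfl⟩
    exacts [Or.inl h, Or.inr h]
  · rintro (h | h)
    exacts [⟨a, h, Or.inl rfl⟩, ⟨b, h, Or.inr rfl⟩]

theorem tm_congr {Γ : Type*} [Cd g Γ] {Q R : Γ → Prop} (h : g.Tm Q) (e : ∀ x, Q x ↔ R x) :
    g.Tm R := (h.df.congr e).tm

theorem code_fin {F : Set (g.Elt A)} (hF : F.Finite) :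
    ∃ s : g.M, (∃ n f, g.E n g.om ∧ IsInj g.E f s n) ∧ ∀ x : g.Elt A, g.E x.1 s ↔ x ∈ F := by
  obtain ⟨n, s, f, h₁, h₂, h₃⟩ := exists_fin (hF.image Subtype.val)
  refine ⟨s, ⟨n, f, h₁, h₃⟩, fun x => (h₂ _).trans ?_⟩
  exact Subtype.val_injective.mem_set_image

/-- Quantification over finite sets is definable. -/
theorem tm_exFin {Γ : Type*} [Cd g Γ] {Q : Γ → Set (g.Elt A) → Prop}
    (h : g.Tm fun z : Γ × g.M => Q z.1 {x | g.E x.1 z.2}) :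
    g.Tm fun z : Γ => ∃ F : Set (g.Elt A), F.Finite ∧ Q z F := by
  have h₁ : g.Tm fun z : Γ × g.M => ∃ n f, g.E n g.om ∧ IsInj g.E f z.2 n := by fun_prop
  refine tm_congr (tm_ex (Q := fun (z : Γ) (s : g.M) => (∃ n f, g.E n g.om ∧ IsInj g.E f s n) ∧
    Q z {x | g.E x.1 s}) (tm_and h₁ h)) fun z => ⟨?_, ?_⟩
  · rintro ⟨s, ⟨n, f, hn, hf⟩, hQ⟩
    exact ⟨_, (fin_of_inj hn hf).preimage Subtype.val_injective.injOn, hQ⟩
  · rintro ⟨F, hF, hQ⟩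
    obtain ⟨s, hs, e⟩ := code_fin hF
    refine ⟨s, hs, ?_⟩
    rwa [show {x : g.Elt A | g.E x.1 s} = F from Set.ext e]

end TCptX

open TCptX in
theorem exists_space {Eb : g.Elt A → g.Elt A → Prop}
    (hE : g.Tm fun z : g.Elt A × g.Elt A => Eb z.1 z.2) :
    ∃ X S, Sp g Eb X S ∧ IsTop g.E X S := by
  obtain ⟨X₀, hX₀⟩ := tm_image (g := g) (Γ := g.Elt A) (Q := fun _ => True) (f := ptM g)
    (by fun_prop) (by fun_prop)
  obtain ⟨I, hI⟩ := exists_upair (infM g) (infM g)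
  obtain ⟨X, hX⟩ := exists_union2 I X₀
  obtain ⟨W, hW⟩ := exists_power X
  have h₁ : g.Tm fun U : g.M => ∃ F : Set (g.Elt A), F.Finite ∧
      ∀ x, x ∉ F → (∀ d ∈ F, ¬ Eb d x) → g.E (ptM g x) U := by
    refine tm_exFin ?_
    simp only [Set.mem_ofPred_eq]
    fun_prop
  obtain ⟨S, hS⟩ := tm_sep (Q := fun U => g.E (infM g) U → ∃ F : Set (g.Elt A), F.Finite ∧
    ∀ x, x ∉ F → (∀ d ∈ F, ¬ Eb d x) → g.E (ptM g x) U) (tm_imp (by fun_prop) h₁) W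
  have mem : ∀ y, g.E y X ↔ y = infM g ∨ ∃ x : g.Elt A, y = ptM g x := fun y => by
    simp only [hX, hI, hX₀, or_self, true_and, eq_comm]
  simp only [hW] at hS
  refine ⟨X, S, ⟨mem, fun U => (hS U).trans (and_congr_right fun _ => imp_congr_right fun _ =>
    ⟨fun ⟨F, hF, h⟩ => ⟨F, F, hF, hF, h⟩, fun ⟨F, D, hF, hD, h⟩ => ⟨F ∪ D, hF.union hD,
      fun x h₂ h₃ => h x (fun h₄ => h₂ (Or.inl h₄)) fun d hd => h₃ d (Or.inr hd)⟩⟩)⟩,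
    fun U hU => ((hS U).1 hU).1, (hS X).2 ⟨fun _ h => h, fun _ =>
      ⟨∅, Set.finite_empty, fun x _ _ => (mem _).2 (Or.inr ⟨x, rfl⟩)⟩⟩, fun C hC => ?_,
    fun U V hU hV => ?_⟩
  · obtain ⟨Z, hZ⟩ := exists_union C
    refine ⟨Z, (hS Z).2 ⟨fun y hy => ?_, fun h => ?_⟩, fun x => by simp only [hZ, and_comm]⟩
    · obtain ⟨U, h₂, h₃⟩ := (hZ y).1 hy
      exact ((hS U).1 (hC U h₃)).1 y h₂
    · obtain ⟨U, h₂, h₃⟩ := (hZ _).1 h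
      obtain ⟨F, hF, h₄⟩ := ((hS U).1 (hC U h₃)).2 h₂
      exact ⟨F, hF, fun x a b => (hZ _).2 ⟨U, h₄ x a b, h₃⟩⟩
  · obtain ⟨Z, hZ⟩ := tm_sep (Q := fun y => g.E y V) (by fun_prop) U
    refine ⟨Z, (hS Z).2 ⟨fun y hy => ((hS U).1 hU).1 y ((hZ y).1 hy).1, fun h => ?_⟩, hZ⟩
    obtain ⟨F, hF, h₂⟩ := ((hS U).1 hU).2 ((hZ _).1 h).1
    obtain ⟨D, hD, h₃⟩ := ((hS V).1 hV).2 ((hZ _).1 h).2
    exact ⟨F ∪ D, hF.union hD, fun x a b => (hZ _).2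
      ⟨h₂ x (fun c => a (Or.inl c)) fun d c => b d (Or.inl c),
        h₃ x (fun c => a (Or.inr c)) fun d c => b d (Or.inr c)⟩⟩

/-- The values at level `j + 1` of the points of the class `(d, j, c)` that satisfy `Q`. -/
def Vals {T : Type*} (Eb : T → T → Prop) (κ : T → T → ℕ → ℕ) (Q : T → Prop) (d : T) (j c : ℕ) :
    Set ℕ := {v | ∃ x, Eb d x ∧ κ d x j = c ∧ Q x ∧ κ d x (j + 1) = v}

namespace TCptX

theorem nd_inj {d d' : g.Elt A} {j c j' c' : ℕ} (h : ndM g d j c = ndM g d' j' c') :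
    d = d' ∧ j = j' ∧ c = c' := by
  unfold ndM at h
  simp only [pr_inj, nat_inj.eq_iff, true_and] at h
  exact ⟨Subtype.ext h.1, h.2⟩

theorem nd_ne_pt (d x : g.Elt A) (j c : ℕ) : ndM g d j c ≠ ptM g x := fun h => by
  unfold ndM ptM at h
  exact absurd (nat_inj (pr_inj.1 h).1) (by omega)

theorem nd_ne_inf (d : g.Elt A) (j c : ℕ) : ndM g d j c ≠ infM g := fun h => by
  unfold ndM infM at h
  exact absurd (nat_inj (pr_inj.1 h).1) (by omega)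

section Defs

variable (Eb : g.Elt A → g.Elt A → Prop) (κ : g.Elt A → g.Elt A → ℕ → ℕ)

/-- The class `(d, j, c)` has infinitely many children. -/
def Esc (d : g.Elt A) (j c : ℕ) : Prop := (Vals Eb κ (fun _ => True) d j c).Infinite

/-- `y` is the point `x` or a node of level at least `j` on its branch. -/
def Wit (d : g.Elt A) (j : ℕ) (x : g.Elt A) (y : g.M) : Prop :=
  Eb d x ∧ (y = ptM g x ∨ ∃ j', j ≤ j' ∧ Esc Eb κ d j' (κ d x j') ∧ y = ndM g d j' (κ d x j'))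

/-- `y` is in the closure of the class `(d, j, c)`. -/
def Inn (d : g.Elt A) (j c : ℕ) (y : g.M) : Prop := ∃ x, κ d x j = c ∧ Wit Eb κ d j x y

/-- The points of the compactification. -/
def InK (y : g.M) : Prop :=
  y = infM g ∨ (∃ x : g.Elt A, y = ptM g x) ∨ ∃ d j c, Esc Eb κ d j c ∧ y = ndM g d j c

/-- The basic neighbourhoods of infinity. -/
def Oi (F : Set (g.Elt A)) (y : g.M) : Prop :=
  InK Eb κ y ∧ ∀ x ∈ F, y ≠ ptM g x ∧ ¬ Inn Eb κ x 0 0 y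

/-- The basic neighbourhoods of a node. -/
def On (d : g.Elt A) (j c m : ℕ) (y : g.M) : Prop :=
  Inn Eb κ d j c y ∧ ∀ c', c' < m → ¬ Inn Eb κ d (j + 1) c' y

/-- Open classes. -/
def Opn (V : g.M → Prop) : Prop :=
  (V (infM g) → ∃ F : Set (g.Elt A), F.Finite ∧ ∀ y, Oi Eb κ F y → V y) ∧
    ∀ d j c, Esc Eb κ d j c → V (ndM g d j c) → ∃ m, ∀ y, On Eb κ d j c m y → V y

/-- The combinatorial hypotheses. -/
structure Hy : Prop where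
  ad : ∀ d d', d ≠ d' → {x | Eb d x ∧ Eb d' x}.Finite
  h₀ : ∀ d x, κ d x 0 = 0
  cum : ∀ d x y j, Eb d x → Eb d y → κ d x (j + 1) = κ d y (j + 1) → κ d x j = κ d y j
  wf : ∀ d (s : ℕ → ℕ), ∃ k, {x | Eb d x ∧ ∀ j < k, κ d x j = s j}.Finite

end Defs

variable {Eb : g.Elt A → g.Elt A → Prop} {κ : g.Elt A → g.Elt A → ℕ → ℕ}
  {d d' x x' : g.Elt A} {i j c c' m : ℕ} {y : g.M}

theorem vals_inf {Q : g.Elt A → Prop} : (Vals Eb κ Q d j c).Infinite ↔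
    ∀ m, ∃ x, Eb d x ∧ κ d x j = c ∧ Q x ∧ m < κ d x (j + 1) := by
  rw [Set.infinite_iff_exists_gt]
  exact forall_congr' fun m => ⟨fun ⟨_, ⟨x, h₁, h₂, h₃, rfl⟩, h⟩ => ⟨x, h₁, h₂, h₃, h⟩,
    fun ⟨x, h₁, h₂, h₃, h⟩ => ⟨_, ⟨x, h₁, h₂, h₃, rfl⟩, h⟩⟩

theorem Hy.cum' (H : Hy Eb κ) (hx : Eb d x) (hx' : Eb d x') (hij : i ≤ j)
    (h : κ d x j = κ d x' j) : κ d x i = κ d x' i := by
  induction j, hij using Nat.le_induction with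
  | base => exact h
  | succ n _ ih => exact ih (H.cum _ _ _ _ hx hx' h)

theorem Wit.mono (h : Wit Eb κ d j x y) (hij : i ≤ j) : Wit Eb κ d i x y :=
  ⟨h.1, h.2.imp id fun ⟨k, a, b⟩ => ⟨k, hij.trans a, b⟩⟩

theorem Wit.pt (h : Eb d x) (j : ℕ) : Wit Eb κ d j x (ptM g x) := ⟨h, Or.inl rfl⟩

theorem Wit.nd (h : Eb d x) (e : κ d x j = c) (hE : Esc Eb κ d j c) :
    Wit Eb κ d j x (ndM g d j c) := ⟨h, Or.inr ⟨j, le_rfl, e ▸ hE, e ▸ rfl⟩⟩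

theorem Hy.wit_uniq (H : Hy Eb κ) (h : Wit Eb κ d i x y) (h' : Wit Eb κ d i x' y) :
    κ d x i = κ d x' i := by
  rcases h with ⟨a, rfl | ⟨k, a₁, -, rfl⟩⟩
  · rcases h' with ⟨-, e | ⟨k', -, -, e⟩⟩
    · rw [ptM_inj e]
    · exact absurd e.symm (nd_ne_pt _ _ _ _)
  · rcases h' with ⟨b, e | ⟨k', -, -, e⟩⟩
    · exact absurd e (nd_ne_pt _ _ _ _)
    · obtain ⟨-, rfl, e'⟩ := nd_inj e
      exact H.cum' a b a₁ e'

theorem Hy.inn_iff (H : Hy Eb κ) (h : Wit Eb κ d j x y) (hij : i ≤ j) :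
    Inn Eb κ d i c y ↔ κ d x i = c :=
  ⟨fun ⟨_, e, h'⟩ => (H.wit_uniq (h.mono hij) h').trans e, fun e => ⟨x, e, h.mono hij⟩⟩

theorem inn_pt : Inn Eb κ d j c (ptM g x) ↔ Eb d x ∧ κ d x j = c := by
  refine ⟨?_, fun h => ⟨x, h.2, Wit.pt h.1 j⟩⟩
  rintro ⟨x', e, a, b | ⟨k, -, -, b⟩⟩
  · rw [ptM_inj b]
    exact ⟨a, e⟩
  · exact absurd b.symm (nd_ne_pt _ _ _ _)

theorem not_inn_inf : ¬ Inn Eb κ d j c (infM g) := by
  rintro ⟨x', -, -, b | ⟨k, -, -, b⟩⟩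
  exacts [ptM_ne_infM _ b.symm, nd_ne_inf _ _ _ b.symm]

theorem inn_nd (h : Inn Eb κ d i c (ndM g d' j c')) : d = d' ∧ i ≤ j := by
  obtain ⟨x', -, -, b | ⟨k, a, -, b⟩⟩ := h
  · exact absurd b (nd_ne_pt _ _ _ _)
  · obtain ⟨rfl, rfl, -⟩ := nd_inj b
    exact ⟨rfl, a⟩

theorem Esc.wit (h : Esc Eb κ d j c) : ∃ x, κ d x j = c ∧ Wit Eb κ d j x (ndM g d j c) := by
  obtain ⟨x, h₁, h₂, -⟩ := vals_inf.1 h 0
  exact ⟨x, h₂, Wit.nd h₁ h₂ h⟩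

theorem Inn.inK (h : Inn Eb κ d j c y) : InK Eb κ y := by
  obtain ⟨x, -, -, b | ⟨k, -, a, b⟩⟩ := h
  exacts [Or.inr (Or.inl ⟨x, b⟩), Or.inr (Or.inr ⟨_, _, _, a, b⟩)]

theorem Hy.inn_zero (H : Hy Eb κ) (h : Inn Eb κ d j c y) : Inn Eb κ d 0 0 y :=
  let ⟨x, _, b⟩ := h
  ⟨x, H.h₀ _ _, b.mono (Nat.zero_le _)⟩

/-- Below the level of a node, the points of its class lie in the same classes as the node. -/
theorem Hy.nest (H : Hy Eb κ) (hE : Esc Eb κ d j c) (h : Inn Eb κ d j c y) (hij : i ≤ j) :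
    Inn Eb κ d i c' y ↔ Inn Eb κ d i c' (ndM g d j c) := by
  obtain ⟨x, e, hx⟩ := h
  rw [H.inn_iff hx hij, H.inn_iff (Wit.nd hx.1 e hE) hij]

theorem On.self (hE : Esc Eb κ d j c) : On Eb κ d j c m (ndM g d j c) :=
  ⟨hE.wit, fun _ _ h => absurd (inn_nd h).2 (by omega)⟩

theorem on_pt (h₁ : Eb d x) (h₂ : κ d x j = c) (h₃ : m < κ d x (j + 1)) :
    On Eb κ d j c m (ptM g x) :=
  ⟨inn_pt.2 ⟨h₁, h₂⟩, fun _ a b => by have := (inn_pt.1 b).2; omega⟩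

theorem On.anti {m' : ℕ} (h : On Eb κ d j c m y) (hm : m' ≤ m) : On Eb κ d j c m' y :=
  ⟨h.1, fun c' a => h.2 c' (a.trans_le hm)⟩

theorem Oi.anti {F F' : Set (g.Elt A)} (h : Oi Eb κ F y) (hF : F' ⊆ F) : Oi Eb κ F' y :=
  ⟨h.1, fun x a => h.2 x (hF a)⟩

theorem Hy.opn_On (H : Hy Eb κ) : Opn Eb κ (On Eb κ d j c m) := by
  refine ⟨fun h => absurd h.1 not_inn_inf, fun d' j' c' hE h => ?_⟩
  obtain ⟨rfl, hj⟩ := inn_nd h.1
  rcases hj.eq_or_lt with rfl | hj'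
  · obtain ⟨x, e, hx⟩ := hE.wit
    obtain rfl : c' = c := e.symm.trans ((H.inn_iff hx le_rfl).1 h.1)
    exact ⟨m, fun _ hy => hy⟩
  · exact ⟨0, fun y hy => ⟨(H.nest hE hy.1 hj).2 h.1, fun k a b =>
      h.2 k a ((H.nest hE hy.1 hj').1 b)⟩⟩

/-- A node has a neighbourhood that misses a given finite set of points. -/
theorem on_avoid {B : Set (g.Elt A)} (hB : B.Finite) (d : g.Elt A) (j c : ℕ) :
    ∃ m, ∀ x ∈ B, ¬ On Eb κ d j c m (ptM g x) := by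
  obtain ⟨m, hm⟩ := (hB.image fun x => κ d x (j + 1)).bddAbove
  exact ⟨m + 1, fun x hx h => h.2 _ (Nat.lt_succ_of_le (hm ⟨x, hx, rfl⟩))
    (inn_pt.2 ⟨(inn_pt.1 h.1).1, rfl⟩)⟩

theorem Hy.opn_Oi (H : Hy Eb κ) {F : Set (g.Elt A)} (hF : F.Finite) : Opn Eb κ (Oi Eb κ F) := by
  refine ⟨fun _ => ⟨F, hF, fun _ h => h⟩, fun d j c hE h => ?_⟩
  have hd : ∀ d' ∈ F, d ≠ d' := by
    rintro _ a rfl
    exact (h.2 _ a).2 (H.inn_zero hE.wit)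
  obtain ⟨m, hm⟩ := on_avoid (Eb := Eb) (κ := κ) (hF.union (hF.biUnion
    (t := fun d' => {x | Eb d x ∧ Eb d' x}) fun d' a => H.ad _ _ (hd d' a))) d j c
  refine ⟨m, fun y hy => ⟨hy.1.inK, fun d' a => ⟨?_, fun b => ?_⟩⟩⟩
  · rintro rfl
    exact hm _ (Or.inl a) hy
  · obtain ⟨x, -, a₁, rfl | ⟨k, -, -, rfl⟩⟩ := hy.1
    · exact hm x (Or.inr (Set.mem_biUnion a ⟨a₁, (inn_pt.1 b).1⟩)) hy
    · exact hd _ a (inn_nd b).1.symm

theorem opn_pt : Opn Eb κ (fun y => y = ptM g x) :=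
  ⟨fun h => absurd h.symm (ptM_ne_infM _), fun _ _ _ _ h => absurd h (nd_ne_pt _ _ _ _)⟩

theorem opn_not_pt : Opn Eb κ (fun y => InK Eb κ y ∧ ¬ y = ptM g x) := by
  refine ⟨fun _ => ⟨{x}, Set.finite_singleton _, fun y h => ⟨h.1, (h.2 x rfl).1⟩⟩,
    fun d j c _ _ => ?_⟩
  obtain ⟨m, hm⟩ := on_avoid (Eb := Eb) (κ := κ) (Set.finite_singleton x) d j c
  exact ⟨m, fun y hy => ⟨hy.1.inK, fun e => hm x rfl (e ▸ hy)⟩⟩

theorem Hy.opn_inn (H : Hy Eb κ) : Opn Eb κ (Inn Eb κ d j c) := by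
  have := H.opn_On (d := d) (j := j) (c := c) (m := 0)
  rwa [show On Eb κ d j c 0 = Inn Eb κ d j c from funext fun y => by simp [On]] at this

theorem Hy.opn_not_inn (H : Hy Eb κ) (hE : Esc Eb κ d j c) :
    Opn Eb κ (fun y => InK Eb κ y ∧ ¬ Inn Eb κ d j c y) := by
  refine ⟨fun _ => ⟨{d}, Set.finite_singleton _, fun y h =>
    ⟨h.1, fun a => (h.2 d rfl).2 (H.inn_zero a)⟩⟩, fun d' j' c' hE' h => ?_⟩
  by_cases hd : d = d'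
  · subst hd
    rcases le_or_gt j j' with hj | hj
    · exact ⟨0, fun y hy => ⟨hy.1.inK, fun a => h.2 ((H.nest hE' hy.1 hj).1 a)⟩⟩
    · obtain ⟨x, -, hx⟩ := hE.wit
      exact ⟨κ d x (j' + 1) + 1, fun y hy => ⟨hy.1.inK, fun a => hy.2 _ (Nat.lt_succ_self _)
        ((H.nest hE a hj).2 ((H.inn_iff hx hj).2 rfl))⟩⟩
  · obtain ⟨m, hm⟩ := (H.opn_Oi (Set.finite_singleton d)).2 d' j' c' hE'
      ⟨h.1, by
        rintro _ rfl
        exact ⟨nd_ne_pt _ _ _ _, fun a => hd (inn_nd a).1⟩⟩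
    exact ⟨m, fun y hy => ⟨hy.1.inK, fun a => ((hm y hy).2 d rfl).2 (H.inn_zero a)⟩⟩

section Cover

variable {C : g.M}

/-- The class `Q` is covered by finitely many members of `C`. -/
def Cov (C : g.M) (Q : g.M → Prop) : Prop :=
  ∃ D : Set g.M, D.Finite ∧ (∀ U ∈ D, g.E U C) ∧ ∀ y, Q y → ∃ U ∈ D, g.E y U

theorem Cov.mono {Q R : g.M → Prop} (h : Cov C Q) (e : ∀ y, R y → Q y) : Cov C R :=
  let ⟨D, a, b, c⟩ := h
  ⟨D, a, b, fun y hy => c y (e y hy)⟩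

theorem Cov.one {U : g.M} (h : g.E U C) : Cov C (fun y => g.E y U) :=
  ⟨{U}, Set.finite_singleton _, fun _ e => e ▸ h, fun _ hy => ⟨U, rfl, hy⟩⟩

theorem Cov.or {Q R : g.M → Prop} (h : Cov C Q) (h' : Cov C R) : Cov C (fun y => Q y ∨ R y) := by
  obtain ⟨D, a, b, c⟩ := h
  obtain ⟨D', a', b', c'⟩ := h'
  refine ⟨D ∪ D', a.union a', fun U hU => hU.elim (b U) (b' U), fun y hy => ?_⟩
  rcases hy with hy | hy
  · obtain ⟨U, h₁, h₂⟩ := c y hy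
    exact ⟨U, Or.inl h₁, h₂⟩
  · obtain ⟨U, h₁, h₂⟩ := c' y hy
    exact ⟨U, Or.inr h₁, h₂⟩

theorem Cov.fin {I : Type*} {s : Set I} (hs : s.Finite) {Q : I → g.M → Prop}
    (h : ∀ i ∈ s, Cov C (Q i)) : Cov C (fun y => ∃ i ∈ s, Q i y) := by
  choose! D a b c using h
  refine ⟨⋃ i ∈ s, D i, hs.biUnion a, fun U hU => ?_, fun y ⟨i, hi, hy⟩ => ?_⟩
  · obtain ⟨i, hi, hU⟩ := Set.mem_iUnion₂.1 hU
    exact b i hi U hU
  · obtain ⟨U, h₁, h₂⟩ := c i hi y hy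
    exact ⟨U, Set.mem_biUnion hi h₁, h₂⟩

variable (H : Hy Eb κ) (hC : ∀ U, g.E U C → Opn Eb κ (fun y => g.E y U))
  (cov : ∀ y, InK Eb κ y → ∃ U, g.E U C ∧ g.E y U)

include cov in
theorem cov_pts {B : Set (g.Elt A)} (hB : B.Finite) : Cov C (fun y => ∃ x ∈ B, y = ptM g x) :=
  Cov.fin hB fun x _ => by
    obtain ⟨U, h₁, h₂⟩ := cov _ (Or.inr (Or.inl ⟨x, rfl⟩))
    exact (Cov.one h₁).mono fun y e => e ▸ h₂

include H hC cov in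
theorem cov_step (h : ∀ v ∈ Vals Eb κ (fun _ => True) d j c, Cov C (Inn Eb κ d (j + 1) v)) :
    Cov C (Inn Eb κ d j c) := by
  by_cases hE : Esc Eb κ d j c
  · obtain ⟨U, h₁, h₂⟩ := cov _ (Or.inr (Or.inr ⟨d, j, c, hE, rfl⟩))
    obtain ⟨m, hm⟩ := (hC U h₁).2 d j c hE h₂
    refine ((Cov.one h₁).or (Cov.fin ((Set.finite_lt_nat m).inter_of_right _)
      fun v hv => h v hv.1)).mono fun y hy => ?_
    by_cases a : ∃ v, v < m ∧ Inn Eb κ d (j + 1) v y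
    · obtain ⟨v, a₁, x, e, hx⟩ := a
      exact Or.inr ⟨v, ⟨⟨x, hx.1, (H.inn_iff hx (Nat.le_succ j)).1 hy, trivial, e⟩, a₁⟩, x, e, hx⟩
    · exact Or.inl (hm y ⟨hy, fun v a₁ a₂ => a ⟨v, a₁, a₂⟩⟩)
  · refine (Cov.fin (Set.not_infinite.1 hE) h).mono ?_
    rintro y ⟨x, e, a, b⟩
    refine ⟨_, ⟨x, a, e, trivial, rfl⟩, x, rfl, a, b.imp id fun ⟨k, b₁, b₂⟩ => ⟨k, ?_, b₂⟩⟩
    rcases b₁.eq_or_lt with rfl | b₃
    exacts [absurd (e ▸ b₂.1) hE, b₃]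

include H hC cov in
theorem cov_root (d : g.Elt A) : Cov C (Inn Eb κ d 0 0) := by
  by_contra hn
  have step : ∀ j c, ∃ v, ¬ Cov C (Inn Eb κ d j c) →
      v ∈ Vals Eb κ (fun _ => True) d j c ∧ ¬ Cov C (Inn Eb κ d (j + 1) v) := fun j c => by
    by_contra h
    push Not at h
    exact (h 0).1 (cov_step H hC cov fun v hv => (h v).2 hv)
  choose f hf using step
  let s : ℕ → ℕ := fun n => Nat.rec 0 f n
  have bad : ∀ n, ¬ Cov C (Inn Eb κ d n (s n)) := fun n => by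
    induction n with
    | zero => exact hn
    | succ n ih => exact (hf n (s n) ih).2
  have down : ∀ x, Eb d x → ∀ k, κ d x k = s k → ∀ j < k, κ d x j = s j := by
    intro x hx k
    induction k with
    | zero => exact fun _ j hj => absurd hj (Nat.not_lt_zero _)
    | succ k ih =>
      intro e j hj
      obtain ⟨x', a₁, a₂, -, a₃⟩ := (hf k (s k) (bad k)).1
      have e' : κ d x k = s k := (H.cum d x x' k hx a₁ (e.trans a₃.symm)).trans a₂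
      rcases (Nat.lt_succ_iff.1 hj).eq_or_lt with rfl | hj'
      exacts [e', ih e' j hj']
  obtain ⟨k, hk⟩ := H.wf d s
  refine bad k ((cov_pts cov hk).mono ?_)
  rintro y ⟨x, e, a, rfl | ⟨k', b₁, b₂, -⟩⟩
  · exact ⟨x, ⟨a, down x a k e⟩, rfl⟩
  · refine absurd ((hk.image fun x => κ d x (k' + 1)).subset ?_) b₂
    rintro _ ⟨x', a₁, a₂, -, rfl⟩
    exact ⟨x', ⟨a₁, down x' a₁ k ((H.cum' a₁ a b₁ a₂).trans e)⟩, rfl⟩

include H hC cov in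
theorem cov_all : Cov C (InK Eb κ) := by
  obtain ⟨U, h₁, h₂⟩ := cov _ (Or.inl rfl)
  obtain ⟨F, hF, h⟩ := (hC U h₁).1 h₂
  refine ((Cov.one h₁).or ((cov_pts cov hF).or
    (Cov.fin hF fun d _ => cov_root H hC cov d))).mono fun y hy => ?_
  by_contra a
  push Not at a
  exact a.1 (h y ⟨hy, fun x hx => ⟨a.2.1 x hx, a.2.2 x hx⟩⟩)

end Cover

section Def

variable (hE : g.Tm fun z : g.Elt A × g.Elt A => Eb z.1 z.2)
  (hκ : g.Tm fun z : g.Elt A × g.Elt A × ℕ => κ z.1 z.2.1 z.2.2)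

theorem tm_nd : g.Tm fun z : g.Elt A × ℕ × ℕ => ndM g z.1 z.2.1 z.2.2 := by
  unfold ndM
  fun_prop

include hE hκ

theorem tm_esc : g.Tm fun z : g.Elt A × ℕ × ℕ => Esc Eb κ z.1 z.2.1 z.2.2 := by
  simp only [Esc, vals_inf]
  fun_prop

theorem tm_inn : g.Tm fun z : g.Elt A × ℕ × ℕ × g.M => Inn Eb κ z.1 z.2.1 z.2.2.1 z.2.2.2 := by
  have h₁ := tm_esc hE hκ
  have h₂ := tm_nd (g := g) (A := A)
  unfold Inn Wit
  fun_prop

theorem tm_inK : g.Tm (InK Eb κ) := by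
  have h₁ := tm_esc hE hκ
  have h₂ := tm_nd (g := g) (A := A)
  unfold InK
  fun_prop

theorem tm_on : g.Tm fun z : g.Elt A × ℕ × ℕ × ℕ × g.M =>
    On Eb κ z.1 z.2.1 z.2.2.1 z.2.2.2.1 z.2.2.2.2 := by
  have h₁ := tm_inn hE hκ
  unfold On
  fun_prop

theorem tm_oi : g.Tm fun z : g.M × g.M => Oi Eb κ {x | g.E x.1 z.1} z.2 := by
  have h₁ := tm_inn hE hκ
  have h₂ := tm_inK hE hκ
  simp only [Oi, Set.mem_ofPred_eq]
  fun_prop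

theorem tm_opn : g.Tm fun V : g.M => Opn Eb κ (fun y => g.E y V) := by
  have h₁ := tm_esc hE hκ
  have h₂ := tm_nd (g := g) (A := A)
  have h₃ := tm_on hE hκ
  have h₄ := tm_inn hE hκ
  have h₅ := tm_inK hE hκ
  refine tm_and (tm_imp (by fun_prop) (tm_exFin ?_)) (by fun_prop)
  simp only [Oi, Set.mem_ofPred_eq]
  fun_prop

end Def

end TCptX

open TCptX in
/-- The tree compactification given by `κ`. -/
theorem exists_cpt {Eb : g.Elt A → g.Elt A → Prop}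
    (hE : g.Tm fun z : g.Elt A × g.Elt A => Eb z.1 z.2)
    (ad : ∀ d d', d ≠ d' → {x | Eb d x ∧ Eb d' x}.Finite) (hX : Sp g Eb X S)
    (κ : g.Elt A → g.Elt A → ℕ → ℕ)
    (hκ : g.Tm fun z : g.Elt A × g.Elt A × ℕ => κ z.1 z.2.1 z.2.2)
    (h₀ : ∀ d x, κ d x 0 = 0)
    (cum : ∀ d x y j, Eb d x → Eb d y → κ d x (j + 1) = κ d y (j + 1) → κ d x j = κ d y j)
    (wf : ∀ d (s : ℕ → ℕ), ∃ k, {x | Eb d x ∧ ∀ j < k, κ d x j = s j}.Finite) :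
    ∃ K T, IsCpt g.E g.om X S K T X ∧
      (∀ y, g.E y K ↔ g.E y X ∨
        ∃ d j c, (Vals Eb κ (fun _ => True) d j c).Infinite ∧ y = ndM g d j c) ∧
      ∀ d j c (Q : g.Elt A → Prop), (Vals Eb κ (fun _ => True) d j c).Infinite →
        (Cl g T (fun y => y = infM g ∨ ∃ x, Q x ∧ y = ptM g x) (ndM g d j c) ↔
          (Vals Eb κ Q d j c).Infinite) := by
  have H : Hy Eb κ := ⟨ad, h₀, cum, wf⟩
  have t₁ := tm_esc hE hκ
  have t₂ := tm_nd (g := g) (A := A)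
  have t₃ := tm_on hE hκ
  have t₄ := tm_inn hE hκ
  have t₅ := tm_inK hE hκ
  obtain ⟨N, hN⟩ := tm_image (g := g) (Γ := g.Elt A × ℕ × ℕ) t₁ t₂
  obtain ⟨K, hK'⟩ := exists_union2 X N
  have hK₁ : ∀ y, g.E y K ↔ g.E y X ∨ ∃ d j c, Esc Eb κ d j c ∧ y = ndM g d j c := fun y =>
    (hK' y).trans (or_congr_right ((hN y).trans ⟨fun ⟨z, a, b⟩ => ⟨_, _, _, a, b.symm⟩,
      fun ⟨d, j, c, a, b⟩ => ⟨(d, j, c), a, b.symm⟩⟩))
  have hK : ∀ y, g.E y K ↔ InK Eb κ y := fun y => by rw [hK₁, hX.mem, InK, or_assoc]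
  obtain ⟨W, hW⟩ := exists_power K
  obtain ⟨T, hT⟩ := tm_sep (tm_opn hE hκ) W
  simp only [hW] at hT
  have mk : ∀ Q : g.M → Prop, g.Tm Q → (∀ y, Q y → InK Eb κ y) → Opn Eb κ Q →
      ∃ V, g.E V T ∧ ∀ y, g.E y V ↔ Q y := fun Q a b c => by
    obtain ⟨V, hV⟩ := tm_sep a K
    have e : ∀ y, g.E y V ↔ Q y := fun y =>
      (hV y).trans ⟨fun h => h.2, fun h => ⟨(hK y).2 (b y h), h⟩⟩
    refine ⟨V, (hT V).2 ⟨fun y hy => ((hV y).1 hy).1, ?_⟩, e⟩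
    rwa [show (fun y => g.E y V) = Q from funext fun y => propext (e y)]
  have XK : ∀ y, g.E y X → g.E y K := fun y h => (hK₁ y).2 (Or.inl h)
  have ndX : ∀ d j c, ¬ g.E (ndM g (A := A) d j c) X := fun d j c h =>
    ((hX.mem _).1 h).elim (nd_ne_inf _ _ _) fun ⟨x, e⟩ => nd_ne_pt _ _ _ _ e
  have top : IsTop g.E K T := by
    refine ⟨fun U hU => ((hT U).1 hU).1, (hT K).2 ⟨fun _ h => h, fun _ => ⟨∅, Set.finite_empty,
      fun y h => (hK y).2 h.1⟩, fun d j c _ _ => ⟨0, fun y h => (hK y).2 h.1.inK⟩⟩,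
      fun C hC => ?_, fun U V hU hV => ?_⟩
    · obtain ⟨Z, hZ⟩ := exists_union C
      refine ⟨Z, (hT Z).2 ⟨fun y hy => ?_, fun h => ?_, fun d j c a h => ?_⟩,
        fun x => by simp only [hZ, and_comm]⟩
      · obtain ⟨U, h₂, h₃⟩ := (hZ y).1 hy
        exact ((hT U).1 (hC U h₃)).1 y h₂
      · obtain ⟨U, h₂, h₃⟩ := (hZ _).1 h
        obtain ⟨F, hF, h₄⟩ := ((hT U).1 (hC U h₃)).2.1 h₂
        exact ⟨F, hF, fun y b => (hZ _).2 ⟨U, h₄ y b, h₃⟩⟩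
      · obtain ⟨U, h₂, h₃⟩ := (hZ _).1 h
        obtain ⟨m, h₄⟩ := ((hT U).1 (hC U h₃)).2.2 d j c a h₂
        exact ⟨m, fun y b => (hZ _).2 ⟨U, h₄ y b, h₃⟩⟩
    · obtain ⟨Z, hZ⟩ := tm_sep (Q := fun y => g.E y V) (by fun_prop) U
      refine ⟨Z, (hT Z).2 ⟨fun y hy => ((hT U).1 hU).1 y ((hZ y).1 hy).1, fun h => ?_,
        fun d j c a h => ?_⟩, hZ⟩
      · obtain ⟨F, hF, h₂⟩ := ((hT U).1 hU).2.1 ((hZ _).1 h).1
        obtain ⟨D, hD, h₃⟩ := ((hT V).1 hV).2.1 ((hZ _).1 h).2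
        exact ⟨F ∪ D, hF.union hD, fun y b => (hZ _).2
          ⟨h₂ y (b.anti Set.subset_union_left), h₃ y (b.anti Set.subset_union_right)⟩⟩
      · obtain ⟨m, h₂⟩ := ((hT U).1 hU).2.2 d j c a ((hZ _).1 h).1
        obtain ⟨m', h₃⟩ := ((hT V).1 hV).2.2 d j c a ((hZ _).1 h).2
        exact ⟨max m m', fun y b => (hZ _).2
          ⟨h₂ y (b.anti (le_max_left _ _)), h₃ y (b.anti (le_max_right _ _))⟩⟩
  have sep : ∀ (Q : g.M → Prop) (x y : g.M), g.Tm Q → (∀ y, Q y → InK Eb κ y) → Opn Eb κ Q →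
      Opn Eb κ (fun y => InK Eb κ y ∧ ¬ Q y) → Q x → InK Eb κ y → ¬ Q y →
      (∃ U V, g.E U T ∧ g.E V T ∧ g.E x U ∧ g.E y V ∧ ∀ z, ¬ (g.E z U ∧ g.E z V)) ∧
        ∃ U V, g.E U T ∧ g.E V T ∧ g.E y U ∧ g.E x V ∧ ∀ z, ¬ (g.E z U ∧ g.E z V) := by
    intro Q x y a₁ a₂ a₃ a₄ a₅ a₆ a₇
    obtain ⟨U, hU, eU⟩ := mk Q a₁ a₂ a₃
    obtain ⟨V, hV, eV⟩ := mk _ (tm_and t₅ (tm_not a₁)) (fun _ h => h.1) a₄
    exact ⟨⟨U, V, hU, hV, (eU _).2 a₅, (eV _).2 ⟨a₆, a₇⟩,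
      fun z h => ((eV z).1 h.2).2 ((eU z).1 h.1)⟩, V, U, hV, hU, (eV _).2 ⟨a₆, a₇⟩, (eU _).2 a₅,
      fun z h => ((eV z).1 h.1).2 ((eU z).1 h.2)⟩
  have sepP := fun (x : g.Elt A) (y : g.M) => sep (fun y => y = ptM g x) (ptM g x) y
    (by fun_prop) (fun _ h => Or.inr (Or.inl ⟨x, h⟩)) opn_pt opn_not_pt rfl
  have sepN := fun d j c (h : Esc Eb κ d j c) (y : g.M) => sep (Inn Eb κ d j c) (ndM g d j c) y
    (by fun_prop) (fun _ h => h.inK) H.opn_inn (H.opn_not_inn h) h.wit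
  have sepNN : ∀ d j c d' j' c', Esc Eb κ d' j' c' → j' ≤ j → ndM g d j c ≠ ndM g d' j' c' →
      ¬ Inn Eb κ d j c (ndM g d' j' c') := fun d j c d' j' c' a b e h => by
    obtain ⟨rfl, h₁⟩ := inn_nd h
    obtain rfl := le_antisymm b h₁
    obtain ⟨x, e', hx⟩ := a.wit
    exact e (by rw [← e', (H.inn_iff hx le_rfl).1 h])
  obtain ⟨e, he⟩ := tm_image (Γ := g.Elt X) (Q := fun _ => True) (f := fun x => pr x.1 x.1)
    (by fun_prop) (by fun_prop)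
  have he' : ∀ p, g.E p e ↔ ∃ x, g.E x X ∧ pr x x = p := fun p =>
    (he p).trans ⟨fun ⟨x, _, e⟩ => ⟨x.1, x.2, e⟩, fun ⟨x, hx, e⟩ => ⟨⟨x, hx⟩, trivial, e⟩⟩
  have app : ∀ x y, App g.E e x y ↔ g.E x X ∧ y = x := fun x y => by
    rw [app_iff, he']
    constructor
    · rintro ⟨z, hz, h⟩
      obtain ⟨rfl, rfl⟩ := pr_inj.1 h
      exact ⟨hz, rfl⟩
    · rintro ⟨h, rfl⟩
      exact ⟨y, h, rfl⟩
  refine ⟨K, T, ⟨⟨top, fun x y hx hy hxy => ?_, fun C hC cov => ?_⟩, fun V hV ⟨y, hy⟩ => ?_, e,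
    isInj_of_graph (f := fun x => x) he' XK fun _ _ _ _ h => h, fun y => ?_, fun U => ?_⟩, hK₁,
    fun d j c Q hd => ⟨fun h => ?_, fun h V hV hn => ?_⟩⟩
  · rw [hK] at hx hy
    rcases id hx with rfl | ⟨a, rfl⟩ | ⟨d, j, c, a, rfl⟩
    · rcases id hy with rfl | ⟨b, rfl⟩ | ⟨d, j, c, b, rfl⟩
      exacts [absurd rfl hxy, (sepP b _ hx hxy).2, (sepN d j c b _ hx not_inn_inf).2]
    · exact (sepP a _ hy hxy.symm).1
    · rcases id hy with rfl | ⟨b, rfl⟩ | ⟨d', j', c', b, rfl⟩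
      · exact (sepN d j c a _ hy not_inn_inf).1
      · exact (sepP b _ hx hxy).2
      · rcases le_total j' j with h | h
        · exact (sepN d j c a _ hy (sepNN _ _ _ _ _ _ b h hxy)).1
        · exact (sepN d' j' c' b _ hx (sepNN _ _ _ _ _ _ a h hxy.symm)).2
  · obtain ⟨D, h₁, h₂, h₃⟩ := cov_all H (fun U hU => ((hT U).1 (hC U hU)).2)
      fun y hy => cov y ((hK y).2 hy)
    obtain ⟨n, s, f, a₁, a₂, a₃⟩ := exists_fin h₁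
    refine ⟨s, n, f, fun U hU => h₂ U ((a₂ U).1 hU), a₁, a₃, fun y hy => ?_⟩
    obtain ⟨U, b₁, b₂⟩ := h₃ y ((hK y).1 hy)
    exact ⟨U, (a₂ U).2 b₁, b₂⟩
  · rcases (hK₁ y).1 (((hT V).1 hV).1 y hy) with h | ⟨d, j, c, a, rfl⟩
    · exact ⟨y, h, hy⟩
    · obtain ⟨m, hm⟩ := ((hT V).1 hV).2.2 d j c a hy
      obtain ⟨x, b₁, b₂, -, b₃⟩ := vals_inf.1 a m
      exact ⟨_, (hX.mem _).2 (Or.inr ⟨x, rfl⟩), hm _ (on_pt b₁ b₂ b₃)⟩
  · simp only [app]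
    exact ⟨fun h => ⟨y, h, rfl⟩, fun ⟨x, h, e⟩ => e ▸ h⟩
  · rw [hX.opn]
    refine and_congr_right fun hU => ⟨fun h => ?_, fun ⟨V, hV, h⟩ hi => ?_⟩
    · by_cases hi : g.E (infM g) U
      · obtain ⟨F, D, hF, hD, h⟩ := h hi
        obtain ⟨s, -, hs⟩ := code_fin (hF.union hD)
        have e₁ : {x : g.Elt A | g.E x.1 s} = F ∪ D := Set.ext hs
        have t₆ : g.Tm (Oi Eb κ (F ∪ D)) :=
          e₁ ▸ Tm.comp (f := fun y : g.M => (s, y)) (tm_oi hE hκ) (by fun_prop)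
        have o := H.opn_Oi (hF.union hD)
        obtain ⟨V, hV, eV⟩ := mk (fun y => g.E y U ∨ Oi Eb κ (F ∪ D) y)
          (tm_or (by fun_prop) t₆) (fun y hy => hy.elim (fun a => (hK y).1 (XK y (hU y a)))
            fun a => a.1) ⟨fun _ => ⟨_, hF.union hD, fun y a => Or.inr a⟩, fun d j c a b => by
              obtain ⟨m, hm⟩ := o.2 d j c a (b.resolve_left fun b' => ndX _ _ _ (hU _ b'))
              exact ⟨m, fun y hy => Or.inr (hm y hy)⟩⟩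
        refine ⟨V, hV, fun x y hxy => ?_⟩
        obtain ⟨hx, rfl⟩ := (app _ _).1 hxy
        refine ⟨fun a => (eV _).2 (Or.inl a), fun a => ((eV _).1 a).elim id fun b => ?_⟩
        rcases (hX.mem _).1 hx with rfl | ⟨x, rfl⟩
        · exact hi
        · exact h x (fun c => (b.2 x (Or.inl c)).1 rfl) fun d c c' =>
            (b.2 d (Or.inr c)).2 (inn_pt.2 ⟨c', h₀ _ _⟩)
      · refine ⟨U, (hT U).2 ⟨fun y hy => XK y (hU y hy), fun a => absurd a hi,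
          fun d j c _ b => absurd (hU _ b) (ndX _ _ _)⟩, fun x y hxy => ?_⟩
        rw [((app _ _).1 hxy).2]
    · have iX : g.E (infM g) X := (hX.mem _).2 (Or.inl rfl)
      obtain ⟨F, hF, hF'⟩ := ((hT V).1 hV).2.1 ((h _ _ ((app _ _).2 ⟨iX, rfl⟩)).1 hi)
      refine ⟨F, F, hF, hF, fun x a b => ?_⟩
      refine (h _ _ ((app _ _).2 ⟨(hX.mem _).2 (Or.inr ⟨x, rfl⟩), rfl⟩)).2
        (hF' _ ⟨Or.inr (Or.inl ⟨x, rfl⟩), fun d c => ⟨fun e' => ?_, fun e' => ?_⟩⟩)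
      exacts [a (ptM_inj e' ▸ c), b d c (inn_pt.1 e').1]
  · refine vals_inf.2 fun m => ?_
    obtain ⟨V, hV, eV⟩ := mk (On Eb κ d j c (m + 1)) (by fun_prop) (fun _ a => a.1.inK) H.opn_On
    obtain ⟨y, rfl | ⟨x, a, rfl⟩, b⟩ := h V hV ((eV _).2 (On.self hd))
    · exact absurd ((eV _).1 b).1 not_inn_inf
    · obtain ⟨b₁, b₂⟩ := (eV _).1 b
      obtain ⟨b₃, b₄⟩ := inn_pt.1 b₁
      exact ⟨x, b₃, b₄, a, lt_of_not_ge fun c => b₂ _ (Nat.lt_succ_of_le c) (inn_pt.2 ⟨b₃, rfl⟩)⟩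
  · obtain ⟨m, hm⟩ := ((hT V).1 hV).2.2 d j c hd hn
    obtain ⟨x, b₁, b₂, b₃, b₄⟩ := vals_inf.1 h m
    exact ⟨_, Or.inr ⟨x, b₃, rfl⟩, hm _ (on_pt b₁ b₂ b₄)⟩

end Pool.Agent.MP_2e2931_gt.Gap

end

section

namespace Pool.Agent.MP_2e2931_gt.Gap

open Pool.Agent.MP_c6cf52_lc Pool.Agent.MP_c6cf52_lc.Gen

variable {P : Type 1} [Preorder P] [OrderTop P] {g : Gen P} {A X S : g.M}

/-- Codes of initial segments. -/
def kk (s : ℕ → ℕ) : ℕ → ℕ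
  | 0 => 0
  | j + 1 => Nat.pair (kk s j) (s j)

theorem kk_iter (s : ℕ → ℕ) (j : ℕ) :
    (fun p : ℕ × ℕ => (p.1 + 1, Nat.pair p.2 (s p.1)))^[j] (0, 0) = (j, kk s j) := by
  induction j with
  | zero => rfl
  | succ j ih => rw [Function.iterate_succ_apply', ih]; rfl

theorem tm_kk {Γ : Type*} [Cd g Γ] {s : Γ → ℕ → ℕ} (hs : g.Tm fun z : Γ × ℕ => s z.1 z.2) :
    g.Tm fun z : Γ × ℕ => kk (s z.1) z.2 := by
  have : g.Tm fun z : Γ × ℕ =>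
      ((fun p : ℕ × ℕ => (p.1 + 1, Nat.pair p.2 (s z.1 p.1)))^[z.2] (0, 0)).2 := by fun_prop
  simpa only [kk_iter] using this

theorem exists_two (Cb : Comb g A) (hX : Sp g Cb.Eb X S) :
    ∃ K T Y, IsCpt g.E g.om X S K T Y ∧ InF g.E g.om K T 2 Y := by
  have hk := tm_kk (s := Cb.sg) Cb.tmS
  obtain ⟨K, T, h, hK, hC⟩ := exists_cpt Cb.tmE Cb.ad hX (fun _ x j => kk (Cb.sg x) j)
    (hk.comp Tm.snd') (fun _ _ => rfl)
    (fun _ _ _ _ _ _ e => (Nat.pair_eq_pair.1 e).1) (fun d s => by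
      obtain ⟨k, hk⟩ := Cb.wf d fun j => (Nat.unpair (s (j + 1))).2
      refine ⟨k + 1, hk.subset fun x hx => ⟨hx.1, fun j hj => ?_⟩⟩
      have e : Nat.pair (kk (Cb.sg x) j) (Cb.sg x j) = s (j + 1) := hx.2 (j + 1) (by omega)
      simp only [← e, Nat.unpair_pair])
  obtain ⟨B, hB, H⟩ := exists_closure h.1.1 (Γ := ℕ × ℕ)
    (Q := fun i y => y = infM g ∨ ∃ x, kk (Cb.sg x) i.1 = i.2 ∧ y = ptM g x) (by
      have : g.Tm fun z : ((ℕ × ℕ) × g.M) × g.Elt A => kk (Cb.sg z.2) z.1.1.1 :=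
        hk.comp (f := fun z : ((ℕ × ℕ) × g.M) × g.Elt A => (z.2, z.1.1.1)) (by fun_prop)
      exact tm_or (by fun_prop) (tm_ex (tm_and (tm_eq this (by fun_prop)) (by fun_prop))))
  refine ⟨K, T, X, h, inF2_of hB (fun c => (H c).1) fun y => ⟨fun hy => ?_, fun ⟨hy, hj⟩ => ?_⟩⟩
  · have hy' := (hK y).2 (Or.inl hy)
    refine ⟨hy', fun j => ?_⟩
    rcases (hX.mem y).1 hy with e | ⟨x, e⟩
    · exact ⟨0, ((H _).2 y).2 ⟨hy', Cl.self (Or.inl e)⟩⟩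
    · exact ⟨kk (Cb.sg x) j, ((H _).2 y).2 ⟨hy', Cl.self (Or.inr ⟨x, rfl, e⟩)⟩⟩
  · rcases (hK y).1 hy with hy | ⟨d, j, c, hi, rfl⟩
    · exact hy
    · obtain ⟨c', hc⟩ := hj (j + 1)
      refine absurd ((Set.finite_singleton c').subset ?_)
        ((hC d j c (fun x => kk (Cb.sg x) (j + 1) = c') hi).1 (((H _).2 _).1 hc).2)
      rintro v ⟨x, -, -, h₁, h₂⟩
      exact h₂.symm.trans h₁

theorem ndM_ne_infM (d : g.Elt A) (j c : ℕ) : ndM g d j c ≠ infM g := fun e => by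
  have := nat_inj (pr_inj.1 e).1
  omega

theorem ndM_ne_ptM (d x : g.Elt A) (j c : ℕ) : ndM g d j c ≠ ptM g x := fun e => by
  have := nat_inj (pr_inj.1 e).1
  omega

/-- The compactification that adds one point for every infinite member of the family. -/
theorem exists_one (Cb : Comb g A) (hX : Sp g Cb.Eb X S) :
    ∃ K T, IsCpt g.E g.om X S K T X ∧
      (∀ y, g.E y K ↔ g.E y X ∨ ∃ d, {x | Cb.Eb d x}.Infinite ∧ y = ndM g d 0 0) ∧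
      ∀ d (Q : g.Elt A → Prop), {x | Cb.Eb d x}.Infinite →
        (Cl g T (fun y => y = infM g ∨ ∃ x, Q x ∧ y = ptM g x) (ndM g d 0 0) ↔
          {x | Cb.Eb d x ∧ Q x}.Infinite) := by
  have hN := Cb.tmN
  let κ : g.Elt A → g.Elt A → ℕ → ℕ := fun d x j => if j = 0 then 0 else Cb.en d x
  have hv : ∀ d (Q : g.Elt A → Prop),
      (Vals Cb.Eb κ Q d 0 0).Infinite ↔ {x | Cb.Eb d x ∧ Q x}.Infinite := by
    intro d Q
    have e : Vals Cb.Eb κ Q d 0 0 = Cb.en d '' {x | Cb.Eb d x ∧ Q x} := by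
      ext v
      simp [Vals, κ, and_assoc]
    rw [e]
    exact Set.infinite_image_iff fun x hx y hy => Cb.inj d x y hx.1 hy.1
  have hv' : ∀ d, (Vals Cb.Eb κ (fun _ => True) d 0 0).Infinite ↔ {x | Cb.Eb d x}.Infinite := by
    intro d
    simpa using hv d fun _ => True
  obtain ⟨K, T, h, hK, hC⟩ := exists_cpt Cb.tmE Cb.ad hX κ
    (by
      have : g.Tm fun z : g.Elt A × g.Elt A × ℕ => Cb.en z.1 z.2.1 :=
        hN.comp (f := fun z : g.Elt A × g.Elt A × ℕ => (z.1, z.2.1)) (by fun_prop)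
      exact tm_ite (by fun_prop) (by fun_prop) this)
    (fun _ _ => rfl)
    (fun d x y j hx hy e => by rw [Cb.inj d x y hx hy (by simpa [κ] using e)])
    (fun d s => ⟨2, Set.Subsingleton.finite fun x hx y hy => Cb.inj d x y hx.1 hy.1 (by
      simpa [κ] using (hx.2 1 (by omega)).trans (hy.2 1 (by omega)).symm)⟩)
  refine ⟨K, T, h, fun y => (hK y).trans (or_congr_right ⟨?_, ?_⟩), fun d Q hd => ?_⟩
  · rintro ⟨d, j, c, hi, rfl⟩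
    obtain rfl : j = 0 := by
      by_contra hj
      refine hi ((Set.finite_singleton c).subset ?_)
      rintro v ⟨x, -, h₁, -, h₂⟩
      simp only [κ, if_neg hj, Nat.succ_ne_zero, if_false] at h₁ h₂
      exact h₂.symm.trans h₁
    obtain ⟨v, x, -, h₁, -⟩ := hi.nonempty
    obtain rfl : 0 = c := h₁
    exact ⟨d, (hv' d).1 hi, rfl⟩
  · rintro ⟨d, hd, rfl⟩
    exact ⟨d, 0, 0, (hv' d).2 hd, rfl⟩
  · exact (hC d 0 0 Q ((hv' d).2 hd)).trans (hv d Q)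

theorem exists_seq {s₀ : ℕ → ℕ} (hs : g.Tm s₀) : ∃ s, IsFun g.E s g.om g.om ∧
    ∀ a b : ℕ, App g.E s (g.nat a) (g.nat b) → s₀ a = b := by
  obtain ⟨s, h₁, h₂⟩ := exists_graph Df.true hs
  refine ⟨s, ⟨fun p hp => ?_, fun a ha => ?_⟩, fun a b hab => ?_⟩
  · obtain ⟨n, -, rfl⟩ := h₁ p hp
    exact ⟨_, _, nat_om n, nat_om (s₀ n), isPair_pr _ _⟩
  · obtain ⟨n, rfl⟩ := E_om.1 ha
    refine ⟨g.nat (s₀ n), (h₂ _ _).2 ⟨n, trivial, rfl, rfl⟩, fun b hb => ?_⟩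
    obtain ⟨m, -, e₁, e₂⟩ := (h₂ _ _).1 hb
    obtain rfl : n = m := nat_inj e₁
    exact e₂
  · obtain ⟨m, -, e₁, e₂⟩ := (h₂ _ _).1 hab
    obtain rfl : a = m := nat_inj e₁
    exact (nat_inj e₂).symm

theorem exists_high (Cb : Comb g A) (hX : Sp g Cb.Eb X S) :
    ∃ K T Y, IsCpt g.E g.om X S K T Y ∧ Susl g.E g.om K T Y ∧ ¬ InF g.E g.om K T 2 Y := by
  obtain ⟨K, T, h, hK, hC⟩ := exists_one Cb hX
  have hS := Cb.tmS
  refine ⟨K, T, X, h, ?_, fun h₂ => ?_⟩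
  · obtain ⟨R, hR⟩ := exists_pr_bound g.om g.om
    obtain ⟨W, hW⟩ := exists_power R
    obtain ⟨B, hB, H⟩ := exists_closure h.1.1 (Γ := g.Elt W)
      (Q := fun t y => y = infM g ∨ ∃ x, (∀ a b : ℕ, App g.E t.1 (g.nat a) (g.nat b) →
        Cb.sg x a = b) ∧ y = ptM g x) (by
        have : g.Tm fun z : (((g.Elt W × g.M) × g.Elt A) × ℕ) × ℕ => Cb.sg z.1.1.2 z.1.2 :=
          hS.comp (f := fun z : (((g.Elt W × g.M) × g.Elt A) × ℕ) × ℕ => (z.1.1.2, z.1.2))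
            (by fun_prop)
        exact tm_or (by fun_prop) (tm_ex (tm_and (tm_all (tm_all (tm_imp (by fun_prop)
          (tm_eq this (by fun_prop))))) (by fun_prop))))
    obtain ⟨F, -, hF⟩ := exists_graph Df.true hB
    refine ⟨F, fun t B' hb => ?_, fun t B' B'' hb hb' => ?_, fun y => ⟨fun hy => ?_, ?_⟩⟩
    · obtain ⟨t', -, -, rfl⟩ := (hF _ _).1 hb
      exact (H t').1
    · obtain ⟨t', -, rfl, rfl⟩ := (hF _ _).1 hb
      obtain ⟨t'', -, e, rfl⟩ := (hF _ _).1 hb'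
      rw [Cd.inj e]
    · obtain ⟨s₀, hs₀, hy'⟩ : ∃ s₀ : ℕ → ℕ, g.Tm s₀ ∧
          (y = infM g ∨ ∃ x, Cb.sg x = s₀ ∧ y = ptM g x) := by
        rcases (hX.mem y).1 hy with e | ⟨x, e⟩
        · exact ⟨fun _ => 0, by fun_prop, Or.inl e⟩
        · exact ⟨Cb.sg x, hS.comp (f := fun a : ℕ => (x, a)) (by fun_prop), Or.inr ⟨x, rfl, e⟩⟩
      obtain ⟨s, hs, hs'⟩ := exists_seq hs₀
      refine ⟨s, hs, fun k _ => ?_⟩
      obtain ⟨t, ht⟩ := tm_sep (Q := fun p => ∃ a b, g.E a k ∧ p = pr a b) (by fun_prop) s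
      have htW : g.E t W := (hW t).2 fun p hp => by
        obtain ⟨a, b, ha, hb, e⟩ := hs.1 p ((ht p).1 hp).1
        rw [isPair_iff.1 e]
        exact hR a b ha hb
      refine ⟨t, B ⟨t, htW⟩, fun p => by simp only [ht, isPair_iff],
        (hF _ _).2 ⟨⟨t, htW⟩, trivial, rfl, rfl⟩,
        ((H _).2 y).2 ⟨(hK y).2 (Or.inl hy), Cl.self (hy'.imp_right ?_)⟩⟩
      rintro ⟨x, rfl, e⟩
      exact ⟨x, fun a b hab => hs' a b (app_iff.2 ((ht _).1 (app_iff.1 hab)).1), e⟩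
    · rintro ⟨s, hs, hy⟩
      have hyK : g.E y K := by
        obtain ⟨t, B', -, hb, hy'⟩ := hy _ (nat_om 0)
        obtain ⟨t', -, -, rfl⟩ := (hF _ _).1 hb
        exact (((H t').2 y).1 hy').1
      rcases (hK y).1 hyK with hy' | ⟨d, hd, rfl⟩
      · exact hy'
      have ex : ∀ a : ℕ, ∃ b : ℕ, App g.E s (g.nat a) (g.nat b) := fun a => by
        obtain ⟨b, hb, hab⟩ := fun_ex hs (nat_om a)
        obtain ⟨n, rfl⟩ := E_om.1 hb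
        exact ⟨n, hab⟩
      choose s₀ hs₀ using ex
      obtain ⟨k, hk⟩ := Cb.wf d s₀
      obtain ⟨t, B', ht, hb, hy'⟩ := hy _ (nat_om k)
      obtain ⟨t', -, rfl, rfl⟩ := (hF _ _).1 hb
      refine absurd (hk.subset fun x hx => ⟨hx.1, fun j hj => hx.2 j _ ?_⟩)
        ((hC d _ hd).1 (((H t').2 _).1 hy').2)
      exact app_iff.2 ((ht _).2 ⟨app_iff.1 (hs₀ j), _, _, nat_lt.2 hj, isPair_pr _ _⟩)
  · obtain ⟨C, hCt, hCc, H⟩ := nf2 h.1.1 (B := X) (Or.inr h₂)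
    obtain ⟨f, hf, hf'⟩ := tm_choice (Γ := ℕ × g.Elt A) (α := ℕ)
      (Q := fun z c => g.E (ptM g z.2) (C (z.1, c))) (by fun_prop)
      fun z => ((H _).1 ((hX.mem _).2 (Or.inr ⟨z.2, rfl⟩))).2 z.1
    obtain ⟨d, hd⟩ := Cb.two (fun k x => f (k, x)) hf
    have hd' : {x | Cb.Eb d x}.Infinite := by
      obtain ⟨v, hv⟩ := hd 0
      exact hv.mono fun x hx => hx.1
    have hn : g.E (ndM g d 0 0) K := (hK _).2 (Or.inr ⟨d, hd', rfl⟩)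
    have hm : g.E (ndM g d 0 0) X := (H _).2 ⟨hn, fun k => by
      obtain ⟨v, hv⟩ := hd k
      refine ⟨v, ?_⟩
      rcases Cl.or h.1.1 ((hC d _ hd').2 hv) with hc | hc
      · exact absurd (Cl.finite h.1 (Set.finite_singleton (infM g))
          (fun x hx => hx ▸ (hK _).2 (Or.inl ((hX.mem _).2 (Or.inl rfl)))) hn hc)
          (ndM_ne_infM d 0 0)
      · refine Cl.clsd (hCc _) ?_ hn hc
        rintro _ ⟨x, rfl, rfl⟩
        exact hf' (k, x)⟩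
    rcases (hX.mem _).1 hm with e | ⟨x, e⟩
    exacts [ndM_ne_infM d 0 0 e, ndM_ne_ptM d x 0 0 e]

theorem top_main (Cb : Comb g A) : ∃ X S, IsTop g.E X S ∧
    (∃ K T Y, IsCpt g.E g.om X S K T Y ∧ InF g.E g.om K T 2 Y ∧
      ∀ m < 2, ¬ InF g.E g.om K T m Y) ∧
    (∃ K T Y, IsCpt g.E g.om X S K T Y ∧ Susl g.E g.om K T Y ∧
      ∀ m ≤ 3, ¬ InF g.E g.om K T m Y) ∧
    ∀ K T Y, IsCpt g.E g.om X S K T Y → InF g.E g.om K T 3 Y → InF g.E g.om K T 2 Y := by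
  obtain ⟨X, S, hX, ht⟩ := exists_space Cb.tmE
  refine ⟨X, S, ht, ?_, ?_, fun K T Y h => kill Cb hX h⟩
  · obtain ⟨K, T, Y, h, h₂⟩ := exists_two Cb hX
    refine ⟨K, T, Y, h, h₂, fun m hm => ?_⟩
    interval_cases m
    exacts [(not_low Cb hX h).1, (not_low Cb hX h).2]
  · obtain ⟨K, T, Y, h, h₁, h₂⟩ := exists_high Cb hX
    refine ⟨K, T, Y, h, h₁, fun m hm => ?_⟩
    interval_cases m
    exacts [(not_low Cb hX h).1, (not_low Cb hX h).2, h₂, fun h₃ => h₂ (kill Cb hX h h₃)]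

end Pool.Agent.MP_2e2931_gt.Gap

end
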