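import Pool.Agent.Mg.F2e2931.G292fdd
import Pool.Agent.Mg.F2e2931.G47b130

section

namespace Pool.Agent.MP_2e2931_gt.Gap

open Pool.Agent.MP_c6cf52_lc Pool.Agent.MP_c6cf52_lc.Name Pool.Agent.MP_c6cf52_lc.Gen Set

theorem wfW : WellFounded (fun a b : W => a < b) := wellFounded_lt

theorem wfK : WellFounded (fun a b : K => a < b) := wellFounded_lt

noncomputable def o (x : W) : Name PP := ordN wfW x

noncomputable def w1N : Name PP := setN wfW Set.univ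

noncomputable def kN (β : K) : Name PP := ordN wfK β

noncomputable def nN (k : ℕ) : Name PP := ordN natWf ⟨k⟩

noncomputable def omN : Name PP := setN natWf Set.univ

noncomputable def ndN (t : Nn) : Name PP := pairN (nN t.1) (pairN (nN t.2.1) (nN t.2.2))

/-- The ladder system. -/
noncomputable def EN : Name PP :=
  relN (fun z : {z : W × W × PP // z.1 < z.2.2.1.ht ∧ z.2.1 ∈ z.2.2.1.E z.1} => o z.1.1)
    (fun z => o z.1.2.1) (fun z => z.1.2.2)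

/-- The scale. -/
noncomputable def sgN : Name PP :=
  relN (fun z : {z : W × ℕ × PP // z.1 < z.2.2.1.ht} => pairN (o z.1.1) (nN z.1.2.1))
    (fun z => nN (z.1.2.2.1.σ z.1.1 z.1.2.1)) (fun z => z.1.2.2)

/-- The active coordinates. -/
noncomputable def onN : Name PP :=
  Name.mk {z : K × PP // (z.1, Atom.on) ∈ z.2.1.f} (fun z => kN z.1.1) (fun z => z.1.2)

noncomputable def valN : Name PP :=
  relN (fun z : {z : K × W × ℕ × PP // (z.1, Atom.val z.2.1 z.2.2.1) ∈ z.2.2.2.1.f} =>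
    pairN (kN z.1.1) (o z.1.2.1)) (fun z => nN z.1.2.2.1) (fun z => z.1.2.2.2)

noncomputable def bdN : Name PP :=
  relN (fun z : {z : K × W × ℕ × PP // (z.1, Atom.bd z.2.1 z.2.2.1) ∈ z.2.2.2.1.f} =>
    pairN (kN z.1.1) (o z.1.2.1)) (fun z => nN z.1.2.2.1) (fun z => z.1.2.2.2)

noncomputable def piN : Name PP :=
  relN (fun z : {z : K × W × ℕ × ℕ × PP //
      Dec z.1 (bk z.1) z.2.2.2.2.1 (.pi z.2.1 z.2.2.1 z.2.2.2.1)} =>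
    pairN (kN z.1.1) (pairN (o z.1.2.1) (nN z.1.2.2.1))) (fun z => nN z.1.2.2.2.1)
    (fun z => z.1.2.2.2.2)

noncomputable def ceN : Name PP :=
  relN (fun z : {z : K × W × ℕ × W × Nn × PP //
      Dec z.1 (bk z.1) z.2.2.2.2.2.1 (.ce z.2.1 z.2.2.1 z.2.2.2.1 z.2.2.2.2.1)} =>
    pairN (kN z.1.1) (pairN (o z.1.2.1) (pairN (nN z.1.2.2.1) (o z.1.2.2.2.1))))
    (fun z => ndN z.1.2.2.2.2.1) (fun z => z.1.2.2.2.2.2)

/-- The names that the generic model has to contain. -/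
def baseN : Set (Name PP) := {w1N, EN, sgN, onN, valN, bdN, piN, ceN}

/-- The underlying set of isolated points. -/
abbrev TT (g : Gen PP) : Type 2 := g.Elt (g.v w1N)

def EbG (g : Gen PP) (d x : TT g) : Prop := App g.E (g.v EN) d.1 x.1

noncomputable def sgG (g : Gen PP) (x : TT g) (j : ℕ) : ℕ := ev (TT g × ℕ) ℕ (g.v sgN) (x, j)

/-- `x` is the value of the name of the ordinal `a`. -/
def Rep (g : Gen PP) (a : W) (x : TT g) : Prop := o a ∈ g.N ∧ g.v (o a) = x.1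

end Pool.Agent.MP_2e2931_gt.Gap

end

section

namespace Pool.Agent.MP_2e2931_gt.Gap

open Pool.Agent.MP_c6cf52_lc Pool.Agent.MP_c6cf52_lc.Name Pool.Agent.MP_c6cf52_lc.Gen Set

variable {g : Gen PP}

theorem gb_triW (a b : W) : a < b ∨ a = b ∨ b < a := lt_trichotomy a b

theorem gb_triK (a b : K) : a < b ∨ a = b ∨ b < a := lt_trichotomy a b

theorem gb_ct_Iio (x : W) : {y | y < x}.Countable := (W.countable_Iic x).mono Iio_subset_Iic_self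

theorem E_o {a : W} (h : o a ∈ g.N) {x : g.M} :
    g.E x (g.v (o a)) ↔ ∃ y, y < a ∧ o y ∈ g.N ∧ g.v (o y) = x := E_ordN wfW h

theorem E_w1 (h : w1N ∈ g.N) {x : g.M} :
    g.E x (g.v w1N) ↔ ∃ y, o y ∈ g.N ∧ g.v (o y) = x := by
  unfold w1N at h ⊢
  rw [E_setN wfW h]
  simp only [mem_univ, true_and]
  rfl

theorem o_lt {a b : W} (ha : o a ∈ g.N) (hb : o b ∈ g.N) :
    g.E (g.v (o a)) (g.v (o b)) ↔ a < b := ord_lt_iff wfW gb_triW ha hb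

theorem o_inj {a b : W} (ha : o a ∈ g.N) (hb : o b ∈ g.N) (h : g.v (o a) = g.v (o b)) :
    a = b := ord_inj wfW gb_triW ha hb h

theorem o_mem {a b : W} (hb : o b ∈ g.N) (hab : a < b) : o a ∈ g.N :=
  ordN_mem wfW hb (gb_ct_Iio b) hab

theorem o_w1 (h : w1N ∈ g.N) {a : W} (ha : o a ∈ g.N) : g.E (g.v (o a)) (g.v w1N) :=
  (E_w1 h).2 ⟨a, ha, rfl⟩

theorem kN_inj {a b : K} (ha : kN a ∈ g.N) (hb : kN b ∈ g.N) (h : g.v (kN a) = g.v (kN b)) :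
    a = b := ord_inj wfK gb_triK ha hb h

theorem nN_mem (k : ℕ) : nN k ∈ g.N := nat_mem _

theorem omN_mem : omN ∈ g.N := g.omega_mem

theorem v_nN (k : ℕ) : g.v (nN k) = g.nat k := rfl

theorem v_omN : g.v omN = g.om := rfl

theorem ndN_mem (t : Nn) : ndN t ∈ g.N :=
  pairN_mem_iff.2 ⟨nN_mem _, pairN_mem_iff.2 ⟨nN_mem _, nN_mem _⟩⟩

theorem v_ndN (t : Nn) : g.v (ndN t) = Cd.ι t := by
  unfold ndN
  rw [v_pairN (nN_mem _) (pairN_mem_iff.2 ⟨nN_mem _, nN_mem _⟩), v_pairN (nN_mem _) (nN_mem _)]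
  rfl

theorem exists_rep (h : w1N ∈ g.N) (x : TT g) : ∃ a, Rep g a x := by
  obtain ⟨a, ha, e⟩ := (E_w1 h).1 x.2
  exact ⟨a, ha, e⟩

theorem exists_elt (h : w1N ∈ g.N) {a : W} (ha : o a ∈ g.N) : ∃ x, Rep g a x :=
  ⟨⟨_, o_w1 h ha⟩, ha, rfl⟩

theorem Rep.inj {a a' : W} {x x' : TT g} (h : Rep g a x) (h' : Rep g a' x') :
    x = x' ↔ a = a' := by
  constructor
  · rintro rfl
    exact o_inj h.1 h'.1 (h.2.trans h'.2.symm)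
  · rintro rfl
    exact Subtype.ext (h.2.symm.trans h'.2)

theorem app_EN (h : EN ∈ g.N) {s t : g.M} : App g.E (g.v EN) s t ↔
    ∃ d x p, p ∈ g.G ∧ d < p.1.ht ∧ x ∈ p.1.E d ∧ o d ∈ g.N ∧ o x ∈ g.N ∧
      s = g.v (o d) ∧ t = g.v (o x) := by
  unfold EN at h ⊢
  rw [app_relN h]
  exact ⟨fun ⟨⟨⟨d, x, p⟩, h₀⟩, h₁, h₂⟩ => ⟨d, x, p, h₁, h₀.1, h₀.2, h₂⟩,
    fun ⟨d, x, p, h₁, h₀, h₀', h₂⟩ => ⟨⟨⟨d, x, p⟩, h₀, h₀'⟩, h₁, h₂⟩⟩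

theorem E_onN (h : onN ∈ g.N) {s : g.M} : g.E s (g.v onN) ↔
    ∃ β p, p ∈ g.G ∧ (β, Atom.on) ∈ p.1.f ∧ kN β ∈ g.N ∧ s = g.v (kN β) := by
  rw [E_v h]
  exact ⟨fun ⟨⟨⟨β, p⟩, h₀⟩, h₁, h₂, h₃⟩ => ⟨β, p, h₁, h₀, h₂, h₃.symm⟩,
    fun ⟨β, p, h₁, h₀, h₂, h₃⟩ => ⟨⟨⟨β, p⟩, h₀⟩, h₁, h₂, h₃.symm⟩⟩

theorem app_valN (h : valN ∈ g.N) {β : K} {z : W} (hβ : kN β ∈ g.N) (hz : o z ∈ g.N) {t : g.M} :
    App g.E (g.v valN) (pr (g.v (kN β)) (g.v (o z))) t ↔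
      ∃ a p, p ∈ g.G ∧ (β, Atom.val z a) ∈ p.1.f ∧ t = g.nat a := by
  unfold valN at h ⊢
  rw [app_relN h]
  constructor
  · rintro ⟨⟨⟨β', y, a, p⟩, h₀⟩, h₁, h₂, -, e, rfl⟩
    obtain ⟨h₃, h₄⟩ := pairN_mem_iff.1 h₂
    rw [v_pairN h₃ h₄, pr_inj] at e
    obtain rfl : β = β' := kN_inj hβ h₃ e.1
    obtain rfl : z = y := o_inj hz h₄ e.2
    exact ⟨a, p, h₁, h₀, rfl⟩
  · rintro ⟨a, p, h₁, h₀, rfl⟩
    exact ⟨⟨⟨β, z, a, p⟩, h₀⟩, h₁, pairN_mem_iff.2 ⟨hβ, hz⟩, nN_mem _, (v_pairN hβ hz).symm, rfl⟩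

theorem app_bdN (h : bdN ∈ g.N) {β : K} {d : W} (hβ : kN β ∈ g.N) (hd : o d ∈ g.N) {t : g.M} :
    App g.E (g.v bdN) (pr (g.v (kN β)) (g.v (o d))) t ↔
      ∃ m p, p ∈ g.G ∧ (β, Atom.bd d m) ∈ p.1.f ∧ t = g.nat m := by
  unfold bdN at h ⊢
  rw [app_relN h]
  constructor
  · rintro ⟨⟨⟨β', y, a, p⟩, h₀⟩, h₁, h₂, -, e, rfl⟩
    obtain ⟨h₃, h₄⟩ := pairN_mem_iff.1 h₂
    rw [v_pairN h₃ h₄, pr_inj] at e
    obtain rfl : β = β' := kN_inj hβ h₃ e.1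
    obtain rfl : d = y := o_inj hd h₄ e.2
    exact ⟨a, p, h₁, h₀, rfl⟩
  · rintro ⟨a, p, h₁, h₀, rfl⟩
    exact ⟨⟨⟨β, d, a, p⟩, h₀⟩, h₁, pairN_mem_iff.2 ⟨hβ, hd⟩, nN_mem _, (v_pairN hβ hd).symm, rfl⟩

theorem app_piN (h : piN ∈ g.N) {β : K} (hβ : kN β ∈ g.N) {s t : g.M} :
    App g.E (g.v piN) (pr (g.v (kN β)) s) t ↔
      ∃ x j c p, p ∈ g.G ∧ Dec β (bk β) p.1 (.pi x j c) ∧ o x ∈ g.N ∧
        s = pr (g.v (o x)) (g.nat j) ∧ t = g.nat c := by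
  unfold piN at h ⊢
  rw [app_relN h]
  constructor
  · rintro ⟨⟨⟨β', x, j, c, p⟩, h₀⟩, h₁, h₂, -, e, rfl⟩
    obtain ⟨h₃, h₄⟩ := pairN_mem_iff.1 h₂
    obtain ⟨h₅, h₆⟩ := pairN_mem_iff.1 h₄
    rw [v_pairN h₃ h₄, v_pairN h₅ h₆, pr_inj] at e
    obtain rfl : β = β' := kN_inj hβ h₃ e.1
    exact ⟨x, j, c, p, h₁, h₀, h₅, e.2, rfl⟩
  · rintro ⟨x, j, c, p, h₁, h₀, hx, rfl, rfl⟩
    have h₂ := pairN_mem_iff.2 ⟨hx, nN_mem (g := g) j⟩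
    refine ⟨⟨⟨β, x, j, c, p⟩, h₀⟩, h₁, pairN_mem_iff.2 ⟨hβ, h₂⟩, nN_mem _, ?_, rfl⟩
    rw [v_pairN hβ h₂, v_pairN hx (nN_mem _)]
    rfl

theorem app_ceN (h : ceN ∈ g.N) {β : K} (hβ : kN β ∈ g.N) {s t : g.M} :
    App g.E (g.v ceN) (pr (g.v (kN β)) s) t ↔
      ∃ d k x u p, p ∈ g.G ∧ Dec β (bk β) p.1 (.ce d k x u) ∧ o d ∈ g.N ∧ o x ∈ g.N ∧
        s = pr (g.v (o d)) (pr (g.nat k) (g.v (o x))) ∧ t = Cd.ι u := by
  unfold ceN at h ⊢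
  rw [app_relN h]
  constructor
  · rintro ⟨⟨⟨β', d, k, x, u, p⟩, h₀⟩, h₁, h₂, -, e, rfl⟩
    obtain ⟨h₃, h₄⟩ := pairN_mem_iff.1 h₂
    obtain ⟨h₅, h₆⟩ := pairN_mem_iff.1 h₄
    obtain ⟨h₇, h₈⟩ := pairN_mem_iff.1 h₆
    rw [v_pairN h₃ h₄, v_pairN h₅ h₆, v_pairN h₇ h₈, pr_inj] at e
    obtain rfl : β = β' := kN_inj hβ h₃ e.1
    exact ⟨d, k, x, u, p, h₁, h₀, h₅, h₈, e.2, v_ndN u⟩
  · rintro ⟨d, k, x, u, p, h₁, h₀, hd, hx, rfl, rfl⟩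
    have h₃ := pairN_mem_iff.2 ⟨nN_mem (g := g) k, hx⟩
    have h₂ := pairN_mem_iff.2 ⟨hd, h₃⟩
    refine ⟨⟨⟨β, d, k, x, u, p⟩, h₀⟩, h₁, pairN_mem_iff.2 ⟨hβ, h₂⟩, ndN_mem _, ?_,
      (v_ndN u).symm⟩
    rw [v_pairN hβ h₂, v_pairN hd h₃, v_pairN (nN_mem _) hx]
    rfl

theorem gb_app_sgN (h : sgN ∈ g.N) {x : W} (hx : o x ∈ g.N) {j : ℕ} {t : g.M} :
    App g.E (g.v sgN) (pr (g.v (o x)) (g.nat j)) t ↔
      ∃ p ∈ g.G, x < p.1.ht ∧ t = g.nat (p.1.σ x j) := by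
  unfold sgN at h ⊢
  rw [app_relN h]
  constructor
  · rintro ⟨⟨⟨y, i, p⟩, h₀⟩, h₁, h₂, -, e, rfl⟩
    obtain ⟨h₃, h₄⟩ := pairN_mem_iff.1 h₂
    rw [v_pairN h₃ h₄, pr_inj] at e
    obtain rfl : x = y := o_inj hx h₃ e.1
    obtain rfl : j = i := nat_inj e.2
    exact ⟨p, h₁, h₀, rfl⟩
  · rintro ⟨p, h₁, h₀, rfl⟩
    exact ⟨⟨⟨x, j, p⟩, h₀⟩, h₁, pairN_mem_iff.2 ⟨hx, nN_mem _⟩, nN_mem _,
      (v_pairN hx (nN_mem _)).symm, rfl⟩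

theorem gb_base_w1 (h : baseN ⊆ g.N) : w1N ∈ g.N := h (by simp [baseN])

theorem gb_base_EN (h : baseN ⊆ g.N) : EN ∈ g.N := h (by simp [baseN])

theorem gb_base_sgN (h : baseN ⊆ g.N) : sgN ∈ g.N := h (by simp [baseN])

theorem gb_agree_G {p q : PP} (hp : p ∈ g.G) (hq : q ∈ g.G) {x : W} (h₁ : x < p.1.ht)
    (h₂ : x < q.1.ht) : p.1.E x = q.1.E x ∧ p.1.σ x = q.1.σ x := by
  obtain ⟨r, -, h₃, h₄⟩ := g.dir hp hq
  exact ⟨((h₃ 0).rle.E x h₁).symm.trans ((h₄ 0).rle.E x h₂),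
    ((h₃ 0).rle.σ x h₁).symm.trans ((h₄ 0).rle.σ x h₂)⟩

theorem exists_ht_mem (h : baseN ⊆ g.N) {a : W} (ha : o a ∈ g.N) : ∃ p ∈ g.G, a < p.1.ht := by
  have hp : pairN (o a) (nN 0) ∈ g.N := pairN_mem_iff.2 ⟨ha, nN_mem _⟩
  have : ∃ b, App g.E (g.v sgN) (g.v (pairN (o a) (nN 0))) b := by
    refine dens (Ψ := fun _ E w => ∃ b, App E (w 0) (w 1) b) (UDef.ex (UDef.app _ _ _))
      (l2 (gb_base_sgN h) hp) fun p _ => ?_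
    obtain ⟨q, hq, hlt⟩ := PP.ht_dense p a
    refine ⟨q, hq, ∅, countable_empty, fun g' hq' _ hl => ?_⟩
    have h₁ : sgN ∈ g'.N := hl _ (by simp)
    have h₂ : o a ∈ g'.N := (pairN_mem_iff.1 (hl (pairN (o a) (nN 0)) (by simp))).1
    refine ⟨g'.nat (q.1.σ a 0), ?_⟩
    change App g'.E (g'.v sgN) (g'.v (pairN (o a) (nN 0))) _
    rw [v_pairN h₂ (nN_mem _)]
    exact (gb_app_sgN h₁ h₂).2 ⟨q, hq', hlt, rfl⟩
  obtain ⟨b, hb⟩ := this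
  rw [v_pairN ha (nN_mem _)] at hb
  obtain ⟨p, hp, hlt, -⟩ := (gb_app_sgN (gb_base_sgN h) ha).1 hb
  exact ⟨p, hp, hlt⟩

theorem ebG_iff (h : baseN ⊆ g.N) {p : PP} (hp : p ∈ g.G) {d x : W} {d' x' : TT g}
    (hd : Rep g d d') (hx : Rep g x x') (hlt : d < p.1.ht) : EbG g d' x' ↔ x ∈ p.1.E d := by
  unfold EbG
  rw [app_EN (gb_base_EN h), ← hd.2, ← hx.2]
  constructor
  · rintro ⟨a, b, q, hq, h₁, h₂, h₃, h₄, e₁, e₂⟩
    obtain rfl : d = a := o_inj hd.1 h₃ e₁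
    obtain rfl : x = b := o_inj hx.1 h₄ e₂
    rwa [(gb_agree_G hp hq hlt h₁).1]
  · intro h₁
    exact ⟨d, x, p, hp, hlt, h₁, hd.1, hx.1, rfl, rfl⟩

theorem sgG_eq (h : baseN ⊆ g.N) {p : PP} (hp : p ∈ g.G) {x : W} {x' : TT g} (hx : Rep g x x')
    (hlt : x < p.1.ht) (j : ℕ) : sgG g x' j = p.1.σ x j := by
  refine ev_eq fun b => ?_
  change App g.E (g.v sgN) (pr x'.1 (g.nat j)) (g.nat b) ↔ _
  rw [← hx.2, gb_app_sgN (gb_base_sgN h) hx.1]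
  constructor
  · rintro ⟨q, hq, h₁, e⟩
    rw [nat_inj e, (gb_agree_G hp hq hlt h₁).2]
  · rintro rfl
    exact ⟨p, hp, hlt, rfl⟩

theorem tm_EbG : g.Tm fun z : TT g × TT g => EbG g z.1 z.2 := by
  unfold EbG
  fun_prop

theorem tm_sgG : g.Tm fun z : TT g × ℕ => sgG g z.1 z.2 := by
  unfold sgG
  fun_prop

theorem gb_finite_of_rep (h : w1N ∈ g.N) {S : Set (TT g)} {A : Set W} (hA : A.Finite)
    (H : ∀ x ∈ S, ∀ a, Rep g a x → a ∈ A) : S.Finite := by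
  choose r hr using exists_rep h
  exact (hA.preimage (f := r) fun x _ y _ e => ((hr x).inj (hr y)).2 e).subset
    fun x hx => H x hx _ (hr x)

theorem gb_ad_G_lt (h : baseN ⊆ g.N) {a a' : W} {d d' : TT g} (ha : Rep g a d) (ha' : Rep g a' d')
    (hlt : a < a') : {x | EbG g d x ∧ EbG g d' x}.Finite := by
  obtain ⟨p, hp, h₁⟩ := exists_ht_mem h ha'.1
  have h₂ := hlt.trans h₁
  refine gb_finite_of_rep (gb_base_w1 h) ((((p.2 0).rv.lad a' h₁).fin a hlt)) fun x hx b hb =>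
    ⟨(ebG_iff h hp ha' hb h₁).1 hx.2, ?_⟩
  exact ((p.2 0).rv.lad a h₂).lt b ((ebG_iff h hp ha hb h₂).1 hx.1)

theorem ad_G (h : baseN ⊆ g.N) (d d' : TT g) (hd : d ≠ d') :
    {x | EbG g d x ∧ EbG g d' x}.Finite := by
  obtain ⟨a, ha⟩ := exists_rep (gb_base_w1 h) d
  obtain ⟨a', ha'⟩ := exists_rep (gb_base_w1 h) d'
  rcases lt_trichotomy a a' with h₁ | h₁ | h₁
  · exact gb_ad_G_lt h ha ha' h₁
  · exact absurd ((ha.inj ha').2 h₁) hd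
  · exact (gb_ad_G_lt h ha' ha h₁).subset fun x hx => ⟨hx.2, hx.1⟩

theorem wf_G (h : baseN ⊆ g.N) (d : TT g) (s : ℕ → ℕ) :
    ∃ k, {x | EbG g d x ∧ ∀ j < k, sgG g x j = s j}.Finite := by
  obtain ⟨a, ha⟩ := exists_rep (gb_base_w1 h) d
  obtain ⟨p, hp, h₁⟩ := exists_ht_mem h ha.1
  have hl := (p.2 0).rv.lad a h₁
  obtain ⟨k, hk⟩ := hl.wf s
  refine ⟨k, gb_finite_of_rep (gb_base_w1 h) hk fun x hx b hb => ?_⟩
  have h₂ := (ebG_iff h hp ha hb h₁).1 hx.1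
  exact ⟨h₂, fun j hj => (sgG_eq h hp hb ((hl.lt b h₂).trans h₁) j).symm.trans (hx.2 j hj)⟩

theorem gb_ctbl_o {y : W} (hy : o y ∈ g.N) : ∃ f, IsInj g.E f (g.v (o y)) g.om := by
  have := (gb_ct_Iio y).to_subtype
  obtain ⟨e, he⟩ := exists_injective_nat {z | z < y}
  let τ : Name PP := relN (fun z : {z | z < y} => o z.1) (fun z => nN (e z)) (fun _ => ⊤)
  refine dens (Ψ := fun _ E w => ∃ f, IsInj E f (w 0) (w 1)) (UDef.ex (UDef.isInj _ _ _))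
    (l2 hy omN_mem) fun p _ => ⟨p, le_rfl, {τ}, countable_singleton _, fun g' _ hC hl => ?_⟩
  have hτ : τ ∈ g'.N := hC rfl
  have hy' : o y ∈ g'.N := hl _ (by simp)
  refine ⟨g'.v τ, ⟨fun p hp => ?_, fun a ha => ?_⟩, fun a a' b h₁ h₂ => ?_⟩
  · obtain ⟨z, -, h₁, h₂, rfl⟩ := (E_relN hτ).1 hp
    exact ⟨_, _, (o_lt h₁ hy').2 z.2, nat_om _, isPair_pr _ _⟩
  · obtain ⟨z, hz, hzN, rfl⟩ := (E_o hy').1 ha
    refine ⟨_, (app_relN hτ).2 ⟨⟨z, hz⟩, g'.top, hzN, nN_mem _, rfl, rfl⟩, fun b hb => ?_⟩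
    obtain ⟨z', -, h₁, -, e₁, rfl⟩ := (app_relN hτ).1 hb
    obtain rfl : z' = ⟨z, hz⟩ := Subtype.ext (o_inj h₁ hzN e₁.symm)
    rfl
  · obtain ⟨z, -, -, -, rfl, rfl⟩ := (app_relN hτ).1 h₁
    obtain ⟨z', -, -, -, rfl, e₂⟩ := (app_relN hτ).1 h₂
    rw [he (nat_inj e₂)]

theorem en_G (h : baseN ⊆ g.N) : ∃ en : TT g → TT g → ℕ,
    g.Tm (fun z : TT g × TT g => en z.1 z.2) ∧
      ∀ d x y, EbG g d x → EbG g d y → en d x = en d y → x = y := by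
  refine tm_choice_fun (Q := fun d f => ∀ x y, EbG g d x → EbG g d y → f x = f y → x = y)
    (by unfold EbG; fun_prop) fun d => ?_
  obtain ⟨a, ha⟩ := exists_rep (gb_base_w1 h) d
  obtain ⟨p, hp, h₁⟩ := exists_ht_mem h ha.1
  obtain ⟨f, hf, H⟩ := ctbl_iff.1 (gb_ctbl_o ha.1)
  have key : ∀ x, EbG g d x → g.E x.1 (g.v (o a)) := fun x hx => by
    obtain ⟨b, hb⟩ := exists_rep (gb_base_w1 h) x
    rw [← hb.2, o_lt hb.1 ha.1]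
    exact ((p.2 0).rv.lad a h₁).lt b ((ebG_iff h hp ha hb h₁).1 hx)
  exact ⟨fun x => f x.1, by fun_prop, fun x y hx hy e =>
    Subtype.ext (H _ _ (key x hx) (key y hy) e)⟩

end Pool.Agent.MP_2e2931_gt.Gap

end

section

namespace Pool.Agent.MP_2e2931_gt.Gap

open Pool.Agent.MP_c6cf52_lc Pool.Agent.MP_c6cf52_lc.Name Pool.Agent.MP_c6cf52_lc.Gen Set

variable {g : Gen PP}

/-- Application to a pair of arguments. -/
def twoApp {M : Type 2} (E : M → M → Prop) (s k x v : M) : Prop :=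
  ∃ q, IsPair E q k x ∧ App E s q v

theorem udef_twoApp (i j k l : ℕ) : UDef fun _ E w => twoApp E (w i) (w j) (w k) (w l) :=
  UDef.ex ((UDef.isPair _ _ _).and (UDef.app _ _ _))

theorem two_forced {σ : Name PP} (hσ : σ ∈ g.N) (hw : w1N ∈ g.N) (hE : EN ∈ g.N)
    (tot : ∀ k, g.E k g.om → ∀ x, g.E x (g.v w1N) → ∃ v, g.E v g.om ∧ twoApp g.E (g.v σ) k x v) :
    ∃ d, g.E d (g.v w1N) ∧ (∃ y, g.E y d) ∧ ∀ k, g.E k g.om → ∃ v, g.E v g.om ∧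
      ∀ y, g.E y d → ∃ x, g.E y x ∧ App g.E (g.v EN) d x ∧ twoApp g.E (g.v σ) k x v := by
  obtain ⟨p₀, hp₀, H₀⟩ := transfer (Ψ := fun _ E w => ∀ k, E k (w 2) → ∀ x, E x (w 1) →
    ∃ v, E v (w 2) ∧ twoApp E (w 0) k x v) (by
      repeat' first
        | exact UDef.mem _ _ | exact udef_twoApp _ _ _ _ | apply UDef.and
        | apply UDef.imp | apply UDef.all | apply UDef.ex) (l3 hσ hw omN_mem) tot
  let R : W → ℕ → ℕ → PP → Prop := fun x k v r => ∀ g' : Gen PP, r ∈ g'.G → σ ∈ g'.N →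
    o x ∈ g'.N → twoApp g'.E (g'.v σ) (g'.nat k) (g'.v (o x)) (g'.nat v)
  have hR : ∀ x k, ∀ q ≤ p₀, ∃ r ≤ q, ∃ v, R x k v r := fun x k q hq => by
    obtain ⟨g', hq', hC⟩ := exists_gen q {σ, w1N, o x} (toFinite _).countable
    have h₁ : σ ∈ g'.N := hC (by simp)
    have h₂ : w1N ∈ g'.N := hC (by simp)
    have h₃ : o x ∈ g'.N := hC (by simp)
    obtain ⟨v, hv, h⟩ := H₀ g' (g'.up hq' hq) (l3 h₁ h₂ omN_mem) _ (nat_om k) _ (o_w1 h₂ h₃)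
    obtain ⟨v, rfl⟩ := E_om.1 hv
    obtain ⟨r, hr, h'⟩ := transfer (udef_twoApp 0 1 2 3) (l4 h₁ (nN_mem k) h₃ (nN_mem v)) h
    obtain ⟨t, -, h₄, h₅⟩ := g'.dir hr hq'
    exact ⟨t, h₅, v, fun g'' a b c => h' g'' (g''.up a h₄) (l4 b (nN_mem k) c (nN_mem v))⟩
  refine dens (Ψ := fun _ E w => ∃ d, E d (w 1) ∧ (∃ y, E y d) ∧ ∀ k, E k (w 2) → ∃ v,
    E v (w 2) ∧ ∀ y, E y d → ∃ x, E y x ∧ App E (w 3) d x ∧ twoApp E (w 0) k x v) (by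
      repeat' first
        | exact UDef.mem _ _ | exact UDef.app _ _ _ | exact udef_twoApp _ _ _ _ | apply UDef.and
        | apply UDef.imp | apply UDef.all | apply UDef.ex) (l4 hσ hw omN_mem hE) fun p hp => ?_
  obtain ⟨q, -, h₁, h₂⟩ := g.dir hp hp₀
  obtain ⟨p₁, hp₁, d, hd₀, hd, H⟩ := two_dense q R
    (fun x k v r r' h hl g' hg => h g' (g'.up hg hl)) fun x k r hr => hR x k r (hr.trans h₂)
  refine ⟨p₁, hp₁.trans h₁, {o d}, countable_singleton _, fun g₁ hg₁ hC hl => ?_⟩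
  have hd₁ : o d ∈ g₁.N := hC rfl
  refine ⟨g₁.v (o d), o_w1 (hl _ (by simp)) hd₁, ⟨_, (o_lt (o_mem hd₁ hd₀) hd₁).2 hd₀⟩,
    fun k hk => ?_⟩
  obtain ⟨k, rfl⟩ := E_om.1 hk
  refine dens (Ψ := fun _ E w => ∃ v, E v (w 1) ∧ ∀ y, E y (w 3) →
    ∃ x, E y x ∧ App E (w 2) (w 3) x ∧ twoApp E (w 0) (w 4) x v) (by
      repeat' first
        | exact UDef.mem _ _ | exact UDef.app _ _ _ | exact udef_twoApp _ _ _ _ | apply UDef.and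
        | apply UDef.imp | apply UDef.all | apply UDef.ex)
    (lcons (hl σ (by simp)) (l4 omN_mem (hl EN (by simp)) hd₁ (nN_mem k))) fun p hp => ?_
  obtain ⟨q₁, -, h₃, h₄⟩ := g₁.dir hp hg₁
  obtain ⟨r, hr, v, Hr⟩ := H k q₁ h₄
  refine ⟨r, hr.trans h₃, ∅, countable_empty, fun g₂ hg₂ _ hl₂ =>
    ⟨g₂.nat v, nat_om v, fun y hy => ?_⟩⟩
  have hd₂ : o d ∈ g₂.N := hl₂ _ (by simp)
  obtain ⟨y, hyd, hy₂, rfl⟩ := (E_o hd₂).1 hy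
  refine dens (Ψ := fun _ E w => ∃ x, E (w 5) x ∧ App E (w 1) (w 2) x ∧
    twoApp E (w 0) (w 3) x (w 4)) (by
      repeat' first
        | exact UDef.mem _ _ | exact UDef.app _ _ _ | exact udef_twoApp _ _ _ _ | apply UDef.and
        | apply UDef.ex)
    (lcons (hl₂ σ (by simp)) (lcons (hl₂ EN (by simp)) (l4 hd₂ (nN_mem k) (nN_mem v) hy₂)))
    fun p hp => ?_
  obtain ⟨s, -, h₅, h₆⟩ := g₂.dir hp hg₂
  obtain ⟨s', hs', x, hx, hyx, hRx⟩ := Hr y hyd s h₆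
  refine ⟨s', hs'.trans h₅, ∅, countable_empty, fun g₃ hg₃ _ hl₃ => ?_⟩
  have hd₃ : o d ∈ g₃.N := hl₃ _ (by simp)
  have hx₃ : o x ∈ g₃.N := o_mem hd₃ (((p₁.2 0).rv.lad d hd).lt x hx)
  exact ⟨g₃.v (o x), (o_lt (hl₃ _ (by simp)) hx₃).2 hyx, (app_EN (hl₃ _ (by simp))).2
    ⟨d, x, p₁, g₃.up hg₃ (hs'.trans (h₆.trans (hr.trans h₄))), hd, hx, hd₃, hx₃, rfl, rfl⟩,
    hRx g₃ hg₃ (hl₃ _ (by simp)) hx₃⟩

theorem two_G (h : baseN ⊆ g.N) (F : ℕ → TT g → ℕ) (hF : g.Tm fun z : ℕ × TT g => F z.1 z.2) :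
    ∃ d, ∀ k, ∃ v, {x | EbG g d x ∧ F k x = v}.Infinite := by
  have hw : w1N ∈ g.N := h (by simp [baseN])
  have hE : EN ∈ g.N := h (by simp [baseN])
  obtain ⟨s, -, hs⟩ := exists_graph Df.true hF
  obtain ⟨σ, hσ, rfl⟩ := exists_v s
  have e : ∀ k v (x : TT g), twoApp g.E (g.v σ) (g.nat k) x.1 (g.nat v) ↔ F k x = v := by
    intro k v x
    constructor
    · rintro ⟨q, h₁, h₂⟩
      obtain ⟨z, -, h₃, h₄⟩ := (hs _ _).1 h₂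
      obtain rfl : (k, x) = z := Cd.inj ((isPair_iff.1 h₁).symm.trans h₃)
      exact (nat_inj h₄).symm
    · rintro rfl
      exact ⟨_, isPair_pr _ _, (hs _ _).2 ⟨(k, x), trivial, rfl, rfl⟩⟩
  obtain ⟨d, hd, ⟨y, hy⟩, H⟩ := two_forced hσ hw hE fun k hk x hx => by
    obtain ⟨k, rfl⟩ := E_om.1 hk
    exact ⟨_, nat_om _, (e k _ ⟨x, hx⟩).2 rfl⟩
  refine ⟨⟨d, hd⟩, fun k => ?_⟩
  obtain ⟨v, hv, H⟩ := H _ (nat_om k)
  obtain ⟨v, rfl⟩ := E_om.1 hv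
  refine ⟨v, fun hfin => ?_⟩
  have key : ∀ y, g.E y d → ∃ x : TT g,
      ((EbG g ⟨d, hd⟩ x ∧ F k x = v) ∧ g.E x.1 d) ∧ g.E y x.1 := fun y hy => by
    obtain ⟨x, h₁, h₂, h₃⟩ := H y hy
    obtain ⟨a, b, p, -, h₄, h₅, h₆, h₇, rfl, rfl⟩ := (app_EN hE).1 h₂
    exact ⟨⟨_, o_w1 hw h₇⟩, ⟨⟨h₂, (e k v ⟨_, o_w1 hw h₇⟩).1 h₃⟩,
      (o_lt h₇ h₆).2 (((p.2 0).rv.lad a h₄).lt b h₅)⟩, h₁⟩
  choose rep hrep using exists_rep hw
  obtain ⟨x, hx, hmax⟩ := Set.exists_max_image {x | (EbG g ⟨d, hd⟩ x ∧ F k x = v) ∧ g.E x.1 d}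
    rep (hfin.subset fun x hx => hx.1) ((key y hy).imp fun x hx => hx.1)
  obtain ⟨x', h₁, h₂⟩ := key _ hx.2
  rw [← (hrep x).2, ← (hrep x').2, o_lt (hrep x).1 (hrep x').1] at h₂
  exact (hmax x' h₁).not_gt h₂

end Pool.Agent.MP_2e2931_gt.Gap

end

section

namespace Pool.Agent.MP_2e2931_gt.Gap

open Pool.Agent.MP_c6cf52_lc Pool.Agent.MP_c6cf52_lc.Name Pool.Agent.MP_c6cf52_lc.Gen Set

variable {g : Gen PP}

namespace GGoodX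

section Formulas

variable {M : Type 2} (E : M → M → Prop)

/-- The value of `f` at the pair `(a, b)` is `c`. -/
def A21 (f a b c : M) : Prop := ∃ p, IsPair E p a b ∧ App E f p c

/-- `p` is the triple `(a, b, c)`. -/
def Tr (p a b c : M) : Prop := ∃ q, IsPair E q b c ∧ IsPair E p a q

/-- The value of `f` at a triple is a triple. -/
def A33 (f a b c a' b' c' : M) : Prop := ∃ p p', Tr E p a b c ∧ Tr E p' a' b' c' ∧ App E f p p'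

/-- All the points of the ladder `d` have their `k`-th certificate in `b`. -/
def Inn (W e s b d n k : M) : Prop :=
  ∀ x, E x W → App E e d x → ∃ j c, App E b j c ∧ A33 E s d k x n j c

/-- The relation `b` has a point of level at least `j`. -/
def Unb (om b j : M) : Prop := ∃ j' c, E j' om ∧ E c om ∧ ¬ E j' j ∧ App E b j' c

/-- First order form of the properties of the data. -/
def Fo (W om e t s : M) : Prop :=
  (∀ x j, E x W → E j om → ∃ c, E c om ∧ A21 E t x j c) ∧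
  (∀ d k x, E d W → E k om → E x W → ∃ n j c, E n om ∧ E j om ∧ E c om ∧ A33 E s d k x n j c) ∧
  (∀ u y y', App E s u y → App E s u y' → y = y') ∧
  ∀ d n b, E d W → E n om → (∀ j, E j om → Unb E om b j) → ∃ k m, E k om ∧ E m om ∧
    ∀ x, E x W → App E e d x → ∃ j c, E j m ∧ E c m ∧ App E b j c ∧ A33 E s d k x n j c

/-- Some active coordinate decides the data correctly. -/
def Ps (a f f' t s : M) : Prop :=
  ∃ b, E b a ∧ (∀ u c, A21 E f b u c → App E t u c) ∧ ∀ u c, A21 E f' b u c → App E s u c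

end Formulas

theorem u21 (i j k l : ℕ) : UDef.{2} (fun _ E w => A21 E (w i) (w j) (w k) (w l)) := by
  unfold A21
  exact UDef.ex ((UDef.isPair _ _ _).and (UDef.app _ _ _))

theorem uTr (i j k l : ℕ) : UDef.{2} (fun _ E w => Tr E (w i) (w j) (w k) (w l)) := by
  unfold Tr
  exact UDef.ex ((UDef.isPair _ _ _).and (UDef.isPair _ _ _))

theorem u33 (i j k l m n r : ℕ) :
    UDef.{2} (fun _ E w => A33 E (w i) (w j) (w k) (w l) (w m) (w n) (w r)) := by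
  unfold A33
  exact UDef.ex (UDef.ex ((uTr _ _ _ _).and ((uTr _ _ _ _).and (UDef.app _ _ _))))

theorem uInn (i j k l m n r : ℕ) :
    UDef.{2} (fun _ E w => Inn E (w i) (w j) (w k) (w l) (w m) (w n) (w r)) := by
  unfold Inn
  exact UDef.all ((UDef.mem _ _).imp ((UDef.app _ _ _).imp (UDef.ex (UDef.ex
    ((UDef.app _ _ _).and (u33 _ _ _ _ _ _ _))))))

theorem uUnb (i j k : ℕ) : UDef.{2} (fun _ E w => Unb E (w i) (w j) (w k)) := by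
  unfold Unb
  exact UDef.ex (UDef.ex ((UDef.mem _ _).and ((UDef.mem _ _).and
    ((UDef.mem _ _).not.and (UDef.app _ _ _)))))

theorem uFo : UDef.{2} (fun _ E w => Fo E (w 0) (w 1) (w 2) (w 3) (w 4)) := by
  unfold Fo
  refine UDef.and ?_ (UDef.and ?_ (UDef.and ?_ ?_))
  · exact UDef.all (UDef.all ((UDef.mem _ _).imp ((UDef.mem _ _).imp
      (UDef.ex ((UDef.mem _ _).and (u21 _ _ _ _))))))
  · exact UDef.all (UDef.all (UDef.all ((UDef.mem _ _).imp ((UDef.mem _ _).imp ((UDef.mem _ _).imp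
      (UDef.ex (UDef.ex (UDef.ex ((UDef.mem _ _).and ((UDef.mem _ _).and ((UDef.mem _ _).and
        (u33 _ _ _ _ _ _ _))))))))))))
  · exact UDef.all (UDef.all (UDef.all ((UDef.app _ _ _).imp ((UDef.app _ _ _).imp
      (UDef.eq _ _)))))
  · exact UDef.all (UDef.all (UDef.all ((UDef.mem _ _).imp ((UDef.mem _ _).imp
      ((UDef.all ((UDef.mem _ _).imp (uUnb _ _ _))).imp (UDef.ex (UDef.ex ((UDef.mem _ _).and
        ((UDef.mem _ _).and (UDef.all ((UDef.mem _ _).imp ((UDef.app _ _ _).imp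
          (UDef.ex (UDef.ex ((UDef.mem _ _).and ((UDef.mem _ _).and ((UDef.app _ _ _).and
            (u33 _ _ _ _ _ _ _))))))))))))))))))

theorem uPs : UDef.{2} (fun _ E w => Ps E (w 0) (w 1) (w 2) (w 3) (w 4)) := by
  unfold Ps
  exact UDef.ex ((UDef.mem _ _).and
    ((UDef.all (UDef.all ((u21 _ _ _ _).imp (UDef.app _ _ _)))).and
      (UDef.all (UDef.all ((u21 _ _ _ _).imp (UDef.app _ _ _))))))

theorem a21 {f a b c : g.M} : A21 g.E f a b c ↔ App g.E f (pr a b) c := by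
  simp only [A21, isPair_iff, exists_eq_left]

theorem a33 {f a b c a' b' c' : g.M} :
    A33 g.E f a b c a' b' c' ↔ App g.E f (pr a (pr b c)) (pr a' (pr b' c')) := by
  simp only [A33, Tr, isPair_iff, exists_eq_left, exists_and_left]

theorem dens_app {a b c : Name PP} (ha : a ∈ g.N) (hb : b ∈ g.N) (hc : c ∈ g.N)
    (H : ∀ p ∈ g.G, ∃ q ≤ p, ∀ g' : Gen PP, q ∈ g'.G → a ∈ g'.N → b ∈ g'.N → c ∈ g'.N →
      App g'.E (g'.v a) (g'.v b) (g'.v c)) : App g.E (g.v a) (g.v b) (g.v c) := by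
  refine dens (UDef.app 0 1 2) (l3 ha hb hc) fun p hp => ?_
  obtain ⟨q, hq, H'⟩ := H p hp
  exact ⟨q, hq, ∅, countable_empty, fun g' hq' _ hl =>
    H' g' hq' (hl _ (by simp)) (hl _ (by simp)) (hl _ (by simp))⟩

theorem fin_dir {ι : Type} (u : Finset ι) (D : PP → ι → Prop)
    (hm : ∀ r r' y, D r y → r' ≤ r → D r' y) (H : ∀ y ∈ u, ∃ r ∈ g.G, D r y) {q : PP}
    (hq : q ∈ g.G) : ∃ r ∈ g.G, r ≤ q ∧ ∀ y ∈ u, D r y := by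
  classical
  induction u using Finset.induction_on with
  | empty => exact ⟨q, hq, le_rfl, by simp⟩
  | insert y u _ ih =>
    obtain ⟨r, hr, h₁, h₂⟩ := ih fun z hz => H z (Finset.mem_insert_of_mem hz)
    obtain ⟨s, hs, h₃⟩ := H y (Finset.mem_insert_self _ _)
    obtain ⟨t, ht, h₄, h₅⟩ := g.dir hr hs
    refine ⟨t, ht, h₄.trans h₁, fun z hz => ?_⟩
    rcases Finset.mem_insert.1 hz with rfl | hz
    exacts [hm _ _ _ h₃ h₅, hm _ _ _ (h₂ z hz) h₄]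

/-- The name of the pair of a point and a number. -/
noncomputable def n2 (x : W) (j : ℕ) : Name PP := pairN (o x) (nN j)

/-- The name of a triple. -/
noncomputable def n3 (d : W) (k : ℕ) (x : W) : Name PP := pairN (o d) (pairN (nN k) (o x))

theorem n2_mem {x : W} {j : ℕ} : n2 x j ∈ g.N ↔ o x ∈ g.N :=
  pairN_mem_iff.trans (and_iff_left (nN_mem j))

theorem n3_mem {d x : W} {k : ℕ} : n3 d k x ∈ g.N ↔ o d ∈ g.N ∧ o x ∈ g.N :=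
  pairN_mem_iff.trans (and_congr_right fun _ => pairN_mem_iff.trans (and_iff_right (nN_mem k)))

theorem v_n2 {x : W} (j : ℕ) (h : o x ∈ g.N) : g.v (n2 x j) = pr (g.v (o x)) (g.nat j) :=
  v_pairN h (nN_mem j)

theorem v_n3 {d x : W} (k : ℕ) (hd : o d ∈ g.N) (hx : o x ∈ g.N) :
    g.v (n3 d k x) = pr (g.v (o d)) (pr (g.nat k) (g.v (o x))) := by
  unfold n3
  rw [v_pairN hd (pairN_mem_iff.2 ⟨nN_mem k, hx⟩), v_pairN (nN_mem k) hx, v_nN]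

/-- The statements that are forced about the names `t` and `s`. -/
def RR (t s : Name PP) : At → PP → Prop
  | .pi x j c, r => ∀ g' : Gen PP, r ∈ g'.G → t ∈ g'.N → n2 x j ∈ g'.N → nN c ∈ g'.N →
      App g'.E (g'.v t) (g'.v (n2 x j)) (g'.v (nN c))
  | .ce d k x y, r => ∀ g' : Gen PP, r ∈ g'.G → s ∈ g'.N → n3 d k x ∈ g'.N → ndN y ∈ g'.N →
      App g'.E (g'.v s) (g'.v (n3 d k x)) (g'.v (ndN y))
  | .cd _ _, _ => True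

theorem RR_mono (t s : Name PP) (a : At) (r r' : PP) (h : RR t s a r) (hl : r' ≤ r) :
    RR t s a r' := by
  cases a with
  | pi x j c => exact fun g' hg => h g' (g'.up hg hl)
  | ce d k x y => exact fun g' hg => h g' (g'.up hg hl)
  | cd _ _ => trivial

/-- The condition `p` forces the first order properties. -/
def FF (t s : Name PP) (p : PP) : Prop :=
  ∀ g' : Gen PP, p ∈ g'.G → w1N ∈ g'.N → EN ∈ g'.N → t ∈ g'.N → s ∈ g'.N →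
    Fo g'.E (g'.v w1N) g'.om (g'.v EN) (g'.v t) (g'.v s)

/-- The name of a relation on the numbers. -/
noncomputable def bN (B : PP → ℕ × ℕ → Prop) : Name PP :=
  relN (fun z : {z : (ℕ × ℕ) × PP // B z.2 z.1} => nN z.1.1.1) (fun z => nN z.1.1.2)
    (fun z => z.1.2)

theorem app_bN {B : PP → ℕ × ℕ → Prop} (h : bN B ∈ g.N) {s t : g.M} :
    App g.E (g.v (bN B)) s t ↔ ∃ y r, r ∈ g.G ∧ B r y ∧ s = g.nat y.1 ∧ t = g.nat y.2 := by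
  unfold bN at h ⊢
  rw [app_relN h]
  exact ⟨fun ⟨⟨⟨y, r⟩, h₀⟩, h₁, _, _, h₂⟩ => ⟨y, r, h₁, h₀, h₂⟩,
    fun ⟨y, r, h₁, h₀, h₂⟩ => ⟨⟨⟨y, r⟩, h₀⟩, h₁, nN_mem _, nN_mem _, h₂⟩⟩

/-- The name of a finite relation of the ground model. -/
noncomputable def uN (u : Finset (ℕ × ℕ)) : Name PP := bN fun _ y => y ∈ u

theorem app_uN {u : Finset (ℕ × ℕ)} (h : uN u ∈ g.N) {s t : g.M} :
    App g.E (g.v (uN u)) s t ↔ ∃ y ∈ u, s = g.nat y.1 ∧ t = g.nat y.2 :=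
  (app_bN h).trans ⟨fun ⟨y, _, _, h₀, h₂⟩ => ⟨y, h₀, h₂⟩,
    fun ⟨y, h₀, h₂⟩ => ⟨y, ⊤, g.top, h₀, h₂⟩⟩

variable {t s : Name PP} {p₀ : PP}

theorem tot_pi (h : FF t s p₀) (x : W) (j : ℕ) (q : PP) (hq : q ≤ p₀) :
    ∃ r ≤ q, ∃ c, RR t s (.pi x j c) r := by
  obtain ⟨g', hq', hC⟩ := exists_gen q {w1N, EN, t, s, o x} (toFinite _).countable
  have hx : o x ∈ g'.N := hC (by simp)
  have F := h g' (g'.up hq' hq) (hC (by simp)) (hC (by simp)) (hC (by simp)) (hC (by simp))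
  obtain ⟨c, hc, hA⟩ := F.1 _ _ (o_w1 (hC (by simp)) hx) (nat_om j)
  obtain ⟨c, rfl⟩ := E_om.1 hc
  rw [a21, ← v_n2 j hx, ← v_nN] at hA
  obtain ⟨r, hr, H⟩ := transfer_app (hC (by simp)) (n2_mem.2 hx) (nN_mem c) hA
  obtain ⟨r', -, h₁, h₂⟩ := g'.dir hr hq'
  exact ⟨r', h₂, c, fun g'' hg => H g'' (g''.up hg h₁)⟩

theorem tot_ce (h : FF t s p₀) (d : W) (k : ℕ) (x : W) (q : PP) (hq : q ≤ p₀) :
    ∃ r ≤ q, ∃ y, RR t s (.ce d k x y) r := by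
  obtain ⟨g', hq', hC⟩ := exists_gen q {w1N, EN, t, s, o d, o x} (toFinite _).countable
  have hd : o d ∈ g'.N := hC (by simp)
  have hx : o x ∈ g'.N := hC (by simp)
  have F := h g' (g'.up hq' hq) (hC (by simp)) (hC (by simp)) (hC (by simp)) (hC (by simp))
  obtain ⟨n, j, c, hn, hj, hc, hA⟩ := F.2.1 _ _ _ (o_w1 (hC (by simp)) hd) (nat_om k)
    (o_w1 (hC (by simp)) hx)
  obtain ⟨n, rfl⟩ := E_om.1 hn
  obtain ⟨j, rfl⟩ := E_om.1 hj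
  obtain ⟨c, rfl⟩ := E_om.1 hc
  have hA' : App g'.E (g'.v s) (g'.v (n3 d k x)) (g'.v (ndN (n, j, c))) := by
    rw [v_n3 k hd hx, v_ndN]
    exact a33.1 hA
  obtain ⟨r, hr, H⟩ := transfer_app (hC (by simp)) (n3_mem.2 ⟨hd, hx⟩) (ndN_mem _) hA'
  obtain ⟨r', -, h₁, h₂⟩ := g'.dir hr hq'
  exact ⟨r', h₂, _, fun g'' hg => H g'' (g''.up hg h₁)⟩

theorem unb_bN {B : PP → ℕ × ℕ → Prop} (hb : bN B ∈ g.N) {q : PP} (hq : q ∈ g.G)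
    (hu : ∀ j, ∀ r ≤ q, ∃ r' ≤ r, ∃ y, j ≤ y.1 ∧ B r' y) (j : ℕ) :
    Unb g.E g.om (g.v (bN B)) (g.nat j) := by
  refine dens (uUnb 0 1 2) (l3 omN_mem hb (nN_mem j)) fun p hp => ?_
  obtain ⟨r, -, h₁, h₂⟩ := g.dir hp hq
  obtain ⟨r', h₃, y, hy, hB⟩ := hu j r h₂
  refine ⟨r', h₃.trans h₁, ∅, countable_empty, fun g' hr' _ hl => ?_⟩
  exact ⟨g'.nat y.1, g'.nat y.2, nat_om _, nat_om _, fun e => (nat_lt.1 e).not_ge hy,
    (app_bN (hl _ (by simp))).2 ⟨y, r', hr', hB, rfl, rfl⟩⟩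

theorem cert (h : FF t s p₀) (d : W) (n₀ : ℕ) (B : PP → ℕ × ℕ → Prop)
    (hm : ∀ r r' y, B r y → r' ≤ r → B r' y) (q : PP) (hq : q ≤ p₀) (hd : d < q.1.ht)
    (hu : ∀ j, ∀ r ≤ q, ∃ r' ≤ r, ∃ y, j ≤ y.1 ∧ B r' y) :
    ∃ q' ≤ q, ∃ k, ∃ u : Set (ℕ × ℕ), u.Finite ∧ (∀ y ∈ u, B q' y) ∧
      ∀ x ∈ q.1.E d, ∀ r ≤ q', ∀ y', RR t s (.ce d k x y') r → ∃ y ∈ u, y' = (n₀, y) := by
  classical
  obtain ⟨g', hq', hC⟩ := exists_gen q ({w1N, EN, t, s, o d, bN B} ∪ range uN)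
    ((toFinite _).countable.union (countable_range _))
  have hw : w1N ∈ g'.N := hC (by simp)
  have he : EN ∈ g'.N := hC (by simp)
  have hs : s ∈ g'.N := hC (by simp)
  have hd' : o d ∈ g'.N := hC (by simp)
  have hb : bN B ∈ g'.N := hC (by simp)
  have F := h g' (g'.up hq' hq) hw he (hC (by simp)) hs
  obtain ⟨k, m, hk, hm', H⟩ := F.2.2.2 _ _ _ (o_w1 hw hd') (nat_om n₀) fun j hj => by
    obtain ⟨j, rfl⟩ := E_om.1 hj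
    exact unb_bN hb hq' hu j
  obtain ⟨k, rfl⟩ := E_om.1 hk
  obtain ⟨m, rfl⟩ := E_om.1 hm'
  let u : Finset (ℕ × ℕ) := (Finset.range m ×ˢ Finset.range m).filter fun y =>
    App g'.E (g'.v (bN B)) (g'.nat y.1) (g'.nat y.2)
  have hu' : uN u ∈ g'.N := hC (Or.inr ⟨u, rfl⟩)
  have hI : Inn g'.E (g'.v w1N) (g'.v EN) (g'.v s) (g'.v (uN u)) (g'.v (o d)) (g'.nat n₀)
      (g'.nat k) := fun x hx hA => by
    obtain ⟨j, c, hj, hc, h₁, h₂⟩ := H x hx hA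
    obtain ⟨j, hj', rfl⟩ := E_nat.1 hj
    obtain ⟨c, hc', rfl⟩ := E_nat.1 hc
    refine ⟨_, _, (app_uN hu').2 ⟨(j, c), Finset.mem_filter.2 ⟨?_, h₁⟩, rfl, rfl⟩, h₂⟩
    simp [hj', hc']
  obtain ⟨q₁, hq₁, T⟩ := transfer (uInn 0 1 2 3 4 5 6)
    (lcons hw (lcons he (lcons hs (l4 hu' hd' (nN_mem n₀) (nN_mem k))))) hI
  obtain ⟨q₂, hq₂, h₁, h₂⟩ := g'.dir hq₁ hq'
  obtain ⟨q', -, h₃, hB⟩ := fin_dir u B hm (fun y hy => by
    obtain ⟨y', r, hr, h₄, e₁, e₂⟩ := (app_bN hb).1 (Finset.mem_filter.1 hy).2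
    obtain rfl : y = y' := Prod.ext (nat_inj e₁) (nat_inj e₂)
    exact ⟨r, hr, h₄⟩) hq₂
  refine ⟨q', h₃.trans h₂, k, u, u.finite_toSet, hB, fun x hx r hr y' hR => ?_⟩
  obtain ⟨g₂, hr', hC'⟩ := exists_gen r {w1N, EN, t, s, o d, o x, uN u} (toFinite _).countable
  have iw : w1N ∈ g₂.N := hC' (by simp)
  have ie : EN ∈ g₂.N := hC' (by simp)
  have is : s ∈ g₂.N := hC' (by simp)
  have id : o d ∈ g₂.N := hC' (by simp)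
  have ix : o x ∈ g₂.N := hC' (by simp)
  have iu : uN u ∈ g₂.N := hC' (by simp)
  have iq : q ∈ g₂.G := g₂.up hr' (hr.trans (h₃.trans h₂))
  have F₂ := h g₂ (g₂.up iq hq) iw ie (hC' (by simp)) is
  have I₂ : Inn g₂.E (g₂.v w1N) (g₂.v EN) (g₂.v s) (g₂.v (uN u)) (g₂.v (o d)) (g₂.nat n₀)
      (g₂.nat k) := T g₂ (g₂.up hr' (hr.trans (h₃.trans h₁)))
        (lcons iw (lcons ie (lcons is (l4 iu id (nN_mem n₀) (nN_mem k)))))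
  obtain ⟨j, c, a₁, a₂⟩ := I₂ _ (o_w1 iw ix) ((app_EN ie).2 ⟨d, x, q, iq, hd, hx, id, ix, rfl, rfl⟩)
  obtain ⟨y, hy, rfl, rfl⟩ := (app_uN iu).1 a₁
  have a₃ := hR g₂ hr' is (n3_mem.2 ⟨id, ix⟩) (ndN_mem _)
  rw [v_n3 k id ix, v_ndN] at a₃
  exact ⟨y, hy, Cd.inj (g := g₂) (F₂.2.2.1 _ _ _ a₃ (a33.1 a₂))⟩

theorem exists_ps (h : FF t s p₀) : ∃ q ≤ p₀, ∃ C : Set (Name PP), C.Countable ∧
    ∀ g' : Gen PP, q ∈ g'.G → C ⊆ g'.N → onN ∈ g'.N → piN ∈ g'.N → ceN ∈ g'.N → t ∈ g'.N →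
      s ∈ g'.N → Ps g'.E (g'.v onN) (g'.v piN) (g'.v ceN) (g'.v t) (g'.v s) := by
  obtain ⟨β, hG, H⟩ := exists_good p₀ (RR t s) (RR_mono t s) (tot_pi h) (tot_ce h) (cert h)
  obtain ⟨q, hq, hon⟩ := p₀.on_dense hG
  refine ⟨q, hq, {kN β}, countable_singleton _, fun g' hq' hC ho hp hc ht hs => ?_⟩
  have hβ : kN β ∈ g'.N := hC rfl
  refine ⟨g'.v (kN β), (E_onN ho).2 ⟨β, q, hq', hon, hβ, rfl⟩, fun u c hA => ?_, fun u c hA => ?_⟩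
  · obtain ⟨x, j, c, p, hp', hD, hx, rfl, rfl⟩ := (app_piN hp hβ).1 (a21.1 hA)
    rw [← v_n2 j hx, ← v_nN]
    refine dens_app ht (n2_mem.2 hx) (nN_mem c) fun r hr => ?_
    obtain ⟨r', -, h₁, h₂⟩ := g'.dir hr hp'
    obtain ⟨r'', h₃, hR⟩ := H _ p hD r' h₂
    exact ⟨r'', h₃.trans h₁, hR⟩
  · obtain ⟨d, k, x, y, p, hp', hD, hd, hx, rfl, rfl⟩ := (app_ceN hc hβ).1 (a21.1 hA)
    rw [← v_n3 k hd hx, ← v_ndN]
    refine dens_app hs (n3_mem.2 ⟨hd, hx⟩) (ndN_mem y) fun r hr => ?_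
    obtain ⟨r', -, h₁, h₂⟩ := g'.dir hr hp'
    obtain ⟨r'', h₃, hR⟩ := H _ p hD r' h₂
    exact ⟨r'', h₃.trans h₁, hR⟩

theorem fo_G {π : TT g → ℕ → ℕ} {a : TT g → ℕ → TT g → Nd} (H : GoodInt g (EbG g) a)
    {sp sa : g.M}
    (hp : ∀ u c, App g.E sp u c ↔ ∃ z : TT g × ℕ, True ∧ u = Cd.ι z ∧ c = Cd.ι (π z.1 z.2))
    (ha : ∀ u c, App g.E sa u c ↔
      ∃ z : TT g × ℕ × TT g, True ∧ u = Cd.ι z ∧ c = Cd.ι (a z.1 z.2.1 z.2.2)) :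
    Fo g.E (g.v w1N) g.om (g.v EN) sp sa := by
  refine ⟨fun x j hx hj => ?_, fun d k x hd hk hx => ?_, fun u y y' h₁ h₂ => ?_,
    fun d n b hd hn hb => ?_⟩
  · obtain ⟨j, rfl⟩ := E_om.1 hj
    exact ⟨_, nat_om (π ⟨x, hx⟩ j), a21.2 ((hp _ _).2 ⟨(⟨x, hx⟩, j), trivial, rfl, rfl⟩)⟩
  · obtain ⟨k, rfl⟩ := E_om.1 hk
    exact ⟨_, _, _, nat_om (a ⟨d, hd⟩ k ⟨x, hx⟩).1, nat_om (a ⟨d, hd⟩ k ⟨x, hx⟩).2.1,
      nat_om (a ⟨d, hd⟩ k ⟨x, hx⟩).2.2,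
      a33.2 ((ha _ _).2 ⟨(⟨d, hd⟩, k, ⟨x, hx⟩), trivial, rfl, rfl⟩)⟩
  · obtain ⟨z, -, e₁, rfl⟩ := (ha _ _).1 h₁
    obtain ⟨z', -, e₂, rfl⟩ := (ha _ _).1 h₂
    rw [Cd.inj (g := g) (e₁.symm.trans e₂)]
  · obtain ⟨n, rfl⟩ := E_om.1 hn
    obtain ⟨k, m, K⟩ := H ⟨d, hd⟩ n (fun y => App g.E b (g.nat y.1) (g.nat y.2)) (by fun_prop)
      fun j => by
        obtain ⟨j', c, hj', hc, h₁, h₂⟩ := hb _ (nat_om j)
        obtain ⟨j', rfl⟩ := E_om.1 hj'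
        obtain ⟨c, rfl⟩ := E_om.1 hc
        exact ⟨(j', c), not_lt.1 fun e => h₁ (nat_lt.2 e), h₂⟩
    refine ⟨_, _, nat_om k, nat_om m, fun x hx hA => ?_⟩
    obtain ⟨e, h₁, h₂, h₃⟩ := K ⟨x, hx⟩ hA
    refine ⟨_, _, nat_lt.2 h₂, nat_lt.2 h₃, h₁, a33.2 ?_⟩
    rw [← e]
    exact (ha _ _).2 ⟨(⟨d, hd⟩, k, ⟨x, hx⟩), trivial, rfl, rfl⟩

end GGoodX

open GGoodX

/-- Good data of the generic model are handled at an active coordinate of the model. -/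
theorem good_G (h : baseN ⊆ g.N) (π : TT g → ℕ → ℕ) (a : TT g → ℕ → TT g → Nd)
    (hπ : g.Tm fun z : TT g × ℕ => π z.1 z.2)
    (ha : g.Tm fun z : TT g × ℕ × TT g => a z.1 z.2.1 z.2.2) (H : GoodInt g (EbG g) a) :
    ∃ β, kN β ∈ g.N ∧ (∃ p ∈ g.G, (β, Atom.on) ∈ p.1.f) ∧
      (∀ p ∈ g.G, ∀ x x' j c, Rep g x x' → Dec β (bk β) p.1 (.pi x j c) → π x' j = c) ∧
      ∀ p ∈ g.G, ∀ d d' k x x' t, Rep g d d' → Rep g x x' → Dec β (bk β) p.1 (.ce d k x t) →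
        a d' k x' = t := by
  obtain ⟨sp, -, hp⟩ := exists_graph Df.true hπ
  obtain ⟨sa, -, hs⟩ := exists_graph Df.true ha
  obtain ⟨tp, htp, rfl⟩ := exists_v sp
  obtain ⟨ta, hta, rfl⟩ := exists_v sa
  have hw : w1N ∈ g.N := h (by simp [baseN])
  have he : EN ∈ g.N := h (by simp [baseN])
  have ho : onN ∈ g.N := h (by simp [baseN])
  have hi : piN ∈ g.N := h (by simp [baseN])
  have hc : ceN ∈ g.N := h (by simp [baseN])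
  obtain ⟨p₀, hp₀, T⟩ := transfer uFo (lcons hw (l4 omN_mem he htp hta)) (fo_G H hp hs)
  have K : Ps g.E (g.v onN) (g.v piN) (g.v ceN) (g.v tp) (g.v ta) := by
    refine dens uPs (lcons ho (l4 hi hc htp hta)) fun p hp' => ?_
    obtain ⟨q₀, -, h₁, h₂⟩ := g.dir hp' hp₀
    obtain ⟨q, hq, C, hC, K⟩ := exists_ps (t := tp) (s := ta) (p₀ := q₀)
      fun g' hg b₁ b₂ b₃ b₄ => T g' (g'.up hg h₂) (lcons b₁ (l4 omN_mem b₂ b₃ b₄))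
    exact ⟨q, hq.trans h₁, C, hC, fun g' hg hC' hl => K g' hg hC' (hl _ (by simp)) (hl _ (by simp))
      (hl _ (by simp)) (hl _ (by simp)) (hl _ (by simp))⟩
  obtain ⟨b, hb, K₁, K₂⟩ := K
  obtain ⟨β, p, hp', hon, hβ, rfl⟩ := (E_onN ho).1 hb
  refine ⟨β, hβ, ⟨p, hp', hon⟩, fun r hr x x' j c hx hD => ?_,
    fun r hr d d' k x x' y hd hx hD => ?_⟩
  · obtain ⟨z, -, e₁, e₂⟩ := (hp _ _).1 (K₁ _ _ (a21.2 ((app_piN hi hβ).2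
      ⟨x, j, c, r, hr, hD, hx.1, rfl, rfl⟩)))
    rw [hx.2] at e₁
    obtain rfl : (x', j) = z := Cd.inj (g := g) e₁
    exact (nat_inj e₂).symm
  · obtain ⟨z, -, e₁, e₂⟩ := (hs _ _).1 (K₂ _ _ (a21.2 ((app_ceN hc hβ).2
      ⟨d, k, x, y, r, hr, hD, hd.1, hx.1, rfl, rfl⟩)))
    rw [hd.2, hx.2] at e₁
    obtain rfl : (d', k, x') = z := Cd.inj (g := g) e₁
    exact (Cd.inj (g := g) e₂).symm

end Pool.Agent.MP_2e2931_gt.Gap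

end

section

namespace Pool.Agent.MP_2e2931_gt.Gap

open Pool.Agent.MP_c6cf52_lc Pool.Agent.MP_c6cf52_lc.Name Pool.Agent.MP_c6cf52_lc.Gen Set

variable {g : Gen PP}

theorem gthree_val (h : valN ∈ g.N) {β : K} (hβ : kN β ∈ g.N) {p₀ : PP} (hp₀ : p₀ ∈ g.G)
    (ho : (β, Atom.on) ∈ p₀.1.f) {z : W} (hz : o z ∈ g.N) :
    ∃ a p, p ∈ g.G ∧ (β, Atom.val z a) ∈ p.1.f := by
  have hs : pairN (kN β) (o z) ∈ g.N := pairN_mem_iff.2 ⟨hβ, hz⟩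
  have H : ∃ b, App g.E (g.v valN) (g.v (pairN (kN β) (o z))) b := by
    refine dens (Ψ := fun _ E w => ∃ b, App E (w 0) (w 1) b) (UDef.ex (UDef.app _ _ _))
      (l2 h hs) fun p hp => ?_
    obtain ⟨q, -, h₁, h₂⟩ := g.dir hp hp₀
    obtain ⟨t, ht, a, ha⟩ := PP.val_dense q (PP.sub h₂ ho) z
    refine ⟨t, ht.trans h₁, ∅, countable_empty, fun g' ht' _ hl => ⟨g'.nat a, ?_⟩⟩
    have h' : valN ∈ g'.N := hl _ (by simp)
    obtain ⟨hβ', hz'⟩ := pairN_mem_iff.1 (hl _ (by simp) : pairN (kN β) (o z) ∈ g'.N)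
    show App g'.E (g'.v valN) (g'.v (pairN (kN β) (o z))) (g'.nat a)
    rw [v_pairN hβ' hz']
    exact (app_valN h' hβ' hz').2 ⟨a, t, ht', ha, rfl⟩
  obtain ⟨b, hb⟩ := H
  rw [v_pairN hβ hz] at hb
  obtain ⟨a, p, hp, ha, -⟩ := (app_valN h hβ hz).1 hb
  exact ⟨a, p, hp, ha⟩

theorem gthree_bd (h : bdN ∈ g.N) {β : K} (hβ : kN β ∈ g.N) {p₀ : PP} (hp₀ : p₀ ∈ g.G)
    (ho : (β, Atom.on) ∈ p₀.1.f) {d : W} (hd : o d ∈ g.N) (m : ℕ) :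
    ∃ p, p ∈ g.G ∧ (β, Atom.bd d m) ∈ p.1.f := by
  have hs : pairN (kN β) (o d) ∈ g.N := pairN_mem_iff.2 ⟨hβ, hd⟩
  have H : App g.E (g.v bdN) (g.v (pairN (kN β) (o d))) (g.v (nN m)) := by
    refine dens (Ψ := fun _ E w => App E (w 0) (w 1) (w 2)) (UDef.app _ _ _)
      (l3 h hs (nN_mem m)) fun p hp => ?_
    obtain ⟨q, -, h₁, h₂⟩ := g.dir hp hp₀
    obtain ⟨t, ht, ha⟩ := PP.bd_dense q (PP.sub h₂ ho) d m
    refine ⟨t, ht.trans h₁, ∅, countable_empty, fun g' ht' _ hl => ?_⟩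
    have h' : bdN ∈ g'.N := hl _ (by simp)
    obtain ⟨hβ', hd'⟩ := pairN_mem_iff.1 (hl _ (by simp) : pairN (kN β) (o d) ∈ g'.N)
    show App g'.E (g'.v bdN) (g'.v (pairN (kN β) (o d))) (g'.v (nN m))
    rw [v_pairN hβ' hd']
    exact (app_bdN h' hβ' hd').2 ⟨m, t, ht', ha, rfl⟩
  rw [v_pairN hβ hd] at H
  obtain ⟨m', p, hp, ha, e⟩ := (app_bdN h hβ hd).1 H
  obtain rfl : m = m' := nat_inj e
  exact ⟨p, hp, ha⟩

theorem gthree_ev (h : valN ∈ g.N) {β : K} (hβ : kN β ∈ g.N) {z : W} {x : TT g}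
    (hx : Rep g z x) {p : PP} (hp : p ∈ g.G) {a : ℕ} (ha : (β, Atom.val z a) ∈ p.1.f) :
    ev g.M ℕ (g.v valN) (pr (g.v (kN β)) x.1) = a := by
  refine ev_eq fun b => ?_
  rw [ι_M, ← hx.2, app_valN h hβ hx.1]
  constructor
  · rintro ⟨a', q, hq, ha', e⟩
    obtain ⟨r, -, h₁, h₂⟩ := g.dir hp hq
    have e' : b = a' := nat_inj e
    rw [e']
    exact ((r.2 (Order.succ β)).loc (Order.lt_succ β)).fn z a' a (PP.sub h₂ ha') (PP.sub h₁ ha)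
  · rintro rfl
    exact ⟨b, p, hp, ha, rfl⟩

theorem three_G (h : baseN ⊆ g.N) (π : TT g → ℕ → ℕ) (a : TT g → ℕ → TT g → Nd)
    (hπ : g.Tm fun z : TT g × ℕ => π z.1 z.2)
    (ha : g.Tm fun z : TT g × ℕ × TT g => a z.1 z.2.1 z.2.2) (H : GoodInt g (EbG g) a) :
    ∃ φ : TT g → ℕ, g.Tm φ ∧ ∀ d v, ∃ (Fn : Set (TT g)) (Cs : Set Nd)
      (D : Nd → Set (Nd × ℕ)), Fn.Finite ∧ Cs.Finite ∧
      (∀ x, EbG g d x → φ x ≤ v → x ∈ Fn ∨ ∃ t ∈ Cs, InU π a d t (D t) x) ∧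
      ∀ t ∈ Cs, ∀ t' ∈ Cs, t ≠ t' → ∃ m, (t', m) ∈ D t ∨ (t, m) ∈ D t' := by
  obtain ⟨β, hβ, ⟨p₀, hp₀, ho⟩, h₁, h₂⟩ := good_G h π a hπ ha H
  have hw : w1N ∈ g.N := h (by simp [baseN])
  have hv : valN ∈ g.N := h (by simp [baseN])
  have hb : bdN ∈ g.N := h (by simp [baseN])
  refine ⟨fun x => ev g.M ℕ (g.v valN) (pr (g.v (kN β)) x.1), by fun_prop, fun d v => ?_⟩
  obtain ⟨d₀, hd⟩ := exists_rep hw d
  obtain ⟨p, hp, hbd⟩ := gthree_bd hb hβ hp₀ ho hd.1 (v + 1)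
  have hV := p.2 (Order.succ β)
  have hl := hV.loc (Order.lt_succ β)
  have hlt : d₀ < p.1.ht := hl.pos _ hbd
  refine ⟨⋃ y ∈ p.1.f, {x | ∃ z c, Rep g z x ∧ y = (β, Atom.val z c)},
    ⋃ y ∈ p.1.f, {t | ∃ m, y = (β, Atom.cl d₀ t m)}, code p.1 β d₀, ?_, ?_, ?_, ?_⟩
  · refine hV.fin.biUnion fun y _ => Set.Subsingleton.finite ?_
    rintro x ⟨z, c, hx, rfl⟩ x' ⟨z', c', hx', e⟩
    exact (hx.inj hx').2 (Atom.val.inj (Prod.ext_iff.1 e).2).1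
  · refine hV.fin.biUnion fun y _ => Set.Subsingleton.finite ?_
    rintro t ⟨m, rfl⟩ t' ⟨m', e⟩
    exact (Atom.cl.inj (Prod.ext_iff.1 e).2).2.1
  · intro x hx hφ
    obtain ⟨z, hz⟩ := exists_rep hw x
    obtain ⟨c, q, hq, hc⟩ := gthree_val hv hβ hp₀ ho hz.1
    have hcv : c ≤ v := by
      rw [← gthree_ev hv hβ hz hq hc]
      exact hφ
    by_cases hF : (β, Atom.val z c) ∈ p.1.f
    · exact Or.inl (mem_iUnion₂.2 ⟨_, hF, z, c, hz, rfl⟩)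
    · obtain ⟨r, hr, r₁, r₂⟩ := g.dir hp hq
      rcases ((r₁ (Order.succ β)).loc (Order.lt_succ β)).val z c d₀ (v + 1) (PP.sub r₂ hc) hF
        hbd hlt ((ebG_iff h hp hd hz hlt).1 hx) with h₃ | ⟨t, m, ht, -, hU⟩
      · omega
      · obtain ⟨u₁, u₂, u₃⟩ := Uc_def.1 hU
        refine Or.inr ⟨t, mem_iUnion₂.2 ⟨_, ht, m, rfl⟩, h₁ r hr _ _ _ _ hz u₁,
          h₁ r hr _ _ _ _ hz u₂, fun y hy => ?_⟩
        obtain ⟨k, hk, u₄⟩ := u₃ y hy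
        exact ⟨k, hk, h₂ r hr _ _ _ _ _ _ hd hz u₄⟩
  · intro t ht t' ht' hne
    obtain ⟨_, e₁, m, rfl⟩ := mem_iUnion₂.1 ht
    obtain ⟨_, e₂, m', rfl⟩ := mem_iUnion₂.1 ht'
    exact hl.sep d₀ t m t' m' e₁ e₂ hne

end Pool.Agent.MP_2e2931_gt.Gap

end

section

namespace Pool.Agent.MP_2e2931_gt.Gap

open Pool.Agent.MP_c6cf52_lc Pool.Agent.MP_c6cf52_lc.Name Pool.Agent.MP_c6cf52_lc.Gen Set

theorem final : ∃ (M : Type 2) (E : M → M → Prop), IsZFC E ∧ ∃ w X S, IsOmega E w ∧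
    IsTop E X S ∧
    (∃ K T Y, IsCpt E w X S K T Y ∧ InF E w K T 2 Y ∧ ∀ m < 2, ¬ InF E w K T m Y) ∧
    (∃ K T Y, IsCpt E w X S K T Y ∧ Susl E w K T Y ∧ ∀ m ≤ 3, ¬ InF E w K T m Y) ∧
    ∀ K T Y, IsCpt E w X S K T Y → InF E w K T 3 Y → InF E w K T 2 Y := by
  obtain ⟨g, -, h⟩ := exists_gen (⊤ : PP) baseN (by unfold baseN; exact (toFinite _).countable)
  obtain ⟨en, h₁, h₂⟩ := en_G h
  let Cb : Comb g (g.v w1N) :=
    ⟨EbG g, sgG g, en, tm_EbG, tm_sgG, h₁, ad_G h, wf_G h, h₂, two_G h, three_G h⟩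
  obtain ⟨X, S, H⟩ := top_main Cb
  exact ⟨g.M, g.E, isZFC g, g.om, X, S, isOmega_om, H⟩

end Pool.Agent.MP_2e2931_gt.Gap

end
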